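import Pool.Agent.Lib.MP_f0744f_nt.D.Defs

/-! # Row B0: first lemmas -/

set_option autoImplicit false

open Polynomial

namespace F0744D

open F0744C

variable {S : Finset ℤ} {a : ℤ} {f : PM S a 2} {A : AbsoluteValue ℚ ℝ} {R m θ : ℝ} {cl : ℤ → Bool}

/-- `F = α X ^ 2 + β X + γ` (`Polynomial.eval_eq_sum_range`), `sr F = - β / α`, `α = F.coeff 2 ≠ 0`. -/
theorem fdiff {F : ℚ[X]} (hF : F.natDegree = 2) (x y : ℚ) :
    F.eval x - F.eval y = F.leadingCoeff * (x - y) * (x + y - sr F) := by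
  have h2 : F.leadingCoeff = F.coeff 2 := by rw [leadingCoeff, hF]
  have h0 : F.coeff 2 ≠ 0 := by
    rw [← h2]
    intro h
    rw [leadingCoeff_eq_zero] at h
    rw [h, natDegree_zero] at hF
    omega
  have hx : ∀ z : ℚ, F.eval z = F.coeff 0 + F.coeff 1 * z + F.coeff 2 * z ^ 2 := by
    intro z
    rw [eval_eq_sum_range, hF]
    simp [Finset.sum_range_succ]
  rw [hx x, hx y, sr, h2]
  field_simp
  ring

/-- `fdiff` with `y = sr F - x`. -/
theorem fsym {F : ℚ[X]} (hF : F.natDegree = 2) (x : ℚ) : F.eval (sr F - x) = F.eval x := by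
  have h := fdiff hF (sr F - x) x
  have h1 : F.leadingCoeff * (sr F - x - x) * (sr F - x + x - sr F) = 0 := by ring
  rw [h1] at h
  linarith

/-- `meq`: `log (A α) + (2 - 1) log R = m`, `α ≠ 0`. -/
theorem TP.lead (h : TP f A R m θ cl) : A f.F.leadingCoeff = Real.exp m / R := by
  have hR : 0 < R := lt_of_lt_of_le one_pos h.R1
  have hne : f.F.leadingCoeff ≠ 0 := by
    intro h0
    rw [leadingCoeff_eq_zero] at h0
    have h1 := f.deg
    rw [h0, natDegree_zero] at h1
    omega
  have hpos : 0 < A f.F.leadingCoeff := A.pos hne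
  have hm := h.meq
  unfold mm at hm
  push_cast at hm
  have h2 : Real.log (A f.F.leadingCoeff) = m - Real.log R := by linarith
  rw [← Real.exp_log hpos, h2, Real.exp_sub, Real.exp_log hR]

/-- `Dm_succ` iterated: the first `J` iterates of `x ∈ Dm J` are in `S \ {a}`. -/
theorem iter_mem {ph : ℤ → ℤ} {J : ℕ} {x : ℤ} (hx : x ∈ Dm S a ph J) {i : ℕ} (hi : i < J) :
    ph^[i] x ∈ S ∧ ph^[i] x ≠ a := by
  induction J generalizing x i with
  | zero => omega
  | succ J ih =>
    obtain ⟨h1, h2, h3⟩ := Dm_succ hx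
    cases i with
    | zero => exact ⟨h1, h2⟩
    | succ i =>
      rw [Function.iterate_succ_apply]
      exact ih h3 (by omega)

/-- `iter_mem`: the iterate `ph^[i] x` of `x ∈ Dm (i + J)` is in `Dm J`. -/
theorem iter_Dm {ph : ℤ → ℤ} {J i : ℕ} {x : ℤ} (hx : x ∈ Dm S a ph (i + J)) :
    ph^[i] x ∈ Dm S a ph J := by
  induction i generalizing x with
  | zero => simpa using hx
  | succ i ih =>
    rw [Nat.add_right_comm] at hx
    obtain ⟨-, -, h3⟩ := Dm_succ hx
    rw [Function.iterate_succ_apply]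
    exact ih h3

/-- the three inequalities used everywhere: a number of size at most `C R exp (- (1 - θ) m)` is smaller
than `R exp (- θ m)` if `log C < (1 - 2 θ) m`. -/
theorem small_lt {C x y : ℝ} (hR : 0 < R) (hC : 0 < C) (hx : x ≤ C * R * Real.exp (-((1 - θ) * m)))
    (hy : R * Real.exp (-(θ * m)) ≤ y) (h : Real.log C < (1 - 2 * θ) * m) : x < y := by
  have h1 : C < Real.exp ((1 - 2 * θ) * m) := by
    rw [← Real.exp_log hC]
    exact Real.exp_lt_exp.2 h
  have h2 : Real.exp ((1 - 2 * θ) * m) * Real.exp (-((1 - θ) * m)) = Real.exp (-(θ * m)) := by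
    rw [← Real.exp_add]
    congr 1
    ring
  have h3 : C * Real.exp (-((1 - θ) * m)) < Real.exp (-(θ * m)) := by
    rw [← h2]
    exact mul_lt_mul_of_pos_right h1 (Real.exp_pos _)
  calc x ≤ C * R * Real.exp (-((1 - θ) * m)) := hx
    _ = R * (C * Real.exp (-((1 - θ) * m))) := by ring
    _ < R * Real.exp (-(θ * m)) := mul_lt_mul_of_pos_left h3 hR
    _ ≤ y := hy

end F0744D
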