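import Pool.Agent.Lib.MP_f0744f_nt.D.Defs
import Pool.Agent.Lib.MP_f0744f_nt.D.B0

/-! # Row B1: first properties of good places -/

set_option autoImplicit false

open Polynomial

namespace F0744D

open F0744C

variable {S : Finset ℤ} {a : ℤ} {f : PM S a 2} {A : AbsoluteValue ℚ ℝ} {R m θ : ℝ} {cl : ℤ → Bool}

/-- the value of `A` at a difference of values -/
theorem B1_mul (h : TP f A R m θ cl) {x y : ℤ} (hx : x ∈ S) (hy : y ∈ S) (hxa : x ≠ a) (hya : y ≠ a) :
    A ((f.ph x : ℚ) - f.ph y) =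
      Real.exp m / R * A ((x : ℚ) - y) * A ((x : ℚ) + y - sr f.F) := by
  rw [f.val x hx hxa, f.val y hy hya, fdiff f.deg, map_mul, map_mul, h.lead]

/-- two points of `S` -/
theorem B1_two (h : TP f A R m θ cl) {x y : ℤ} (hx : x ∈ S) (hy : y ∈ S) :
    A ((x : ℚ) - y) ≤ 2 * R := by
  have h1 := A.add_le (x : ℚ) (-(y : ℚ))
  rw [← sub_eq_add_neg, A.map_neg] at h1
  linarith [h.bd x hx, h.bd y hy]

/-- the common step -/
theorem B1_step (h : TP f A R m θ cl) {u v : ℝ} (hu : 0 ≤ u) (hv : R * Real.exp (-(θ * m)) ≤ v)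
    (huv : Real.exp m / R * u * v ≤ 2 * R) : u ≤ 2 * R * Real.exp (-((1 - θ) * m)) := by
  have hR : 0 < R := lt_of_lt_of_le one_pos h.R1
  have h1 : u * Real.exp ((1 - θ) * m) ≤ 2 * R := by
    refine le_trans ?_ huv
    have h2 : Real.exp m / R * u * (R * Real.exp (-(θ * m))) ≤ Real.exp m / R * u * v :=
      mul_le_mul_of_nonneg_left hv (by positivity)
    refine le_trans (le_of_eq ?_) h2
    have h3 : Real.exp ((1 - θ) * m) = Real.exp m * Real.exp (-(θ * m)) := by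
      rw [← Real.exp_add]
      congr 1
      ring
    rw [h3]
    field_simp
  rw [Real.exp_neg, ← div_eq_mul_inv, le_div_iff₀ (Real.exp_pos _)]
  exact h1

/-- `A (F x - F y) ≤ 2 R` (`f.maps`, `f.val`, `bd`), `fdiff`, `lead`, `same`:
`A (x - y) ≤ 2 R / ((exp m / R) * (R exp (- θ m)))`. -/
theorem TP.close (h : TP f A R m θ cl) {x y : ℤ} (hx : x ∈ S) (hy : y ∈ S) (hxa : x ≠ a)
    (hya : y ≠ a) (hc : cl x = cl y) :
    A ((x : ℚ) - y) ≤ 2 * R * Real.exp (-((1 - θ) * m)) := by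
  have h1 := B1_two h (f.maps x hx hxa) (f.maps y hy hya)
  rw [B1_mul h hx hy hxa hya] at h1
  exact B1_step h (A.nonneg _) (h.same x hx y hy hxa hya hc) h1

/-- the same with `diff`: `A (x + y - sr) ≤ 2 R / ((exp m / R) * (R exp (- θ m)))`. -/
theorem TP.opp (h : TP f A R m θ cl) {x y : ℤ} (hx : x ∈ S) (hy : y ∈ S) (hxa : x ≠ a)
    (hya : y ≠ a) (hc : cl x ≠ cl y) :
    A ((x : ℚ) + y - sr f.F) ≤ 2 * R * Real.exp (-((1 - θ) * m)) := by
  have h1 := B1_two h (f.maps x hx hxa) (f.maps y hy hya)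
  rw [B1_mul h hx hy hxa hya, mul_right_comm] at h1
  exact B1_step h (A.nonneg _) (h.diff x hx y hy hxa hya hc) h1

/-- `fdiff`, `lead`: `log A (F x - F y) = m - log R + log A (x - y) + log A (x + y - sr)` (all arguments
positive: `x ≠ y`, `same`), so `uu x y = uu (F x) (F y) + m - (log R - log A (x + y - sr))`, and
`log R - log A (x + y - sr) ≤ θ m` by `same`. -/
theorem TP.uu_same (h : TP f A R m θ cl) {x y : ℤ} (hx : x ∈ S) (hy : y ∈ S) (hxa : x ≠ a)
    (hya : y ≠ a) (hne : x ≠ y) (hc : cl x = cl y) :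
    (1 - θ) * m + uu A R (f.ph x) (f.ph y) ≤ uu A R x y := by
  have hR : 0 < R := lt_of_lt_of_le one_pos h.R1
  have hs := h.same x hx y hy hxa hya hc
  have h0 : 0 < R * Real.exp (-(θ * m)) := mul_pos hR (Real.exp_pos _)
  have hv : 0 < A ((x : ℚ) + y - sr f.F) := h0.trans_le hs
  have hu : 0 < A ((x : ℚ) - y) := A.pos (sub_ne_zero.2 (by exact_mod_cast hne))
  have hl := Real.log_le_log h0 hs
  rw [Real.log_mul hR.ne' (Real.exp_pos _).ne', Real.log_exp] at hl
  unfold uu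
  rw [B1_mul h hx hy hxa hya,
    Real.log_mul (mul_pos (div_pos (Real.exp_pos _) hR) hu).ne' hv.ne',
    Real.log_mul (div_pos (Real.exp_pos _) hR).ne' hu.ne', Real.log_div (Real.exp_pos _).ne' hR.ne',
    Real.log_exp]
  linarith

/-- `A (x - y) ≤ 2 R`, `log 2 ≤ log 4 ≤ θ m`. -/
theorem TP.uu_any (h : TP f A R m θ cl) {x y : ℤ} (hx : x ∈ S) (hy : y ∈ S) (hne : x ≠ y) :
    -(θ * m) ≤ uu A R x y := by
  have hR : 0 < R := lt_of_lt_of_le one_pos h.R1
  have hu : 0 < A ((x : ℚ) - y) := A.pos (sub_ne_zero.2 (by exact_mod_cast hne))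
  have hl := Real.log_le_log hu (B1_two h hx hy)
  rw [Real.log_mul two_ne_zero hR.ne'] at hl
  have h4 := h.four
  have h24 : Real.log 2 ≤ Real.log 4 := Real.log_le_log (by norm_num) (by norm_num)
  unfold uu
  linarith

end F0744D
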