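import Pool.Agent.Lib.MP_f0744f_nt.D.Defs

/-! # Row C0: real arithmetic of the splitting -/

set_option autoImplicit false

open Polynomial

namespace F0744D

open F0744C

/-- Real arithmetic. With `u0 + u1 = t`, `X i` the energy of the image of the part `i`. From `h`, `h0`, `h1`:
`(2 - 5 ξ) (u0 ^ 2 + u1 ^ 2) ≤ (1 + 5 ξ) t ^ 2`, so `(u0 - u1) ^ 2 = 2 (u0 ^ 2 + u1 ^ 2) - t ^ 2` is at most a small
multiple of `t ^ 2`; hence both `u i ≥ t / 3`, `u i` is close to `t / 2` and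
`X0 ≤ (1 + ξ) t ^ 2 m - (1 - ξ) m (u0 ^ 2 + u1 ^ 2) + ξ m t ^ 2 - X1` is close to at most `u0 ^ 2 m`. Choose `ξ` small
(for instance `ξ = (min η1 1) ^ 2 / 10000`). -/
theorem split_arith {η1 : ℝ} (hη : 0 < η1) : ∃ ξ : ℝ, 0 < ξ ∧ ξ ≤ 1 / 4 ∧ ∀ t u0 u1 m X0 X1 : ℝ,
    0 < t → 0 < m → 0 ≤ u0 → 0 ≤ u1 → u0 + u1 = t →
    (1 - ξ) * (u0 ^ 2 + u1 ^ 2) * m + X0 + X1 - ξ * t ^ 2 * m ≤ (1 + ξ) * t ^ 2 * m →
    (1 - ξ) * u0 ^ 2 * m - ξ * t ^ 2 * m ≤ X0 → (1 - ξ) * u1 ^ 2 * m - ξ * t ^ 2 * m ≤ X1 →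
    t ≤ 3 * u0 ∧ t ≤ 3 * u1 ∧ X0 ≤ (1 + η1) * u0 ^ 2 * m ∧ X1 ≤ (1 + η1) * u1 ^ 2 * m := by
  refine ⟨min (η1 / 45) (1 / 63), lt_min (by positivity) (by norm_num), ?_, ?_⟩
  · exact (min_le_right _ _).trans (by norm_num)
  intro t u0 u1 m X0 X1 ht hm hu0 hu1 hsum h h0 h1
  set ξ : ℝ := min (η1 / 45) (1 / 63) with hξ
  have hξ1 : ξ ≤ η1 / 45 := min_le_left _ _
  have hξ2 : ξ ≤ 1 / 63 := min_le_right _ _
  have hξ0 : 0 < ξ := lt_min (by positivity) (by norm_num)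
  have ht2 : 0 < t ^ 2 := by positivity
  have hd : (1 - ξ) * (u0 - u1) ^ 2 ≤ 5 * ξ * t ^ 2 := by
    have h2 : ((1 - ξ) * (2 * (u0 ^ 2 + u1 ^ 2)) - (1 + 4 * ξ) * t ^ 2) * m ≤ 0 := by linarith
    have h3 : (1 - ξ) * (2 * (u0 ^ 2 + u1 ^ 2)) - (1 + 4 * ξ) * t ^ 2 ≤ 0 := by
      by_contra hcon
      have := mul_pos (not_le.mp hcon) hm
      linarith
    have h4 : 2 * (u0 ^ 2 + u1 ^ 2) = (u0 - u1) ^ 2 + t ^ 2 := by rw [← hsum]; ring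
    rw [h4] at h3
    linarith
  have hd2 : (u0 - u1) ^ 2 ≤ t ^ 2 / 9 := by
    have h5 : (62 / 63 : ℝ) * (u0 - u1) ^ 2 ≤ (1 - ξ) * (u0 - u1) ^ 2 :=
      mul_le_mul_of_nonneg_right (by linarith) (sq_nonneg _)
    have h6 : 5 * ξ * t ^ 2 ≤ 5 / 63 * t ^ 2 := mul_le_mul_of_nonneg_right (by linarith) ht2.le
    linarith
  have habs : |u0 - u1| ≤ t / 3 := by
    apply abs_le_of_sq_le_sq _ (by positivity)
    calc (u0 - u1) ^ 2 ≤ t ^ 2 / 9 := hd2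
      _ = (t / 3) ^ 2 := by ring
  obtain ⟨ha1, ha2⟩ := abs_le.mp habs
  have hu0' : t ≤ 3 * u0 := by linarith
  have hu1' : t ≤ 3 * u1 := by linarith
  have key : ∀ a b : ℝ, 0 ≤ a → 0 ≤ b → a + b = t → t ≤ 3 * a →
      (1 + 3 * ξ) * t ^ 2 - (1 - ξ) * (a ^ 2 + 2 * b ^ 2) ≤ (1 + η1) * a ^ 2 := by
    intro a b ha hb hab hta
    have e1 : (1 + 3 * ξ) * t ^ 2 - (1 - ξ) * (a ^ 2 + 2 * b ^ 2) - a ^ 2
        = -(a - b) ^ 2 + ξ * (3 * t ^ 2 + a ^ 2 + 2 * b ^ 2) := by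
      rw [← hab]; ring
    have e2 : a ^ 2 + 2 * b ^ 2 ≤ 2 * t ^ 2 := by
      rw [← hab]
      nlinarith [mul_nonneg ha hb]
    have e3 : ξ * (3 * t ^ 2 + a ^ 2 + 2 * b ^ 2) ≤ η1 / 45 * (5 * t ^ 2) :=
      mul_le_mul hξ1 (by linarith) (by positivity) (by positivity)
    have e4 : t ^ 2 ≤ 9 * a ^ 2 := by
      have := pow_le_pow_left₀ ht.le hta 2
      linarith
    have e5 : η1 / 45 * (5 * t ^ 2) ≤ η1 * a ^ 2 := by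
      have := mul_le_mul_of_nonneg_left e4 hη.le
      linarith
    have e6 := sq_nonneg (a - b)
    linarith
  refine ⟨hu0', hu1', ?_, ?_⟩
  · have k1 := mul_le_mul_of_nonneg_right (key u0 u1 hu0 hu1 hsum hu0') hm.le
    linarith
  · have k1 := mul_le_mul_of_nonneg_right (key u1 u0 hu1 hu0 (by linarith) hu1') hm.le
    linarith

end F0744D
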