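import Pool.Agent.Lib.MP_f0744f_nt.D.B1
import Pool.Agent.Lib.MP_f0744f_nt.D.C0

/-! # Row C1: a set of small energy splits evenly -/

set_option autoImplicit false

open Polynomial

namespace F0744D

open F0744C

/-- the energy of an image under an injective map -/
theorem C1_image (A : AbsoluteValue ℚ ℝ) (R : ℝ) (T : Finset ℤ) (ph : ℤ → ℤ)
    (hinj : ∀ x ∈ T, ∀ y ∈ T, ph x = ph y → x = y) :
    En A R (T.image ph) = ∑ x ∈ T, ∑ y ∈ T.erase x, uu A R (ph x) (ph y) := by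
  unfold En
  rw [Finset.sum_image (fun x hx y hy h => hinj x hx y hy h)]
  refine Finset.sum_congr rfl ?_
  intro x hx
  have h1 : (T.image ph).erase (ph x) = (T.erase x).image ph := by
    ext z
    simp only [Finset.mem_erase, Finset.mem_image]
    constructor
    · rintro ⟨hz, y, hy, rfl⟩
      exact ⟨y, ⟨fun h => hz (by rw [h]), hy⟩, rfl⟩
    · rintro ⟨y, ⟨hyx, hy⟩, rfl⟩
      exact ⟨fun h => hyx (hinj y hy x hx h), y, hy, rfl⟩
  rw [h1, Finset.sum_image]
  intro y hy z hz h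
  exact hinj y (Finset.mem_of_mem_erase hy) z (Finset.mem_of_mem_erase hz) h

/-- one class -/
theorem C1_class {S : Finset ℤ} {a : ℤ} {f : PM S a 2} {A : AbsoluteValue ℚ ℝ} {R m θ : ℝ}
    {cl : ℤ → Bool} (h : TP f A R m θ cl) {T : Finset ℤ} (hT : ∀ x ∈ T, x ∈ S ∧ x ≠ a) (c : Bool) :
    ((T.filter (fun x => cl x = c)).card : ℝ) * (((T.filter (fun x => cl x = c)).card : ℝ) - 1) *
        ((1 - θ) * m) + En A R ((T.filter (fun x => cl x = c)).image f.ph) -
      ((T.filter (fun x => cl x = c)).card : ℝ) * ((T.filter (fun x => cl x = !c)).card : ℝ) *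
        (θ * m) ≤
    ∑ x ∈ T.filter (fun x => cl x = c), ∑ y ∈ T.erase x, uu A R x y := by
  set U := T.filter (fun x => cl x = c) with hU
  set V := T.filter (fun x => cl x = !c) with hV
  have hUm : ∀ x ∈ U, x ∈ T ∧ cl x = c := fun x hx => Finset.mem_filter.1 hx
  have hVm : ∀ x ∈ V, x ∈ T ∧ cl x = !c := fun x hx => Finset.mem_filter.1 hx
  rw [C1_image A R U f.ph (fun x hx y hy hxy => f.inj x (hT x (hUm x hx).1).1 y
    (hT y (hUm y hy).1).1 (hT x (hUm x hx).1).2 (hT y (hUm y hy).1).2 hxy)]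
  have hpt : ∀ x ∈ U, ((U.card : ℝ) - 1) * ((1 - θ) * m) +
      ∑ y ∈ U.erase x, uu A R (f.ph x) (f.ph y) - (V.card : ℝ) * (θ * m) ≤
      ∑ y ∈ T.erase x, uu A R x y := by
    intro x hx
    have hdis : Disjoint (U.erase x) V := by
      rw [Finset.disjoint_left]
      intro y hy hy'
      have h1 := (hUm y (Finset.mem_of_mem_erase hy)).2
      have h2 := (hVm y hy').2
      rw [h1] at h2
      cases c <;> simp at h2
    have hun : T.erase x = U.erase x ∪ V := by
      ext y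
      simp only [Finset.mem_erase, Finset.mem_union, hU, hV, Finset.mem_filter]
      constructor
      · rintro ⟨hyx, hy⟩
        by_cases hc : cl y = c
        · exact Or.inl ⟨hyx, hy, hc⟩
        · refine Or.inr ⟨hy, ?_⟩
          cases hcy : cl y <;> cases c <;> simp_all
      · rintro (⟨hyx, hy, _⟩ | ⟨hy, hc⟩)
        · exact ⟨hyx, hy⟩
        · refine ⟨?_, hy⟩
          rintro rfl
          rw [(hUm y hx).2] at hc
          cases c <;> simp at hc
    rw [hun, Finset.sum_union hdis]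
    have h1 : ((U.card : ℝ) - 1) * ((1 - θ) * m) + ∑ y ∈ U.erase x, uu A R (f.ph x) (f.ph y) ≤
        ∑ y ∈ U.erase x, uu A R x y := by
      have h2 : ((U.card : ℝ) - 1) * ((1 - θ) * m) = ∑ _y ∈ U.erase x, (1 - θ) * m := by
        rw [Finset.sum_const, Finset.card_erase_of_mem hx, nsmul_eq_mul,
          Nat.cast_sub (Finset.card_pos.2 ⟨x, hx⟩)]
        simp
      rw [h2, ← Finset.sum_add_distrib]
      refine Finset.sum_le_sum ?_
      intro y hy
      have hyU := Finset.mem_of_mem_erase hy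
      exact h.uu_same (hT x (hUm x hx).1).1 (hT y (hUm y hyU).1).1 (hT x (hUm x hx).1).2
        (hT y (hUm y hyU).1).2 (Finset.ne_of_mem_erase hy).symm
        ((hUm x hx).2.trans (hUm y hyU).2.symm)
    have h3 : -((V.card : ℝ) * (θ * m)) ≤ ∑ y ∈ V, uu A R x y := by
      have h4 : -((V.card : ℝ) * (θ * m)) = ∑ _y ∈ V, -(θ * m) := by
        rw [Finset.sum_const, nsmul_eq_mul]
        ring
      rw [h4]
      refine Finset.sum_le_sum ?_
      intro y hy
      refine h.uu_any (hT x (hUm x hx).1).1 (hT y (hVm y hy).1).1 ?_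
      rintro rfl
      have h5 := (hUm x hx).2
      rw [(hVm x hy).2] at h5
      cases c <;> simp at h5
    linarith
  have hsum := Finset.sum_le_sum hpt
  refine le_trans (le_of_eq ?_) hsum
  rw [Finset.sum_sub_distrib, Finset.sum_add_distrib, Finset.sum_const, Finset.sum_const,
    nsmul_eq_mul, nsmul_eq_mul]
  ring

/-- both classes -/
theorem C1_both {S : Finset ℤ} {a : ℤ} {f : PM S a 2} {A : AbsoluteValue ℚ ℝ} {R m θ : ℝ}
    {cl : ℤ → Bool} (h : TP f A R m θ cl) {T : Finset ℤ} (hT : ∀ x ∈ T, x ∈ S ∧ x ≠ a) (c : Bool) :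
    ((T.filter (fun x => cl x = c)).card : ℝ) * (((T.filter (fun x => cl x = c)).card : ℝ) - 1) *
        ((1 - θ) * m) + En A R ((T.filter (fun x => cl x = c)).image f.ph) +
    ((T.filter (fun x => cl x = !c)).card : ℝ) * (((T.filter (fun x => cl x = !c)).card : ℝ) - 1) *
        ((1 - θ) * m) + En A R ((T.filter (fun x => cl x = !c)).image f.ph) -
      2 * (((T.filter (fun x => cl x = c)).card : ℝ) *
        ((T.filter (fun x => cl x = !c)).card : ℝ)) * (θ * m) ≤ En A R T := by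
  have h1 := C1_class h hT c
  have h2 := C1_class h hT (!c)
  rw [Bool.not_not] at h2
  have h3 : En A R T = (∑ x ∈ T.filter (fun x => cl x = c), ∑ y ∈ T.erase x, uu A R x y) +
      ∑ x ∈ T.filter (fun x => cl x = !c), ∑ y ∈ T.erase x, uu A R x y := by
    unfold En
    rw [← Finset.sum_filter_add_sum_filter_not T (fun x => cl x = c)]
    congr 1
    refine Finset.sum_congr ?_ (fun _ _ => rfl)
    ext y
    simp only [Finset.mem_filter]
    refine and_congr_right (fun _ => ?_)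
    cases cl y <;> cases c <;> simp
  rw [h3]
  linarith

theorem C1_card (T : Finset ℤ) (cl : ℤ → Bool) (c : Bool) :
    (T.filter (fun x => cl x = c)).card + (T.filter (fun x => cl x = !c)).card = T.card := by
  rw [← Finset.card_filter_add_card_filter_not (s := T) (fun x => cl x = c)]
  congr 2
  ext y
  simp only [Finset.mem_filter]
  refine and_congr_right (fun _ => ?_)
  cases cl y <;> cases c <;> simp

/-- the lower bound of the energy of the image of one class -/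
theorem C1_low {S : Finset ℤ} {a : ℤ} {f : PM S a 2} {A : AbsoluteValue ℚ ℝ} {R m θ ξ : ℝ}
    {cl : ℤ → Bool} (h : TP f A R m θ cl) {T U : Finset ℤ} {J : ℕ} (hUT : U ⊆ T)
    (hT : T ⊆ Dm S a f.ph (J + 1)) (hJ : 1 / (2 : ℝ) ^ J ≤ ξ) (hm1 : 1 ≤ m)
    (ht : (4 * (J : ℝ) + 1) + 2 * Real.log T.card ≤ ξ * T.card) :
    (1 - ξ) * (U.card : ℝ) ^ 2 * m - ξ * (T.card : ℝ) ^ 2 * m ≤ En A R (U.image f.ph) := by
  have hU : ∀ x ∈ U, x ∈ S ∧ x ≠ a ∧ f.ph x ∈ Dm S a f.ph J := fun x hx => Dm_succ (hT (hUT hx))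
  have hcard : (U.image f.ph).card = U.card :=
    Finset.card_image_of_injOn (fun x hx y hy hxy =>
      f.inj x (hU x hx).1 y (hU y hy).1 (hU x hx).2.1 (hU y hy).2.1 hxy)
  have hsub : U.image f.ph ⊆ Dm S a f.ph J := by
    intro y hy
    obtain ⟨x, hx, rfl⟩ := Finset.mem_image.1 hy
    exact (hU x hx).2.2
  have h1 := En_ge f le_rfl A h.R1 h.bd J hsub (by rw [h.meq]; exact h.m0.le)
  rw [hcard, h.meq] at h1
  push_cast at h1
  have e21 : ((2 : ℝ) - 1) = 1 := by norm_num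
  rw [e21, div_one] at h1
  have hle : (U.card : ℝ) ≤ T.card := by exact_mod_cast Finset.card_le_card hUT
  have hU0 : (0 : ℝ) ≤ U.card := Nat.cast_nonneg _
  have hT0 : (0 : ℝ) ≤ T.card := Nat.cast_nonneg _
  have hlogT : 0 ≤ Real.log T.card := Real.log_natCast_nonneg _
  have hlog : (U.card : ℝ) * Real.log U.card ≤ T.card * Real.log T.card := by
    rcases Nat.eq_zero_or_pos U.card with h0 | h0
    · rw [h0]
      simp only [Nat.cast_zero, zero_mul]
      positivity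
    · exact mul_le_mul hle (Real.log_le_log (by exact_mod_cast h0) hle)
        (Real.log_natCast_nonneg _) hT0
  have h2 : (1 / (2 : ℝ) ^ J) * (U.card : ℝ) ^ 2 * m ≤ ξ * (U.card : ℝ) ^ 2 * m := by
    gcongr
  have h3 : (4 * (J : ℝ) + 1) * U.card * m ≤ (4 * (J : ℝ) + 1) * T.card * m := by
    gcongr
  have h4 : (T.card : ℝ) * Real.log T.card ≤ T.card * Real.log T.card * m :=
    le_mul_of_one_le_right (by positivity) hm1
  have h5 : ((4 * (J : ℝ) + 1) + 2 * Real.log T.card) * (T.card * m) ≤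
      (ξ * T.card) * (T.card * m) :=
    mul_le_mul_of_nonneg_right ht (by positivity)
  linarith

/-- the constants -/
theorem C1_t0 {ξ : ℝ} (hξ : 0 < ξ) (J : ℕ) : ∃ t0 : ℕ, 1 ≤ t0 ∧ ∀ t : ℕ, t0 ≤ t →
    (4 * (J : ℝ) + 1) + 2 * Real.log t ≤ ξ * t ∧ 1 ≤ ξ * t := by
  obtain ⟨n, hn⟩ := exists_nat_ge (max (64 / ξ ^ 2) (2 * (4 * (J : ℝ) + 1) / ξ))
  refine ⟨n + 1, by omega, ?_⟩
  intro t ht
  have htn : (n : ℝ) ≤ t := by exact_mod_cast (by omega : n ≤ t)
  have h1 : 64 / ξ ^ 2 ≤ t := (le_max_left _ _).trans (hn.trans htn)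
  have h2 : 2 * (4 * (J : ℝ) + 1) / ξ ≤ t := (le_max_right _ _).trans (hn.trans htn)
  have ht0 : (0 : ℝ) < t := by exact_mod_cast (by omega : 0 < t)
  have h3 : 2 * (4 * (J : ℝ) + 1) ≤ ξ * t := by
    rw [div_le_iff₀ hξ] at h2
    linarith
  have hs0 : 0 < Real.sqrt t := Real.sqrt_pos.2 ht0
  have hs : Real.sqrt t * Real.sqrt t = t := Real.mul_self_sqrt ht0.le
  have h4 : 8 ≤ ξ * Real.sqrt t := by
    rw [div_le_iff₀ (by positivity)] at h1
    have h5 : (8 : ℝ) ^ 2 ≤ (ξ * Real.sqrt t) ^ 2 := by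
      rw [mul_pow, Real.sq_sqrt ht0.le]
      linarith
    exact le_of_sq_le_sq h5 (by positivity)
  have h6 : Real.log t ≤ 2 * Real.sqrt t := by
    have h7 : Real.log t = 2 * Real.log (Real.sqrt t) := by
      rw [← hs, Real.log_mul hs0.ne' hs0.ne', hs]
      ring
    rw [h7]
    have h8 := Real.log_le_sub_one_of_pos hs0
    linarith
  have h9 : 8 * Real.sqrt t ≤ ξ * t := by
    have := mul_le_mul_of_nonneg_right h4 hs0.le
    rw [mul_assoc, hs] at this
    exact this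
  have hJ0 : (0 : ℝ) ≤ J := Nat.cast_nonneg _
  constructor
  · linarith
  · linarith

/-- `ξ` from `split_arith`, `J0` with `2 ^ (- J0) ≤ ξ`, `θ0 = ξ / 2`, `η0 = ξ / 2`, and `t0` such that
`(4 J0 + 1) t + 2 t log t + t ≤ (ξ / 2) t ^ 2` for `t ≥ t0`; `m ≥ log 4 / θ0 ≥ 1`. Let `T i` be the part of `T` with
`cl = i`, `u i` its cardinality. By `uu_same`, `uu_any`:
`En T ≥ ∑_i ((1 - θ) m (u i ^ 2 - u i) + En (ph (T i))) - θ m 2 u0 u1` (`f.ph` is injective on `T i`: the sum over the image is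
the sum over `T i`, `Finset.sum_image`), and `ph (T i) ⊆ Dm J0`, so by `En_ge` (`d = 2`)
`En (ph (T i)) ≥ m ((1 - 2 ^ (- J0)) u i ^ 2 - (4 J0 + 1) u i) - 2 u i log (u i)`. Apply `split_arith`. -/
theorem split {η1 : ℝ} (hη : 0 < η1) : ∃ (η0 θ0 : ℝ) (J0 t0 : ℕ), 0 < η0 ∧ 0 < θ0 ∧
    ∀ (S : Finset ℤ) (a : ℤ) (f : PM S a 2) (A : AbsoluteValue ℚ ℝ) (R m θ : ℝ) (cl : ℤ → Bool),
      TP f A R m θ cl → θ ≤ θ0 → ∀ T ⊆ Dm S a f.ph (J0 + 1), t0 ≤ T.card →
      En A R T ≤ (1 + η0) * (T.card : ℝ) ^ 2 * m → ∀ c : Bool,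
        T.card ≤ 3 * (T.filter (fun x => cl x = c)).card ∧
        En A R ((T.filter (fun x => cl x = c)).image f.ph) ≤
          (1 + η1) * ((T.filter (fun x => cl x = c)).card : ℝ) ^ 2 * m := by
  obtain ⟨ξ, hξ0, hξ4, harith⟩ := split_arith hη
  obtain ⟨J, hJ⟩ := exists_pow_lt_of_lt_one hξ0 (by norm_num : (1 / 2 : ℝ) < 1)
  have hJ' : 1 / (2 : ℝ) ^ J ≤ ξ := by
    rw [one_div_pow] at hJ
    exact hJ.le
  obtain ⟨t0, ht01, ht0⟩ := C1_t0 hξ0 J
  refine ⟨ξ, ξ / 2, J, t0, hξ0, by positivity, ?_⟩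
  intro S a f A R m θ cl h hθ T hT hcard hEn c
  obtain ⟨hc1, hc2⟩ := ht0 T.card hcard
  have hm0 := h.m0
  have hTt : (0 : ℝ) < T.card := by
    have : 0 < T.card := by omega
    exact_mod_cast this
  have hm1 : 1 ≤ m := by
    have h4 := h.four
    have h5 : θ * m ≤ ξ / 2 * m := mul_le_mul_of_nonneg_right hθ hm0.le
    have h6 : ξ / 2 * m ≤ 1 / 8 * m := mul_le_mul_of_nonneg_right (by linarith) hm0.le
    have h7 : (1 : ℝ) ≤ Real.log 4 := by
      rw [Real.le_log_iff_exp_le (by norm_num)]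
      have := Real.exp_one_lt_d9
      linarith
    linarith
  have hTm : ∀ x ∈ T, x ∈ S ∧ x ≠ a := fun x hx =>
    ⟨(Dm_succ (hT hx)).1, (Dm_succ (hT hx)).2.1⟩
  set U := T.filter (fun x => cl x = c) with hU
  set V := T.filter (fun x => cl x = !c) with hV
  have hUV : (U.card : ℝ) + V.card = T.card := by exact_mod_cast C1_card T cl c
  have hlU := C1_low h (Finset.filter_subset (fun x => cl x = c) T) hT hJ' hm1 hc1
  have hlV := C1_low h (Finset.filter_subset (fun x => cl x = !c) T) hT hJ' hm1 hc1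
  have hb := C1_both h hTm c
  rw [← hU, ← hV] at hb
  rw [← hU] at hlU
  rw [← hV] at hlV
  have hU0 : (0 : ℝ) ≤ U.card := Nat.cast_nonneg _
  have hV0 : (0 : ℝ) ≤ V.card := Nat.cast_nonneg _
  have key : (1 - ξ) * ((U.card : ℝ) ^ 2 + (V.card : ℝ) ^ 2) * m + En A R (U.image f.ph) +
      En A R (V.image f.ph) - ξ * (T.card : ℝ) ^ 2 * m ≤ (1 + ξ) * (T.card : ℝ) ^ 2 * m := by
    have k1 : 0 ≤ ((U.card : ℝ) ^ 2 + (V.card : ℝ) ^ 2) * m := by positivity
    have k2 : 2 * ((U.card : ℝ) * V.card) * m ≤ ((U.card : ℝ) ^ 2 + (V.card : ℝ) ^ 2) * m := by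
      refine mul_le_mul_of_nonneg_right ?_ hm0.le
      nlinarith [sq_nonneg ((U.card : ℝ) - V.card)]
    have hθ0 : 0 ≤ θ := by
      by_contra hcon
      have h8 : θ * m < 0 := mul_neg_of_neg_of_pos (not_le.1 hcon) hm0
      have h9 := h.four
      have h10 : 0 < Real.log 4 := Real.log_pos (by norm_num)
      linarith
    have k3 : θ * (2 * ((U.card : ℝ) * V.card) * m) ≤
        θ * (((U.card : ℝ) ^ 2 + (V.card : ℝ) ^ 2) * m) := mul_le_mul_of_nonneg_left k2 hθ0
    have k4 : (2 * θ) * (((U.card : ℝ) ^ 2 + (V.card : ℝ) ^ 2) * m) ≤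
        ξ * (((U.card : ℝ) ^ 2 + (V.card : ℝ) ^ 2) * m) :=
      mul_le_mul_of_nonneg_right (by linarith) k1
    have k5 : (T.card : ℝ) * m ≤ ξ * T.card * (T.card * m) :=
      le_mul_of_one_le_left (by positivity) hc2
    have k6 : (1 - θ) * ((U.card : ℝ) + V.card) * m ≤ T.card * m := by
      rw [hUV]
      have : 0 ≤ θ * (T.card * m) := by positivity
      linarith
    linarith
  obtain ⟨r1, -, r3, -⟩ := harith T.card U.card V.card m (En A R (U.image f.ph))
    (En A R (V.image f.ph)) hTt hm0 hU0 hV0 hUV key hlU hlV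
  exact ⟨by exact_mod_cast r1, r3⟩

end F0744D
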