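import Pool.Agent.Lib.MP_f0744f_nt.C.A8
import Pool.Agent.Lib.MP_f0744f_nt.C.P3

/-! # MP_f0744f_nt, a quadratic polynomial and a polynomial of degree `e`: definitions -/

set_option autoImplicit false

open Polynomial

namespace F0744D

open F0744C

variable {S : Finset ℤ} {a : ℤ}

/-- the sum of the roots of a quadratic polynomial -/
noncomputable def sr (F : ℚ[X]) : ℚ := - F.coeff 1 / F.leadingCoeff

/-- for `n < 2 ^ J` the number of binary digits `1` of `n` -/
def sg (J n : ℕ) : ℕ := n - wd 2 J n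

/-- the product of the `z i` over the binary digits `1` of `n` -/
def gp : ℕ → ℕ → (ℕ → ℚ) → ℚ
  | 0, _, _ => 1
  | J + 1, n, z => z 0 ^ (n % 2) * gp J (n / 2) (fun i => z (i + 1))

/-- A good place for the quadratic map `f`: `A` an absolute value, all elements of `S` have size at
most `R`, `m = mm A R 2 f.F`, and the elements of `S \ {a}` form two classes `cl` (up to the factor
`exp (θ m)` the two classes have the distance `R`, and `x + y - sr f.F` has size `R` for `x, y` in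
the same class). -/
structure TP (f : PM S a 2) (A : AbsoluteValue ℚ ℝ) (R m θ : ℝ) (cl : ℤ → Bool) : Prop where
  R1 : 1 ≤ R
  m0 : 0 < m
  four : Real.log 4 ≤ θ * m
  atwo : Real.exp (-(θ * m)) ≤ A 2
  meq : mm A R 2 f.F = m
  bd : ∀ x ∈ S, A ((x : ℤ) : ℚ) ≤ R
  same : ∀ x ∈ S, ∀ y ∈ S, x ≠ a → y ≠ a → cl x = cl y →
    R * Real.exp (-(θ * m)) ≤ A ((x : ℚ) + y - sr f.F)
  diff : ∀ x ∈ S, ∀ y ∈ S, x ≠ a → y ≠ a → cl x ≠ cl y →
    R * Real.exp (-(θ * m)) ≤ A ((x : ℚ) - y)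

/-- every itinerary of length `K` occurs in `T` -/
def Full (ph : ℤ → ℤ) (cl : ℤ → Bool) (K : ℕ) (T : Finset ℤ) : Prop :=
  ∀ ω : ℕ → Bool, ∃ x ∈ T, ∀ i < K, cl (ph^[i] x) = ω i

end F0744D
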