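import Pool.Agent.Lib.MP_f0744f_nt.C.G2
import Pool.Agent.Lib.MP_f0744f_nt.C.P3
import Pool.Agent.Lib.MP_f0744f_nt.D.Defs

/-! # Row G2: product formula, small primes -/

set_option autoImplicit false

open Polynomial

namespace F0744D

open F0744C

/-- `q = num / den`, `padicValRat p q = v_p (num) - v_p (den)`; `G2_log_nat` (in `C/G2.lean`) for `num.natAbs` and `den`. -/
theorem pf {q : ℚ} (hq : q ≠ 0) {B : ℕ} (h1 : q.num.natAbs ≤ B) (h2 : q.den ≤ B) :
    ∑ p ∈ Ps B, vp p q = Real.log |(q : ℝ)| := by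
  have hn : q.num ≠ 0 := Rat.num_ne_zero.mpr hq
  have hn' : q.num.natAbs ≠ 0 := Int.natAbs_ne_zero.mpr hn
  have hden : (0 : ℝ) < (q.den : ℝ) := by exact_mod_cast q.pos
  have e1 := G2_log_nat hn' h1
  have e2 := G2_log_nat q.den_ne_zero h2
  have e3 : ∑ p ∈ Ps B, vp p q = ∑ p ∈ Ps B, ((padicValNat p q.num.natAbs : ℕ) : ℝ) * Real.log p
      - ∑ p ∈ Ps B, ((padicValNat p q.den : ℕ) : ℝ) * Real.log p := by
    rw [← Finset.sum_sub_distrib]
    apply Finset.sum_congr rfl
    intro p _
    rw [vp, padicValRat, padicValInt, Int.cast_sub, Int.cast_natCast, Int.cast_natCast, sub_mul]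
  rw [e3, e1, e2]
  have h3 : |(q : ℝ)| = ((q.num.natAbs : ℕ) : ℝ) / (q.den : ℝ) := by
    rw [Rat.cast_def, abs_div, abs_of_pos hden, Nat.cast_natAbs, Int.cast_abs]
  rw [h3, Real.log_div (by exact_mod_cast hn') hden.ne']

/-- `padicNorm p q = p ^ (- v)`. -/
theorem log_padic (p : ℕ) [Fact p.Prime] {q : ℚ} (hq : q ≠ 0) :
    Real.log (Rat.AbsoluteValue.padic p q) = - vp p q := by
  unfold vp
  rw [Rat.AbsoluteValue.padic_eq_padicNorm, padicNorm.eq_zpow_of_nonzero hq]
  push_cast
  rw [Real.log_zpow]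
  push_cast
  ring

/-- `pf` for the leading coefficient `α`: `∑ mP = - log |α|`, and `mm real L 2 F = log |α| + log L`. -/
theorem sum_mP {F : ℚ[X]} (hF : F ≠ 0) {B : ℕ} (h1 : F.leadingCoeff.num.natAbs ≤ B)
    (h2 : F.leadingCoeff.den ≤ B) (L : ℝ) :
    ∑ p ∈ Ps B, mP p F + mm Rat.AbsoluteValue.real L 2 F = Real.log L := by
  have h := pf (leadingCoeff_ne_zero.mpr hF) h1 h2
  simp only [mP, mm]
  have h3 : Rat.AbsoluteValue.real F.leadingCoeff = |(F.leadingCoeff : ℝ)| := by
    simp [Rat.AbsoluteValue.real_eq_abs]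
  rw [h3, Finset.sum_neg_distrib, h]
  push_cast
  ring

/-- If `0 < mP p F` then `mP p F = k log p`, `k ≥ 1`, so `log p < H`, `p < exp H`: at most `exp H + 1` terms are not zero, each is
`< H`. (If `H ≤ 0` the left side is zero.) -/
theorem small_primes (F : ℚ[X]) (B : ℕ) {H : ℝ} (hH : 0 ≤ H) :
    ∑ p ∈ (Ps B).filter (fun p => max 0 (mP p F) < H), max 0 (mP p F) ≤
      (Real.exp H + 1) * H := by
  classical
  set T : Finset ℕ := Finset.range ⌈Real.exp H⌉₊ with hT
  have hstep : ∀ p ∈ (Ps B).filter (fun p => max 0 (mP p F) < H),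
      max 0 (mP p F) ≤ if p ∈ T then H else 0 := by
    intro p hp
    rw [Finset.mem_filter, Ps, Finset.mem_filter] at hp
    obtain ⟨⟨_, hpr⟩, hlt⟩ := hp
    split_ifs with hpT
    · exact hlt.le
    · rcases le_or_gt (mP p F) 0 with hle | hpos
      · rw [max_eq_left hle]
      · exfalso
        apply hpT
        rw [hT, Finset.mem_range, Nat.lt_ceil]
        have hlog : 0 < Real.log p := Real.log_pos (by exact_mod_cast hpr.one_lt)
        have hpp : (0 : ℝ) < (p : ℝ) := by exact_mod_cast hpr.pos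
        have hmlt : mP p F < H := lt_of_le_of_lt (le_max_right _ _) hlt
        have e : mP p F = ((-padicValRat p F.leadingCoeff : ℤ) : ℝ) * Real.log p := by
          rw [mP, vp]
          push_cast
          ring
        rw [e] at hpos hmlt
        have hk : 0 < ((-padicValRat p F.leadingCoeff : ℤ) : ℝ) := by
          by_contra hcon
          have := mul_nonpos_of_nonpos_of_nonneg (not_lt.mp hcon) hlog.le
          linarith
        have hk1 : (1 : ℝ) ≤ ((-padicValRat p F.leadingCoeff : ℤ) : ℝ) := by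
          have : 0 < (-padicValRat p F.leadingCoeff : ℤ) := by exact_mod_cast hk
          exact_mod_cast this
        have h2 : Real.log p < H := by nlinarith
        exact (Real.log_lt_iff_lt_exp hpp).mp h2
  calc ∑ p ∈ (Ps B).filter (fun p => max 0 (mP p F) < H), max 0 (mP p F)
      ≤ ∑ p ∈ (Ps B).filter (fun p => max 0 (mP p F) < H), (if p ∈ T then H else 0) :=
        Finset.sum_le_sum hstep
    _ = ∑ p ∈ ((Ps B).filter (fun p => max 0 (mP p F) < H)).filter (fun p => p ∈ T), H :=
        (Finset.sum_filter _ _).symm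
    _ ≤ ∑ p ∈ T, H := by
        apply Finset.sum_le_sum_of_subset_of_nonneg
        · intro p hp
          exact (Finset.mem_filter.mp hp).2
        · intro _ _ _
          exact hH
    _ = (T.card : ℝ) * H := by
        rw [Finset.sum_const, nsmul_eq_mul]
    _ ≤ (Real.exp H + 1) * H := by
        apply mul_le_mul_of_nonneg_right _ hH
        rw [hT, Finset.card_range]
        exact (Nat.ceil_lt_add_one (Real.exp_pos H).le).le

end F0744D
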