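import Pool.Agent.Lib.MP_f0744f_nt.D.N1
import Pool.Agent.Lib.MP_f0744f_nt.D.G2

/-! # The data of all places -/

set_option autoImplicit false

open Polynomial

namespace F0744D

open F0744C

variable {S : Finset ℤ} {a b : ℤ} {e : ℕ}

/-- the sum of the `m` over the good places (`TT` a set of primes, `rt` = the real place is good) -/
noncomputable def mass (F : ℚ[X]) (L : ℝ) (TT : Finset ℕ) (rt : Bool) : ℝ :=
  ∑ p ∈ TT, mP p F + if rt = true then mm Rat.AbsoluteValue.real L 2 F else 0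

/-- Almost all of the height is at the good places. `J`: number of digits, `T` the points, `U ⊆ T` a set of `e + 1` points with
small energy at the other places, `κ, θ` small, `C` a constant. -/
structure Ctx (f : PM S a 2) (g : PM S b e) (J : ℕ) (L κ θ C : ℝ) (B : ℕ) (TT : Finset ℕ)
    (rt : Bool) (T U : Finset ℤ) : Prop where
  L1 : 1 ≤ L
  hL : ∀ y ∈ S, |((y : ℤ) : ℝ)| ≤ L
  κ0 : 0 < κ
  θ0 : 0 < θ
  big : C ≤ κ * Real.log L
  sub : T ⊆ Dm S a f.ph (J + 2)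
  gT : ∀ x ∈ T, x ∈ S ∧ x ≠ b ∧ g.ph x ∈ Dm S a f.ph 2
  TTs : TT ⊆ Ps B
  tp : ∀ (p : ℕ) [Fact p.Prime], p ∈ TT → ∃ cl : ℤ → Bool,
    TP f (Rat.AbsoluteValue.padic p) 1 (mP p f.F) θ cl ∧ Full f.ph cl (J + 2) T
  tr : rt = true → ∃ cl : ℤ → Bool,
    TP f Rat.AbsoluteValue.real L (mm Rat.AbsoluteValue.real L 2 f.F) θ cl ∧ Full f.ph cl (J + 2) T
  lo : (1 - κ) * Real.log L ≤ mass f.F L TT rt
  up : mass f.F L TT rt ≤ (1 + κ) * Real.log L
  UT : U ⊆ T
  Uc : U.card = e + 1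
  nt : ∑ p ∈ Ps B \ TT, (EnP p U + max 0 (-mP p f.F)) +
      (if rt = true then 0 else EnX Rat.AbsoluteValue.real L U +
        max 0 (-mm Rat.AbsoluteValue.real L 2 f.F)) ≤ κ * Real.log L

end F0744D
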