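import Pool.Agent.Lib.MP_f0744f_nt.D.Defs

/-! # Row E1: inversion on a grid -/

set_option autoImplicit false

open Polynomial

namespace F0744D

open F0744C

/-- `wd 2 (J + 1) n = wd 2 J (n / 2) + n / 2` and `wd 2 J (n / 2) ≤ n / 2` (`wd_le`). -/
theorem sg_succ (J n : ℕ) : sg (J + 1) n = n % 2 + sg J (n / 2) := by
  have h1 : wd 2 (J + 1) n = wd 2 J (n / 2) + n / 2 := rfl
  have h2 := wd_le (d := 2) (by norm_num) J (n / 2)
  unfold sg
  rw [h1]
  omega

/-- Induction, `sg 0 n = n`. -/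
theorem sg_le {J n : ℕ} (hn : n < 2 ^ J) : sg J n ≤ J := by
  induction J generalizing n with
  | zero =>
    unfold sg
    rw [pow_zero] at hn
    omega
  | succ J ih =>
    rw [sg_succ]
    have h1 : n / 2 < 2 ^ J := by
      rw [pow_succ] at hn
      omega
    have h2 := ih h1
    omega

/-- splitting a sum into the even and the odd places -/
theorem E1_split (g : ℕ → ℚ) (m : ℕ) : ∑ n ∈ Finset.range (2 * m), g n =
    ∑ n ∈ Finset.range m, (g (2 * n) + g (2 * n + 1)) := by
  induction m with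
  | zero => simp
  | succ m ih =>
    rw [show 2 * (m + 1) = 2 * m + 1 + 1 by ring, Finset.sum_range_succ, Finset.sum_range_succ, ih,
      Finset.sum_range_succ]
    ring

theorem E1_even (J n : ℕ) (z : ℕ → ℚ) : gp (J + 1) (2 * n) z = gp J n (fun i => z (i + 1)) := by
  have h1 : 2 * n % 2 = 0 := by omega
  have h2 : 2 * n / 2 = n := by omega
  rw [gp, h1, h2, pow_zero, one_mul]

theorem E1_odd (J n : ℕ) (z : ℕ → ℚ) :
    gp (J + 1) (2 * n + 1) z = z 0 * gp J n (fun i => z (i + 1)) := by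
  have h1 : (2 * n + 1) % 2 = 1 := by omega
  have h2 : (2 * n + 1) / 2 = n := by omega
  rw [gp, h1, h2, pow_one]

/-- the sum of level `J + 1` with the first coordinate split off -/
theorem E1_sum (J : ℕ) (c : ℕ → ℚ) (z : ℕ → ℚ) :
    ∑ n ∈ Finset.range (2 ^ (J + 1)), c n * gp (J + 1) n z =
      ∑ n ∈ Finset.range (2 ^ J), c (2 * n) * gp J n (fun i => z (i + 1)) +
      z 0 * ∑ n ∈ Finset.range (2 ^ J), c (2 * n + 1) * gp J n (fun i => z (i + 1)) := by
  rw [pow_succ, mul_comm (2 ^ J) 2, E1_split, Finset.mul_sum, ← Finset.sum_add_distrib]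
  apply Finset.sum_congr rfl
  intro n _
  rw [E1_even, E1_odd]
  ring

/-- Induction on `J`. `∑_{n < 2 ^ (J + 1)} c n * gp (J + 1) n z = ∑_{n < 2 ^ J} (c (2 n) + c (2 n + 1) * z 0) * gp J n (z ∘ succ)`.
Let `P_i` be this number with `z 0 = z_i` (the other coordinates fixed). Then
`(z1 - z0) ∑ c (2 n + 1) gp = P_1 - P_0`, of size at most `2 M`, so `A (∑ c (2 n + 1) gp) ≤ 2 κ M / R`, and
`(z1 - z0) ∑ c (2 n) gp = z1 P_0 - z0 P_1`, of size at most `2 R M`, so `A (∑ c (2 n) gp) ≤ 2 κ M`. Apply the induction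
hypothesis to the two sequences; `sg (J + 1) (2 n + 1) = 1 + sg J n`, `sg (J + 1) (2 n) = sg J n`. -/
theorem grid (A : AbsoluteValue ℚ ℝ) {R κ : ℝ} (hR : 1 ≤ R) {z0 z1 : ℚ} (h0 : A z0 ≤ R)
    (h1 : A z1 ≤ R) (h : R ≤ κ * A (z1 - z0)) (J : ℕ) (c : ℕ → ℚ) {M : ℝ} (hM0 : 0 ≤ M)
    (hM : ∀ ω : ℕ → Bool,
      A (∑ n ∈ Finset.range (2 ^ J), c n * gp J n (fun i => if ω i then z1 else z0)) ≤ M) :
    ∀ n < 2 ^ J, A (c n) * R ^ sg J n ≤ (2 * κ) ^ J * M := by
  have hR0 : 0 < R := by linarith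
  have hd0 : 0 ≤ A (z1 - z0) := A.nonneg _
  have hκ : 0 < κ := by
    by_contra hcon
    have h2 : κ * A (z1 - z0) ≤ 0 := mul_nonpos_of_nonpos_of_nonneg (by linarith) hd0
    linarith
  have hA2 : ∀ x y : ℚ, A (x - y) ≤ A x + A y := fun x y => by
    have := A.add_le x (-y)
    rwa [← sub_eq_add_neg, A.map_neg] at this
  induction J generalizing c M with
  | zero =>
    intro n hn
    have hn0 : n = 0 := by
      rw [pow_zero] at hn
      omega
    have h2 := hM (fun _ => true)
    subst hn0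
    have h3 : sg 0 0 = 0 := rfl
    rw [h3, pow_zero, pow_zero, mul_one, one_mul]
    simpa [gp] using h2
  | succ J ih =>
    -- the two sums of level `J`
    have key : ∀ ω : ℕ → Bool,
        A (∑ n ∈ Finset.range (2 ^ J), c (2 * n) * gp J n (fun i => if ω i then z1 else z0)) ≤
          2 * κ * M ∧
        A (∑ n ∈ Finset.range (2 ^ J), c (2 * n + 1) * gp J n (fun i => if ω i then z1 else z0)) ≤
          2 * κ * M / R := by
      intro ω
      obtain ⟨S0, hS0⟩ : ∃ S0 : ℚ, S0 =
        ∑ n ∈ Finset.range (2 ^ J), c (2 * n) * gp J n (fun i => if ω i then z1 else z0) := ⟨_, rfl⟩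
      obtain ⟨S1, hS1⟩ : ∃ S1 : ℚ, S1 =
        ∑ n ∈ Finset.range (2 ^ J), c (2 * n + 1) * gp J n (fun i => if ω i then z1 else z0) :=
        ⟨_, rfl⟩
      rw [← hS0, ← hS1]
      have hp : ∀ b : Bool, A (S0 + (if b then z1 else z0) * S1) ≤ M := by
        intro b
        have h2 := hM (fun i => match i with | 0 => b | i + 1 => ω i)
        rw [E1_sum] at h2
        rw [hS0, hS1]
        exact h2
      have hp1 : A (S0 + z1 * S1) ≤ M := by simpa using hp true
      have hp0 : A (S0 + z0 * S1) ≤ M := by simpa using hp false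
      have e1 : (z1 - z0) * S1 = (S0 + z1 * S1) - (S0 + z0 * S1) := by ring
      have e0 : (z1 - z0) * S0 = z1 * (S0 + z0 * S1) - z0 * (S0 + z1 * S1) := by ring
      have f1 : A (z1 - z0) * A S1 ≤ 2 * M := by
        rw [← A.map_mul, e1]
        linarith [hA2 (S0 + z1 * S1) (S0 + z0 * S1)]
      have f0 : A (z1 - z0) * A S0 ≤ 2 * R * M := by
        rw [← A.map_mul, e0]
        have g1 := hA2 (z1 * (S0 + z0 * S1)) (z0 * (S0 + z1 * S1))
        rw [A.map_mul, A.map_mul] at g1
        have g2 : A z1 * A (S0 + z0 * S1) ≤ R * M :=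
          mul_le_mul h1 hp0 (A.nonneg _) hR0.le
        have g3 : A z0 * A (S0 + z1 * S1) ≤ R * M :=
          mul_le_mul h0 hp1 (A.nonneg _) hR0.le
        linarith
      constructor
      · have g1 : R * A S0 ≤ κ * (A (z1 - z0) * A S0) := by
          rw [← mul_assoc]
          exact mul_le_mul_of_nonneg_right h (A.nonneg _)
        have g2 : κ * (A (z1 - z0) * A S0) ≤ κ * (2 * R * M) := mul_le_mul_of_nonneg_left f0 hκ.le
        have g3 : R * A S0 ≤ R * (2 * κ * M) := by linarith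
        exact le_of_mul_le_mul_left g3 hR0
      · have g1 : R * A S1 ≤ κ * (A (z1 - z0) * A S1) := by
          rw [← mul_assoc]
          exact mul_le_mul_of_nonneg_right h (A.nonneg _)
        have g2 : κ * (A (z1 - z0) * A S1) ≤ κ * (2 * M) := mul_le_mul_of_nonneg_left f1 hκ.le
        rw [le_div_iff₀ hR0]
        linarith
    intro n hn
    have hn2 : n / 2 < 2 ^ J := by
      rw [pow_succ] at hn
      omega
    rw [sg_succ]
    rcases Nat.mod_two_eq_zero_or_one n with hr | hr
    · have e : 2 * (n / 2) = n := by omega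
      have h2 := ih (fun n => c (2 * n)) (M := 2 * κ * M) (by positivity) (fun ω => (key ω).1) (n / 2) hn2
      simp only [e] at h2
      rw [hr, zero_add, pow_succ]
      calc A (c n) * R ^ sg J (n / 2) ≤ (2 * κ) ^ J * (2 * κ * M) := h2
        _ = (2 * κ) ^ J * (2 * κ) * M := by ring
    · have e : 2 * (n / 2) + 1 = n := by omega
      have h2 := ih (fun n => c (2 * n + 1)) (M := 2 * κ * M / R) (by positivity)
        (fun ω => (key ω).2) (n / 2) hn2
      simp only [e] at h2
      rw [hr, pow_add, pow_one, pow_succ]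
      have h3 := mul_le_mul_of_nonneg_right h2 hR0.le
      calc A (c n) * (R * R ^ sg J (n / 2)) = A (c n) * R ^ sg J (n / 2) * R := by ring
        _ ≤ (2 * κ) ^ J * (2 * κ * M / R) * R := h3
        _ = (2 * κ) ^ J * (2 * κ) * M := by field_simp

end F0744D
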