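import Pool.Agent.Lib.MP_f0744f_nt.D.B1
import Pool.Agent.Lib.MP_f0744f_nt.D.E1

/-! # Row E2: the basis polynomials at a good place -/

set_option autoImplicit false

open Polynomial

namespace F0744D

open F0744C

variable {S : Finset ℤ} {a : ℤ} {f : PM S a 2} {A : AbsoluteValue ℚ ℝ} {R m θ : ℝ} {cl : ℤ → Bool}

/-- Induction on `J`. Step: `n = n % 2 + 2 (n / 2)`, `b = x ^ (n % 2) * b' (F x)`, `F x = ph x ∈ Dm J`. If `n % 2 = 0`
use the induction hypothesis. If `n % 2 = 1`: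
`A (x b' - z gp') ≤ A (x - z) A (b') + A (z) A (b' - gp') ≤ 2 R ε R ^ s + R J 2 ε R ^ s`, `ε = exp (- (1 - θ) m)`,
by `TP.close` (`x`, `z (cl x)` are in the same class), `bp_le`, `bd`; `s = sg J (n / 2)`, `sg_succ`. -/
theorem bp_gp (h : TP f A R m θ cl) {z : Bool → ℤ} (hz : ∀ c, z c ∈ S ∧ z c ≠ a ∧ cl (z c) = c)
    (J n : ℕ) (hn : n < 2 ^ J) {x : ℤ} (hx : x ∈ Dm S a f.ph J) :
    A ((bp f.F 2 J n).eval (x : ℚ) - gp J n (fun i => (z (cl (f.ph^[i] x)) : ℚ))) ≤
      J * (2 * Real.exp (-((1 - θ) * m))) * R ^ sg J n := by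
  have hd : (1 : ℕ) ≤ 2 := by norm_num
  have hR0 : 0 < R := lt_of_lt_of_le one_pos h.R1
  set ε : ℝ := Real.exp (-((1 - θ) * m)) with hε
  have hε0 : 0 < ε := Real.exp_pos _
  induction J generalizing n x with
  | zero =>
    have hn0 : n = 0 := by simpa using hn
    subst hn0
    simp [bp, gp]
  | succ J ih =>
    obtain ⟨hxS, hxa, hph⟩ := Dm_succ hx
    have h1 : (bp f.F 2 (J + 1) n).eval (x : ℚ) =
        (x : ℚ) ^ (n % 2) * (bp f.F 2 J (n / 2)).eval ((f.ph x : ℤ) : ℚ) := by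
      simp only [bp, eval_mul, eval_pow, eval_X, eval_comp]
      rw [f.val x hxS hxa]
    have h2 : gp (J + 1) n (fun i => (z (cl (f.ph^[i] x)) : ℚ)) =
        (z (cl x) : ℚ) ^ (n % 2) * gp J (n / 2) (fun i => (z (cl (f.ph^[i] (f.ph x))) : ℚ)) := rfl
    have hn' : n / 2 < 2 ^ J := by
      rw [pow_succ] at hn
      omega
    have h3 := ih (n / 2) hn' hph
    rw [h1, h2, sg_succ]
    set b : ℚ := (bp f.F 2 J (n / 2)).eval ((f.ph x : ℤ) : ℚ) with hb
    set g : ℚ := gp J (n / 2) (fun i => (z (cl (f.ph^[i] (f.ph x))) : ℚ)) with hg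
    set s : ℕ := sg J (n / 2) with hs
    have hRs : 0 < R ^ s := pow_pos hR0 s
    rcases Nat.mod_two_eq_zero_or_one n with h4 | h4
    · rw [h4, pow_zero, pow_zero, one_mul, one_mul, zero_add]
      refine h3.trans ?_
      have h5 : (J : ℝ) ≤ ((J + 1 : ℕ) : ℝ) := by push_cast; linarith
      gcongr
    · rw [h4, pow_one, pow_one]
      obtain ⟨hz1, hz2, hz3⟩ := hz (cl x)
      have h5 := h.close hxS hz1 hxa hz2 hz3.symm
      have h6 : A b ≤ R ^ s := by
        have h7 := bp_le f hd h.R1 h.bd J (n / 2) hph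
        have h8 : n / 2 - (2 - 1) * wd 2 J (n / 2) = s := by
          rw [hs, sg]
          simp
        rwa [h8] at h7
      have h7 : (x : ℚ) * b - (z (cl x) : ℚ) * g =
          ((x : ℚ) - (z (cl x) : ℚ)) * b + (z (cl x) : ℚ) * (b - g) := by ring
      rw [h7]
      refine (A.add_le _ _).trans ?_
      rw [map_mul, map_mul]
      have h8 : A ((x : ℚ) - (z (cl x) : ℚ)) * A b ≤ (2 * R * ε) * R ^ s :=
        mul_le_mul h5 h6 (A.nonneg _) (by positivity)
      have h9 : A (z (cl x) : ℚ) * A (b - g) ≤ R * (J * (2 * ε) * R ^ s) :=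
        mul_le_mul (h.bd _ hz1) h3 (A.nonneg _) hR0.le
      have h10 : ((J + 1 : ℕ) : ℝ) * (2 * ε) * R ^ (1 + s) =
          (2 * R * ε) * R ^ s + R * (J * (2 * ε) * R ^ s) := by
        push_cast
        rw [pow_add, pow_one]
        ring
      rw [h10]
      linarith

end F0744D
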