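import Pool.Agent.Lib.MP_f0744f_nt.D.E2

/-! # Row E3: the coefficients at a good place -/

set_option autoImplicit false

open Polynomial

namespace F0744D

open F0744C

theorem E3_gp_congr (J : ℕ) : ∀ (n : ℕ) (z z' : ℕ → ℚ), (∀ i < J, z i = z' i) →
    gp J n z = gp J n z' := by
  induction J with
  | zero => intro n z z' _; rfl
  | succ J ih =>
    intro n z z' h
    rw [gp, gp, h 0 (Nat.succ_pos J),
      ih (n / 2) (fun i => z (i + 1)) (fun i => z' (i + 1)) (fun i hi => h (i + 1) (by omega))]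

theorem E3_num {J : ℕ} {θ m ε R M κ : ℝ} (hm0 : 0 < m) (hR : 0 ≤ R) (hM : 0 ≤ M)
    (hθ : 0 < θ) (hθ1 : θ * (3 * J + 3) ≤ 1) (hfour : Real.log 4 ≤ θ * m)
    (hε : ε = Real.exp (-((1 - θ) * m))) (hκ : κ = Real.exp (θ * m))
    (h : M ≤ (2 * κ) ^ J * (R + 2 ^ J * (J * (2 * ε)) * M)) :
    M ≤ R * Real.exp ((2 * J + 1) * θ * m) := by
  set u := Real.exp (θ * m / 2) with hu
  have hu2 : 2 ≤ u := by
    have h1 : Real.log 4 = 2 * Real.log 2 := by
      rw [show (4 : ℝ) = 2 ^ 2 by norm_num, Real.log_pow]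
      push_cast
      ring
    have h2 : Real.log 2 ≤ θ * m / 2 := by linarith
    calc (2 : ℝ) = Real.exp (Real.log 2) := (Real.exp_log (by norm_num)).symm
      _ ≤ u := Real.exp_le_exp.2 h2
  have hu0 : 0 < u := by linarith
  have hκu : κ = u ^ 2 := by
    rw [hκ, hu, ← Real.exp_nat_mul]
    congr 1
    push_cast
    ring
  have hκ0 : 0 ≤ 2 * κ := by rw [hκu]; positivity
  have hε0 : 0 ≤ ε := by rw [hε]; positivity
  have hA : (2 * κ) ^ J ≤ u ^ (3 * J) := by
    rw [pow_mul]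
    refine pow_le_pow_left₀ hκ0 ?_ J
    rw [hκu]
    nlinarith [pow_pos hu0 2]
  have hJ2 : (J : ℝ) ≤ 2 ^ J := by exact_mod_cast (Nat.lt_two_pow_self (n := J)).le
  have h2u : (2 : ℝ) ^ J ≤ u ^ J := pow_le_pow_left₀ (by norm_num) hu2 J
  have hJu : (J : ℝ) ≤ u ^ J := hJ2.trans h2u
  have h4 : (4 : ℝ) ≤ u ^ 2 := by nlinarith
  have hexp : ε * u ^ (5 * J + 2) ≤ 1 := by
    rw [hε, hu, ← Real.exp_nat_mul, ← Real.exp_add]
    apply Real.exp_le_one_iff.2
    push_cast
    have h5 : θ * ((5 * J + 4) / 2) ≤ 1 := by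
      refine le_trans ?_ hθ1
      apply mul_le_mul_of_nonneg_left _ hθ.le
      have : (0 : ℝ) ≤ J := Nat.cast_nonneg J
      linarith
    nlinarith
  have hB : (2 * κ) ^ J * (2 ^ J * (J * (2 * ε))) ≤ 1 / 2 := by
    have h6 : (2 * κ) ^ J * (2 ^ J * (J * (2 * ε))) ≤ u ^ (3 * J) * (u ^ J * (u ^ J * (2 * ε))) := by
      gcongr
    have h7 : u ^ (3 * J) * (u ^ J * (u ^ J * (2 * ε))) = 2 * (ε * u ^ (5 * J)) := by
      rw [show 5 * J = 3 * J + J + J by ring, pow_add, pow_add]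
      ring
    have h8 : 4 * (ε * u ^ (5 * J)) ≤ 1 := by
      refine le_trans ?_ hexp
      rw [pow_add]
      have h9 : 0 ≤ ε * u ^ (5 * J) := by positivity
      nlinarith
    linarith
  have hMM : M ≤ u ^ (3 * J) * R + 1 / 2 * M := by
    refine h.trans ?_
    have h10 : (2 * κ) ^ J * (R + 2 ^ J * (J * (2 * ε)) * M) =
        (2 * κ) ^ J * R + ((2 * κ) ^ J * (2 ^ J * (J * (2 * ε)))) * M := by ring
    rw [h10]
    have h11 := mul_le_mul_of_nonneg_right hA hR
    have h12 := mul_le_mul_of_nonneg_right hB hM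
    linarith
  have h13 : M ≤ R * (u * u ^ (3 * J)) := by
    have h14 : 0 ≤ R * u ^ (3 * J) := by positivity
    nlinarith
  refine h13.trans ?_
  apply mul_le_mul_of_nonneg_left _ hR
  rw [← pow_succ', hu, ← Real.exp_nat_mul]
  apply Real.exp_le_exp.2
  push_cast
  have h15 : (0 : ℝ) ≤ J := Nat.cast_nonneg J
  have h16 : 0 < θ * m := mul_pos hθ hm0
  nlinarith [mul_nonneg h15 h16.le]

/-- `J = 0`: `c 0 = ∑`. Let `J ≥ 1`, `z c` (`c : Bool`) a point of `T` with `cl (z c) = c` (`Full`, first digit),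
`M = max_n A (c n) R ^ sg J n`, `ε = exp (- (1 - θ) m)`. For an itinerary `ω` let `x ∈ T` be a point which has it:
`A (∑ c n gp J n (z ∘ ω)) ≤ R + ∑_n A (c n) J 2 ε R ^ sg J n ≤ R + 2 ^ J J 2 ε M` (`bp_gp`). By `grid` with
`κ = exp (θ m)` (`diff`): `M ≤ (2 exp (θ m)) ^ J (R + 2 ^ (J + 1) J ε M)`. Since `2 ≤ exp (θ m / 2)` (`four`) the factor
`(2 exp (θ m)) ^ J 2 ^ (J + 1) J ε ≤ 1 / 2` if `(3 J + 3) θ ≤ 1` (`J ≤ 2 ^ J`), so
`M ≤ 2 (2 exp (θ m)) ^ J R ≤ R exp ((2 J + 1) θ m)`. Take `θ0 = min (1 / (3 J + 3)) (θ' / (2 J + 1))`. -/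
theorem coef_tp (J : ℕ) {θ' : ℝ} (hθ' : 0 < θ') : ∃ θ0 : ℝ, 0 < θ0 ∧
    ∀ (S : Finset ℤ) (a : ℤ) (f : PM S a 2) (A : AbsoluteValue ℚ ℝ) (R m θ : ℝ) (cl : ℤ → Bool),
      TP f A R m θ cl → θ ≤ θ0 → ∀ T ⊆ Dm S a f.ph J, Full f.ph cl J T → ∀ c : ℕ → ℚ,
      (∀ x ∈ T, A (∑ n ∈ Finset.range (2 ^ J), c n * (bp f.F 2 J n).eval (x : ℚ)) ≤ R) →
      ∀ n < 2 ^ J, A (c n) * R ^ sg J n ≤ R * Real.exp (θ' * m) := by
  refine ⟨min (1 / (3 * J + 3)) (θ' / (2 * J + 1)), lt_min (by positivity) (by positivity), ?_⟩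
  intro S a f A R m θ cl hTP hθ T hT hfull c hc n hn
  have hm0 := hTP.m0
  have hR1 := hTP.R1
  have hR0 : 0 < R := lt_of_lt_of_le one_pos hR1
  have hθm : 0 < θ * m := lt_of_lt_of_le (Real.log_pos (by norm_num)) hTP.four
  have hθ0 : 0 < θ := (pos_iff_pos_of_mul_pos hθm).2 hm0
  rcases Nat.eq_zero_or_pos J with rfl | hJ
  · obtain rfl : n = 0 := by simpa using hn
    obtain ⟨x, hx, -⟩ := hfull (fun _ => true)
    have h1 := hc x hx
    have h2 : A (c 0) ≤ R := by simpa [bp] using h1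
    have h3 : sg 0 0 = 0 := by simp [sg, wd]
    rw [h3, pow_zero, mul_one]
    refine h2.trans ?_
    have h4 : 1 ≤ Real.exp (θ' * m) := Real.one_le_exp (by positivity)
    nlinarith
  · have hz : ∀ b : Bool, ∃ z : ℤ, z ∈ S ∧ z ≠ a ∧ cl z = b := by
      intro b
      obtain ⟨x, hx, hxi⟩ := hfull (fun _ => b)
      obtain ⟨J', rfl⟩ : ∃ J', J = J' + 1 := ⟨J - 1, by omega⟩
      have h1 := Dm_succ (hT hx)
      exact ⟨x, h1.1, h1.2.1, hxi 0 (Nat.succ_pos J')⟩
    choose z hz using hz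
    obtain ⟨n0, hn0, hmax⟩ := Finset.exists_max_image (Finset.range (2 ^ J))
      (fun n => A (c n) * R ^ sg J n) ⟨0, Finset.mem_range.2 (by positivity)⟩
    set M := A (c n0) * R ^ sg J n0 with hM
    have hM0 : 0 ≤ M := mul_nonneg (A.nonneg _) (pow_nonneg hR0.le _)
    set ε := Real.exp (-((1 - θ) * m)) with hε
    have hε0 : 0 < ε := Real.exp_pos _
    have key : ∀ ω : ℕ → Bool, A (∑ n ∈ Finset.range (2 ^ J), c n *
        gp J n (fun i => if ω i then ((z true : ℤ) : ℚ) else ((z false : ℤ) : ℚ))) ≤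
          R + 2 ^ J * (J * (2 * ε)) * M := by
      intro ω
      obtain ⟨x, hx, hxi⟩ := hfull ω
      have hgp : ∀ n, gp J n (fun i => if ω i then ((z true : ℤ) : ℚ) else ((z false : ℤ) : ℚ)) =
          gp J n (fun i => (z (cl (f.ph^[i] x)) : ℚ)) := by
        intro n
        apply E3_gp_congr
        intro i hi
        rw [hxi i hi]
        cases ω i <;> simp
      have hsplit : ∑ n ∈ Finset.range (2 ^ J), c n *
          gp J n (fun i => if ω i then ((z true : ℤ) : ℚ) else ((z false : ℤ) : ℚ)) =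
          ∑ n ∈ Finset.range (2 ^ J), c n * (bp f.F 2 J n).eval (x : ℚ) +
          -(∑ n ∈ Finset.range (2 ^ J), c n * ((bp f.F 2 J n).eval (x : ℚ) -
            gp J n (fun i => (z (cl (f.ph^[i] x)) : ℚ)))) := by
        rw [← sub_eq_add_neg, ← Finset.sum_sub_distrib]
        refine Finset.sum_congr rfl fun n _ => ?_
        rw [hgp n]
        ring
      rw [hsplit]
      have h1 := hc x hx
      have h2 : A (∑ n ∈ Finset.range (2 ^ J), c n * ((bp f.F 2 J n).eval (x : ℚ) -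
            gp J n (fun i => (z (cl (f.ph^[i] x)) : ℚ)))) ≤ 2 ^ J * (J * (2 * ε)) * M := by
        refine (A.sum_le _ _).trans ?_
        calc ∑ n ∈ Finset.range (2 ^ J), A (c n * ((bp f.F 2 J n).eval (x : ℚ) -
            gp J n (fun i => (z (cl (f.ph^[i] x)) : ℚ))))
            ≤ ∑ _n ∈ Finset.range (2 ^ J), (J * (2 * ε)) * M := Finset.sum_le_sum fun n hn => ?_
          _ = 2 ^ J * (J * (2 * ε)) * M := by
            rw [Finset.sum_const, Finset.card_range, nsmul_eq_mul]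
            push_cast
            ring
        rw [map_mul]
        have h3 := bp_gp hTP hz J n (Finset.mem_range.1 hn) (hT hx)
        have h4 := hmax n hn
        calc A (c n) * A ((bp f.F 2 J n).eval (x : ℚ) -
              gp J n (fun i => (z (cl (f.ph^[i] x)) : ℚ)))
            ≤ A (c n) * (J * (2 * ε) * R ^ sg J n) := mul_le_mul_of_nonneg_left h3 (A.nonneg _)
          _ = (J * (2 * ε)) * (A (c n) * R ^ sg J n) := by ring
          _ ≤ (J * (2 * ε)) * M := mul_le_mul_of_nonneg_left h4 (by positivity)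
      refine (A.add_le _ _).trans ?_
      rw [A.map_neg]
      exact add_le_add h1 h2
    have hdiff := hTP.diff (z true) (hz true).1 (z false) (hz false).1 (hz true).2.1 (hz false).2.1
      (by rw [(hz true).2.2, (hz false).2.2]; decide)
    have hκ : R ≤ Real.exp (θ * m) * A (((z true : ℤ) : ℚ) - ((z false : ℤ) : ℚ)) := by
      have h1 := mul_le_mul_of_nonneg_left hdiff (Real.exp_pos (θ * m)).le
      have h2 : Real.exp (θ * m) * (R * Real.exp (-(θ * m))) = R := by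
        rw [Real.exp_neg]
        field_simp
      rwa [h2] at h1
    have hgrid := grid A hR1 (hTP.bd _ (hz false).1) (hTP.bd _ (hz true).1) hκ J c
      (M := R + 2 ^ J * (J * (2 * ε)) * M) (by positivity) key n0 (Finset.mem_range.1 hn0)
    have hθ1 : θ * (3 * J + 3) ≤ 1 := by
      have h1 := hθ.trans (min_le_left _ _)
      rwa [le_div_iff₀ (by positivity)] at h1
    have hθ2 : θ * (2 * J + 1) ≤ θ' := by
      have h1 := hθ.trans (min_le_right _ _)
      rwa [le_div_iff₀ (by positivity)] at h1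
    have hfin := E3_num hm0 hR0.le hM0 hθ0 hθ1 hTP.four hε rfl hgrid
    refine (hmax n (Finset.mem_range.2 hn)).trans (hfin.trans ?_)
    apply mul_le_mul_of_nonneg_left _ hR0.le
    apply Real.exp_le_exp.2
    apply mul_le_mul_of_nonneg_right _ hm0.le
    linarith

end F0744D
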