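import Pool.Agent.Lib.MP_f0744f_nt.D.B1

/-! # Row E4: the coefficients are close to `0, 1, -1` -/

set_option autoImplicit false

open Polynomial

namespace F0744D

open F0744C

theorem E4_pow (K : ℕ) : (4 : ℝ) * (2 * K + 4) ≤ 4 ^ (K + 2) := by
  induction K with
  | zero => norm_num
  | succ n ih =>
    have h1 : (1 : ℝ) ≤ 4 ^ n := one_le_pow₀ (by norm_num)
    have h2 : (4 : ℝ) ^ (n + 1 + 2) = 4 ^ (n + 2) + 48 * 4 ^ n := by ring
    rw [h2]
    push_cast
    linarith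

theorem E4_sub (A : AbsoluteValue ℚ ℝ) (x y : ℚ) : A (x - y) ≤ A x + A y := by
  rw [sub_eq_add_neg]
  refine (A.add_le _ _).trans ?_
  rw [A.map_neg]

theorem E4_triple (A : AbsoluteValue ℚ ℝ) {c : ℚ} {B M : ℝ} (hB : 0 ≤ B) (hM : 1 ≤ M) (hc : A c ≤ M)
    (h : A c ≤ B ∨ A (c - 1) ≤ B ∨ A (c + 1) ≤ B) : A (c ^ 3 - c) ≤ B * (2 * M) ^ 2 := by
  have h1 : c ^ 3 - c = c * (c - 1) * (c + 1) := by ring
  have h2 : A (c - 1) ≤ 2 * M := by
    refine (E4_sub A c 1).trans ?_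
    rw [A.map_one]
    linarith
  have h3 : A (c + 1) ≤ 2 * M := by
    refine (A.add_le c 1).trans ?_
    rw [A.map_one]
    linarith
  have h4 : A c ≤ 2 * M := by linarith
  have p1 := A.nonneg c
  have p2 := A.nonneg (c - 1)
  have p3 := A.nonneg (c + 1)
  have hM0 : 0 ≤ 2 * M := by linarith
  rw [h1, A.map_mul, A.map_mul]
  rcases h with h | h | h
  · calc A c * A (c - 1) * A (c + 1) ≤ B * (2 * M) * (2 * M) :=
          mul_le_mul (mul_le_mul h h2 p2 hB) h3 p3 (by positivity)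
      _ = B * (2 * M) ^ 2 := by ring
  · calc A c * A (c - 1) * A (c + 1) ≤ (2 * M) * B * (2 * M) :=
          mul_le_mul (mul_le_mul h4 h p2 hM0) h3 p3 (by positivity)
      _ = B * (2 * M) ^ 2 := by ring
  · calc A c * A (c - 1) * A (c + 1) ≤ (2 * M) * (2 * M) * B :=
          mul_le_mul (mul_le_mul h4 h2 p2 hM0) h p3 (by positivity)
      _ = B * (2 * M) ^ 2 := by ring

/-- Let `i < K`, `x, x' ∈ T` two points whose itineraries of length `K` differ only at `i` (`Full`), `ε = exp (- (1 - θ) m)`,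
`D = F^i (x) - F^i (x')`, `A D ≥ R exp (- θ m)` (`diff`). For `l ≠ i` the points `F^l (x), F^l (x')` are in the same class, so
`A (F^l (x) - F^l (x')) ≤ 2 R ε` (`close`, `iter_mem`). So `G x - G x' = c i * D + err`, `A err ≤ K exp (θ0 m) 2 R ε`.
(1) `cl (G x) = cl (G x')`: `A (G x - G x') ≤ 2 R ε`, so `A (c i) A D ≤ 2 (K + 1) R exp (θ0 m) ε`.
(2) `cl (G x) = cl (F^i (x))`, `cl (G x') = cl (F^i (x'))`: `A ((c i - 1) D) ≤ 4 R ε + A err`.
(3) `cl (G x) = cl (F^i (x'))`, `cl (G x') = cl (F^i (x))`: `A ((c i + 1) D) ≤ 4 R ε + A err`.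
In each case `A (c ^ 3 - c) = A c A (c - 1) A (c + 1)` is at most
`(2 K + 4) exp (θ0 m + θ m - (1 - θ) m) (exp (θ0 m) + 1) ^ 2`. Constants: `log 4 ≤ θ m`, so a constant `4 ^ k` is at most
`exp (k θ m)`; choose `θ0` small in terms of `K` and `θ'`. -/
theorem near_tp (K : ℕ) {θ' : ℝ} (hθ' : 0 < θ') : ∃ θ0 : ℝ, 0 < θ0 ∧
    ∀ (S : Finset ℤ) (a : ℤ) (f : PM S a 2) (A : AbsoluteValue ℚ ℝ) (R m θ : ℝ) (cl : ℤ → Bool),
      TP f A R m θ cl → θ ≤ θ0 → ∀ T ⊆ Dm S a f.ph K, Full f.ph cl K T →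
      ∀ (c0 : ℚ) (c : ℕ → ℚ) (G : ℤ → ℤ), (∀ i < K, A (c i) ≤ Real.exp (θ0 * m)) →
      (∀ x ∈ T, G x ∈ S ∧ G x ≠ a ∧
        ((G x : ℤ) : ℚ) = c0 + ∑ i ∈ Finset.range K, c i * ((f.ph^[i] x : ℤ) : ℚ)) →
      ∀ i < K, A (c i ^ 3 - c i) ≤ Real.exp (-((1 - θ') * m)) := by
  have hK7 : (0 : ℝ) < K + 7 := by positivity
  refine ⟨θ' / (K + 7), div_pos hθ' hK7, ?_⟩
  intro S a f A R m θ cl h hθ T hT hfull c0 c G hc hG i hi
  set θ0 := θ' / ((K : ℝ) + 7) with hθ0
  have hR : 0 < R := lt_of_lt_of_le one_pos h.R1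
  have hm := h.m0
  set E0 := Real.exp (θ0 * m) with hE0
  set E := Real.exp (θ * m) with hE
  set X := Real.exp (-m) with hX
  have hX0 : 0 < X := Real.exp_pos _
  have hE4 : 4 ≤ E := by
    rw [hE, ← Real.exp_log (by norm_num : (0 : ℝ) < 4)]
    exact Real.exp_le_exp.2 h.four
  have hEE : E ≤ E0 := Real.exp_le_exp.2 (mul_le_mul_of_nonneg_right hθ hm.le)
  have hεX : Real.exp (-((1 - θ) * m)) = E * X := by
    rw [hE, hX, ← Real.exp_add]
    congr 1
    ring
  obtain ⟨x, hxT, hx⟩ := hfull fun _ => true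
  obtain ⟨x', hxT', hx'⟩ := hfull fun l => decide (l ≠ i)
  have hxD := hT hxT
  have hxD' := hT hxT'
  obtain ⟨g1, g2, g3⟩ := hG x hxT
  obtain ⟨g1', g2', g3'⟩ := hG x' hxT'
  have i1 := iter_mem hxD hi
  have i1' := iter_mem hxD' hi
  have c1 : cl (f.ph^[i] x) = true := hx i hi
  have c1' : cl (f.ph^[i] x') = false := by rw [hx' i hi]; simp
  set D : ℚ := ((f.ph^[i] x : ℤ) : ℚ) - ((f.ph^[i] x' : ℤ) : ℚ) with hD
  have hDb : R ≤ A D * E := by
    have h1 := h.diff _ i1.1 _ i1'.1 i1.2 i1'.2 (by rw [c1, c1']; decide)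
    rw [Real.exp_neg, ← hE, ← div_eq_mul_inv, div_le_iff₀ (by linarith)] at h1
    exact h1
  have hclose : ∀ y ∈ S, ∀ z ∈ S, y ≠ a → z ≠ a → cl y = cl z → A ((y : ℚ) - z) ≤ 2 * R * (E * X) := by
    intro y hy z hz hya hza hcl
    rw [← hεX]
    exact h.close hy hz hya hza hcl
  obtain ⟨err, herr⟩ : ∃ err : ℚ, err = ∑ l ∈ (Finset.range K).erase i,
      c l * (((f.ph^[l] x : ℤ) : ℚ) - ((f.ph^[l] x' : ℤ) : ℚ)) := ⟨_, rfl⟩
  have hGD : ((G x : ℤ) : ℚ) - ((G x' : ℤ) : ℚ) = c i * D + err := by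
    rw [g3, g3', herr, hD, ← Finset.add_sum_erase _ _ (Finset.mem_range.2 hi),
      ← Finset.add_sum_erase (a := i) (Finset.range K) (fun j => c j * ((f.ph^[j] x' : ℤ) : ℚ))
        (Finset.mem_range.2 hi)]
    simp only [mul_sub, Finset.sum_sub_distrib]
    ring
  have hP0 : 0 ≤ 2 * R * (E * X) := by positivity
  have herrb : A err ≤ K * (E0 * (2 * R * (E * X))) := by
    rw [herr]
    refine (A.sum_le _ _).trans ?_
    have h1 : ∀ l ∈ (Finset.range K).erase i,
        A (c l * (((f.ph^[l] x : ℤ) : ℚ) - ((f.ph^[l] x' : ℤ) : ℚ))) ≤ E0 * (2 * R * (E * X)) := by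
      intro l hl
      obtain ⟨hli, hlK⟩ := Finset.mem_erase.1 hl
      rw [Finset.mem_range] at hlK
      rw [A.map_mul]
      have j1 := iter_mem hxD hlK
      have j1' := iter_mem hxD' hlK
      have j2 := hclose _ j1.1 _ j1'.1 j1.2 j1'.2 (by rw [hx l hlK, hx' l hlK]; simp [hli])
      exact mul_le_mul (hc l hlK) j2 (A.nonneg _) (Real.exp_pos _).le
    refine (Finset.sum_le_sum h1).trans ?_
    rw [Finset.sum_const, nsmul_eq_mul]
    refine mul_le_mul_of_nonneg_right ?_ (by positivity)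
    have h2 : ((Finset.range K).erase i).card ≤ K := by
      refine (Finset.card_erase_le).trans ?_
      rw [Finset.card_range]
    exact_mod_cast h2
  have hE01 : 4 ≤ E0 := hE4.trans hEE
  have key : ∀ z : ℚ, A (z * D) ≤ 2 * (2 * R * (E * X)) + A err → A z ≤ (2 * K + 4) * E0 ^ 3 * X := by
    intro z hz
    rw [A.map_mul] at hz
    have h1 : A z * R ≤ A z * (A D * E) := mul_le_mul_of_nonneg_left hDb (A.nonneg _)
    have h2 : A z * (A D * E) ≤ (2 * (2 * R * (E * X)) + K * (E0 * (2 * R * (E * X)))) * E := by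
      rw [← mul_assoc]
      exact mul_le_mul_of_nonneg_right (hz.trans (by linarith)) (by linarith)
    have h3 : (2 * (2 * R * (E * X)) + K * (E0 * (2 * R * (E * X)))) * E ≤ ((2 * K + 4) * E0 ^ 3 * X) * R := by
      have h4 : E * E ≤ E0 * E0 := mul_le_mul hEE hEE (by linarith) (by linarith)
      have h5 : (4 + 2 * K * E0) ≤ (2 * K + 4) * E0 := by
        have : (0 : ℝ) ≤ K := Nat.cast_nonneg _
        nlinarith
      calc (2 * (2 * R * (E * X)) + K * (E0 * (2 * R * (E * X)))) * E = (4 + 2 * K * E0) * (E * E) * (R * X) := by ring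
        _ ≤ ((2 * K + 4) * E0) * (E0 * E0) * (R * X) := by
            refine mul_le_mul_of_nonneg_right (mul_le_mul h5 h4 (by positivity) (by positivity)) (by positivity)
        _ = ((2 * K + 4) * E0 ^ 3 * X) * R := by ring
    exact le_of_mul_le_mul_right (h1.trans (h2.trans h3)) hR
  have hor : A (c i) ≤ (2 * K + 4) * E0 ^ 3 * X ∨ A (c i - 1) ≤ (2 * K + 4) * E0 ^ 3 * X ∨
      A (c i + 1) ≤ (2 * K + 4) * E0 ^ 3 * X := by
    by_cases hcc : cl (G x) = cl (G x')
    · left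
      apply key
      have e1 : c i * D = (((G x : ℤ) : ℚ) - ((G x' : ℤ) : ℚ)) - err := by rw [hGD]; ring
      rw [e1]
      refine (E4_sub A _ _).trans ?_
      have e2 := hclose _ g1 _ g1' g2 g2' hcc
      linarith
    · right
      cases hg : cl (G x) with
      | true =>
        left
        apply key
        have hg' : cl (G x') = false := by
          rw [hg] at hcc
          cases hq : cl (G x') with
          | true => exact absurd hq.symm hcc
          | false => rfl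
        have e1 : (c i - 1) * D = ((((G x : ℤ) : ℚ) - ((f.ph^[i] x : ℤ) : ℚ)) -
            (((G x' : ℤ) : ℚ) - ((f.ph^[i] x' : ℤ) : ℚ))) - err := by
          rw [hD] at hGD ⊢
          linear_combination -hGD
        rw [e1]
        refine (E4_sub A _ _).trans ?_
        have e2 := E4_sub A (((G x : ℤ) : ℚ) - ((f.ph^[i] x : ℤ) : ℚ)) (((G x' : ℤ) : ℚ) - ((f.ph^[i] x' : ℤ) : ℚ))
        have e3 := hclose _ g1 _ i1.1 g2 i1.2 (by rw [hg, c1])
        have e4 := hclose _ g1' _ i1'.1 g2' i1'.2 (by rw [hg', c1'])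
        linarith
      | false =>
        right
        apply key
        have hg' : cl (G x') = true := by
          rw [hg] at hcc
          cases hq : cl (G x') with
          | true => rfl
          | false => exact absurd hq.symm hcc
        have e1 : (c i + 1) * D = ((((G x : ℤ) : ℚ) - ((f.ph^[i] x' : ℤ) : ℚ)) -
            (((G x' : ℤ) : ℚ) - ((f.ph^[i] x : ℤ) : ℚ))) - err := by
          rw [hD] at hGD ⊢
          linear_combination -hGD
        rw [e1]
        refine (E4_sub A _ _).trans ?_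
        have e2 := E4_sub A (((G x : ℤ) : ℚ) - ((f.ph^[i] x' : ℤ) : ℚ)) (((G x' : ℤ) : ℚ) - ((f.ph^[i] x : ℤ) : ℚ))
        have e3 := hclose _ g1 _ i1'.1 g2 i1'.2 (by rw [hg, c1'])
        have e4 := hclose _ g1' _ i1.1 g2' i1.2 (by rw [hg', c1])
        linarith
  have h1 := E4_triple A (by positivity) (by linarith : 1 ≤ E0) (hc i hi) hor
  refine h1.trans ?_
  have h2 : (4 : ℝ) * (2 * K + 4) ≤ E0 ^ (K + 2) := (E4_pow K).trans (pow_le_pow_left₀ (by norm_num) hE01 _)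
  calc (2 * K + 4) * E0 ^ 3 * X * (2 * E0) ^ 2 = (4 * (2 * K + 4)) * (E0 ^ 5 * X) := by ring
    _ ≤ E0 ^ (K + 2) * (E0 ^ 5 * X) := mul_le_mul_of_nonneg_right h2 (by positivity)
    _ = E0 ^ (K + 7) * X := by ring
    _ = Real.exp (-((1 - θ') * m)) := by
        rw [hE0, hX, ← Real.exp_nat_mul, ← Real.exp_add]
        congr 1
        rw [hθ0]
        push_cast
        field_simp
        ring

end F0744D
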