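import Pool.Agent.Lib.MP_f0744f_nt.D.B1

/-! # Row E5: at most one coefficient is not zero -/

set_option autoImplicit false

open Polynomial

namespace F0744D

open F0744C

/-- the numerical inequality -/
theorem E5_small {K : ℕ} {R m θ : ℝ} (hR : 1 ≤ R) (hm : 0 < m) (h4 : Real.log 4 ≤ θ * m)
    (hθ : θ ≤ 1 / (6 * (Real.log (4 * K + 4) + 1))) :
    2 * ((2 * K + 2) * R * Real.exp (-((1 - θ) * m))) < R * Real.exp (-(2 * (θ * m))) := by
  obtain ⟨Λ, hΛ⟩ : ∃ Λ : ℝ, Λ = Real.log (4 * K + 4) := ⟨_, rfl⟩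
  have hK : (0 : ℝ) ≤ K := Nat.cast_nonneg K
  have hΛ0 : 0 ≤ Λ := by
    rw [hΛ]
    exact Real.log_nonneg (by linarith)
  rw [← hΛ] at hθ
  have hlog : (1 : ℝ) < Real.log 4 := by
    rw [Real.lt_log_iff_exp_lt (by norm_num)]
    have := Real.exp_one_lt_d9
    linarith
  have hθm : 1 < θ * m := by linarith
  have hθ0 : 0 < θ := by
    by_contra hn
    have h1 : θ * m ≤ 0 := mul_nonpos_of_nonpos_of_nonneg (not_lt.1 hn) hm.le
    linarith
  have h6 : θ * (6 * (Λ + 1)) ≤ 1 := by
    rw [le_div_iff₀ (by positivity)] at hθ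
    exact hθ
  have hmΛ : 6 * (Λ + 1) < m := by
    by_contra hn
    have h1 : θ * m ≤ θ * (6 * (Λ + 1)) := mul_le_mul_of_nonneg_left (not_lt.1 hn) hθ0.le
    linarith
  have hθ6 : θ ≤ 1 / 6 := by
    have h1 : θ * Λ ≥ 0 := mul_nonneg hθ0.le hΛ0
    linarith
  have hkey : Λ < (1 - 3 * θ) * m := by
    have h1 : 3 * θ * m ≤ m / 2 := by
      have h2 : θ * m ≤ 1 / 6 * m := mul_le_mul_of_nonneg_right hθ6 hm.le
      linarith
    linarith
  have h1 : (4 * K + 4 : ℝ) < Real.exp ((1 - 3 * θ) * m) := by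
    rw [← Real.log_lt_iff_lt_exp (by linarith), ← hΛ]
    exact hkey
  have h2 : Real.exp (-(2 * (θ * m))) = Real.exp ((1 - 3 * θ) * m) * Real.exp (-((1 - θ) * m)) := by
    rw [← Real.exp_add]
    congr 1
    ring
  rw [h2]
  have h3 : 0 < R * Real.exp (-((1 - θ) * m)) := mul_pos (by linarith) (Real.exp_pos _)
  have h4 := mul_lt_mul_of_pos_right h1 h3
  calc 2 * ((2 * K + 2) * R * Real.exp (-((1 - θ) * m)))
      = (4 * K + 4 : ℝ) * (R * Real.exp (-((1 - θ) * m))) := by ring
    _ < Real.exp ((1 - 3 * θ) * m) * (R * Real.exp (-((1 - θ) * m))) := h4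
    _ = R * (Real.exp ((1 - 3 * θ) * m) * Real.exp (-((1 - θ) * m))) := by ring

/-- the sum for the digits `p` at `i` and `q` at `j` -/
theorem E5_sum (K : ℕ) (c : ℕ → ℚ) (z D : ℚ) {i j : ℕ} (hi : i < K) (hj : j < K) (hij : i ≠ j)
    (p q : Bool) :
    ∑ l ∈ Finset.range K, c l * (if (if l = i then p else if l = j then q else false) = true then z + D
      else z) = (∑ l ∈ Finset.range K, c l * z) + (if p = true then c i * D else 0) +
        (if q = true then c j * D else 0) := by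
  have h1 : ∀ l ∈ Finset.range K, c l * (if (if l = i then p else if l = j then q else false) = true
      then z + D else z) = c l * z + (if l = i then (if p = true then c l * D else 0) else 0) +
        (if l = j then (if q = true then c l * D else 0) else 0) := by
    intro l _
    by_cases hli : l = i
    · subst hli
      rw [if_pos rfl, if_pos rfl, if_neg hij, add_zero]
      cases p
      · simp
      · simp [mul_add]
    · rw [if_neg hli, if_neg hli]
      by_cases hlj : l = j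
      · subst hlj
        rw [if_pos rfl, if_pos rfl]
        cases q
        · simp
        · simp [mul_add]
      · rw [if_neg hlj, if_neg hlj]
        simp
  rw [Finset.sum_congr rfl h1, Finset.sum_add_distrib, Finset.sum_add_distrib,
    Finset.sum_ite_eq', Finset.sum_ite_eq', if_pos (Finset.mem_range.2 hi),
    if_pos (Finset.mem_range.2 hj)]

/-- the case distinction -/
theorem E5_cases {A : AbsoluteValue ℚ ℝ} {E : ℝ} {s z D ci cj : ℚ} (hD : 2 * E < A D)
    (h2D : 2 * E < A (2 * D)) (hci : ci = 1 ∨ ci = -1) (hcj : cj = 1 ∨ cj = -1)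
    (h : ∀ p q : Bool, ∃ b : Bool, A ((s + (if p = true then ci * D else 0) +
      (if q = true then cj * D else 0)) - (if b = true then z + D else z)) ≤ E) : False := by
  have key : ∀ x y : ℚ, A x ≤ E → A y ≤ E → A (x - y) ≤ 2 * E := by
    intro x y hx hy
    have := A.sub_le_add x y
    linarith
  have n1 : ∀ x y : ℚ, A x ≤ E → A y ≤ E → x - y = D → False := by
    intro x y hx hy hxy
    have := key x y hx hy
    rw [hxy] at this
    linarith
  have n1' : ∀ x y : ℚ, A x ≤ E → A y ≤ E → x - y = 2 * D → False := by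
    intro x y hx hy hxy
    have := key x y hx hy
    rw [hxy] at this
    linarith
  obtain ⟨b0, h0⟩ := h false false
  obtain ⟨b1, h1⟩ := h true false
  obtain ⟨b2, h2⟩ := h false true
  obtain ⟨b3, h3⟩ := h true true
  simp only [if_true, Bool.false_eq_true, if_false, add_zero] at h0 h1 h2 h3
  rcases hci with hci | hci <;> rcases hcj with hcj | hcj <;> subst hci <;> subst hcj <;>
    cases b0 <;> cases b1 <;> cases b2 <;> cases b3 <;>
    simp only [if_true, Bool.false_eq_true, if_false] at h0 h1 h2 h3 <;>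
    first
      | (refine n1 _ _ h0 h1 ?_; ring1)
      | (refine n1 _ _ h1 h0 ?_; ring1)
      | (refine n1 _ _ h0 h2 ?_; ring1)
      | (refine n1 _ _ h2 h0 ?_; ring1)
      | (refine n1 _ _ h0 h3 ?_; ring1)
      | (refine n1 _ _ h3 h0 ?_; ring1)
      | (refine n1 _ _ h1 h2 ?_; ring1)
      | (refine n1 _ _ h2 h1 ?_; ring1)
      | (refine n1 _ _ h1 h3 ?_; ring1)
      | (refine n1 _ _ h3 h1 ?_; ring1)
      | (refine n1 _ _ h2 h3 ?_; ring1)
      | (refine n1 _ _ h3 h2 ?_; ring1)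
      | (refine n1' _ _ h0 h1 ?_; ring1)
      | (refine n1' _ _ h1 h0 ?_; ring1)
      | (refine n1' _ _ h0 h2 ?_; ring1)
      | (refine n1' _ _ h2 h0 ?_; ring1)
      | (refine n1' _ _ h0 h3 ?_; ring1)
      | (refine n1' _ _ h3 h0 ?_; ring1)

/-- Let `i ≠ j`, `c i ≠ 0`, `c j ≠ 0`; `x_00, x_10, x_01, x_11 ∈ T` with the digits `(ω i, ω j)` as indicated and the other
digits (below `K`) `false` (`Full`); `z = F^i (x_00)` and `z' = F^i (x_10)`, of the classes `false`, `true`;
`ε = exp (- (1 - θ) m)`. `x ~ y` means `A (x - y) ≤ C R ε` with a constant `C = C(K)`. All elements of `S \ {a}` of the class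
`false` are `~ z`, those of the class `true` are `~ z'` (`close`), and `A (k) ≤ K + 1` for the integers in question, so
`G (x_10) - G (x_00) ~ c i (z' - z)`, `G (x_01) - G (x_00) ~ c j (z' - z)`, `G (x_11) - G (x_00) ~ (c i + c j) (z' - z)`.
`z ~ z'` is impossible (`diff`, `small_lt`), and also `2 z ~ 2 z'` (`atwo`). If `G (x_00) ~ z`: `G (x_10) ~ z + c i (z' - z)` is
`~ z` or `~ z'`, so `c i = 1`; `c j = 1`; and `G (x_11) ~ 2 z' - z` is `~ z` or `~ z'`: impossible. The same if
`G (x_00) ~ z'` (with `-1`). -/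
theorem one_tp (K : ℕ) : ∃ θ0 : ℝ, 0 < θ0 ∧
    ∀ (S : Finset ℤ) (a : ℤ) (f : PM S a 2) (A : AbsoluteValue ℚ ℝ) (R m θ : ℝ) (cl : ℤ → Bool),
      TP f A R m θ cl → θ ≤ θ0 → ∀ T ⊆ Dm S a f.ph K, Full f.ph cl K T →
      ∀ (c0 : ℚ) (c : ℕ → ℚ) (G : ℤ → ℤ), (∀ i < K, c i = 0 ∨ c i = 1 ∨ c i = -1) →
      (∀ x ∈ T, G x ∈ S ∧ G x ≠ a ∧
        ((G x : ℤ) : ℚ) = c0 + ∑ i ∈ Finset.range K, c i * ((f.ph^[i] x : ℤ) : ℚ)) →
      ∀ i < K, ∀ j < K, i ≠ j → c i ≠ 0 → c j ≠ 0 → False := by
  have hΛ0 : 0 ≤ Real.log (4 * K + 4) := by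
    have hK : (0 : ℝ) ≤ K := Nat.cast_nonneg K
    exact Real.log_nonneg (by linarith)
  refine ⟨1 / (6 * (Real.log (4 * K + 4) + 1)), by positivity, ?_⟩
  intro S a f A R m θ cl h hθ T hT hF c0 c G hc hG i hi j hj hij hci hcj
  have hsm := E5_small (K := K) h.R1 h.m0 h.four hθ
  obtain ⟨E, hE⟩ : ∃ E : ℝ, E = (2 * K + 2) * R * Real.exp (-((1 - θ) * m)) := ⟨_, rfl⟩
  rw [← hE] at hsm
  have hR : 0 < R := by linarith [h.R1]
  -- the two base points
  obtain ⟨x0, hx0T, hx0⟩ := hF (fun _ => false)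
  obtain ⟨x1, hx1T, hx1⟩ := hF (fun _ => true)
  have hz := iter_mem (hT hx0T) hi
  have hz' := iter_mem (hT hx1T) hi
  have hzc := hx0 i hi
  have hzc' := hx1 i hi
  obtain ⟨z, hzdef⟩ : ∃ z : ℤ, z = f.ph^[i] x0 := ⟨_, rfl⟩
  obtain ⟨z', hzdef'⟩ : ∃ z' : ℤ, z' = f.ph^[i] x1 := ⟨_, rfl⟩
  rw [← hzdef] at hz hzc
  rw [← hzdef'] at hz' hzc'
  obtain ⟨D, hD⟩ : ∃ D : ℚ, D = (z' : ℚ) - z := ⟨_, rfl⟩
  have hzD : (z : ℚ) + D = z' := by rw [hD]; ring
  have hAD : R * Real.exp (-(θ * m)) ≤ A D := by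
    rw [hD]
    exact h.diff z' hz'.1 z hz.1 hz'.2 hz.2 (by rw [hzc, hzc']; decide)
  have hθm : 0 ≤ θ * m := (Real.log_nonneg (by norm_num : (1 : ℝ) ≤ 4)).trans h.four
  have hA2D : R * Real.exp (-(2 * (θ * m))) ≤ A (2 * D) := by
    rw [map_mul]
    calc R * Real.exp (-(2 * (θ * m))) = Real.exp (-(θ * m)) * (R * Real.exp (-(θ * m))) := by
          rw [show (-(2 * (θ * m))) = (-(θ * m)) + (-(θ * m)) by ring, Real.exp_add]
          ring
      _ ≤ A 2 * A D := mul_le_mul h.atwo hAD (by positivity) (A.nonneg _)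
  have hAD' : R * Real.exp (-(2 * (θ * m))) ≤ A D := by
    refine le_trans ?_ hAD
    exact mul_le_mul_of_nonneg_left (Real.exp_le_exp.2 (by linarith)) hR.le
  -- every element of `S` but `a` is near `z` or `z'`
  have hnear : ∀ y ∈ S, y ≠ a →
      A ((y : ℚ) - (if cl y = true then (z : ℚ) + D else z)) ≤ 2 * R * Real.exp (-((1 - θ) * m)) := by
    intro y hy hya
    by_cases hcy : cl y = true
    · rw [if_pos hcy, hzD]
      exact h.close hy hz'.1 hya hz'.2 (hcy.trans hzc'.symm)
    · rw [if_neg hcy]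
      exact h.close hy hz.1 hya hz.2 ((Bool.eq_false_iff.2 hcy).trans hzc.symm)
  have hc1 : ∀ l < K, A (c l) ≤ 1 := by
    intro l hl
    rcases hc l hl with h0 | h0 | h0
    · rw [h0, map_zero]; exact zero_le_one
    · rw [h0, map_one]
    · rw [h0, map_neg_eq_map, map_one]
  have hE2 : 0 ≤ 2 * R * Real.exp (-((1 - θ) * m)) := by positivity
  refine E5_cases (A := A) (E := E) (s := c0 + ∑ l ∈ Finset.range K, c l * (z : ℚ)) (z := z) (D := D)
    (ci := c i) (cj := c j) (lt_of_lt_of_le hsm hAD') (lt_of_lt_of_le hsm hA2D)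
    ((hc i hi).resolve_left hci) ((hc j hj).resolve_left hcj) ?_
  intro p q
  obtain ⟨x, hxT, hx⟩ := hF (fun l => if l = i then p else if l = j then q else false)
  obtain ⟨hGS, hGa, hGx⟩ := hG x hxT
  refine ⟨cl (G x), ?_⟩
  have h1 := E5_sum K c (z : ℚ) D hi hj hij p q
  have h2 : c0 + ∑ l ∈ Finset.range K, c l * (z : ℚ) + (if p = true then c i * D else 0) +
      (if q = true then c j * D else 0) = c0 + ∑ l ∈ Finset.range K, c l *
        (if (if l = i then p else if l = j then q else false) = true then (z : ℚ) + D else z) := by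
    rw [h1]
    ring
  rw [h2]
  have h3 : A (∑ l ∈ Finset.range K, c l * (((f.ph^[l] x : ℤ) : ℚ) -
      (if (if l = i then p else if l = j then q else false) = true then (z : ℚ) + D else z))) ≤
      K * (2 * R * Real.exp (-((1 - θ) * m))) := by
    refine (A.sum_le _ _).trans ?_
    have h4 : ∀ l ∈ Finset.range K, A (c l * (((f.ph^[l] x : ℤ) : ℚ) -
      (if (if l = i then p else if l = j then q else false) = true then (z : ℚ) + D else z))) ≤
        2 * R * Real.exp (-((1 - θ) * m)) := by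
      intro l hl
      have hlK := Finset.mem_range.1 hl
      obtain ⟨hxS, hxa⟩ := iter_mem (hT hxT) hlK
      have h5 := hnear _ hxS hxa
      rw [hx l hlK] at h5
      rw [map_mul]
      calc A (c l) * A (((f.ph^[l] x : ℤ) : ℚ) -
          (if (if l = i then p else if l = j then q else false) = true then (z : ℚ) + D else z))
          ≤ 1 * (2 * R * Real.exp (-((1 - θ) * m))) :=
            mul_le_mul (hc1 l hlK) h5 (A.nonneg _) zero_le_one
        _ = 2 * R * Real.exp (-((1 - θ) * m)) := one_mul _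
    refine (Finset.sum_le_sum h4).trans ?_
    rw [Finset.sum_const, Finset.card_range, nsmul_eq_mul]
  have h6 := hnear _ hGS hGa
  have h7 : (c0 + ∑ l ∈ Finset.range K, c l *
        (if (if l = i then p else if l = j then q else false) = true then (z : ℚ) + D else z)) -
        (if cl (G x) = true then (z : ℚ) + D else z) =
      ((G x : ℚ) - (if cl (G x) = true then (z : ℚ) + D else z)) -
      (∑ l ∈ Finset.range K, c l * (((f.ph^[l] x : ℤ) : ℚ) -
      (if (if l = i then p else if l = j then q else false) = true then (z : ℚ) + D else z))) := by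
    rw [hGx]
    simp only [mul_sub, Finset.sum_sub_distrib]
    ring
  rw [h7]
  refine (A.sub_le_add _ _).trans ?_
  rw [hE]
  calc A ((G x : ℚ) - (if cl (G x) = true then (z : ℚ) + D else z)) +
      A (∑ l ∈ Finset.range K, c l * (((f.ph^[l] x : ℤ) : ℚ) -
      (if (if l = i then p else if l = j then q else false) = true then (z : ℚ) + D else z)))
      ≤ 2 * R * Real.exp (-((1 - θ) * m)) + K * (2 * R * Real.exp (-((1 - θ) * m))) :=
        add_le_add h6 h3
    _ = (2 * K + 2) * R * Real.exp (-((1 - θ) * m)) := by ring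

end F0744D
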