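import Pool.Agent.Lib.MP_f0744f_nt.D.B1

/-! # Row E6: a translation -/

set_option autoImplicit false

open Polynomial

namespace F0744D

open F0744C

theorem E6_exp {R C u v : ℝ} (hR : 0 < R) (hC : 0 < C)
    (h : R * Real.exp (-u) ≤ C * R * Real.exp (-v)) : v - u ≤ Real.log C := by
  have h1 : Real.exp (-u) ≤ C * Real.exp (-v) := by
    have h2 : R * Real.exp (-u) ≤ R * (C * Real.exp (-v)) := by
      calc R * Real.exp (-u) ≤ C * R * Real.exp (-v) := h
        _ = R * (C * Real.exp (-v)) := by ring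
    exact le_of_mul_le_mul_left h2 hR
  have h3 := Real.log_le_log (Real.exp_pos _) h1
  rw [Real.log_exp, Real.log_mul hC.ne' (Real.exp_pos _).ne', Real.log_exp] at h3
  linarith

/-- `ε = exp (- (1 - θ) m)`; `u ~ v` means `A (u - v) ≤ C R ε`, `C` a numerical constant; fixed reference points
`z, z' ∈ S \ {a}` of the classes `false`, `true`; every element of `S \ {a}` is `~ z` or `~ z'` (`close`), and `z ~ z'`,
`2 z ~ 2 z'` are impossible for small `θ` (`diff`, `atwo`, `small_lt`). For `x ∈ T` let `y = F^k (x)`, `y' = G x = y + c0`;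
`y, y' ∈ S \ {a}` and `F (y), F (y') ∈ S \ {a}` (`iter_mem`, `Dm_succ`).
Step 1. `cl y = cl y'` for all `x ∈ T`. Otherwise `A c0 ≥ R exp (- θ m)` (`diff`), so (`close`) `cl y ≠ cl y'` for all `x ∈ T`; with
`cl y = false`, then `cl y = true` (`Full`): `c0 ~ z' - z` and `c0 ~ z - z'`, so `2 z ~ 2 z'`. So `A c0 ≤ 2 R ε`.
Step 2. Suppose `A c0 > R exp (- (2 - θ') m)`. For all `x ∈ T`: `F (y') - F (y) = α c0 (y + y' - sr)` (`fdiff`), of size at least
`exp m exp (- (2 - θ') m) R exp (- θ m)` (`lead`, `same`), larger than `2 R ε`, so `F (y)`, `F (y')` are in different classes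
(`close`). Take `x_0, x_1 ∈ T` with `cl y_0 = cl y_1 = false`, `cl (F y_0) = false`, `cl (F y_1) = true` (`Full`):
`F (y_0') - F (y_0) ~ z' - z`, `F (y_1') - F (y_1) ~ z - z'`, and the difference of the two left sides is
`2 α c0 (y_0 - y_1)`, of size at most `2 (exp m / R) (2 R ε) (2 R ε) = 8 exp (θ m) R ε`. So `2 z ~ 2 z'` up to `exp (θ m)`:
impossible. -/
theorem trans_tp (k : ℕ) {θ' : ℝ} (hθ' : 0 < θ') : ∃ θ0 : ℝ, 0 < θ0 ∧
    ∀ (S : Finset ℤ) (a : ℤ) (f : PM S a 2) (A : AbsoluteValue ℚ ℝ) (R m θ : ℝ) (cl : ℤ → Bool),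
      TP f A R m θ cl → θ ≤ θ0 → ∀ T ⊆ Dm S a f.ph (k + 2), Full f.ph cl (k + 2) T →
      ∀ (c0 : ℚ) (G : ℤ → ℤ), (∀ x ∈ T, G x ∈ Dm S a f.ph 2 ∧
        ((G x : ℤ) : ℚ) = ((f.ph^[k] x : ℤ) : ℚ) + c0) →
      A c0 ≤ R * Real.exp (-((2 - θ') * m)) := by
  refine ⟨min (1 / 100) (θ' / 10), lt_min (by norm_num) (by positivity), ?_⟩
  intro S a f A R m θ cl h hθ T hT hfull c0 G hG
  have hθ1 : θ ≤ 1 / 100 := hθ.trans (min_le_left _ _)
  have hθ2 : θ ≤ θ' / 10 := hθ.trans (min_le_right _ _)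
  have hR : 0 < R := by linarith [h.R1]
  have hm := h.m0
  have hl2 : 0 < Real.log 2 := Real.log_pos (by norm_num)
  have hl4 : Real.log 4 = 2 * Real.log 2 := by
    rw [show (4 : ℝ) = 2 ^ 2 by norm_num, Real.log_pow]
    norm_num
  have hl12 : Real.log 12 ≤ 4 * Real.log 2 := by
    rw [show 4 * Real.log 2 = Real.log (2 ^ 4) by rw [Real.log_pow]; norm_num]
    exact Real.log_le_log (by norm_num) (by norm_num)
  have hθm : Real.log 4 ≤ θ * m := h.four
  have hm100 : 200 * Real.log 2 ≤ m := by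
    have h1 : θ * m ≤ 1 / 100 * m := mul_le_mul_of_nonneg_right hθ1 hm.le
    linarith
  have hθ0 : 0 < θ := by
    by_contra hc
    push Not at hc
    have : θ * m ≤ 0 := mul_nonpos_of_nonpos_of_nonneg hc hm.le
    linarith
  -- the points
  have hY : ∀ x ∈ T, (f.ph^[k] x ∈ S ∧ f.ph^[k] x ≠ a) ∧
      (f.ph (f.ph^[k] x) ∈ S ∧ f.ph (f.ph^[k] x) ≠ a) := by
    intro x hx
    have h1 := iter_Dm (i := k) (J := 2) (hT hx)
    exact ⟨iter_mem h1 (i := 0) (by norm_num), iter_mem h1 (i := 1) (by norm_num)⟩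
  have hY' : ∀ x ∈ T, (G x ∈ S ∧ G x ≠ a) ∧ (f.ph (G x) ∈ S ∧ f.ph (G x) ≠ a) := by
    intro x hx
    have h1 := (hG x hx).1
    exact ⟨iter_mem h1 (i := 0) (by norm_num), iter_mem h1 (i := 1) (by norm_num)⟩
  have hc0 : ∀ x ∈ T, c0 = ((G x : ℤ) : ℚ) - ((f.ph^[k] x : ℤ) : ℚ) := by
    intro x hx
    rw [(hG x hx).2]
    ring
  have hA2 : A 2 ≤ 2 := by
    have h1 := A.add_le 1 1
    rw [map_one] at h1
    have h2 : (1 : ℚ) + 1 = 2 := by norm_num
    rw [h2] at h1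
    linarith
  have hA20 : 0 ≤ A 2 := A.nonneg _
  -- step 1
  have step1 : ∀ x ∈ T, cl (f.ph^[k] x) = cl (G x) := by
    by_contra hcon
    push Not at hcon
    obtain ⟨x, hx, hne⟩ := hcon
    have hbig : R * Real.exp (-(θ * m)) ≤ A c0 := by
      have h1 := h.diff (G x) (hY' x hx).1.1 (f.ph^[k] x) (hY x hx).1.1 (hY' x hx).1.2
        (hY x hx).1.2 (Ne.symm hne)
      rwa [← hc0 x hx] at h1
    have hall : ∀ x ∈ T, cl (f.ph^[k] x) ≠ cl (G x) := by
      intro z hz heq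
      have h1 := h.close (hY' z hz).1.1 (hY z hz).1.1 (hY' z hz).1.2 (hY z hz).1.2 heq.symm
      rw [← hc0 z hz] at h1
      have h2 := E6_exp hR (by norm_num : (0 : ℝ) < 2) (hbig.trans h1)
      have h3 : (1 - θ) * m - θ * m = m - 2 * (θ * m) := by ring
      have h4 : θ * m ≤ 1 / 100 * m := mul_le_mul_of_nonneg_right hθ1 hm.le
      linarith
    obtain ⟨x0, hx0, hf0⟩ := hfull fun _ => false
    obtain ⟨x1, hx1, hf1⟩ := hfull fun _ => true
    have a0 : cl (f.ph^[k] x0) = false := hf0 k (by omega)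
    have a1 : cl (f.ph^[k] x1) = true := hf1 k (by omega)
    have b0 : cl (G x0) = true := by
      have := hall x0 hx0
      rw [a0] at this
      cases hb : cl (G x0)
      · exact absurd hb.symm this
      · rfl
    have b1 : cl (G x1) = false := by
      have := hall x1 hx1
      rw [a1] at this
      cases hb : cl (G x1)
      · rfl
      · exact absurd hb.symm this
    have h1 := h.close (hY' x0 hx0).1.1 (hY x1 hx1).1.1 (hY' x0 hx0).1.2 (hY x1 hx1).1.2
      (b0.trans a1.symm)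
    have h2 := h.close (hY' x1 hx1).1.1 (hY x0 hx0).1.1 (hY' x1 hx1).1.2 (hY x0 hx0).1.2
      (b1.trans a0.symm)
    have h3 : 2 * c0 = (((G x0 : ℤ) : ℚ) - ((f.ph^[k] x1 : ℤ) : ℚ)) +
        (((G x1 : ℤ) : ℚ) - ((f.ph^[k] x0 : ℤ) : ℚ)) := by
      have e0 := hc0 x0 hx0
      have e1 := hc0 x1 hx1
      linear_combination e0 + e1
    have h4 : A (2 * c0) ≤ 4 * R * Real.exp (-((1 - θ) * m)) := by
      rw [h3]
      refine (A.add_le _ _).trans ?_
      linarith
    rw [map_mul] at h4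
    have h5 : R * Real.exp (-(2 * (θ * m))) ≤ A 2 * A c0 := by
      have e : R * Real.exp (-(2 * (θ * m))) =
          Real.exp (-(θ * m)) * (R * Real.exp (-(θ * m))) := by
        rw [show -(2 * (θ * m)) = -(θ * m) + -(θ * m) by ring, Real.exp_add]
        ring
      rw [e]
      exact mul_le_mul h.atwo hbig (by positivity) hA20
    have h6 := E6_exp hR (by norm_num : (0 : ℝ) < 4) (h5.trans h4)
    have h7 : (1 - θ) * m - 2 * (θ * m) = m - 3 * (θ * m) := by ring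
    have h8 : θ * m ≤ 1 / 100 * m := mul_le_mul_of_nonneg_right hθ1 hm.le
    linarith
  -- the bound of step 1
  have hA0 : A c0 ≤ 2 * R * Real.exp (-((1 - θ) * m)) := by
    obtain ⟨x0, hx0, -⟩ := hfull fun _ => false
    have h1 := h.close (hY' x0 hx0).1.1 (hY x0 hx0).1.1 (hY' x0 hx0).1.2 (hY x0 hx0).1.2
      (step1 x0 hx0).symm
    rwa [← hc0 x0 hx0] at h1
  -- step 2
  by_contra hcon
  push Not at hcon
  have hc0pos : 0 < A c0 := lt_trans (by positivity) hcon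
  have hval : ∀ x ∈ T, ((f.ph (G x) : ℤ) : ℚ) - ((f.ph (f.ph^[k] x) : ℤ) : ℚ) =
      f.F.leadingCoeff * c0 * (((G x : ℤ) : ℚ) + ((f.ph^[k] x : ℤ) : ℚ) - sr f.F) := by
    intro x hx
    rw [f.val _ (hY' x hx).1.1 (hY' x hx).1.2, f.val _ (hY x hx).1.1 (hY x hx).1.2,
      fdiff f.deg, ← hc0 x hx]
  have hcl : ∀ x ∈ T, cl (f.ph (G x)) ≠ cl (f.ph (f.ph^[k] x)) := by
    intro x hx heq
    have h1 := h.close (hY' x hx).2.1 (hY x hx).2.1 (hY' x hx).2.2 (hY x hx).2.2 heq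
    rw [hval x hx, map_mul, map_mul, h.lead] at h1
    have h2 := h.same (G x) (hY' x hx).1.1 (f.ph^[k] x) (hY x hx).1.1 (hY' x hx).1.2
      (hY x hx).1.2 (step1 x hx).symm
    have h3 : R * Real.exp (-((1 - θ') * m + θ * m)) ≤ Real.exp m / R * A c0 *
        A (((G x : ℤ) : ℚ) + ((f.ph^[k] x : ℤ) : ℚ) - sr f.F) := by
      have e : R * Real.exp (-((1 - θ') * m + θ * m)) =
          Real.exp m / R * (R * Real.exp (-((2 - θ') * m))) * (R * Real.exp (-(θ * m))) := by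
        have e1 : -((1 - θ') * m + θ * m) = m + -((2 - θ') * m) + -(θ * m) := by ring
        rw [e1, Real.exp_add, Real.exp_add]
        field_simp
      rw [e]
      gcongr
    have h4 := E6_exp hR (by norm_num : (0 : ℝ) < 2) (h3.trans h1)
    have h5 : (1 - θ) * m - ((1 - θ') * m + θ * m) = θ' * m - 2 * (θ * m) := by ring
    have h6 : θ * m ≤ θ' / 10 * m := mul_le_mul_of_nonneg_right hθ2 hm.le
    have h7 : θ' / 10 * m = θ' * m / 10 := by ring
    linarith
  obtain ⟨x0, hx0, hf0⟩ := hfull fun _ => false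
  obtain ⟨x1, hx1, hf1⟩ := hfull fun i => decide (i = k + 1)
  have a0 : cl (f.ph^[k] x0) = false := hf0 k (by omega)
  have a1 : cl (f.ph^[k] x1) = false := by
    rw [hf1 k (by omega)]
    exact decide_eq_false (by omega)
  have c0' : cl (f.ph (f.ph^[k] x0)) = false := by
    have := hf0 (k + 1) (by omega)
    rwa [Function.iterate_succ_apply'] at this
  have c1' : cl (f.ph (f.ph^[k] x1)) = true := by
    have := hf1 (k + 1) (by omega)
    rw [Function.iterate_succ_apply'] at this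
    rw [this]
    exact decide_eq_true rfl
  have d0 : cl (f.ph (G x0)) = true := by
    have := hcl x0 hx0
    rw [c0'] at this
    cases hb : cl (f.ph (G x0))
    · exact absurd hb this
    · rfl
  have d1 : cl (f.ph (G x1)) = false := by
    have := hcl x1 hx1
    rw [c1'] at this
    cases hb : cl (f.ph (G x1))
    · rfl
    · exact absurd hb this
  obtain ⟨u0, hu0⟩ : ∃ u0 : ℚ, u0 = ((f.ph (G x0) : ℤ) : ℚ) - ((f.ph (f.ph^[k] x0) : ℤ) : ℚ) :=
    ⟨_, rfl⟩
  obtain ⟨u1, hu1⟩ : ∃ u1 : ℚ, u1 = ((f.ph (G x1) : ℤ) : ℚ) - ((f.ph (f.ph^[k] x1) : ℤ) : ℚ) :=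
    ⟨_, rfl⟩
  have k1 := h.close (hY' x0 hx0).2.1 (hY x1 hx1).2.1 (hY' x0 hx0).2.2 (hY x1 hx1).2.2
    (d0.trans c1'.symm)
  have k2 := h.close (hY' x1 hx1).2.1 (hY x0 hx0).2.1 (hY' x1 hx1).2.2 (hY x0 hx0).2.2
    (d1.trans c0'.symm)
  have k3 : A (u0 + u1) ≤ 4 * R * Real.exp (-((1 - θ) * m)) := by
    have e : u0 + u1 = (((f.ph (G x0) : ℤ) : ℚ) - ((f.ph (f.ph^[k] x1) : ℤ) : ℚ)) +
        (((f.ph (G x1) : ℤ) : ℚ) - ((f.ph (f.ph^[k] x0) : ℤ) : ℚ)) := by
      rw [hu0, hu1]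
      ring
    rw [e]
    refine (A.add_le _ _).trans ?_
    linarith
  have k4 : u0 - u1 = 2 * (f.F.leadingCoeff * c0 *
      (((f.ph^[k] x0 : ℤ) : ℚ) - ((f.ph^[k] x1 : ℤ) : ℚ))) := by
    rw [hu0, hu1, hval x0 hx0, hval x1 hx1, (hG x0 hx0).2, (hG x1 hx1).2]
    ring
  have k5 := h.close (hY x0 hx0).1.1 (hY x1 hx1).1.1 (hY x0 hx0).1.2 (hY x1 hx1).1.2
    (a0.trans a1.symm)
  have k6 : A (u0 - u1) ≤ 8 * R * Real.exp (-((1 - 2 * θ) * m)) := by
    rw [k4, map_mul, map_mul, map_mul, h.lead]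
    calc A 2 * (Real.exp m / R * A c0 * A (((f.ph^[k] x0 : ℤ) : ℚ) - ((f.ph^[k] x1 : ℤ) : ℚ)))
        ≤ 2 * (Real.exp m / R * (2 * R * Real.exp (-((1 - θ) * m))) *
            (2 * R * Real.exp (-((1 - θ) * m)))) := by gcongr
      _ = 8 * R * Real.exp (-((1 - 2 * θ) * m)) := by
          have e1 : -((1 - 2 * θ) * m) = m + -((1 - θ) * m) + -((1 - θ) * m) := by ring
          rw [e1, Real.exp_add, Real.exp_add]
          field_simp
          ring
  have k7 : A (2 * u0) ≤ 12 * R * Real.exp (-((1 - 2 * θ) * m)) := by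
    have e : 2 * u0 = (u0 + u1) + (u0 - u1) := by ring
    rw [e]
    refine (A.add_le _ _).trans ?_
    have h1 : Real.exp (-((1 - θ) * m)) ≤ Real.exp (-((1 - 2 * θ) * m)) := by
      rw [Real.exp_le_exp]
      have : 0 ≤ θ * m := by positivity
      linarith
    have h2 : 4 * R * Real.exp (-((1 - θ) * m)) ≤ 4 * R * Real.exp (-((1 - 2 * θ) * m)) := by
      gcongr
    linarith
  rw [map_mul] at k7
  have k8 : R * Real.exp (-(θ * m)) ≤ A u0 := by
    rw [hu0]
    exact h.diff _ (hY' x0 hx0).2.1 _ (hY x0 hx0).2.1 (hY' x0 hx0).2.2 (hY x0 hx0).2.2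
      (by rw [d0, c0']; exact Bool.noConfusion)
  have k9 : R * Real.exp (-(2 * (θ * m))) ≤ A 2 * A u0 := by
    have e : R * Real.exp (-(2 * (θ * m))) =
        Real.exp (-(θ * m)) * (R * Real.exp (-(θ * m))) := by
      rw [show -(2 * (θ * m)) = -(θ * m) + -(θ * m) by ring, Real.exp_add]
      ring
    rw [e]
    exact mul_le_mul h.atwo k8 (by positivity) hA20
  have k10 := E6_exp hR (by norm_num : (0 : ℝ) < 12) (k9.trans k7)
  have k11 : (1 - 2 * θ) * m - 2 * (θ * m) = m - 4 * (θ * m) := by ring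
  have k12 : θ * m ≤ 1 / 100 * m := mul_le_mul_of_nonneg_right hθ1 hm.le
  linarith

end F0744D
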