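import Pool.Agent.Lib.MP_f0744f_nt.D.B1

/-! # Row E7: a reflection -/

set_option autoImplicit false

open Polynomial

namespace F0744D

open F0744C

/-- Notation as in row E6 (`E6.lean`): `ε = exp (- (1 - θ) m)`, `u ~ v` means `A (u - v) ≤ C R ε`, `z, z' ∈ S \ {a}` of the classes
`false`, `true`; `z ~ z'`, `2 z ~ 2 z'` are impossible. For `x ∈ T`: `y = F^k (x)`, `y' = G x = c0 - y`, `τ = c0 - sr`.
Step 1. `cl y ≠ cl y'` for all `x ∈ T`. If for some `x` both are of the class of `z_1` (one of `z, z'`; let `z_2` be the other), then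
`c0 = y + y' ~ 2 z_1`; a point with `y ~ z_2` (`Full`) has `y' ~ 2 z_1 - z_2`, which must be `~ z_1` (then `z_1 ~ z_2`) or
`~ z_2` (then `2 z_1 ~ 2 z_2`): impossible. So by `opp` `A τ = A (y + y' - sr) ≤ 2 R ε`.
Step 2. Suppose `A τ > R exp (- (2 - θ') m)`. `F (y') - F (y) = α (y' - y) τ` (`fdiff`), of size at least
`exp m exp (- (2 - θ') m) R exp (- θ m)` (`lead`, `diff`), larger than `2 R ε`, so `F (y)`, `F (y')` are in different classes.
Take `x_0, x_1 ∈ T` with `cl y_0 = cl y_1 = false`, `cl (F y_0) = false`, `cl (F y_1) = true`: the difference of the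
`F (y') - F (y) = α (c0 - 2 y) τ` is `- 2 α τ (y_0 - y_1)`, of size at most `8 exp (θ m) R ε`, but `F (y_0') - F (y_0) ~ z' - z` and
`F (y_1') - F (y_1) ~ z - z'`: impossible. -/
theorem refl_tp (k : ℕ) {θ' : ℝ} (hθ' : 0 < θ') : ∃ θ0 : ℝ, 0 < θ0 ∧
    ∀ (S : Finset ℤ) (a : ℤ) (f : PM S a 2) (A : AbsoluteValue ℚ ℝ) (R m θ : ℝ) (cl : ℤ → Bool),
      TP f A R m θ cl → θ ≤ θ0 → ∀ T ⊆ Dm S a f.ph (k + 2), Full f.ph cl (k + 2) T →
      ∀ (c0 : ℚ) (G : ℤ → ℤ), (∀ x ∈ T, G x ∈ Dm S a f.ph 2 ∧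
        ((G x : ℤ) : ℚ) = c0 - ((f.ph^[k] x : ℤ) : ℚ)) →
      A (c0 - sr f.F) ≤ R * Real.exp (-((2 - θ') * m)) := by
  refine ⟨min (1 / 20) (θ' / 3), by positivity, ?_⟩
  intro S a f A R m θ cl h hθ T hT hF c0 G hG
  have hR : 0 < R := lt_of_lt_of_le one_pos h.R1
  have hm := h.m0
  have hθ1 : θ ≤ 1 / 20 := hθ.trans (min_le_left _ _)
  have hθ2 : θ ≤ θ' / 3 := hθ.trans (min_le_right _ _)
  obtain ⟨E, hE⟩ : ∃ E, E = Real.exp (θ * m) := ⟨_, rfl⟩
  obtain ⟨M, hM⟩ : ∃ M, M = Real.exp m := ⟨_, rfl⟩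
  obtain ⟨W, hW⟩ : ∃ W, W = Real.exp (θ' * m) := ⟨_, rfl⟩
  have E4 : 4 ≤ E := by
    have h4 := Real.exp_le_exp.mpr h.four
    rw [Real.exp_log (by norm_num)] at h4
    rw [hE]; exact h4
  have E0 : 0 < E := by linarith
  have M0 : 0 < M := by rw [hM]; exact Real.exp_pos _
  have ME : E ^ 20 ≤ M := by
    rw [hE, hM, ← Real.exp_nat_mul]
    refine Real.exp_le_exp.mpr ?_
    push_cast
    nlinarith
  have WE : E ^ 3 ≤ W := by
    rw [hE, hW, ← Real.exp_nat_mul]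
    refine Real.exp_le_exp.mpr ?_
    push_cast
    nlinarith
  have M12 : 12 * E ^ 4 < M := by
    have h16 : (4 : ℝ) ^ 16 ≤ E ^ 16 := pow_le_pow_left₀ (by norm_num) E4 16
    have h20 : E ^ 20 = E ^ 4 * E ^ 16 := by ring
    have hp : 0 < E ^ 4 := by positivity
    nlinarith
  have e1 : Real.exp (-(θ * m)) = E⁻¹ := by rw [hE, Real.exp_neg]
  have e2 : Real.exp (-((1 - θ) * m)) = E / M := by
    rw [hE, hM, ← Real.exp_sub]; congr 1; ring
  have e3 : Real.exp (-((2 - θ') * m)) = W / M ^ 2 := by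
    rw [hW, hM, ← Real.exp_nat_mul, ← Real.exp_sub]; congr 1; push_cast; ring
  have hclose : ∀ {x y : ℤ}, (x ∈ S ∧ x ≠ a) → (y ∈ S ∧ y ≠ a) → cl x = cl y →
      A ((x : ℚ) - y) ≤ 2 * R * (E / M) := by
    intro x y hx hy hc
    have := h.close hx.1 hy.1 hx.2 hy.2 hc
    rwa [e2] at this
  have hdiff : ∀ {x y : ℤ}, (x ∈ S ∧ x ≠ a) → (y ∈ S ∧ y ≠ a) → cl x ≠ cl y →
      R * E⁻¹ ≤ A ((x : ℚ) - y) := by
    intro x y hx hy hc
    have := h.diff x hx.1 y hy.1 hx.2 hy.2 hc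
    rwa [e1] at this
  have h2lo : E⁻¹ ≤ A 2 := by rw [← e1]; exact h.atwo
  have h2hi : A 2 ≤ 2 := by
    have := A.add_le 1 1
    rw [map_one] at this
    norm_num at this
    exact this
  have hlead : A f.F.leadingCoeff = M / R := by rw [hM]; exact h.lead
  -- the points
  have Y : ∀ x ∈ T, f.ph^[k] x ∈ S ∧ f.ph^[k] x ≠ a := fun x hx =>
    iter_mem (hT hx) (by omega)
  have Z : ∀ x ∈ T, f.ph (f.ph^[k] x) ∈ S ∧ f.ph (f.ph^[k] x) ≠ a := fun x hx => by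
    have := iter_mem (i := k + 1) (hT hx) (by omega)
    rwa [Function.iterate_succ_apply'] at this
  have Y' : ∀ x ∈ T, G x ∈ S ∧ G x ≠ a := fun x hx => by
    have := iter_mem (i := 0) (hG x hx).1 (by omega)
    simpa using this
  have Z' : ∀ x ∈ T, f.ph (G x) ∈ S ∧ f.ph (G x) ≠ a := fun x hx => by
    have := iter_mem (i := 1) (hG x hx).1 (by omega)
    simpa using this
  -- small numbers
  have key1 : 2 * R * (E / M) < R * E⁻¹ := by
    rw [← sub_pos]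
    have : R * E⁻¹ - 2 * R * (E / M) = R * (M - 2 * E ^ 2) / (E * M) := by
      field_simp
    rw [this]
    have h24 : E ^ 2 ≤ E ^ 4 := pow_le_pow_right₀ (by linarith) (by norm_num)
    have h4p : 0 < E ^ 4 := by positivity
    have : 2 * E ^ 2 < M := by linarith
    have : 0 < M - 2 * E ^ 2 := by linarith
    positivity
  have key2 : 8 * R * (E ^ 2 / M) + 4 * R * (E / M) < R * E⁻¹ * E⁻¹ := by
    rw [← sub_pos]
    have : R * E⁻¹ * E⁻¹ - (8 * R * (E ^ 2 / M) + 4 * R * (E / M)) =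
        R * (M - (8 * E ^ 4 + 4 * E ^ 3)) / (E ^ 2 * M) := by
      field_simp
    rw [this]
    have h3 : E ^ 3 ≤ E ^ 4 := pow_le_pow_right₀ (by linarith) (by norm_num)
    have : 0 < M - (8 * E ^ 4 + 4 * E ^ 3) := by linarith
    positivity
  have two_lo : ∀ {x y : ℤ}, (x ∈ S ∧ x ≠ a) → (y ∈ S ∧ y ≠ a) → cl x ≠ cl y →
      R * E⁻¹ * E⁻¹ ≤ A (2 * ((x : ℚ) - y)) := by
    intro x y hx hy hc
    rw [map_mul]
    have h1 := hdiff hx hy hc
    have hE' : 0 < E⁻¹ := inv_pos.mpr E0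
    calc R * E⁻¹ * E⁻¹ = E⁻¹ * (R * E⁻¹) := by ring
      _ ≤ A 2 * A ((x : ℚ) - y) := by gcongr
  -- step 1
  have step1 : ∀ x ∈ T, cl (f.ph^[k] x) ≠ cl (G x) := by
    intro x hx hc
    obtain ⟨x2, hx2, hw⟩ := hF (fun _ => !(cl (f.ph^[k] x)))
    have hc2 : cl (f.ph^[k] x2) = !(cl (f.ph^[k] x)) := hw k (by omega)
    have hne : cl (f.ph^[k] x2) ≠ cl (f.ph^[k] x) := by rw [hc2]; simp
    have g1 := (hG x hx).2
    have g2 := (hG x2 hx2).2
    by_cases hq : cl (G x2) = cl (G x)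
    · have t1 := hclose (Y' x hx) (Y' x2 hx2) hq.symm
      have t2 := hdiff (Y x2 hx2) (Y x hx) hne
      have : ((f.ph^[k] x2 : ℤ) : ℚ) - (f.ph^[k] x : ℤ) = (G x : ℚ) - G x2 := by
        rw [g1, g2]; ring
      rw [this] at t2
      linarith
    · have hq' : cl (G x2) = cl (f.ph^[k] x2) := by
        rw [hc2, hc]
        cases h1 : cl (G x2) <;> cases h2 : cl (G x) <;> simp_all
      have t1 := hclose (Y x hx) (Y' x hx) hc
      have t2 := hclose (Y' x2 hx2) (Y x2 hx2) hq'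
      have t3 := two_lo (Y x hx) (Y x2 hx2) (fun hh => hne hh.symm)
      have : 2 * (((f.ph^[k] x : ℤ) : ℚ) - (f.ph^[k] x2 : ℤ)) =
          (((f.ph^[k] x : ℤ) : ℚ) - (G x : ℤ)) + ((G x2 : ℚ) - (f.ph^[k] x2 : ℤ)) := by
        rw [g1, g2]; ring
      rw [this] at t3
      have t4 := A.add_le (((f.ph^[k] x : ℤ) : ℚ) - (G x : ℤ)) ((G x2 : ℚ) - (f.ph^[k] x2 : ℤ))
      have : 0 ≤ 8 * R * (E ^ 2 / M) := by positivity
      linarith
  -- the size of `τ`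
  have hτ : A (c0 - sr f.F) ≤ 2 * R * (E / M) := by
    obtain ⟨x, hx, -⟩ := hF (fun _ => false)
    have h1 := h.opp (Y x hx).1 (Y' x hx).1 (Y x hx).2 (Y' x hx).2 (step1 x hx)
    rw [e2, (hG x hx).2] at h1
    have : ((f.ph^[k] x : ℤ) : ℚ) + (c0 - ((f.ph^[k] x : ℤ) : ℚ)) - sr f.F = c0 - sr f.F := by ring
    rwa [this] at h1
  by_contra hcon
  push Not at hcon
  rw [e3] at hcon
  have hd : ∀ x ∈ T, ((f.ph (G x) : ℤ) : ℚ) - (f.ph (f.ph^[k] x) : ℤ) =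
      f.F.leadingCoeff * (c0 - 2 * (f.ph^[k] x : ℤ)) * (c0 - sr f.F) := by
    intro x hx
    rw [f.val _ (Y' x hx).1 (Y' x hx).2, f.val _ (Y x hx).1 (Y x hx).2, fdiff f.deg,
      (hG x hx).2]
    ring
  have step2 : ∀ x ∈ T, cl (f.ph (G x)) ≠ cl (f.ph (f.ph^[k] x)) := by
    intro x hx hc
    have t1 := hclose (Z' x hx) (Z x hx) hc
    have t2 := hdiff (Y' x hx) (Y x hx) (fun hh => step1 x hx hh.symm)
    have t3 : ((G x : ℤ) : ℚ) - (f.ph^[k] x : ℤ) = c0 - 2 * (f.ph^[k] x : ℤ) := by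
      rw [(hG x hx).2]; ring
    rw [t3] at t2
    rw [hd x hx, map_mul, map_mul, hlead] at t1
    have t4 : M / R * (R * E⁻¹) * (R * (W / M ^ 2)) < 2 * R * (E / M) := by
      refine lt_of_lt_of_le ?_ t1
      have hpos : 0 < M / R * (R * E⁻¹) := by positivity
      calc M / R * (R * E⁻¹) * (R * (W / M ^ 2)) < M / R * (R * E⁻¹) * A (c0 - sr f.F) :=
            mul_lt_mul_of_pos_left hcon hpos
        _ ≤ M / R * A (c0 - 2 * (f.ph^[k] x : ℤ)) * A (c0 - sr f.F) := by gcongr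
    have t5 : M / R * (R * E⁻¹) * (R * (W / M ^ 2)) = R * W / (E * M) := by
      field_simp
    have t6 : 2 * R * (E / M) = R * (2 * E ^ 2) / (E * M) := by
      field_simp
    rw [t5, t6, div_lt_div_iff_of_pos_right (by positivity)] at t4
    have t7 : W < 2 * E ^ 2 := lt_of_mul_lt_mul_left t4 hR.le
    have t8 : E ^ 3 = E * E ^ 2 := by ring
    nlinarith [pow_pos E0 2]
  obtain ⟨x0, hx0, hw0⟩ := hF (fun _ => false)
  obtain ⟨x1, hx1, hw1⟩ := hF (fun i => decide (i = k + 1))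
  have a0 : cl (f.ph^[k] x0) = false := hw0 k (by omega)
  have b0 : cl (f.ph (f.ph^[k] x0)) = false := by
    have := hw0 (k + 1) (by omega)
    rwa [Function.iterate_succ_apply'] at this
  have a1 : cl (f.ph^[k] x1) = false := by
    have := hw1 k (by omega)
    simpa using this
  have b1 : cl (f.ph (f.ph^[k] x1)) = true := by
    have := hw1 (k + 1) (by omega)
    rw [Function.iterate_succ_apply'] at this
    simpa using this
  have c0' : cl (f.ph (G x0)) = true := by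
    have := step2 x0 hx0
    rw [b0] at this
    simpa using this
  have c1' : cl (f.ph (G x1)) = false := by
    have := step2 x1 hx1
    rw [b1] at this
    simpa using this
  have u1 := hclose (Y x0 hx0) (Y x1 hx1) (a0.trans a1.symm)
  have u2 := hclose (Z x1 hx1) (Z' x0 hx0) (b1.trans c0'.symm)
  have u3 := hclose (Z' x1 hx1) (Z x0 hx0) (c1'.trans b0.symm)
  have u4 := two_lo (Z x1 hx1) (Z x0 hx0) (by rw [b1, b0]; simp)
  have u5 : 2 * (((f.ph (f.ph^[k] x1) : ℤ) : ℚ) - (f.ph (f.ph^[k] x0) : ℤ)) =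
      (-(2 * f.F.leadingCoeff * (c0 - sr f.F) * (((f.ph^[k] x0 : ℤ) : ℚ) - (f.ph^[k] x1 : ℤ)))) +
      ((((f.ph (f.ph^[k] x1) : ℤ) : ℚ) - (f.ph (G x0) : ℤ)) +
        (((f.ph (G x1) : ℤ) : ℚ) - (f.ph (f.ph^[k] x0) : ℤ))) := by
    have d0 := hd x0 hx0
    have d1 := hd x1 hx1
    linear_combination d0 - d1
  rw [u5] at u4
  have u6 := A.add_le (-(2 * f.F.leadingCoeff * (c0 - sr f.F) *
      (((f.ph^[k] x0 : ℤ) : ℚ) - (f.ph^[k] x1 : ℤ))))
      ((((f.ph (f.ph^[k] x1) : ℤ) : ℚ) - (f.ph (G x0) : ℤ)) +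
        (((f.ph (G x1) : ℤ) : ℚ) - (f.ph (f.ph^[k] x0) : ℤ)))
  have u7 := A.add_le (((f.ph (f.ph^[k] x1) : ℤ) : ℚ) - (f.ph (G x0) : ℤ))
      (((f.ph (G x1) : ℤ) : ℚ) - (f.ph (f.ph^[k] x0) : ℤ))
  have u8 : A (-(2 * f.F.leadingCoeff * (c0 - sr f.F) *
      (((f.ph^[k] x0 : ℤ) : ℚ) - (f.ph^[k] x1 : ℤ)))) ≤ 8 * R * (E ^ 2 / M) := by
    rw [A.map_neg, map_mul, map_mul, map_mul, hlead]
    calc A 2 * (M / R) * A (c0 - sr f.F) * A (((f.ph^[k] x0 : ℤ) : ℚ) - (f.ph^[k] x1 : ℤ))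
        ≤ 2 * (M / R) * (2 * R * (E / M)) * (2 * R * (E / M)) := by gcongr
      _ = 8 * R * (E ^ 2 / M) := by field_simp; ring
  linarith

end F0744D
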