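import Pool.Agent.Lib.MP_f0744f_nt.C.G3a
import Pool.Agent.Lib.MP_f0744f_nt.D.Defs

/-! # Row G0: the places with too much energy -/

set_option autoImplicit false

open Polynomial

namespace F0744D

open F0744C

/-- Real arithmetic. `N` = the `p ∈ P` with `(1 + η) Q M p < E p`, `X = ∑_N E p ≥ (1 + η) Q ∑_N M p`. By `hE`, `h1`, `h2`, `h3`:
`Q Λ ≥ X + (1 - ε) Q (Λ - ∑_N M p) - ε Q Λ ≥ X + (1 - ε) Q Λ - (1 - ε) X / (1 + η) - ε Q Λ`, so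
`X (η + ε) / (1 + η) ≤ 2 ε Q Λ`, `X ≤ 4 ε / η Q Λ ≤ κ / 8 Q Λ`. -/
theorem nt_one {ι : Type} [DecidableEq ι] (P : Finset ι) (E M : ι → ℝ)
    {E0 M0 Q Λ ε η κ : ℝ} (hQ : 0 < Q) (hΛ : 0 < Λ) (hε : 0 < ε) (hη : 0 < η) (hη1 : η ≤ 1 / 2)
    (h : 32 * ε ≤ η * κ) (hκ : κ ≤ 1 / 32)
    (hE : ∑ p ∈ P, E p + E0 ≤ Q * Λ) (hM : ∀ p ∈ P, 0 ≤ M p)
    (h1 : ∀ p ∈ P, (1 - ε) * Q * M p ≤ E p)
    (h2 : (1 - ε) * Q * max 0 M0 - ε * Q * Λ ≤ E0) (h3 : Λ ≤ ∑ p ∈ P, M p + M0) {N : Finset ι}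
    (hN : ∀ p, p ∈ N ↔ p ∈ P ∧ (1 + η) * Q * M p < E p) :
    ∑ p ∈ N, E p ≤ κ / 4 * Q * Λ := by
  have hκ0 : 0 < κ := by
    by_contra hc
    push Not at hc
    nlinarith
  have hε1 : ε ≤ 1 / 2 := by nlinarith
  have hNP : N ⊆ P := fun p hp => ((hN p).1 hp).1
  obtain ⟨X, hX⟩ : ∃ X : ℝ, X = ∑ p ∈ N, E p := ⟨_, rfl⟩
  obtain ⟨Y, hY⟩ : ∃ Y : ℝ, Y = ∑ p ∈ N, M p := ⟨_, rfl⟩
  rw [← hX]
  have hXY : (1 + η) * Q * Y ≤ X := by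
    rw [hX, hY, Finset.mul_sum]
    exact Finset.sum_le_sum fun p hp => ((hN p).1 hp).2.le
  have hX0 : 0 ≤ X := by
    rw [hX]
    refine Finset.sum_nonneg fun p hp => ?_
    refine le_trans ?_ (h1 p (hNP hp))
    exact mul_nonneg (mul_nonneg (by linarith) hQ.le) (hM p (hNP hp))
  have hEs : ∑ p ∈ P, E p = ∑ p ∈ P \ N, E p + X := by
    rw [hX, Finset.sum_sdiff hNP]
  have hMs : ∑ p ∈ P, M p = ∑ p ∈ P \ N, M p + Y := by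
    rw [hY, Finset.sum_sdiff hNP]
  have hrest : (1 - ε) * Q * ∑ p ∈ P \ N, M p ≤ ∑ p ∈ P \ N, E p := by
    rw [Finset.mul_sum]
    exact Finset.sum_le_sum fun p hp => h1 p (Finset.mem_sdiff.1 hp).1
  have hM0 : (1 - ε) * Q * M0 ≤ (1 - ε) * Q * max 0 M0 :=
    mul_le_mul_of_nonneg_left (le_max_right _ _) (mul_nonneg (by linarith) hQ.le)
  have hlow : (1 - ε) * Q * Λ ≤ (1 - ε) * Q * (∑ p ∈ P \ N, M p + Y + M0) := by
    apply mul_le_mul_of_nonneg_left _ (mul_nonneg (by linarith) hQ.le)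
    rw [← hMs]
    exact h3
  have hmain : X ≤ 2 * ε * (Q * Λ) + (1 - ε) * (Q * Y) := by
    rw [hEs] at hE
    have e1 : (1 - ε) * Q * (∑ p ∈ P \ N, M p + Y + M0) =
        (1 - ε) * Q * ∑ p ∈ P \ N, M p + (1 - ε) * (Q * Y) + (1 - ε) * Q * M0 := by ring
    rw [e1] at hlow
    have e2 : (1 - ε) * Q * Λ = Q * Λ - ε * Q * Λ := by ring
    rw [e2] at hlow
    have e3 : 2 * ε * (Q * Λ) = ε * Q * Λ + ε * Q * Λ := by ring
    rw [e3]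
    linarith
  have hQY : (1 - ε) * ((1 + η) * Q * Y) ≤ (1 - ε) * X := mul_le_mul_of_nonneg_left hXY (by linarith)
  have hm2 : (1 + η) * X ≤ (1 + η) * (2 * ε * (Q * Λ) + (1 - ε) * (Q * Y)) :=
    mul_le_mul_of_nonneg_left hmain (by linarith)
  have hQΛ : 0 < Q * Λ := mul_pos hQ hΛ
  have hm3 : η * X ≤ 3 * ε * (Q * Λ) := by
    have e1 : (1 + η) * (2 * ε * (Q * Λ) + (1 - ε) * (Q * Y)) =
        2 * (1 + η) * (ε * (Q * Λ)) + (1 - ε) * ((1 + η) * Q * Y) := by ring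
    rw [e1] at hm2
    have h5 : 0 ≤ ε * X := mul_nonneg hε.le hX0
    have h6 : 2 * (1 + η) * (ε * (Q * Λ)) ≤ 3 * (ε * (Q * Λ)) :=
      mul_le_mul_of_nonneg_right (by linarith) (mul_nonneg hε.le hQΛ.le)
    have e2 : (1 - ε) * X = X - ε * X := by ring
    have e3 : (1 + η) * X = X + η * X := by ring
    rw [e2] at hQY
    rw [e3] at hm2
    linarith
  have hm4 : 3 * ε * (Q * Λ) ≤ η * (κ / 4 * Q * Λ) := by
    have h5 : 3 * ε ≤ η * (κ / 4) := by nlinarith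
    have h6 := mul_le_mul_of_nonneg_right h5 hQΛ.le
    have e1 : η * (κ / 4) * (Q * Λ) = η * (κ / 4 * Q * Λ) := by ring
    linarith
  exact le_of_mul_le_mul_left (hm3.trans hm4) hη

end F0744D
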