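import Pool.Agent.Lib.MP_f0744f_nt.C.G3a
import Pool.Agent.Lib.MP_f0744f_nt.D.Defs
import Pool.Agent.Lib.MP_f0744f_nt.D.G0

/-! # Row G1: which places carry the energy -/

set_option autoImplicit false

open Polynomial

namespace F0744D

open F0744C

theorem G1_low {e m e0 m0 Λ ε κ : ℝ} (hΛ : 0 < Λ) (hε : 0 < ε) (hε1 : ε ≤ 1) (hκ : 0 < κ)
    (hE : e + e0 ≤ Λ) (h1 : (1 - ε) * m ≤ e) (h3 : Λ ≤ m + m0) (h : m0 < κ * Λ) :
    e0 ≤ (ε + κ) * Λ := by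
  have h4 : (1 - ε) * (Λ - κ * Λ) ≤ (1 - ε) * m :=
    mul_le_mul_of_nonneg_left (by linarith) (by linarith)
  have h5 : 0 ≤ ε * κ * Λ := by positivity
  nlinarith

theorem G1_high {e m e0 m0 Λ ε η κ : ℝ} (hΛ : 0 < Λ) (hε : 0 < ε) (hε1 : ε ≤ 1) (hη : 0 < η)
    (hκ : 0 < κ) (h : 32 * ε ≤ η * κ)
    (hE : e + e0 ≤ Λ) (h1 : (1 - ε) * m ≤ e) (h3 : Λ ≤ m + m0) (h' : κ * Λ ≤ m0) :
    e0 ≤ (1 + η) * m0 := by
  by_contra hcon
  push Not at hcon
  have h4 : (1 - ε) * (Λ - m0) ≤ (1 - ε) * m :=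
    mul_le_mul_of_nonneg_left (by linarith) (by linarith)
  have h5 : (η + ε) * (κ * Λ) ≤ (η + ε) * m0 := mul_le_mul_of_nonneg_left h' (by linarith)
  have h6 : 32 * ε * Λ ≤ η * κ * Λ := mul_le_mul_of_nonneg_right h hΛ.le
  have h7 : 0 < ε * Λ := by positivity
  have h8 : 0 ≤ ε * κ * Λ := by positivity
  nlinarith

/-- `P \ TT` is contained in the union of the two sets of `nt_one` (for `M` and for `M'`) and the `p` with `M p < H`,
`E p ≤ (1 + η) Q M p`; so `∑_{P \ TT} E p ≤ (κ / 4 + κ / 4 + (3 / 2) κ) Q Λ = 2 κ Q Λ`, and `∑_{P \ TT} M p ≤ 4 κ Λ` (`h1`).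
The upper bound is `hE`, `h1`, `h2`: `(1 - ε) (∑ M + max 0 M0) ≤ (1 + ε) Λ`.
The alternative. (1) If `M0 < κ Λ`: `∑ E ≥ (1 - ε) Q (1 - κ) Λ`, so `E0 ≤ (ε + κ) Q Λ`; and
`∑_TT M ≥ (1 - κ) Λ - 4 κ Λ`. (2) If `κ Λ ≤ M0` and `(1 + η) Q M0 < E0`: `Q Λ ≥ (1 - ε) Q (Λ - M0) + (1 + η) Q M0`, so
`(η + ε) M0 ≤ ε Λ`: impossible. The same for `M0'`. (3) If `κ Λ ≤ M0`, `M0' < κ Λ`: `E0 ≤ (ε + κ) Q Λ` as in (1), and then
by `h2` `M0 ≤ (κ + 2 ε) / (1 - ε) Λ ≤ 2 κ Λ`, so `∑_TT M ≥ (1 - 2 κ) Λ - 4 κ Λ`. -/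
theorem places {ι : Type} [DecidableEq ι] (P : Finset ι) (E M M' : ι → ℝ)
    {E0 M0 M0' Q Λ ε η κ : ℝ} (hQ : 0 < Q) (hΛ : 0 < Λ) (hε : 0 < ε) (hη : 0 < η)
    (hη1 : η ≤ 1 / 2) (h : 32 * ε ≤ η * κ) (hκ : κ ≤ 1 / 32)
    (hE : ∑ p ∈ P, E p + E0 ≤ Q * Λ) (hE0 : ∀ p ∈ P, 0 ≤ E p)
    (hM : ∀ p ∈ P, 0 ≤ M p) (hM' : ∀ p ∈ P, 0 ≤ M' p)
    (h1 : ∀ p ∈ P, (1 - ε) * Q * M p ≤ E p) (h1' : ∀ p ∈ P, (1 - ε) * Q * M' p ≤ E p)
    (h2 : (1 - ε) * Q * max 0 M0 - ε * Q * Λ ≤ E0)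
    (h2' : (1 - ε) * Q * max 0 M0' - ε * Q * Λ ≤ E0)
    (h3 : Λ ≤ ∑ p ∈ P, M p + M0) (h3' : Λ ≤ ∑ p ∈ P, M' p + M0') {H : ℝ}
    (hH : ∑ p ∈ P.filter (fun p => M p < H), M p ≤ κ * Λ) {TT : Finset ι}
    (hTT : ∀ p, p ∈ TT ↔
      p ∈ P ∧ H ≤ M p ∧ E p ≤ (1 + η) * Q * M p ∧ E p ≤ (1 + η) * Q * M' p) :
    ∑ p ∈ P \ TT, E p ≤ 16 * κ * Q * Λ ∧
      (1 - 16 * κ) * Λ ≤ ∑ p ∈ TT, M p + max 0 M0 ∧
      ∑ p ∈ P, M p + max 0 M0 ≤ (1 + 16 * κ) * Λ ∧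
      ((κ * Λ ≤ M0 ∧ κ * Λ ≤ M0' ∧ E0 ≤ (1 + η) * Q * M0 ∧ E0 ≤ (1 + η) * Q * M0') ∨
        (E0 ≤ 16 * κ * Q * Λ ∧ (1 - 16 * κ) * Λ ≤ ∑ p ∈ TT, M p)) := by
  classical
  have hκ0 : 0 < κ := by
    by_contra hcon
    push Not at hcon
    have : η * κ ≤ 0 := mul_nonpos_of_nonneg_of_nonpos hη.le hcon
    linarith
  have hηκ : η * κ ≤ 1 / 2 * κ := mul_le_mul_of_nonneg_right hη1 hκ0.le
  have hεκ : ε ≤ κ / 64 := by linarith
  have hε1 : ε ≤ 1 / 2048 := by linarith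
  have hTTP : TT ⊆ P := fun p hp => ((hTT p).1 hp).1
  -- the two sets of `nt_one`
  have hN1 := nt_one P E M (N := P.filter (fun p => (1 + η) * Q * M p < E p)) hQ hΛ hε hη hη1 h hκ
    hE hM h1 h2 h3 (fun p => by rw [Finset.mem_filter])
  have hN2 := nt_one P E M' (N := P.filter (fun p => (1 + η) * Q * M' p < E p)) hQ hΛ hε hη hη1 h hκ
    hE hM' h1' h2' h3' (fun p => by rw [Finset.mem_filter])
  -- the third set
  have hF : ∑ p ∈ (P.filter (fun p => M p < H)).filter (fun p => E p ≤ (1 + η) * Q * M p), E p ≤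
      3 / 2 * κ * (Q * Λ) := by
    calc ∑ p ∈ (P.filter (fun p => M p < H)).filter (fun p => E p ≤ (1 + η) * Q * M p), E p
        ≤ ∑ p ∈ (P.filter (fun p => M p < H)).filter (fun p => E p ≤ (1 + η) * Q * M p),
            (1 + η) * Q * M p := Finset.sum_le_sum (fun p hp => (Finset.mem_filter.1 hp).2)
      _ ≤ ∑ p ∈ P.filter (fun p => M p < H), (1 + η) * Q * M p := by
          apply Finset.sum_le_sum_of_subset_of_nonneg (Finset.filter_subset _ _)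
          intro p hp _
          have := hM p (Finset.mem_filter.1 hp).1
          positivity
      _ = (1 + η) * Q * ∑ p ∈ P.filter (fun p => M p < H), M p := by rw [Finset.mul_sum]
      _ ≤ (1 + η) * Q * (κ * Λ) := mul_le_mul_of_nonneg_left hH (by positivity)
      _ = (1 + η) * (κ * (Q * Λ)) := by ring
      _ ≤ (3 / 2) * (κ * (Q * Λ)) := mul_le_mul_of_nonneg_right (by linarith) (by positivity)
      _ = 3 / 2 * κ * (Q * Λ) := by ring
  have hsub : P \ TT ⊆ (P.filter (fun p => (1 + η) * Q * M p < E p)) ∪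
      ((P.filter (fun p => (1 + η) * Q * M' p < E p)) ∪
      ((P.filter (fun p => M p < H)).filter (fun p => E p ≤ (1 + η) * Q * M p))) := by
    intro p hp
    obtain ⟨hpP, hpT⟩ := Finset.mem_sdiff.1 hp
    rw [hTT] at hpT
    simp only [Finset.mem_union, Finset.mem_filter]
    by_cases c1 : (1 + η) * Q * M p < E p
    · exact Or.inl ⟨hpP, c1⟩
    · by_cases c2 : (1 + η) * Q * M' p < E p
      · exact Or.inr (Or.inl ⟨hpP, c2⟩)
      · push Not at c1 c2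
        refine Or.inr (Or.inr ⟨⟨hpP, ?_⟩, c1⟩)
        by_contra c3
        push Not at c3
        exact hpT ⟨hpP, c3, c1, c2⟩
  have hEn : ∀ A : Finset ι, A ⊆ P → 0 ≤ ∑ p ∈ A, E p := fun A hA =>
    Finset.sum_nonneg (fun p hp => hE0 p (hA hp))
  have hun : ∀ A B : Finset ι, A ⊆ P → B ⊆ P → ∑ p ∈ A ∪ B, E p ≤ ∑ p ∈ A, E p + ∑ p ∈ B, E p := by
    intro A B hA hB
    have h4 := Finset.sum_union_inter (s₁ := A) (s₂ := B) (f := E)
    have h5 := hEn (A ∩ B) (Finset.inter_subset_left.trans hA)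
    linarith
  have hfil : ∀ q : ι → Prop, ∀ [DecidablePred q], P.filter q ⊆ P := fun q _ => Finset.filter_subset _ _
  have hS3 : (P.filter (fun p => M p < H)).filter (fun p => E p ≤ (1 + η) * Q * M p) ⊆ P :=
    (Finset.filter_subset _ _).trans (Finset.filter_subset _ _)
  have hout : ∑ p ∈ P \ TT, E p ≤ 2 * κ * (Q * Λ) := by
    have hU : (P.filter (fun p => (1 + η) * Q * M p < E p)) ∪
      ((P.filter (fun p => (1 + η) * Q * M' p < E p)) ∪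
      ((P.filter (fun p => M p < H)).filter (fun p => E p ≤ (1 + η) * Q * M p))) ⊆ P :=
      Finset.union_subset (Finset.filter_subset _ _)
        (Finset.union_subset (Finset.filter_subset _ _) hS3)
    have h4 := Finset.sum_le_sum_of_subset_of_nonneg hsub (f := E)
      (fun p hp _ => hE0 p (hU hp))
    have h5 := hun _ _ (Finset.filter_subset (fun p => (1 + η) * Q * M p < E p) P)
      (Finset.union_subset (Finset.filter_subset (fun p => (1 + η) * Q * M' p < E p) P) hS3)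
    have h6 := hun _ _ (Finset.filter_subset (fun p => (1 + η) * Q * M' p < E p) P) hS3
    have h7 : κ / 4 * Q * Λ = 1 / 4 * κ * (Q * Λ) := by ring
    rw [h7] at hN1 hN2
    linarith
  -- normalisation by `Q`
  obtain ⟨e, he⟩ : ∃ e, ∑ p ∈ P, E p = Q * e := ⟨(∑ p ∈ P, E p) / Q, by field_simp⟩
  obtain ⟨e0, he0⟩ : ∃ e0, E0 = Q * e0 := ⟨E0 / Q, by field_simp⟩
  have cE : e + e0 ≤ Λ := by
    rw [he, he0, ← mul_add] at hE
    exact le_of_mul_le_mul_left hE hQ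
  have c1 : (1 - ε) * ∑ p ∈ P, M p ≤ e := by
    have h4 : (1 - ε) * Q * ∑ p ∈ P, M p ≤ ∑ p ∈ P, E p := by
      rw [Finset.mul_sum]
      exact Finset.sum_le_sum h1
    rw [he] at h4
    exact le_of_mul_le_mul_left (by linarith) hQ
  have c1' : (1 - ε) * ∑ p ∈ P, M' p ≤ e := by
    have h4 : (1 - ε) * Q * ∑ p ∈ P, M' p ≤ ∑ p ∈ P, E p := by
      rw [Finset.mul_sum]
      exact Finset.sum_le_sum h1'
    rw [he] at h4
    exact le_of_mul_le_mul_left (by linarith) hQ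
  have c2 : (1 - ε) * max 0 M0 - ε * Λ ≤ e0 := by
    rw [he0] at h2
    exact le_of_mul_le_mul_left (by linarith) hQ
  have cout : (1 - ε) * ∑ p ∈ P \ TT, M p ≤ 2 * κ * Λ := by
    have h4 : (1 - ε) * Q * ∑ p ∈ P \ TT, M p ≤ ∑ p ∈ P \ TT, E p := by
      rw [Finset.mul_sum]
      exact Finset.sum_le_sum (fun p hp => h1 p (Finset.mem_sdiff.1 hp).1)
    exact le_of_mul_le_mul_left (by linarith) hQ
  have hMout0 : 0 ≤ ∑ p ∈ P \ TT, M p :=
    Finset.sum_nonneg (fun p hp => hM p (Finset.mem_sdiff.1 hp).1)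
  have hκΛ : 0 < κ * Λ := by positivity
  have hεΛ : ε * Λ ≤ κ / 64 * Λ := mul_le_mul_of_nonneg_right hεκ hΛ.le
  have cout2 : ∑ p ∈ P \ TT, M p ≤ 4 * κ * Λ := by
    have h4 : (1 / 2 : ℝ) * ∑ p ∈ P \ TT, M p ≤ (1 - ε) * ∑ p ∈ P \ TT, M p :=
      mul_le_mul_of_nonneg_right (by linarith) hMout0
    linarith
  have hsplit : ∑ p ∈ P, M p = ∑ p ∈ P \ TT, M p + ∑ p ∈ TT, M p := (Finset.sum_sdiff hTTP).symm
  have hm0 : M0 ≤ max 0 M0 := le_max_right _ _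
  have hm1 : 0 ≤ max 0 M0 := le_max_left _ _
  have hMP0 : 0 ≤ ∑ p ∈ P, M p := Finset.sum_nonneg hM
  refine ⟨?_, ?_, ?_, ?_⟩
  · have h4 : 0 ≤ κ * (Q * Λ) := by positivity
    calc ∑ p ∈ P \ TT, E p ≤ 2 * κ * (Q * Λ) := hout
      _ ≤ 16 * κ * Q * Λ := by linarith
  · linarith
  · have h4 : (1 - ε) * (∑ p ∈ P, M p + max 0 M0) ≤ (1 + ε) * Λ := by linarith
    have h5 : (1 + ε) * Λ ≤ (1 - ε) * ((1 + 16 * κ) * Λ) := by
      have h6 : ε * (κ * Λ) ≤ 1 / 2048 * (κ * Λ) := mul_le_mul_of_nonneg_right hε1 hκΛ.le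
      nlinarith
    exact le_of_mul_le_mul_left (h4.trans h5) (by linarith)
  · -- the alternative
    have hlowE : ∀ y : ℝ, y ≤ (ε + κ) * Λ → Q * y ≤ 16 * κ * Q * Λ := by
      intro y hy
      have h4 : y ≤ 16 * κ * Λ := by linarith
      calc Q * y ≤ Q * (16 * κ * Λ) := mul_le_mul_of_nonneg_left h4 hQ.le
        _ = 16 * κ * Q * Λ := by ring
    by_cases d1 : M0 < κ * Λ
    · right
      have h4 := G1_low hΛ hε (by linarith) hκ0 cE c1 h3 d1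
      refine ⟨?_, by linarith⟩
      rw [he0]
      exact hlowE e0 h4
    · push Not at d1
      by_cases d2 : M0' < κ * Λ
      · right
        have h4 := G1_low hΛ hε (by linarith) hκ0 cE c1' h3' d2
        refine ⟨?_, ?_⟩
        · rw [he0]
          exact hlowE e0 h4
        · have h5 : (1 - ε) * max 0 M0 ≤ (κ + 2 * ε) * Λ := by linarith
          have h6 : M0 ≤ 2 * κ * Λ := by
            have h7 : (31 / 32 : ℝ) * max 0 M0 ≤ (1 - ε) * max 0 M0 :=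
              mul_le_mul_of_nonneg_right (by linarith) hm1
            linarith
          linarith
      · push Not at d2
        left
        refine ⟨d1, d2, ?_, ?_⟩
        · have h4 := G1_high hΛ hε (by linarith) hη hκ0 h cE c1 h3 d1
          rw [he0]
          calc Q * e0 ≤ Q * ((1 + η) * M0) := mul_le_mul_of_nonneg_left h4 hQ.le
            _ = (1 + η) * Q * M0 := by ring
        · have h4 := G1_high hΛ hε (by linarith) hη hκ0 h cE c1' h3' d2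
          rw [he0]
          calc Q * e0 ≤ Q * ((1 + η) * M0') := mul_le_mul_of_nonneg_left h4 hQ.le
            _ = (1 + η) * Q * M0' := by ring

end F0744D
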