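import Pool.Agent.Lib.MP_f0744f_nt.C.G1
import Pool.Agent.Lib.MP_f0744f_nt.D.Ctx

/-! # Row G6: the product formula with bounds at all places -/

set_option autoImplicit false

open Polynomial

namespace F0744D

open F0744C

variable {S : Finset ℤ} {a b : ℤ} {e : ℕ}

/-- `pf`: `0 = ∑_{p ∈ Ps B} - vp p q + log |q|`... precisely `log |q| = ∑ vp p q`, `- vp p q = log |q|_p` (`log_padic`). Split
`Ps B = TT ∪ (Ps B \ TT)` (`TTs`); `log |q|_p ≤ v mP p` for `p ∈ TT`, `≤ w (EnP p U + max 0 (- mP))` for the others, and `log |q|` by the case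
`rt`; all `EnP`, `EnX`, `max 0 _` are `≥ 0`, `nt`. -/
theorem sum_bound {f : PM S a 2} {g : PM S b e} {J : ℕ} {L κ θ C : ℝ} {B : ℕ} {TT : Finset ℕ}
    {rt : Bool} {T U : Finset ℤ} (h : Ctx f g J L κ θ C B TT rt T U) {q : ℚ} (hq : q ≠ 0)
    (h1 : q.num.natAbs ≤ B) (h2 : q.den ≤ B) {k v w D : ℝ} (hw : 0 ≤ w) (hD : 0 ≤ D)
    (hT : ∀ (p : ℕ) [Fact p.Prime], p ∈ TT →
      Rat.AbsoluteValue.padic p q ≤ Real.exp (v * mP p f.F))
    (hN : ∀ (p : ℕ) [Fact p.Prime], p ∈ Ps B \ TT →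
      Rat.AbsoluteValue.padic p q ≤ Real.exp (w * (EnP p U + max 0 (-mP p f.F))))
    (hRT : rt = true → |(q : ℝ)| ≤
      Real.exp (k * Real.log L + v * mm Rat.AbsoluteValue.real L 2 f.F))
    (hRN : rt = false → |(q : ℝ)| ≤ Real.exp (k * Real.log L + w * (EnX Rat.AbsoluteValue.real L U +
        max 0 (-mm Rat.AbsoluteValue.real L 2 f.F)) + D)) :
    0 ≤ k * Real.log L + v * mass f.F L TT rt + w * (κ * Real.log L) + D := by
  have hpr : ∀ p ∈ Ps B, p.Prime := fun p hp => (Finset.mem_filter.1 hp).2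
  have hlogT : ∀ p ∈ TT, - vp p q ≤ v * mP p f.F := by
    intro p hp
    haveI : Fact p.Prime := ⟨hpr p (h.TTs hp)⟩
    rw [← log_padic p hq]
    have hpos : 0 < Rat.AbsoluteValue.padic p q := (Rat.AbsoluteValue.padic p).pos hq
    exact (Real.log_le_iff_le_exp hpos).2 (hT p hp)
  have hlogN : ∀ p ∈ Ps B \ TT, - vp p q ≤ w * (EnP p U + max 0 (-mP p f.F)) := by
    intro p hp
    haveI : Fact p.Prime := ⟨hpr p (Finset.mem_sdiff.1 hp).1⟩
    rw [← log_padic p hq]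
    have hpos : 0 < Rat.AbsoluteValue.padic p q := (Rat.AbsoluteValue.padic p).pos hq
    exact (Real.log_le_iff_le_exp hpos).2 (hN p hp)
  have hpf := pf hq h1 h2
  have hsplit : ∑ p ∈ Ps B, vp p q = ∑ p ∈ Ps B \ TT, vp p q + ∑ p ∈ TT, vp p q :=
    (Finset.sum_sdiff h.TTs).symm
  have hsT : - ∑ p ∈ TT, vp p q ≤ v * ∑ p ∈ TT, mP p f.F := by
    rw [← Finset.sum_neg_distrib, Finset.mul_sum]
    exact Finset.sum_le_sum hlogT
  have hsN : - ∑ p ∈ Ps B \ TT, vp p q ≤ w * ∑ p ∈ Ps B \ TT, (EnP p U + max 0 (-mP p f.F)) := by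
    rw [← Finset.sum_neg_distrib, Finset.mul_sum]
    exact Finset.sum_le_sum hlogN
  have hqpos : 0 < |(q : ℝ)| := abs_pos.2 (by exact_mod_cast hq)
  have hnt := mul_le_mul_of_nonneg_left h.nt hw
  unfold mass
  cases hrt : rt with
  | true =>
    have h3 := (Real.log_le_iff_le_exp hqpos).2 (hRT hrt)
    rw [hrt] at hnt
    simp only [if_true, add_zero] at hnt ⊢
    linarith
  | false =>
    have h3 := (Real.log_le_iff_le_exp hqpos).2 (hRN hrt)
    rw [hrt] at hnt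
    simp only [Bool.false_eq_true, if_false, add_zero] at hnt ⊢
    linarith

end F0744D
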