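import Pool.Agent.Lib.MP_f0744f_nt.C.A2
import Pool.Agent.Lib.MP_f0744f_nt.D.B1
import Pool.Agent.Lib.MP_f0744f_nt.D.E1
import Pool.Agent.Lib.MP_f0744f_nt.D.K0a

/-! # Row K0: expansions -/

set_option autoImplicit false

open Polynomial

namespace F0744D

open F0744C

theorem K0_split (M : ℕ) (g : ℕ → ℚ[X]) : ∑ n ∈ Finset.range (2 * M), g n =
    ∑ n ∈ Finset.range M, g (2 * n) + ∑ n ∈ Finset.range M, g (2 * n + 1) := by
  induction M with
  | zero => simp
  | succ M ih =>
    have e : 2 * (M + 1) = 2 * M + 1 + 1 := by ring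
    rw [e, Finset.sum_range_succ, Finset.sum_range_succ, ih, Finset.sum_range_succ,
      Finset.sum_range_succ]
    ring

theorem K0_bp_zero (F : ℚ[X]) (J : ℕ) : bp F 2 J 0 = 1 := by
  induction J with
  | zero => rw [bp, pow_zero]
  | succ J ih => rw [bp, Nat.zero_mod, Nat.zero_div, pow_zero, one_mul, ih, one_comp]

theorem K0_iter_comp (F : ℚ[X]) (i : ℕ) : (F.comp^[i] X).comp F = F.comp^[i + 1] X := by
  induction i with
  | zero => simp
  | succ i ih =>
    calc (F.comp^[i + 1] X).comp F = (F.comp (F.comp^[i] X)).comp F := by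
          rw [Function.iterate_succ_apply']
      _ = F.comp ((F.comp^[i] X).comp F) := comp_assoc _ _ _
      _ = F.comp (F.comp^[i + 1] X) := by rw [ih]
      _ = F.comp^[i + 1 + 1] X := (Function.iterate_succ_apply' _ _ _).symm

/-- Induction on `J`. `n = r + 2 n'`: `bp F 2 (J + 1) n = X ^ r * (bp F 2 J n').comp F`, `sg (J + 1) n = r + sg J n'`. If
`r = 1` and `n' ≠ 0` the coefficient is zero (`sg_eq_zero`). So the sum is `∑_{n'} C (c (2 n')) (bp F 2 J n').comp F + C (c 1) X`, and the
induction hypothesis for `c' n' = c (2 n')`, composed with `F`, is `C (c 0) + ∑_i C (c (2 ^ (i + 1))) (F.comp^[i] X).comp F`;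
`(F.comp^[i] X).comp F = F.comp^[i + 1] X`. -/
theorem lin_form (F : ℚ[X]) (J : ℕ) (c : ℕ → ℚ) (h : ∀ n < 2 ^ J, 2 ≤ sg J n → c n = 0) :
    ∑ n ∈ Finset.range (2 ^ J), C (c n) * bp F 2 J n =
      C (c 0) + ∑ i ∈ Finset.range J, C (c (2 ^ i)) * F.comp^[i] X := by
  induction J generalizing c with
  | zero => simp [bp]
  | succ J ih =>
    have h1 : ∑ n ∈ Finset.range (2 ^ J), C (c (2 * n)) * bp F 2 (J + 1) (2 * n) =
        (∑ n ∈ Finset.range (2 ^ J), C (c (2 * n)) * bp F 2 J n).comp F := by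
      rw [sum_comp]
      refine Finset.sum_congr rfl fun n _ => ?_
      rw [bp, Nat.mul_mod_right, pow_zero, one_mul, Nat.mul_div_cancel_left n (by norm_num), mul_comp,
        C_comp]
    have h2 := ih (fun n => c (2 * n)) (fun n hn h2 => h (2 * n) (by rw [pow_succ]; omega) (by
      rw [sg_succ, Nat.mul_mod_right, Nat.mul_div_cancel_left n (by norm_num)]
      omega))
    have h3 : ∑ n ∈ Finset.range (2 ^ J), C (c (2 * n + 1)) * bp F 2 (J + 1) (2 * n + 1) =
        C (c 1) * X := by
      rw [Finset.sum_eq_single 0]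
      · rw [mul_zero, zero_add, bp]
        norm_num [K0_bp_zero]
      · intro n hn h0
        have hn' := Finset.mem_range.1 hn
        rw [h (2 * n + 1) (by rw [pow_succ]; omega), C_0, zero_mul]
        have e1 : (2 * n + 1) % 2 = 1 := by omega
        have e2 : (2 * n + 1) / 2 = n := by omega
        rw [sg_succ, e1, e2]
        have : sg J n ≠ 0 := fun h => h0 (sg_eq_zero hn' h)
        omega
      · intro h0
        exact absurd (Finset.mem_range.2 (Nat.two_pow_pos J)) h0
    rw [pow_succ, mul_comm (2 ^ J) 2, K0_split, h1, h2, h3, Finset.sum_range_succ', add_comp, C_comp,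
      sum_comp, pow_zero, Function.iterate_zero, id_eq, mul_zero, add_assoc]
    congr 2
    refine Finset.sum_congr rfl fun i _ => ?_
    rw [mul_comp, C_comp, K0_iter_comp, pow_succ, mul_comm (2 ^ i) 2]

/-- `Polynomial.iterate_comp_eval`, `iter_mem` (row B1): `F^i (x) = ph^[i] x`. -/
theorem iter_eval {S : Finset ℤ} {a : ℤ} (f : PM S a 2) {J i : ℕ} (hi : i ≤ J) {x : ℤ}
    (hx : x ∈ Dm S a f.ph J) : (f.F.comp^[i] X).eval (x : ℚ) = ((f.ph^[i] x : ℤ) : ℚ) := by
  induction i with
  | zero => simp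
  | succ i ih =>
    have h1 := iter_mem hx (i := i) (by omega)
    rw [Function.iterate_succ_apply', eval_comp, ih (by omega), Function.iterate_succ_apply']
    exact (f.val _ h1.1 h1.2).symm

/-- Induction: `natDegree_comp`. -/
theorem iter_natDegree {F : ℚ[X]} (hF : F.natDegree = 2) (k : ℕ) :
    (F.comp^[k] X).natDegree = 2 ^ k := by
  induction k with
  | zero => simp
  | succ k ih => rw [Function.iterate_succ_apply', natDegree_comp, ih, hF, pow_succ, mul_comm]

end F0744D
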