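import Pool.Agent.Lib.MP_f0744f_nt.C.A2
import Pool.Agent.Lib.MP_f0744f_nt.C.A3
import Pool.Agent.Lib.MP_f0744f_nt.C.A4
import Pool.Agent.Lib.MP_f0744f_nt.C.A5
import Pool.Agent.Lib.MP_f0744f_nt.D.Defs

/-! # Row N1a: sums -/

set_option autoImplicit false

open Polynomial

namespace F0744D

open F0744C

variable {S : Finset ℤ} {a : ℤ}

/-- sums of at most `n` numbers of size at most `M` have size at most `κ M` -/
def SumLe (A : AbsoluteValue ℚ ℝ) (κ : ℝ) (n : ℕ) : Prop :=
  ∀ (ι : Type) (s : Finset ι) (h : ι → ℚ) (M : ℝ), s.card ≤ n → (∀ i ∈ s, A (h i) ≤ M) → 0 ≤ M →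
    A (∑ i ∈ s, h i) ≤ κ * M

/-- the triangle inequality -/
theorem sumLe_any (A : AbsoluteValue ℚ ℝ) (n : ℕ) : SumLe A n n := by
  intro ι s h M hs hM hM0
  calc A (∑ i ∈ s, h i) ≤ ∑ i ∈ s, A (h i) := A.sum_le s h
    _ ≤ ∑ _i ∈ s, M := Finset.sum_le_sum hM
    _ = (s.card : ℝ) * M := by rw [Finset.sum_const, nsmul_eq_mul]
    _ ≤ (n : ℝ) * M := mul_le_mul_of_nonneg_right (by exact_mod_cast hs) hM0

/-- `Rat.AbsoluteValue.padic p` is nonarchimedean (`IsNonarchimedean.apply_sum_le` or `Finset` induction). -/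
theorem sumLe_padic (p : ℕ) [Fact p.Prime] (n : ℕ) : SumLe (Rat.AbsoluteValue.padic p) 1 n := by
  classical
  intro ι s h M _ hM hM0
  rw [one_mul]
  induction s using Finset.induction_on with
  | empty =>
    rw [Finset.sum_empty, map_zero]
    exact hM0
  | insert i s hi ih =>
    rw [Finset.sum_insert hi]
    have h1 : Rat.AbsoluteValue.padic p (h i + ∑ j ∈ s, h j) ≤
        max (Rat.AbsoluteValue.padic p (h i)) (Rat.AbsoluteValue.padic p (∑ j ∈ s, h j)) := by
      rw [Rat.AbsoluteValue.padic_eq_padicNorm, Rat.AbsoluteValue.padic_eq_padicNorm,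
        Rat.AbsoluteValue.padic_eq_padicNorm]
      exact_mod_cast padicNorm.nonarchimedean
    refine h1.trans (max_le (hM i (Finset.mem_insert_self i s)) ?_)
    exact ih ((Finset.card_le_card (Finset.subset_insert i s)).trans ‹_›)
      (fun j hj => hM j (Finset.mem_insert_of_mem hj))

/-- the positive part of the energy -/
noncomputable def EnX (A : AbsoluteValue ℚ ℝ) (R : ℝ) (T : Finset ℤ) : ℝ :=
  ∑ x ∈ T, ∑ y ∈ T.erase x, max 0 (uu A R x y)

end F0744D
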