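import Pool.Agent.Lib.MP_f0744f_nt.C.A2
import Pool.Agent.Lib.MP_f0744f_nt.C.A3
import Pool.Agent.Lib.MP_f0744f_nt.C.A4
import Pool.Agent.Lib.MP_f0744f_nt.C.A5
import Pool.Agent.Lib.MP_f0744f_nt.D.Defs
import Pool.Agent.Lib.MP_f0744f_nt.D.N1a

/-! # Row N1: the coefficients at any place -/

set_option autoImplicit false

open Polynomial

namespace F0744D

open F0744C

variable {S : Finset ℤ} {a : ℤ}

theorem N1_inv {A : AbsoluteValue ℚ ℝ} {R : ℝ} (hR : 1 ≤ R) {U V : Finset ℤ} (hVU : V ⊆ U) {Ω : ℝ}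
    (hΩ : ∀ x ∈ U, ∑ y ∈ U.erase x, max 0 (uu A R x y) ≤ Ω) {n : ℕ} (hV : V.card = n + 1) {x : ℤ}
    (hx : x ∈ V) :
    A ((∏ y ∈ V.erase x, ((x : ℚ) - (y : ℚ)))⁻¹) * R ^ n ≤ Real.exp Ω := by
  have hR0 : 0 < R := by linarith
  have hcard : (V.erase x).card = n := by rw [Finset.card_erase_of_mem hx, hV]; rfl
  rw [map_inv₀, map_prod, ← Finset.prod_inv_distrib, ← hcard, ← Finset.prod_const,
    ← Finset.prod_mul_distrib]
  have h1 : ∀ y ∈ V.erase x, (A ((x : ℚ) - (y : ℚ)))⁻¹ * R = Real.exp (uu A R x y) := by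
    intro y hy
    have hne : x ≠ y := (Finset.ne_of_mem_erase hy).symm
    have hpos : 0 < A ((x : ℚ) - (y : ℚ)) := by
      refine A.pos (sub_ne_zero.mpr ?_)
      exact_mod_cast hne
    unfold uu
    rw [Real.exp_sub, Real.exp_log hR0, Real.exp_log hpos]
    field_simp
  rw [Finset.prod_congr rfl h1, ← Real.exp_sum, Real.exp_le_exp]
  calc ∑ y ∈ V.erase x, uu A R x y ≤ ∑ y ∈ V.erase x, max 0 (uu A R x y) :=
        Finset.sum_le_sum fun y _ => le_max_right _ _
    _ ≤ ∑ y ∈ U.erase x, max 0 (uu A R x y) :=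
        Finset.sum_le_sum_of_subset_of_nonneg (Finset.erase_subset_erase x hVU)
          fun y _ _ => le_max_left _ _
    _ ≤ Ω := hΩ x (hVU hx)

theorem N1_coeff (f : PM S a 2) (J n : ℕ) (c : ℕ → ℚ) :
    (∑ j ∈ Finset.range (n + 1), C (c j) * bp f.F 2 J j).natDegree < n + 1 ∧
      (∑ j ∈ Finset.range (n + 1), C (c j) * bp f.F 2 J j).coeff n =
        c n * f.F.leadingCoeff ^ wd 2 J n := by
  have hdeg : ∀ j, (bp f.F 2 J j).natDegree = j := fun j => bp_natDegree f.deg (by norm_num) J j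
  constructor
  · refine Nat.lt_succ_of_le (Polynomial.natDegree_sum_le_of_forall_le _ _ fun j hj => ?_)
    refine (Polynomial.natDegree_C_mul_le _ _).trans ?_
    rw [hdeg j]
    exact Nat.le_of_lt_succ (Finset.mem_range.mp hj)
  · rw [Polynomial.finsetSum_coeff, Finset.sum_range_succ, Finset.sum_eq_zero, zero_add,
      Polynomial.coeff_C_mul]
    · congr 1
      rw [← bp_leadingCoeff f.deg (by norm_num) J n, Polynomial.leadingCoeff, hdeg n]
    · intro j hj
      rw [Polynomial.coeff_C_mul, Polynomial.coeff_eq_zero_of_natDegree_lt, mul_zero]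
      rw [hdeg j]
      exact Finset.mem_range.mp hj

/-- `C = κ ^ 2 exp (Ω + e μ) ≥ 1`; downward induction on `n`: `A (c n) R ^ sg J n ≤ C ^ (e + 1 - n) R`. Let `V ⊆ U`,
`V.card = n + 1`, `P = ∑_{j ≤ n} c j bp_j` (degree `≤ n`, coefficient of `X ^ n`: `c n α ^ wd 2 J n`, `bp_natDegree`,
`bp_leadingCoeff`). For `x ∈ V`: `P x = G x - ∑_{j > n} c j bp_j x`, so `A (P x) ≤ κ C ^ (e - n) R` (`hsum`, `bp_le`,
induction hypothesis). `lag_coeff`: `c n α ^ wd = ∑_x P x ∏_{y ∈ V.erase x} (x - y)⁻¹`, and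
`A (∏ (x - y)⁻¹) = exp (∑ uu) R ^ (- n) ≤ exp Ω R ^ (- n)`. So `A (c n) A α ^ wd ≤ κ κ C ^ (e - n) R exp Ω R ^ (- n)`, and
`A α = exp m / R ≥ exp (- μ) / R`, `wd ≤ n ≤ e` (`wd_le`), `R ^ (n - wd) = R ^ sg J n`. -/
theorem nt_coef (f : PM S a 2) {A : AbsoluteValue ℚ ℝ} {R : ℝ} (hR : 1 ≤ R)
    (hS : ∀ y ∈ S, A ((y : ℤ) : ℚ) ≤ R) {κ : ℝ} (hκ : 1 ≤ κ) {e J : ℕ} (hsum : SumLe A κ (e + 1))
    {U : Finset ℤ} (hU : U ⊆ Dm S a f.ph J) (hc : U.card = e + 1) {Ω μ : ℝ} (hΩ0 : 0 ≤ Ω)
    (hΩ : ∀ x ∈ U, ∑ y ∈ U.erase x, max 0 (uu A R x y) ≤ Ω) (hμ0 : 0 ≤ μ)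
    (hμ : -μ ≤ mm A R 2 f.F) (c : ℕ → ℚ)
    (hG : ∀ x ∈ U, A (∑ n ∈ Finset.range (e + 1), c n * (bp f.F 2 J n).eval (x : ℚ)) ≤ R) :
    ∀ n ≤ e, A (c n) * R ^ sg J n ≤ (κ ^ 2 * Real.exp (Ω + e * μ)) ^ (e + 1) * R := by
  have hR0 : 0 < R := by linarith
  set K := κ ^ 2 * Real.exp (Ω + e * μ) with hK
  have hK1 : 1 ≤ K := by
    have h1 : 1 ≤ κ ^ 2 := one_le_pow₀ hκ
    have h2 : 1 ≤ Real.exp (Ω + e * μ) := Real.one_le_exp (by positivity)
    nlinarith
  have hK0 : 0 < K := by linarith
  have hsg : ∀ n, n - (2 - 1) * wd 2 J n = sg J n := fun n => by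
    unfold sg
    omega
  have hwd : ∀ n, wd 2 J n ≤ n := fun n => by
    have := wd_le (d := 2) (by norm_num) J n
    omega
  -- the leading coefficient
  have hα0 : f.F.leadingCoeff ≠ 0 := by
    intro h
    have h1 : f.F = 0 := Polynomial.leadingCoeff_eq_zero.mp h
    have h2 := f.deg
    rw [h1, Polynomial.natDegree_zero] at h2
    omega
  have hαp : 0 < A f.F.leadingCoeff := A.pos hα0
  have hα : Real.exp (-μ) ≤ A f.F.leadingCoeff * R := by
    have h1 : -μ ≤ Real.log (A f.F.leadingCoeff * R) := by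
      rw [Real.log_mul hαp.ne' hR0.ne']
      have h2 := hμ
      unfold mm at h2
      push_cast at h2
      linarith
    calc Real.exp (-μ) ≤ Real.exp (Real.log (A f.F.leadingCoeff * R)) := Real.exp_le_exp.mpr h1
      _ = _ := Real.exp_log (by positivity)
  have main : ∀ k n, n ≤ e → e - n = k → A (c n) * R ^ sg J n ≤ K ^ (e + 1 - n) * R := by
    intro k
    induction k using Nat.strong_induction_on with
    | _ k ih =>
      intro n hn hk
      obtain ⟨V, hVU, hV⟩ := Finset.exists_subset_card_eq (s := U) (n := n + 1) (by omega)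
      have hKn : 0 < K ^ (e - n) := by positivity
      set P := ∑ j ∈ Finset.range (n + 1), C (c j) * bp f.F 2 J j with hP
      -- the values
      have hval : ∀ x ∈ V, A (P.eval (x : ℚ)) ≤ κ * (K ^ (e - n) * R) := by
        intro x hx
        have hxU := hVU hx
        have hD := hU hxU
        set h : ℕ → ℚ := fun j => if j = n then
          ∑ i ∈ Finset.range (e + 1), c i * (bp f.F 2 J i).eval (x : ℚ)
          else - (c j * (bp f.F 2 J j).eval (x : ℚ)) with hh
        have e1 : P.eval (x : ℚ) = ∑ j ∈ Finset.Ico n (e + 1), h j := by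
          rw [Finset.sum_eq_sum_Ico_succ_bot (by omega : n < e + 1)]
          have e2 : ∑ j ∈ Finset.Ico (n + 1) (e + 1), h j =
              - ∑ j ∈ Finset.Ico (n + 1) (e + 1), c j * (bp f.F 2 J j).eval (x : ℚ) := by
            rw [← Finset.sum_neg_distrib]
            refine Finset.sum_congr rfl fun j hj => ?_
            have hj' := (Finset.mem_Ico.mp hj).1
            rw [hh]
            simp only
            rw [if_neg (by omega)]
          have e3 : h n = ∑ i ∈ Finset.range (e + 1), c i * (bp f.F 2 J i).eval (x : ℚ) := by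
            exact if_pos rfl
          rw [e2, e3, hP, Polynomial.eval_finsetSum,
            ← Finset.sum_range_add_sum_Ico _ (by omega : n + 1 ≤ e + 1)]
          simp only [Polynomial.eval_mul, Polynomial.eval_C]
          ring
        rw [e1]
        refine hsum ℕ (Finset.Ico n (e + 1)) h (K ^ (e - n) * R) ?_ ?_ (by positivity)
        · rw [Nat.card_Ico]
          omega
        · intro j hj
          obtain ⟨hj1, hj2⟩ := Finset.mem_Ico.mp hj
          rw [hh]
          simp only
          split_ifs with hjn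
          · refine (hG x hxU).trans ?_
            have : 1 ≤ K ^ (e - n) := one_le_pow₀ hK1
            nlinarith
          · have h1 := ih (e - j) (by omega) j (by omega) rfl
            have h2 := bp_le f (by norm_num) hR hS J j hD
            rw [hsg j] at h2
            rw [A.map_neg, map_mul]
            calc A (c j) * A (eval (x : ℚ) (bp f.F 2 J j)) ≤ A (c j) * R ^ sg J j :=
                  mul_le_mul_of_nonneg_left h2 (A.nonneg _)
              _ ≤ K ^ (e + 1 - j) * R := h1
              _ ≤ K ^ (e - n) * R := by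
                  refine mul_le_mul_of_nonneg_right ?_ hR0.le
                  exact pow_le_pow_right₀ hK1 (by omega)
      obtain ⟨hdeg, hcoef⟩ := N1_coeff f J n c
      rw [← hP] at hdeg hcoef
      have hlag := lag_coeff V (fun x : ℤ => (x : ℚ)) (fun x _ y _ hxy => Int.cast_injective hxy) P
        (by rw [hV]; exact hdeg)
      rw [hV, Nat.add_sub_cancel, hcoef] at hlag
      have hRn : 0 < R ^ n := by positivity
      have hb := hsum ℤ V (fun i => P.eval (i : ℚ) * (∏ j ∈ V.erase i, ((i : ℚ) - (j : ℚ)))⁻¹)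
        (κ * (K ^ (e - n) * R) * (Real.exp Ω / R ^ n)) (by rw [hV]; omega) (fun x hx => by
          rw [map_mul]
          refine mul_le_mul (hval x hx) ?_ (A.nonneg _) (by positivity)
          rw [le_div_iff₀ hRn]
          exact N1_inv hR hVU hΩ hV hx) (by positivity)
      rw [hlag, map_mul, map_pow] at hb
      -- conclusion
      have hsplit : R ^ n = R ^ wd 2 J n * R ^ sg J n := by
        rw [← pow_add]
        congr 1
        have := hwd n
        unfold sg
        omega
      have h3 : A (c n) * (A f.F.leadingCoeff * R) ^ wd 2 J n * R ^ sg J n ≤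
          κ * (κ * (K ^ (e - n) * R) * Real.exp Ω) := by
        have h4 := mul_le_mul_of_nonneg_right hb hRn.le
        have h5 : κ * (κ * (K ^ (e - n) * R) * (Real.exp Ω / R ^ n)) * R ^ n =
            κ * (κ * (K ^ (e - n) * R) * Real.exp Ω) := by
          field_simp
        rw [h5] at h4
        refine le_trans (le_of_eq ?_) h4
        rw [hsplit, mul_pow]
        ring
      have h6 : Real.exp (-(e * μ)) ≤ (A f.F.leadingCoeff * R) ^ wd 2 J n := by
        calc Real.exp (-(e * μ)) ≤ Real.exp (-μ) ^ wd 2 J n := by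
              rw [← Real.exp_nat_mul, Real.exp_le_exp]
              have h7 : (wd 2 J n : ℝ) ≤ e := by exact_mod_cast (hwd n).trans hn
              nlinarith
          _ ≤ _ := pow_le_pow_left₀ (Real.exp_nonneg _) hα _
      have h8 : A (c n) * R ^ sg J n * Real.exp (-(e * μ)) ≤
          κ * (κ * (K ^ (e - n) * R) * Real.exp Ω) := by
        refine le_trans ?_ h3
        have h9 : 0 ≤ A (c n) * R ^ sg J n := mul_nonneg (A.nonneg _) (by positivity)
        calc A (c n) * R ^ sg J n * Real.exp (-(e * μ)) ≤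
              A (c n) * R ^ sg J n * (A f.F.leadingCoeff * R) ^ wd 2 J n :=
              mul_le_mul_of_nonneg_left h6 h9
          _ = _ := by ring
      have h10 : e + 1 - n = (e - n) + 1 := by omega
      rw [h10, pow_succ]
      have h11 : K ^ (e - n) * K * R =
          κ * (κ * (K ^ (e - n) * R) * Real.exp Ω) * Real.exp (e * μ) := by
        have h12 : K = κ ^ 2 * (Real.exp Ω * Real.exp (e * μ)) := by rw [hK, Real.exp_add]
        calc K ^ (e - n) * K * R = K ^ (e - n) * (κ ^ 2 * (Real.exp Ω * Real.exp (e * μ))) * R := by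
              rw [← h12]
          _ = _ := by ring
      rw [h11]
      calc A (c n) * R ^ sg J n =
            A (c n) * R ^ sg J n * Real.exp (-(e * μ)) * Real.exp (e * μ) := by
            rw [mul_assoc, ← Real.exp_add, neg_add_cancel, Real.exp_zero, mul_one]
        _ ≤ _ := mul_le_mul_of_nonneg_right h8 (Real.exp_nonneg _)
  intro n hn
  refine (main (e - n) n hn rfl).trans ?_
  refine mul_le_mul_of_nonneg_right ?_ hR0.le
  exact pow_le_pow_right₀ hK1 (by omega)

end F0744D
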