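import Pool.Agent.Lib.MP_f0744f_nt.C.G1
import Pool.Agent.Lib.MP_f0744f_nt.D.N1

/-! # Row N2: the coefficients at a prime and at the real place -/

set_option autoImplicit false

open Polynomial

namespace F0744D

open F0744C

variable {S : Finset ℤ} {a : ℤ}

theorem N2_int (p : ℕ) [Fact p.Prime] (z : ℤ) : Rat.AbsoluteValue.padic p (z : ℚ) ≤ 1 := by
  rw [Rat.AbsoluteValue.padic_eq_padicNorm]
  exact_mod_cast padicNorm.of_int z

theorem N2_vp {p : ℕ} (hp : p.Prime) (x y : ℤ) : 0 ≤ vp p ((x : ℚ) - y) := by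
  unfold vp
  have h : ((x : ℚ) - (y : ℚ)) = (((x - y : ℤ)) : ℚ) := by push_cast; ring
  rw [h, padicValRat.of_int]
  apply mul_nonneg
  · exact_mod_cast Nat.zero_le _
  · exact Real.log_nonneg (by exact_mod_cast hp.one_le)

theorem N2_exp {e Ω μ : ℝ} (he : 0 ≤ e) (hΩ : 0 ≤ Ω) (hμ : 0 ≤ μ) :
    (Ω + e * μ) * (e + 1) ≤ (e + 1) ^ 2 * (Ω + μ) := by
  nlinarith [mul_nonneg he hΩ, mul_nonneg he hμ, mul_nonneg he (mul_nonneg he hΩ)]

/-- `nt_coef` with `κ = 1`, `R = 1`, `Ω = EnP p U` (`uu_padic`; all terms `vp p (x - y)` are `≥ 0`), `μ = max 0 (- mP)`. -/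
theorem nt_p (f : PM S a 2) {p : ℕ} [Fact p.Prime] {e J : ℕ} {U : Finset ℤ}
    (hU : U ⊆ Dm S a f.ph J) (hc : U.card = e + 1) (c : ℕ → ℚ)
    (hG : ∀ x ∈ U, ∃ z : ℤ,
      ∑ n ∈ Finset.range (e + 1), c n * (bp f.F 2 J n).eval (x : ℚ) = (z : ℚ)) :
    ∀ n ≤ e, Rat.AbsoluteValue.padic p (c n) ≤
      Real.exp (((e : ℝ) + 1) ^ 2 * (EnP p U + max 0 (-mP p f.F))) := by
  intro n hn
  have hp : p.Prime := Fact.out
  have hF : f.F ≠ 0 := by
    intro h
    have := f.deg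
    rw [h, natDegree_zero] at this
    omega
  have hΩ0 : 0 ≤ EnP p U := EnP_nonneg hp U
  have hμ0 : (0 : ℝ) ≤ max 0 (-mP p f.F) := le_max_left _ _
  have h1 := nt_coef f (A := Rat.AbsoluteValue.padic p) (le_refl (1 : ℝ))
    (fun y _ => N2_int p y) (le_refl (1 : ℝ)) (sumLe_padic p (e + 1)) hU hc hΩ0 (by
      intro x hx
      have h2 : ∑ y ∈ U.erase x, max 0 (uu (Rat.AbsoluteValue.padic p) 1 x y) =
          ∑ y ∈ U.erase x, vp p ((x : ℚ) - y) := by
        refine Finset.sum_congr rfl fun y hy => ?_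
        rw [uu_padic p (Finset.ne_of_mem_erase hy).symm]
        exact max_eq_right (N2_vp hp x y)
      rw [h2]
      unfold EnP
      exact Finset.single_le_sum (f := fun x => ∑ y ∈ U.erase x, vp p ((x : ℚ) - y))
        (fun x _ => Finset.sum_nonneg fun y _ => N2_vp hp x y) hx) hμ0 (by
      rw [mm_padic p 2 hF]
      have := le_max_right (0 : ℝ) (-mP p f.F)
      linarith) c (by
      intro x hx
      obtain ⟨z, hz⟩ := hG x hx
      rw [hz]
      exact N2_int p z) n hn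
  rw [one_pow, one_pow, mul_one, mul_one, one_mul, ← Real.exp_nat_mul] at h1
  refine h1.trans (Real.exp_le_exp.2 ?_)
  have h2 := N2_exp (Nat.cast_nonneg e : (0 : ℝ) ≤ (e : ℝ)) hΩ0 hμ0
  push_cast
  linarith

/-- `nt_coef` with `κ = e + 1`, `R = L`, `Ω = EnX real L U`, `μ = max 0 (- mm)`. -/
theorem nt_r (f : PM S a 2) {L : ℝ} (hL1 : 1 ≤ L) (hL : ∀ y ∈ S, |((y : ℤ) : ℝ)| ≤ L) {e J : ℕ}
    {U : Finset ℤ} (hU : U ⊆ Dm S a f.ph J) (hc : U.card = e + 1) (c : ℕ → ℚ)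
    (hG : ∀ x ∈ U, ∃ z ∈ S,
      ∑ n ∈ Finset.range (e + 1), c n * (bp f.F 2 J n).eval (x : ℚ) = ((z : ℤ) : ℚ)) :
    ∀ n ≤ e, |((c n : ℚ) : ℝ)| * L ^ sg J n ≤
      L * Real.exp (((e : ℝ) + 1) ^ 2 * (EnX Rat.AbsoluteValue.real L U +
        max 0 (-mm Rat.AbsoluteValue.real L 2 f.F)) + 2 * (e + 1) * Real.log (e + 1)) := by
  intro n hn
  have hA : ∀ q : ℚ, Rat.AbsoluteValue.real q = |(q : ℝ)| := by
    intro q
    rw [Rat.AbsoluteValue.real_eq_abs]
    push_cast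
    rfl
  have hS : ∀ y ∈ S, Rat.AbsoluteValue.real ((y : ℤ) : ℚ) ≤ L := by
    intro y hy
    rw [hA]
    have := hL y hy
    push_cast
    exact this
  have hΩ0 : 0 ≤ EnX Rat.AbsoluteValue.real L U :=
    Finset.sum_nonneg fun x _ => Finset.sum_nonneg fun y _ => le_max_left _ _
  have hμ0 : (0 : ℝ) ≤ max 0 (-mm Rat.AbsoluteValue.real L 2 f.F) := le_max_left _ _
  have he : (0 : ℝ) ≤ (e : ℝ) := Nat.cast_nonneg e
  have h1 := nt_coef f (A := Rat.AbsoluteValue.real) hL1 hS (κ := ((e + 1 : ℕ) : ℝ))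
    (by push_cast; linarith) (sumLe_any Rat.AbsoluteValue.real (e + 1)) hU hc hΩ0 (by
      intro x hx
      unfold EnX
      exact Finset.single_le_sum
        (f := fun x => ∑ y ∈ U.erase x, max 0 (uu Rat.AbsoluteValue.real L x y))
        (fun x _ => Finset.sum_nonneg fun y _ => le_max_left _ _) hx) hμ0 (by
      have := le_max_right (0 : ℝ) (-mm Rat.AbsoluteValue.real L 2 f.F)
      linarith) c (by
      intro x hx
      obtain ⟨z, hzS, hz⟩ := hG x hx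
      rw [hz]
      exact hS z hzS) n hn
  rw [hA] at h1
  refine h1.trans ?_
  rw [mul_comm]
  refine mul_le_mul_of_nonneg_left ?_ (by linarith)
  have h3 : (((e + 1 : ℕ) : ℝ)) ^ 2 = Real.exp (2 * Real.log (e + 1)) := by
    push_cast
    rw [two_mul, Real.exp_add, Real.exp_log (by linarith)]
    ring
  rw [h3, ← Real.exp_add, ← Real.exp_nat_mul]
  refine Real.exp_le_exp.2 ?_
  have h2 := N2_exp he hΩ0 hμ0
  push_cast
  nlinarith

end F0744D
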