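import Pool.Agent.Lib.MP_f0744f_nt.C.A1
import Pool.Agent.Lib.MP_f0744f_nt.D.B1

/-! # Row X1: the points -/

set_option autoImplicit false

open Polynomial

namespace F0744D

open F0744C

variable {S : Finset ℤ} {a b : ℤ} {e : ℕ}

/-- `Dm_anti`, induction -/
theorem Dm_mono (S : Finset ℤ) (a : ℤ) (ph : ℤ → ℤ) {i j : ℕ} (h : i ≤ j) :
    Dm S a ph j ⊆ Dm S a ph i := by
  exact antitone_nat_of_succ_le (f := fun n => Dm S a ph n) (fun n => Dm_anti ph n) h

theorem Full.mono {ph : ℤ → ℤ} {cl : ℤ → Bool} {i j : ℕ} (h : i ≤ j) {T : Finset ℤ}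
    (hF : Full ph cl j T) : Full ph cl i T := by
  intro ω
  obtain ⟨x, hx, hxi⟩ := hF ω
  exact ⟨x, hx, fun k hk => hxi k (lt_of_lt_of_le hk h)⟩

/-- `exp (- θ m)` decreases with `θ` (`m > 0`). -/
theorem TP.mono {f : PM S a 2} {A : AbsoluteValue ℚ ℝ} {R m θ θ' : ℝ} {cl : ℤ → Bool}
    (h : TP f A R m θ cl) (hθ : θ ≤ θ') : TP f A R m θ' cl := by
  have h1 : θ * m ≤ θ' * m := mul_le_mul_of_nonneg_right hθ h.m0.le
  have h2 : Real.exp (-(θ' * m)) ≤ Real.exp (-(θ * m)) := Real.exp_le_exp.mpr (by linarith)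
  have h3 : R * Real.exp (-(θ' * m)) ≤ R * Real.exp (-(θ * m)) :=
    mul_le_mul_of_nonneg_left h2 (le_trans zero_le_one h.R1)
  exact {
    R1 := h.R1
    m0 := h.m0
    four := h.four.trans h1
    atwo := h2.trans h.atwo
    meq := h.meq
    bd := h.bd
    same := fun x hx y hy hxa hya hc => h3.trans (h.same x hx y hy hxa hya hc)
    diff := fun x hx y hy hxa hya hc => h3.trans (h.diff x hx y hy hxa hya hc) }

/-- `f.ph` is injective on `S \ {a}`; the points of `Dm n` stay in `S \ {a}` for the first `n` steps. Induction. -/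
theorem iter_inj (f : PM S a 2) {n : ℕ} {x y : ℤ} (hx : x ∈ Dm S a f.ph n) (hy : y ∈ Dm S a f.ph n)
    (h : f.ph^[n] x = f.ph^[n] y) : x = y := by
  induction n generalizing x y with
  | zero => exact h
  | succ n ih =>
    obtain ⟨hx1, hx2, hx3⟩ := Dm_succ hx
    obtain ⟨hy1, hy2, hy3⟩ := Dm_succ hy
    rw [Function.iterate_succ_apply, Function.iterate_succ_apply] at h
    exact f.inj x hx1 y hy1 hx2 hy2 (ih hx3 hy3 h)

/-- `T` = the `x ∈ Dm S a f.ph J ∩ Dm S b g.ph J` with `x ≠ b`, `g.ph x ∈ Dm S a f.ph 2`. By `Dm_card` at most `J` points of `S` are not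
in `Dm S a f.ph J`, the same for `g`; `g.ph` is injective on `S \ {b}` with values in `S`, so at most `2` points of `S \ {b}` have
`g.ph x ∉ Dm S a f.ph 2`. -/
theorem exists_T (f : PM S a 2) (g : PM S b e) (J : ℕ) :
    ∃ T : Finset ℤ, T ⊆ Dm S a f.ph J ∧ T ⊆ Dm S b g.ph J ∧
      (∀ x ∈ T, x ∈ S ∧ x ≠ b ∧ g.ph x ∈ Dm S a f.ph 2) ∧ S.card ≤ T.card + 2 * J + 3 := by
  classical
  have h1 : (S \ Dm S a f.ph J).card ≤ J := by
    have h := Dm_card f J
    rw [Finset.card_sdiff_of_subset (Dm_sub S a f.ph J)]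
    omega
  have h2 : (S \ Dm S b g.ph J).card ≤ J := by
    have h := Dm_card g J
    rw [Finset.card_sdiff_of_subset (Dm_sub S b g.ph J)]
    omega
  have h3 : (S \ Dm S a f.ph 2).card ≤ 2 := by
    have h := Dm_card f 2
    rw [Finset.card_sdiff_of_subset (Dm_sub S a f.ph 2)]
    omega
  have h4 : ((S.erase b).filter (fun x => g.ph x ∉ Dm S a f.ph 2)).card ≤
      (S \ Dm S a f.ph 2).card := by
    apply Finset.card_le_card_of_injOn g.ph
    · intro x hx
      have hx1 := Finset.mem_filter.1 (Finset.mem_coe.1 hx)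
      have hx2 := Finset.mem_erase.1 hx1.1
      exact Finset.mem_coe.2 (Finset.mem_sdiff.2 ⟨g.maps x hx2.2 hx2.1, hx1.2⟩)
    · intro x hx y hy hxy
      have hx1 := Finset.mem_erase.1 (Finset.mem_filter.1 (Finset.mem_coe.1 hx)).1
      have hy1 := Finset.mem_erase.1 (Finset.mem_filter.1 (Finset.mem_coe.1 hy)).1
      exact g.inj x hx1.2 y hy1.2 hx1.1 hy1.1 hxy
  refine ⟨(Dm S a f.ph J ∩ Dm S b g.ph J).filter (fun x => x ≠ b ∧ g.ph x ∈ Dm S a f.ph 2),
    ?_, ?_, ?_, ?_⟩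
  · intro x hx
    exact (Finset.mem_inter.1 (Finset.mem_filter.1 hx).1).1
  · intro x hx
    exact (Finset.mem_inter.1 (Finset.mem_filter.1 hx).1).2
  · intro x hx
    have hx1 := Finset.mem_filter.1 hx
    exact ⟨Dm_sub S a f.ph J (Finset.mem_inter.1 hx1.1).1, hx1.2.1, hx1.2.2⟩
  · have h5 : S ⊆ (Dm S a f.ph J ∩ Dm S b g.ph J).filter
        (fun x => x ≠ b ∧ g.ph x ∈ Dm S a f.ph 2) ∪ (S \ Dm S a f.ph J) ∪ (S \ Dm S b g.ph J) ∪
        {b} ∪ (S.erase b).filter (fun x => g.ph x ∉ Dm S a f.ph 2) := by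
      intro x hx
      simp only [Finset.mem_union, Finset.mem_filter, Finset.mem_inter, Finset.mem_sdiff,
        Finset.mem_singleton, Finset.mem_erase]
      by_cases e1 : x ∈ Dm S a f.ph J
      · by_cases e2 : x ∈ Dm S b g.ph J
        · by_cases e3 : x = b
          · exact Or.inl (Or.inr e3)
          · by_cases e4 : g.ph x ∈ Dm S a f.ph 2
            · exact Or.inl (Or.inl (Or.inl (Or.inl ⟨⟨e1, e2⟩, e3, e4⟩)))
            · exact Or.inr ⟨⟨e3, hx⟩, e4⟩
        · exact Or.inl (Or.inl (Or.inr ⟨hx, e2⟩))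
      · exact Or.inl (Or.inl (Or.inl (Or.inr ⟨hx, e1⟩)))
    have h6 := Finset.card_le_card h5
    refine h6.trans ?_
    refine (Finset.card_union_le _ _).trans ?_
    have h7 := (Finset.card_union_le ((Dm S a f.ph J ∩ Dm S b g.ph J).filter
        (fun x => x ≠ b ∧ g.ph x ∈ Dm S a f.ph 2) ∪ (S \ Dm S a f.ph J) ∪
        (S \ Dm S b g.ph J)) {b})
    have h8 := (Finset.card_union_le ((Dm S a f.ph J ∩ Dm S b g.ph J).filter
        (fun x => x ≠ b ∧ g.ph x ∈ Dm S a f.ph 2) ∪ (S \ Dm S a f.ph J))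
        (S \ Dm S b g.ph J))
    have h9 := (Finset.card_union_le ((Dm S a f.ph J ∩ Dm S b g.ph J).filter
        (fun x => x ≠ b ∧ g.ph x ∈ Dm S a f.ph 2)) (S \ Dm S a f.ph J))
    rw [Finset.card_singleton] at h7
    omega

end F0744D
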