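import Pool.Agent.Lib.MP_f0744f_nt.D.E3
import Pool.Agent.Lib.MP_f0744f_nt.D.N2
import Pool.Agent.Lib.MP_f0744f_nt.D.G6
import Pool.Agent.Lib.MP_f0744f_nt.D.X1
import Pool.Agent.Lib.MP_f0744f_nt.D.K0

/-! # Row K1a: bounds for the coefficients -/

set_option autoImplicit false

open Polynomial

namespace F0744D

open F0744C

/-- The bounds of the coefficients of `g.F = ∑ c n bp n` at all places. Take `θ0` from `coef_tp J`. (1) `coef_tp` with `A = padic p`,
`R = 1` (`Full.mono`, `Dm_mono`; the values of `g.F` at the points of `T` are the integers `g.ph x`: `gT`, `g.val`,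
`expand_range` to pass from `range (e + 1)` to `range (2 ^ J)`). (2) `nt_p`. (3) `coef_tp` with `A = real`, `R = L` (`|g.ph x| ≤ L`, `hL`).
(4) `nt_r`. -/
theorem coef_bounds (e J : ℕ) (heJ : e < 2 ^ J) {θ' : ℝ} (hθ' : 0 < θ') :
    ∃ θ0 : ℝ, 0 < θ0 ∧ ∀ (S : Finset ℤ) (a b : ℤ) (f : PM S a 2) (g : PM S b e) (L κ θ C0 : ℝ)
      (B : ℕ) (TT : Finset ℕ) (rt : Bool) (T U : Finset ℤ), Ctx f g J L κ θ C0 B TT rt T U →
      θ ≤ θ0 → ∀ c : ℕ → ℚ, (∀ n, e < n → c n = 0) →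
      g.F = ∑ n ∈ Finset.range (e + 1), C (c n) * bp f.F 2 J n → ∀ n ≤ e,
        (∀ (p : ℕ) [Fact p.Prime], p ∈ TT →
          Rat.AbsoluteValue.padic p (c n) ≤ Real.exp (θ' * mP p f.F)) ∧
        (∀ (p : ℕ) [Fact p.Prime], p ∈ Ps B \ TT →
          Rat.AbsoluteValue.padic p (c n) ≤
            Real.exp (((e : ℝ) + 1) ^ 2 * (EnP p U + max 0 (-mP p f.F)))) ∧
        (rt = true → |((c n : ℚ) : ℝ)| * L ^ sg J n ≤
          L * Real.exp (θ' * mm Rat.AbsoluteValue.real L 2 f.F)) ∧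
        (rt = false → |((c n : ℚ) : ℝ)| * L ^ sg J n ≤
          L * Real.exp (((e : ℝ) + 1) ^ 2 * (EnX Rat.AbsoluteValue.real L U +
            max 0 (-mm Rat.AbsoluteValue.real L 2 f.F)) + 2 * (e + 1) * Real.log (e + 1))) := by
  obtain ⟨θ0, hθ0, hcoef⟩ := coef_tp J hθ'
  refine ⟨θ0, hθ0, ?_⟩
  intro S a b f g L κ θ C0 B TT rt T U h hθ c hc hg n hn
  have hT : T ⊆ Dm S a f.ph J := h.sub.trans (Dm_mono S a f.ph (by omega))
  have hn2 : n < 2 ^ J := by omega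
  have hev : ∀ x ∈ T, ∑ n ∈ Finset.range (e + 1), c n * (bp f.F 2 J n).eval (x : ℚ) =
      ((g.ph x : ℤ) : ℚ) := by
    intro x hx
    obtain ⟨hxS, hxb, -⟩ := h.gT x hx
    rw [g.val x hxS hxb]
    conv_rhs => rw [hg]
    rw [eval_finsetSum]
    refine Finset.sum_congr rfl fun n _ => ?_
    rw [eval_mul, eval_C]
  have hev2 : ∀ x ∈ T, ∑ n ∈ Finset.range (2 ^ J), c n * (bp f.F 2 J n).eval (x : ℚ) =
      ((g.ph x : ℤ) : ℚ) := by
    intro x hx
    rw [← hev x hx]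
    symm
    refine Finset.sum_subset ?_ ?_
    · intro i hi
      rw [Finset.mem_range] at hi ⊢
      omega
    · intro i _ hi
      rw [Finset.mem_range] at hi
      rw [hc i (by omega), zero_mul]
  have hmem : ∀ x ∈ T, g.ph x ∈ S := by
    intro x hx
    obtain ⟨hxS, hxb, -⟩ := h.gT x hx
    exact g.maps x hxS hxb
  refine ⟨?_, ?_, ?_, ?_⟩
  · intro p _ hp
    obtain ⟨cl, htp, hfull⟩ := h.tp p hp
    have h1 := hcoef S a f (Rat.AbsoluteValue.padic p) 1 (mP p f.F) θ cl htp hθ T hT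
      (Full.mono (by omega) hfull) c (fun x hx => by
        rw [hev2 x hx]
        exact htp.bd _ (hmem x hx)) n hn2
    rw [one_pow, mul_one, one_mul] at h1
    exact h1
  · intro p _ _
    exact nt_p f (h.UT.trans hT) h.Uc c (fun x hx => ⟨g.ph x, hev x (h.UT hx)⟩) n hn
  · intro hrt
    obtain ⟨cl, htp, hfull⟩ := h.tr hrt
    have h1 := hcoef S a f Rat.AbsoluteValue.real L (mm Rat.AbsoluteValue.real L 2 f.F) θ cl htp hθ
      T hT (Full.mono (by omega) hfull) c (fun x hx => by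
        rw [hev2 x hx]
        exact htp.bd _ (hmem x hx)) n hn2
    have e1 : Rat.AbsoluteValue.real (c n) = |((c n : ℚ) : ℝ)| := by
      simp [Rat.AbsoluteValue.real_eq_abs]
    rw [e1] at h1
    exact h1
  · intro _
    exact nt_r f h.L1 h.hL (h.UT.trans hT) h.Uc c
      (fun x hx => ⟨g.ph x, hmem x (h.UT hx), hev x (h.UT hx)⟩) n hn

end F0744D
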