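import Pool.Agent.Lib.MP_f0744f_nt.D.E3
import Pool.Agent.Lib.MP_f0744f_nt.D.N2
import Pool.Agent.Lib.MP_f0744f_nt.D.G6
import Pool.Agent.Lib.MP_f0744f_nt.D.X1
import Pool.Agent.Lib.MP_f0744f_nt.D.K0
import Pool.Agent.Lib.MP_f0744f_nt.D.K1a

/-! # Row K1: bounds for the coefficients; no products -/

set_option autoImplicit false

open Polynomial

namespace F0744D

open F0744C

theorem K1_div {L : ℝ} (hL : 1 ≤ L) {k : ℕ} (hk : 2 ≤ k) {x E : ℝ}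
    (h : |x| * L ^ k ≤ L * E) : |x| ≤ L⁻¹ * E := by
  have hL0 : 0 < L := by linarith
  have h1 : L ^ 2 ≤ L ^ k := pow_le_pow_right₀ hL hk
  have h2 : |x| * L ^ 2 ≤ L * E := (mul_le_mul_of_nonneg_left h1 (abs_nonneg x)).trans h
  have h3 : |x| * L ≤ E := by
    have h4 : L * (|x| * L) ≤ L * E := by
      calc L * (|x| * L) = |x| * L ^ 2 := by ring
        _ ≤ L * E := h2
    exact le_of_mul_le_mul_left h4 hL0
  calc |x| = L⁻¹ * (|x| * L) := by field_simp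
    _ ≤ L⁻¹ * E := mul_le_mul_of_nonneg_left h3 (by positivity)

/-- `κ0 = 1 / (8 (e + 1) ^ 2)`, `θ0` of `coef_bounds` for `θ' = 1 / 8`, `C1 = 2 (e + 1) log (e + 1) + 1`. Suppose
`c n ≠ 0` (so `n ≤ e`). `sum_bound` with `k = -1`, `v = 1 / 8`, `w = (e + 1) ^ 2`, `D = 2 (e + 1) log (e + 1)`: `L ^ sg J n ≥ L ^ 2`
(`L ≥ 1`), so `|c n| ≤ exp (- log L + ...)`. The result `0 ≤ - Λ + (1 / 8) (1 + κ) Λ + (e + 1) ^ 2 κ Λ + D`, `D ≤ κ Λ`, is false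
(`Λ > 0` because `C1 > 0`). -/
theorem coef_zero (e J : ℕ) (heJ : e < 2 ^ J) :
    ∃ κ0 θ0 C1 : ℝ, 0 < κ0 ∧ 0 < θ0 ∧
    ∀ (S : Finset ℤ) (a b : ℤ) (f : PM S a 2) (g : PM S b e) (L κ θ C0 : ℝ)
      (B : ℕ) (TT : Finset ℕ) (rt : Bool) (T U : Finset ℤ), Ctx f g J L κ θ C0 B TT rt T U →
      κ ≤ κ0 → θ ≤ θ0 → C1 ≤ C0 → ∀ c : ℕ → ℚ, (∀ n, e < n → c n = 0) →
      g.F = ∑ n ∈ Finset.range (e + 1), C (c n) * bp f.F 2 J n →
      (∀ n ≤ e, (c n).num.natAbs ≤ B ∧ (c n).den ≤ B) →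
      ∀ n < 2 ^ J, 2 ≤ sg J n → c n = 0 := by
  obtain ⟨θ0, hθ0, H⟩ := coef_bounds e J heJ (θ' := 1 / 8) (by norm_num)
  have he : (0 : ℝ) ≤ e := Nat.cast_nonneg e
  have hlog : 0 ≤ Real.log ((e : ℝ) + 1) := Real.log_nonneg (by linarith)
  have hD : 0 ≤ 2 * ((e : ℝ) + 1) * Real.log ((e : ℝ) + 1) := by positivity
  refine ⟨1 / (8 * ((e : ℝ) + 1) ^ 2), θ0, 2 * ((e : ℝ) + 1) * Real.log ((e : ℝ) + 1) + 1,
    by positivity, hθ0, ?_⟩
  intro S a b f g L κ θ C0 B TT rt T U h hκ hθ hC c hc hg hB n hn hsg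
  have hL := h.L1
  have hL0 : 0 < L := by linarith
  by_contra hq
  have hne : n ≤ e := by
    by_contra hlt
    exact hq (hc n (by omega))
  obtain ⟨hb1, hb2⟩ := hB n hne
  obtain ⟨k1, k2, k3, k4⟩ := H S a b f g L κ θ C0 B TT rt T U h hθ c hc hg n hne
  have key := sum_bound h hq hb1 hb2 (k := -1) (v := 1 / 8) (w := ((e : ℝ) + 1) ^ 2)
    (D := 2 * ((e : ℝ) + 1) * Real.log ((e : ℝ) + 1)) (by positivity) hD k1 k2 ?_ ?_
  · have h1 := h.up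
    have h2 := h.big
    have h3 := h.κ0
    have hκ2 : ((e : ℝ) + 1) ^ 2 * κ ≤ 1 / 8 := by
      calc ((e : ℝ) + 1) ^ 2 * κ ≤ ((e : ℝ) + 1) ^ 2 * (1 / (8 * ((e : ℝ) + 1) ^ 2)) :=
            mul_le_mul_of_nonneg_left hκ (by positivity)
        _ = 1 / 8 := by field_simp
    have he2 : 1 ≤ ((e : ℝ) + 1) ^ 2 := one_le_pow₀ (by linarith)
    have hκ3 : κ ≤ 1 / 8 := by nlinarith
    have h4 : 0 < κ * Real.log L := by linarith
    have h5 : 0 < Real.log L := by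
      by_contra h6
      nlinarith
    have h6 : ((e : ℝ) + 1) ^ 2 * κ * Real.log L ≤ 1 / 8 * Real.log L :=
      mul_le_mul_of_nonneg_right hκ2 h5.le
    have h7 : κ * Real.log L ≤ 1 / 8 * Real.log L := mul_le_mul_of_nonneg_right hκ3 h5.le
    nlinarith
  · intro hrt
    have h1 := K1_div hL hsg (k3 hrt)
    have e1 : Real.exp (-1 * Real.log L + 1 / 8 * mm Rat.AbsoluteValue.real L 2 f.F) =
        L⁻¹ * Real.exp (1 / 8 * mm Rat.AbsoluteValue.real L 2 f.F) := by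
      rw [Real.exp_add, neg_one_mul, Real.exp_neg, Real.exp_log hL0]
    rw [e1]
    exact h1
  · intro hrt
    have h1 := K1_div hL hsg (k4 hrt)
    have e1 : Real.exp (-1 * Real.log L + ((e : ℝ) + 1) ^ 2 *
        (EnX Rat.AbsoluteValue.real L U + max 0 (-mm Rat.AbsoluteValue.real L 2 f.F)) +
        2 * ((e : ℝ) + 1) * Real.log ((e : ℝ) + 1)) =
        L⁻¹ * Real.exp (((e : ℝ) + 1) ^ 2 *
        (EnX Rat.AbsoluteValue.real L U + max 0 (-mm Rat.AbsoluteValue.real L 2 f.F)) +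
        2 * ((e : ℝ) + 1) * Real.log ((e : ℝ) + 1)) := by
      rw [add_assoc, Real.exp_add, neg_one_mul, Real.exp_neg, Real.exp_log hL0]
    rw [e1]
    exact h1

end F0744D
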