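import Pool.Agent.Lib.MP_f0744f_nt.D.K1
import Pool.Agent.Lib.MP_f0744f_nt.D.E4
import Pool.Agent.Lib.MP_f0744f_nt.D.E5
import Pool.Agent.Lib.MP_f0744f_nt.D.K2a

/-! # Row K2: the coefficients of the iterates -/

set_option autoImplicit false

open Polynomial

namespace F0744D

open F0744C

theorem K2_padic_sub (p : ℕ) [Fact p.Prime] (x y : ℚ) :
    Rat.AbsoluteValue.padic p (x - y) ≤
      max (Rat.AbsoluteValue.padic p x) (Rat.AbsoluteValue.padic p y) := by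
  rw [Rat.AbsoluteValue.padic_eq_padicNorm, Rat.AbsoluteValue.padic_eq_padicNorm,
    Rat.AbsoluteValue.padic_eq_padicNorm]
  exact_mod_cast padicNorm.sub (p := p) (q := x) (r := y)

theorem K2_real (x : ℚ) : Rat.AbsoluteValue.real x = |(x : ℝ)| := rfl

/-- `near_tp J` with `θ' = 1 / 8` gives `θ1`; `coef_bounds` with `θ' = θ1` gives `θ2`; `θ0 = min θ1 θ2`. Let `q = c ^ 3 - c`,
`c = c (2 ^ i)` (zero if `2 ^ i > e`), suppose `q ≠ 0`. `sum_bound` with `k = 0`, `v = - 7 / 8`, `w = 3 (e + 1) ^ 2`,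
`D = 6 (e + 1) log (e + 1) + log 2`: `hT`, `hRT` are `near_tp` (`G = g.ph`, `lin_eval`; `sg_two_pow`: at the real place
`|c| L ≤ L exp (θ' m)`), `hN`: `|c ^ 3 - c|_p ≤ max (1, |c|_p) ^ 3`, `hRN`: `|c ^ 3 - c| ≤ 2 max (1, |c|) ^ 3`. The result
`0 ≤ - (7 / 8) (1 - κ) Λ + 3 (e + 1) ^ 2 κ Λ + D`, `D ≤ C1 ≤ κ Λ`, is false for `κ ≤ κ0 = 1 / (16 (e + 1) ^ 2)`. -/
theorem coef_cube (e J : ℕ) (heJ : e < 2 ^ J) :
    ∃ κ0 θ0 C1 : ℝ, 0 < κ0 ∧ 0 < θ0 ∧
    ∀ (S : Finset ℤ) (a b : ℤ) (f : PM S a 2) (g : PM S b e) (L κ θ C0 : ℝ)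
      (B : ℕ) (TT : Finset ℕ) (rt : Bool) (T U : Finset ℤ), Ctx f g J L κ θ C0 B TT rt T U →
      κ ≤ κ0 → θ ≤ θ0 → C1 ≤ C0 → ∀ c : ℕ → ℚ, (∀ n, e < n → c n = 0) →
      g.F = ∑ n ∈ Finset.range (e + 1), C (c n) * bp f.F 2 J n →
      (∀ n < 2 ^ J, 2 ≤ sg J n → c n = 0) →
      (∀ n ≤ e, (c n ^ 3 - c n).num.natAbs ≤ B ∧ (c n ^ 3 - c n).den ≤ B) →
      ∀ i < J, c (2 ^ i) ^ 3 - c (2 ^ i) = 0 := by
  obtain ⟨θ1, hθ1, H1⟩ := near_tp J (θ' := 1 / 8) (by norm_num)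
  obtain ⟨θ2, hθ2, H2⟩ := coef_bounds e J heJ hθ1
  have he : (0 : ℝ) ≤ e := Nat.cast_nonneg e
  have hlog : 0 ≤ Real.log ((e : ℝ) + 1) := Real.log_nonneg (by linarith)
  have hl2 : 0 < Real.log 2 := Real.log_pos (by norm_num)
  have hD : 0 < 6 * ((e : ℝ) + 1) * Real.log ((e : ℝ) + 1) + Real.log 2 := by positivity
  refine ⟨1 / (16 * ((e : ℝ) + 1) ^ 2), min θ1 θ2,
    6 * ((e : ℝ) + 1) * Real.log ((e : ℝ) + 1) + Real.log 2, by positivity, lt_min hθ1 hθ2, ?_⟩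
  intro S a b f g L κ θ C0 B TT rt T U h hκ hθ hC c hc hg hsg hB i hi
  have hL := h.L1
  have hL0 : 0 < L := by linarith
  have hlin := lin_eval heJ h hc hg hsg
  have hTJ : T ⊆ Dm S a f.ph J := h.sub.trans (Dm_mono S a f.ph (by omega))
  have hbds := H2 S a b f g L κ θ C0 B TT rt T U h (hθ.trans (min_le_right _ _)) c hc hg
  rcases Nat.lt_or_ge e (2 ^ i) with hei | hei
  · rw [hc _ hei]; norm_num
  by_contra hq
  obtain ⟨hb1, hb2⟩ := hB _ hei
  have hpos : ∀ (p : ℕ) [Fact p.Prime], 0 ≤ EnP p U + max 0 (-mP p f.F) := by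
    intro p hp
    have := EnP_nonneg hp.out U
    have := le_max_left 0 (-mP p f.F)
    linarith
  have key := sum_bound h hq hb1 hb2 (k := 0) (v := -(7 / 8)) (w := 3 * ((e : ℝ) + 1) ^ 2)
    (D := 6 * ((e : ℝ) + 1) * Real.log ((e : ℝ) + 1) + Real.log 2) (by positivity) hD.le ?_ ?_ ?_ ?_
  · have h1 := h.lo
    have h2 := h.big
    have h3 := h.κ0
    have hκ2 : ((e : ℝ) + 1) ^ 2 * κ ≤ 1 / 16 := by
      calc ((e : ℝ) + 1) ^ 2 * κ ≤ ((e : ℝ) + 1) ^ 2 * (1 / (16 * ((e : ℝ) + 1) ^ 2)) :=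
            mul_le_mul_of_nonneg_left hκ (by positivity)
        _ = 1 / 16 := by field_simp
    have he2 : 1 ≤ ((e : ℝ) + 1) ^ 2 := one_le_pow₀ (by linarith)
    have hκ3 : κ ≤ 1 / 16 := by nlinarith
    have h4 : 0 < κ * Real.log L := by linarith
    have h5 : 0 < Real.log L := by
      by_contra h6
      nlinarith
    have h6 : ((e : ℝ) + 1) ^ 2 * κ * Real.log L ≤ 1 / 16 * Real.log L :=
      mul_le_mul_of_nonneg_right hκ2 h5.le
    have h7 : κ * Real.log L ≤ 1 / 16 * Real.log L := mul_le_mul_of_nonneg_right hκ3 h5.le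
    nlinarith
  · intro p hp hpT
    obtain ⟨cl, htp, hfull⟩ := h.tp p hpT
    have := H1 S a f _ _ _ θ cl htp (hθ.trans (min_le_left _ _)) T hTJ
      (hfull.mono (by omega)) (c 0) (fun j => c (2 ^ j)) g.ph (fun j hj => ?_) hlin i hi
    · refine this.trans (Real.exp_le_exp.2 (by linarith))
    · rcases Nat.lt_or_ge e (2 ^ j) with hej | hej
      · rw [hc _ hej, map_zero]
        positivity
      · exact (hbds _ hej).1 p hpT
  · intro p hp hpT
    have h1 := (hbds _ hei).2.1 p hpT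
    have h2 := hpos p
    have h3 : (1 : ℝ) ≤ Real.exp (((e : ℝ) + 1) ^ 2 * (EnP p U + max 0 (-mP p f.F))) :=
      Real.one_le_exp (by positivity)
    have e1 : Real.exp (3 * ((e : ℝ) + 1) ^ 2 * (EnP p U + max 0 (-mP p f.F))) =
        Real.exp (((e : ℝ) + 1) ^ 2 * (EnP p U + max 0 (-mP p f.F))) ^ 3 := by
      rw [← Real.exp_nat_mul]; push_cast; ring_nf
    rw [e1]
    set E := Real.exp (((e : ℝ) + 1) ^ 2 * (EnP p U + max 0 (-mP p f.F)))
    have h4 : Rat.AbsoluteValue.padic p (c (2 ^ i) ^ 3 - c (2 ^ i)) ≤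
        max (Rat.AbsoluteValue.padic p (c (2 ^ i) ^ 3)) (Rat.AbsoluteValue.padic p (c (2 ^ i))) := by
      exact K2_padic_sub p _ _
    refine h4.trans (max_le ?_ (h1.trans ?_))
    · rw [map_pow]
      exact pow_le_pow_left₀ (apply_nonneg _ _) h1 3
    · exact le_self_pow₀ h3 (by norm_num)
  · intro hrt
    obtain ⟨cl, htp, hfull⟩ := h.tr hrt
    have := H1 S a f _ _ _ θ cl htp (hθ.trans (min_le_left _ _)) T hTJ
      (hfull.mono (by omega)) (c 0) (fun j => c (2 ^ j)) g.ph (fun j hj => ?_) hlin i hi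
    · rw [K2_real] at this
      refine this.trans (Real.exp_le_exp.2 (by linarith))
    · rw [K2_real]
      rcases Nat.lt_or_ge e (2 ^ j) with hej | hej
      · rw [hc _ hej, Rat.cast_zero, abs_zero]
        positivity
      · have h1 := (hbds _ hej).2.2.1 hrt
        rw [sg_two_pow hj, pow_one, mul_comm] at h1
        exact le_of_mul_le_mul_left h1 hL0
  · intro hrt
    have h1 := (hbds _ hei).2.2.2 hrt
    rw [sg_two_pow hi, pow_one, mul_comm] at h1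
    have h1 := le_of_mul_le_mul_left h1 hL0
    have hE : 0 ≤ EnX Rat.AbsoluteValue.real L U +
        max 0 (-mm Rat.AbsoluteValue.real L 2 f.F) := by
      have h2 : 0 ≤ EnX Rat.AbsoluteValue.real L U := by
        unfold EnX
        exact Finset.sum_nonneg fun x _ => Finset.sum_nonneg fun y _ => le_max_left _ _
      have h3 := le_max_left 0 (-mm Rat.AbsoluteValue.real L 2 f.F)
      linarith
    set t := ((e : ℝ) + 1) ^ 2 * (EnX Rat.AbsoluteValue.real L U +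
        max 0 (-mm Rat.AbsoluteValue.real L 2 f.F)) + 2 * (e + 1) * Real.log (e + 1) with ht
    have ht0 : 0 ≤ t := by positivity
    have e1 : Real.exp (0 * Real.log L + 3 * ((e : ℝ) + 1) ^ 2 * (EnX Rat.AbsoluteValue.real L U +
        max 0 (-mm Rat.AbsoluteValue.real L 2 f.F)) +
        (6 * ((e : ℝ) + 1) * Real.log ((e : ℝ) + 1) + Real.log 2)) = 2 * Real.exp t ^ 3 := by
      have e2 : 2 * Real.exp t ^ 3 = Real.exp (Real.log 2) * Real.exp ((3 : ℕ) * t) := by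
        rw [Real.exp_log (by norm_num), Real.exp_nat_mul]
      rw [e2, ← Real.exp_add]
      congr 1
      rw [ht]; push_cast; ring
    rw [e1]
    have h3 : (1 : ℝ) ≤ Real.exp t := Real.one_le_exp ht0
    have h4 : |((c (2 ^ i) ^ 3 - c (2 ^ i) : ℚ) : ℝ)| ≤ |((c (2 ^ i) : ℚ) : ℝ)| ^ 3 + |((c (2 ^ i) : ℚ) : ℝ)| := by
      push_cast
      rw [← abs_pow]
      exact abs_sub _ _
    have h5 : |((c (2 ^ i) : ℚ) : ℝ)| ^ 3 ≤ Real.exp t ^ 3 := pow_le_pow_left₀ (abs_nonneg _) h1 3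
    have h6 : Real.exp t ≤ Real.exp t ^ 3 := le_self_pow₀ h3 (by norm_num)
    linarith

end F0744D
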