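import Pool.Agent.Lib.MP_f0744f_nt.D.K2

/-! # Row K3: one iterate -/

set_option autoImplicit false

open Polynomial

namespace F0744D

open F0744C

/-- There is a good place: `mass ≥ (1 - κ) log L > 0` (`κ ≤ 1 / 2`, `C1 = 1`), so `TT` is not empty (take a `p`, `Fact` from `TTs`) or
`rt = true`. `one_tp J` at this place (`lin_eval`; `c ^ 3 = c` means `c = 0, 1, -1`): at most one `c (2 ^ i)`, `i < J`, is not zero. Not all
`c (2 ^ i)` with `i ≥ 1` are zero, since otherwise `g.F = C (c 0) + C (c 1) * X` has degree `≤ 1` (`lin_form`, `expand_range`). So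
`g.F = C (c 0) + C (c (2 ^ k)) * F.comp^[k] X`. -/
theorem shape (e J : ℕ) (he : 2 ≤ e) (heJ : e < 2 ^ J) :
    ∃ κ0 θ0 C1 : ℝ, 0 < κ0 ∧ 0 < θ0 ∧
    ∀ (S : Finset ℤ) (a b : ℤ) (f : PM S a 2) (g : PM S b e) (L κ θ C0 : ℝ)
      (B : ℕ) (TT : Finset ℕ) (rt : Bool) (T U : Finset ℤ), Ctx f g J L κ θ C0 B TT rt T U →
      κ ≤ κ0 → θ ≤ θ0 → C1 ≤ C0 → ∀ c : ℕ → ℚ, (∀ n, e < n → c n = 0) →
      g.F = ∑ n ∈ Finset.range (e + 1), C (c n) * bp f.F 2 J n →
      (∀ n < 2 ^ J, 2 ≤ sg J n → c n = 0) →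
      (∀ i < J, c (2 ^ i) ^ 3 - c (2 ^ i) = 0) →
      ∃ (k : ℕ) (c0 : ℚ), 1 ≤ k ∧ k < J ∧
        (g.F = C c0 + f.F.comp^[k] X ∨ g.F = C c0 - f.F.comp^[k] X) := by
  obtain ⟨θ0, hθ0, hone⟩ := one_tp J
  refine ⟨1 / 2, θ0, 1, by norm_num, hθ0, ?_⟩
  intro S a b f g L κ θ C0 B TT rt T U h hκ hθ hC c hc hg h2 h3
  have hlog : 0 < Real.log L := by
    have h1 := h.big
    have h4 := h.κ0
    by_contra hcon
    push Not at hcon
    have : κ * Real.log L ≤ 0 := mul_nonpos_of_nonneg_of_nonpos h4.le hcon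
    linarith
  have hmass : 0 < mass f.F L TT rt :=
    lt_of_lt_of_le (mul_pos (by linarith) hlog) h.lo
  have hsub : T ⊆ Dm S a f.ph J := h.sub.trans (Dm_mono S a f.ph (by omega))
  have hval : ∀ i < J, c (2 ^ i) = 0 ∨ c (2 ^ i) = 1 ∨ c (2 ^ i) = -1 := by
    intro i hi
    have h1 := h3 i hi
    have h4 : c (2 ^ i) * ((c (2 ^ i) - 1) * (c (2 ^ i) + 1)) = 0 := by linear_combination h1
    rcases mul_eq_zero.1 h4 with h5 | h5
    · exact Or.inl h5
    · rcases mul_eq_zero.1 h5 with h6 | h6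
      · exact Or.inr (Or.inl (by linarith))
      · exact Or.inr (Or.inr (by linarith))
  have hG := lin_eval heJ h hc hg h2
  have hkey : ∀ i < J, ∀ j < J, i ≠ j → c (2 ^ i) ≠ 0 → c (2 ^ j) ≠ 0 → False := by
    rcases hrt : rt with _ | _
    · -- a prime
      have hTT : TT.Nonempty := by
        by_contra hcon
        rw [Finset.not_nonempty_iff_eq_empty] at hcon
        have h0 : mass f.F L TT rt = 0 := by
          unfold mass
          rw [hcon, hrt, Finset.sum_empty, if_neg (by decide), add_zero]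
        rw [h0] at hmass
        exact lt_irrefl _ hmass
      obtain ⟨p, hp⟩ := hTT
      have hpp : p.Prime := (Finset.mem_filter.1 (h.TTs hp)).2
      have : Fact p.Prime := ⟨hpp⟩
      obtain ⟨cl, htp, hfull⟩ := h.tp p hp
      exact hone S a f _ _ _ _ cl htp hθ T hsub (hfull.mono (by omega)) (c 0)
        (fun i => c (2 ^ i)) g.ph hval hG
    · obtain ⟨cl, htp, hfull⟩ := h.tr hrt
      exact hone S a f _ _ _ _ cl htp hθ T hsub (hfull.mono (by omega)) (c 0)
        (fun i => c (2 ^ i)) g.ph hval hG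
  have hgF : g.F = C (c 0) + ∑ i ∈ Finset.range J, C (c (2 ^ i)) * f.F.comp^[i] X := by
    rw [hg, expand_range (show e + 1 ≤ 2 ^ J by omega) hc, lin_form f.F J c h2]
  have hJ0 : 0 < J := by
    rcases Nat.eq_zero_or_pos J with h0 | h0
    · rw [h0] at heJ
      simp at heJ
      omega
    · exact h0
  have hex : ∃ k, 1 ≤ k ∧ k < J ∧ c (2 ^ k) ≠ 0 := by
    by_contra hcon
    push Not at hcon
    have h4 : g.F = C (c 0) + C (c 1) * X := by
      rw [hgF, Finset.sum_eq_single 0]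
      · simp
      · intro i hi hi0
        rw [hcon i (by omega) (Finset.mem_range.1 hi), C_0, zero_mul]
      · intro h0
        exact absurd (Finset.mem_range.2 hJ0) h0
    have h5 : g.F.natDegree ≤ 1 := by
      rw [h4]
      refine (natDegree_add_le _ _).trans (max_le ?_ ?_)
      · rw [natDegree_C]; omega
      · exact (natDegree_C_mul_le _ _).trans natDegree_X_le
    rw [g.deg] at h5
    omega
  obtain ⟨k, hk1, hkJ, hk⟩ := hex
  have hsum : g.F = C (c 0) + C (c (2 ^ k)) * f.F.comp^[k] X := by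
    rw [hgF, Finset.sum_eq_single k]
    · intro i hi hik
      have h0 : c (2 ^ i) = 0 := by
        by_contra h6
        exact hkey i (Finset.mem_range.1 hi) k hkJ hik h6 hk
      rw [h0, C_0, zero_mul]
    · intro h0
      exact absurd (Finset.mem_range.2 hkJ) h0
  refine ⟨k, c 0, hk1, hkJ, ?_⟩
  rcases hval k hkJ with h0 | h0 | h0
  · exact absurd h0 hk
  · left
    rw [hsum, h0, C_1, one_mul]
  · right
    rw [hsum, h0, C_neg, C_1]
    ring

end F0744D
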