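import Pool.Agent.Lib.MP_f0744f_nt.D.E6
import Pool.Agent.Lib.MP_f0744f_nt.D.G6
import Pool.Agent.Lib.MP_f0744f_nt.D.X1
import Pool.Agent.Lib.MP_f0744f_nt.D.K0

/-! # Row K4: no translation -/

set_option autoImplicit false

open Polynomial

namespace F0744D

open F0744C

/-- `θ0` from `trans_tp k` with `θ' = 1 / 8`; `κ0 = 1 / 16`, `C1 = log 2 + 1`. Suppose `c0 ≠ 0`. For `x ∈ T`:
`g.ph x = ph^[k] x + c0` (`iter_eval`), both numbers in `S`, so `c0` is an integer and `|c0| ≤ 2 L`. `sum_bound` with `k = 1`,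
`v = - (2 - 1 / 8)`, `w = 0`, `D = log 2`; `trans_tp` (`Full.mono`, `Dm_mono`: `k + 2 ≤ J + 2`). The result
`0 ≤ Λ - (15 / 8) (1 - κ) Λ + log 2`, `log 2 ≤ κ Λ`, is false. -/
theorem no_trans (e J k : ℕ) (hk : k < J) :
    ∃ κ0 θ0 C1 : ℝ, 0 < κ0 ∧ 0 < θ0 ∧
    ∀ (S : Finset ℤ) (a b : ℤ) (f : PM S a 2) (g : PM S b e) (L κ θ C0 : ℝ)
      (B : ℕ) (TT : Finset ℕ) (rt : Bool) (T U : Finset ℤ), Ctx f g J L κ θ C0 B TT rt T U →
      κ ≤ κ0 → θ ≤ θ0 → C1 ≤ C0 → ∀ c0 : ℚ, g.F = C c0 + f.F.comp^[k] X →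
      c0.num.natAbs ≤ B → c0.den ≤ B → c0 = 0 := by
  obtain ⟨θ0, hθ0, htr⟩ := trans_tp k (θ' := 1 / 8) (by norm_num)
  refine ⟨1 / 16, θ0, Real.log 2 + 1, by norm_num, hθ0, ?_⟩
  intro S a b f g L κ θ C0 B TT rt T U h hκ hθ hC c0 hg hn hd
  by_contra hc
  have hL0 : 0 < L := lt_of_lt_of_le one_pos h.L1
  have hval : ∀ x ∈ T, ((g.ph x : ℤ) : ℚ) = ((f.ph^[k] x : ℤ) : ℚ) + c0 := by
    intro x hx
    have h1 := g.val x (h.gT x hx).1 (h.gT x hx).2.1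
    have h2 := iter_eval f (J := J + 2) (i := k) (by omega) (h.sub hx)
    rw [h1, hg, eval_add, eval_C, h2, add_comm]
  obtain ⟨x0, hx0⟩ : ∃ x, x ∈ T := by
    have h1 : U.Nonempty := by
      rw [← Finset.card_pos, h.Uc]
      omega
    obtain ⟨x, hx⟩ := h1
    exact ⟨x, h.UT hx⟩
  have hgS : g.ph x0 ∈ S := Dm_mono S a f.ph (Nat.zero_le 2) (h.gT x0 hx0).2.2
  have hfS : f.ph^[k] x0 ∈ S := (iter_mem (h.sub hx0) (by omega : k < J + 2)).1
  have hc0 : c0 = (((g.ph x0 - f.ph^[k] x0 : ℤ)) : ℚ) := by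
    rw [Int.cast_sub, hval x0 hx0]
    ring
  have habs : |(c0 : ℝ)| ≤ 2 * L := by
    have h1 : (c0 : ℝ) = ((g.ph x0 : ℤ) : ℝ) - ((f.ph^[k] x0 : ℤ) : ℝ) := by
      rw [hc0]
      push_cast
      ring
    have h2 := h.hL _ hgS
    have h3 := h.hL _ hfS
    rw [h1]
    refine (abs_sub _ _).trans ?_
    linarith
  have hG : ∀ x ∈ T, g.ph x ∈ Dm S a f.ph 2 ∧
      ((g.ph x : ℤ) : ℚ) = ((f.ph^[k] x : ℤ) : ℚ) + c0 := fun x hx => ⟨(h.gT x hx).2.2, hval x hx⟩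
  have hTk : T ⊆ Dm S a f.ph (k + 2) := fun x hx =>
    Dm_mono S a f.ph (by omega : k + 2 ≤ J + 2) (h.sub hx)
  have key := sum_bound h hc hn hd (k := 1) (v := -(2 - 1 / 8)) (w := 0) (D := Real.log 2) le_rfl
    (Real.log_nonneg (by norm_num)) ?_ ?_ ?_ ?_
  · have hΛ : 0 ≤ Real.log L := Real.log_nonneg h.L1
    have h1 := h.lo
    have h2 := h.big
    have h3 : κ * Real.log L ≤ 1 / 16 * Real.log L := mul_le_mul_of_nonneg_right hκ hΛ
    have h4 : 0 < Real.log 2 := Real.log_pos (by norm_num)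
    nlinarith
  · intro p hp hpT
    obtain ⟨cl, h1, h2⟩ := h.tp p hpT
    have h3 := htr S a f _ 1 _ θ cl h1 hθ T hTk (h2.mono (by omega)) c0 g.ph hG
    rw [one_mul] at h3
    refine h3.trans (le_of_eq ?_)
    congr 1
    ring
  · intro p hp _
    rw [zero_mul, Real.exp_zero, hc0, Rat.AbsoluteValue.padic_eq_padicNorm]
    exact_mod_cast padicNorm.of_int _
  · intro hrt
    obtain ⟨cl, h1, h2⟩ := h.tr hrt
    have h3 := htr S a f _ L _ θ cl h1 hθ T hTk (h2.mono (by omega)) c0 g.ph hG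
    rw [Rat.AbsoluteValue.real_eq_abs] at h3
    rw [Real.exp_add, one_mul, Real.exp_log hL0]
    have h4 : -(2 - 1 / 8) * mm Rat.AbsoluteValue.real L 2 f.F =
        -((2 - 1 / 8) * mm Rat.AbsoluteValue.real L 2 f.F) := by ring
    rw [h4]
    push_cast at h3
    exact h3
  · intro _
    rw [zero_mul, add_zero, one_mul, Real.exp_add, Real.exp_log hL0, Real.exp_log (by norm_num)]
    linarith

end F0744D
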