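import Pool.Agent.Lib.MP_f0744f_nt.D.Defs

/-! # Row N4a: averages -/

set_option autoImplicit false

open Polynomial

namespace F0744D

open F0744C

variable {S : Finset ℤ} {a : ℤ}

theorem N4a_erase (w : ℤ → ℤ → ℝ) (T : Finset ℤ) {x : ℤ} (hx : x ∈ T) :
    ∑ z ∈ T, ∑ y ∈ T.erase z, w z y =
      ∑ z ∈ T.erase x, ∑ y ∈ (T.erase x).erase z, w z y + ∑ y ∈ T.erase x, (w x y + w y x) := by
  rw [← Finset.add_sum_erase T _ hx]
  have h : ∀ z ∈ T.erase x, ∑ y ∈ T.erase z, w z y =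
      ∑ y ∈ (T.erase x).erase z, w z y + w z x := by
    intro z hz
    have hxz : x ∈ T.erase z := Finset.mem_erase.2 ⟨(Finset.ne_of_mem_erase hz).symm, hx⟩
    rw [← Finset.sum_erase_add _ _ hxz, Finset.erase_right_comm]
  rw [Finset.sum_congr rfl h, Finset.sum_add_distrib, Finset.sum_add_distrib]
  ring

theorem N4a_deg (w : ℤ → ℤ → ℝ) (T : Finset ℤ) :
    ∑ x ∈ T, ∑ y ∈ T.erase x, (w x y + w y x) = 2 * ∑ x ∈ T, ∑ y ∈ T.erase x, w x y := by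
  have h : ∑ x ∈ T, ∑ y ∈ T.erase x, w y x = ∑ x ∈ T, ∑ y ∈ T.erase x, w x y := by
    rw [Finset.sum_comm']
    intro x y
    simp only [Finset.mem_erase]
    constructor
    · rintro ⟨h1, h2, h3⟩
      exact ⟨⟨Ne.symm h2, h1⟩, h3⟩
    · rintro ⟨⟨h1, h2⟩, h3⟩
      exact ⟨h2, Ne.symm h1, h3⟩
  simp only [Finset.sum_add_distrib]
  rw [h]
  ring

/-- Induction on `T.card - n`. If `n < T.card = t` there is `x ∈ T` with `∑_{y ∈ T.erase x} (w x y + w y x) ≥ 2 W (T) / t` (the sum over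
`x` is `2 W (T)`), so `W (T.erase x) ≤ W (T) (t - 2) / t`, that is
`W (T.erase x) / ((t - 1) (t - 2)) ≤ W (T) / (t (t - 1))` (`n ≥ 2`, so `t ≥ 3`). -/
theorem exists_avg (w : ℤ → ℤ → ℝ) (T : Finset ℤ) {n : ℕ} (hn2 : 2 ≤ n) (hn : n ≤ T.card) :
    ∃ U ⊆ T, U.card = n ∧
      (∑ x ∈ U, ∑ y ∈ U.erase x, w x y) * ((T.card : ℝ) * ((T.card : ℝ) - 1)) ≤
        ((n : ℝ) * ((n : ℝ) - 1)) * ∑ x ∈ T, ∑ y ∈ T.erase x, w x y := by
  obtain ⟨k, hk⟩ : ∃ k, T.card = n + k := ⟨T.card - n, by omega⟩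
  induction k generalizing T with
  | zero =>
    refine ⟨T, Finset.Subset.refl T, hk, le_of_eq ?_⟩
    rw [hk]
    push_cast
    ring
  | succ k ih =>
    have hne : T.Nonempty := Finset.card_pos.1 (by omega)
    obtain ⟨W, hW⟩ : ∃ W : ℝ, W = ∑ x ∈ T, ∑ y ∈ T.erase x, w x y := ⟨_, rfl⟩
    obtain ⟨x, hx, hxd⟩ : ∃ x ∈ T, 2 * W ≤ (T.card : ℝ) * ∑ y ∈ T.erase x, (w x y + w y x) := by
      refine Finset.exists_le_of_sum_le hne ?_
      rw [← Finset.mul_sum, ← Finset.mul_sum, N4a_deg, Finset.sum_const, nsmul_eq_mul, ← hW]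
      exact le_of_eq (by ring)
    have he := N4a_erase w T hx
    rw [← hW] at he
    have hc : (T.erase x).card = n + k := by
      rw [Finset.card_erase_of_mem hx]
      omega
    obtain ⟨U, hU, hUc, hUW⟩ := ih (T.erase x) (by omega) hc
    refine ⟨U, hU.trans (Finset.erase_subset x T), hUc, ?_⟩
    obtain ⟨W', hW'⟩ : ∃ W' : ℝ, W' = ∑ z ∈ T.erase x, ∑ y ∈ (T.erase x).erase z, w z y :=
      ⟨_, rfl⟩
    obtain ⟨V, hV⟩ : ∃ V : ℝ, V = ∑ x ∈ U, ∑ y ∈ U.erase x, w x y := ⟨_, rfl⟩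
    obtain ⟨D, hD⟩ : ∃ D : ℝ, D = ∑ y ∈ T.erase x, (w x y + w y x) := ⟨_, rfl⟩
    rw [← hW', ← hD] at he
    rw [← hW', ← hV, hc] at hUW
    rw [← hD] at hxd
    rw [← hV, ← hW]
    have ht : (T.card : ℝ) = ((n + k : ℕ) : ℝ) + 1 := by
      rw [hk]
      push_cast
      ring
    obtain ⟨m, hm⟩ : ∃ m : ℝ, m = ((n + k : ℕ) : ℝ) := ⟨_, rfl⟩
    have hm2 : 2 ≤ m := by
      rw [hm]
      exact_mod_cast (by omega : 2 ≤ n + k)
    have hn' : (2 : ℝ) ≤ n := by exact_mod_cast hn2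
    rw [ht, ← hm]
    rw [← hm] at hUW
    rw [ht, ← hm] at hxd
    have h1 : (m + 1) * W' ≤ (m - 1) * W := by
      have : W' = W - D := by linarith
      rw [this]
      linarith
    have h2 : (n : ℝ) * ((n : ℝ) - 1) * ((m + 1) * W') ≤ (n : ℝ) * ((n : ℝ) - 1) * ((m - 1) * W) :=
      mul_le_mul_of_nonneg_left h1 (mul_nonneg (by linarith) (by linarith))
    have h3 : (m - 1) * (V * ((m + 1) * (m + 1 - 1))) ≤ (m - 1) * ((n : ℝ) * ((n : ℝ) - 1) * W) := by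
      have h4 := mul_le_mul_of_nonneg_left hUW (show 0 ≤ m + 1 by linarith)
      calc (m - 1) * (V * ((m + 1) * (m + 1 - 1))) = (m + 1) * (V * (m * (m - 1))) := by ring
        _ ≤ (m + 1) * ((n : ℝ) * ((n : ℝ) - 1) * W') := h4
        _ = (n : ℝ) * ((n : ℝ) - 1) * ((m + 1) * W') := by ring
        _ ≤ (n : ℝ) * ((n : ℝ) - 1) * ((m - 1) * W) := h2
        _ = (m - 1) * ((n : ℝ) * ((n : ℝ) - 1) * W) := by ring
    exact le_of_mul_le_mul_left h3 (by linarith)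

end F0744D
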