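import Pool.Agent.Lib.MP_f0744f_nt.D.B1
import Pool.Agent.Lib.MP_f0744f_nt.D.N1
import Pool.Agent.Lib.MP_f0744f_nt.D.N4a

/-! # Row N4: a small subset of small energy; the number sr F -/

set_option autoImplicit false

open Polynomial

namespace F0744D

open F0744C

variable {S : Finset ℤ} {a : ℤ}

theorem N4_core (f : PM S a 2) {A : AbsoluteValue ℚ ℝ} {R M : ℝ} (hR : 1 ≤ R)
    {x y : ℤ} (hx : x ∈ Dm S a f.ph 1) (hy : y ∈ Dm S a f.ph 1) (hxy : x ≠ y)
    (hM : A ((f.ph x : ℚ) - f.ph y) ≤ M) :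
    A ((x : ℚ) + y - sr f.F) ≤ M * Real.exp (uu A R x y - mm A R 2 f.F) := by
  obtain ⟨hxS, hxa, _⟩ := Dm_succ hx
  obtain ⟨hyS, hya, _⟩ := Dm_succ hy
  have hR0 : 0 < R := lt_of_lt_of_le one_pos hR
  have hF0 : f.F ≠ 0 := by
    intro h
    have h1 := f.deg
    rw [h, natDegree_zero] at h1
    omega
  have hα : f.F.leadingCoeff ≠ 0 := leadingCoeff_ne_zero.2 hF0
  have hA : 0 < A f.F.leadingCoeff := A.pos hα
  have hd0 : ((x : ℚ) - y) ≠ 0 := by
    rw [sub_ne_zero]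
    exact_mod_cast hxy
  have hd : 0 < A ((x : ℚ) - y) := A.pos hd0
  have h1 := fdiff f.deg (x : ℚ) (y : ℚ)
  rw [← f.val x hxS hxa, ← f.val y hyS hya] at h1
  rw [h1, A.map_mul, A.map_mul] at hM
  have h2 : Real.exp (uu A R x y - mm A R 2 f.F) =
      (A f.F.leadingCoeff * A ((x : ℚ) - y))⁻¹ := by
    unfold uu mm
    have h3 : Real.log R - Real.log (A ((x : ℚ) - y)) -
        (Real.log (A f.F.leadingCoeff) + (((2 : ℕ) : ℝ) - 1) * Real.log R) =
        -(Real.log (A f.F.leadingCoeff) + Real.log (A ((x : ℚ) - y))) := by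
      push_cast
      ring
    rw [h3, Real.exp_neg, Real.exp_add, Real.exp_log hA, Real.exp_log hd]
  rw [h2, ← div_eq_mul_inv, le_div_iff₀ (mul_pos hA hd)]
  calc A ((x : ℚ) + y - sr f.F) * (A f.F.leadingCoeff * A ((x : ℚ) - y))
      = A f.F.leadingCoeff * A ((x : ℚ) - y) * A ((x : ℚ) + y - sr f.F) := by ring
    _ ≤ M := hM

/-- `fdiff`: `|x + y - sr|_p = |F x - F y|_p / (|α|_p |x - y|_p) ≤ exp (vp p (x - y) - mP p F)` for the elements `x ≠ y` of `U`
(`F x, F y ∈ ℤ`), and `|x + y|_p ≤ 1`; `vp p (x - y) ≤ EnP p U`. -/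
theorem sr_p (f : PM S a 2) {p : ℕ} [Fact p.Prime] {U : Finset ℤ} (hU : U ⊆ Dm S a f.ph 1)
    (hc : 2 ≤ U.card) :
    Rat.AbsoluteValue.padic p (sr f.F) ≤ Real.exp (EnP p U + max 0 (-mP p f.F)) := by
  obtain ⟨x, hx, y, hy, hxy⟩ := Finset.one_lt_card.1 hc
  have hF0 : f.F ≠ 0 := by
    intro h
    have h1 := f.deg
    rw [h, natDegree_zero] at h1
    omega
  have hM : Rat.AbsoluteValue.padic p ((f.ph x : ℚ) - f.ph y) ≤ 1 := by
    have h := Rat.AbsoluteValue.padic_le_one p (f.ph x - f.ph y)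
    push_cast at h
    exact h
  have h1 := N4_core f (A := Rat.AbsoluteValue.padic p) le_rfl (hU hx) (hU hy) hxy hM
  rw [uu_padic p hxy, mm_padic p 2 hF0, one_mul] at h1
  have hn : ∀ u v : ℤ, 0 ≤ vp p ((u : ℚ) - v) := by
    intro u v
    unfold vp
    have h1 : ((u : ℚ) - v) = (((u - v : ℤ)) : ℚ) := by push_cast; ring
    have h2 : (0 : ℝ) ≤ (padicValRat p ((u : ℚ) - v) : ℝ) := by
      rw [h1, padicValRat.of_int]
      positivity
    exact mul_nonneg h2 (Real.log_natCast_nonneg p)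
  have hE : vp p ((x : ℚ) - y) ≤ EnP p U := by
    unfold EnP
    have h3 : vp p ((x : ℚ) - y) ≤ ∑ y ∈ U.erase x, vp p ((x : ℚ) - y) :=
      Finset.single_le_sum (f := fun y : ℤ => vp p ((x : ℚ) - y)) (fun v _ => hn x v)
        (Finset.mem_erase.2 ⟨hxy.symm, hy⟩)
    exact h3.trans (Finset.single_le_sum
      (f := fun u : ℤ => ∑ v ∈ U.erase u, vp p ((u : ℚ) - v))
      (fun u _ => Finset.sum_nonneg fun v _ => hn u v) hx)
  have hE0 : 0 ≤ EnP p U := (hn x y).trans hE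
  have h2 : Rat.AbsoluteValue.padic p ((x : ℚ) + y - sr f.F) ≤
      Real.exp (EnP p U + max 0 (-mP p f.F)) := by
    refine h1.trans (Real.exp_le_exp.2 ?_)
    have := le_max_right 0 (-mP p f.F)
    linarith
  have h4 : Rat.AbsoluteValue.padic p ((x : ℚ) + y) ≤ Real.exp (EnP p U + max 0 (-mP p f.F)) := by
    have h := Rat.AbsoluteValue.padic_le_one p (x + y)
    push_cast at h
    refine h.trans (Real.one_le_exp ?_)
    have := le_max_left 0 (-mP p f.F)
    linarith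
  have h5 : sr f.F = ((x : ℚ) + y) - ((x : ℚ) + y - sr f.F) := by ring
  rw [h5]
  have h6 : Rat.AbsoluteValue.padic p (((x : ℚ) + y) - ((x : ℚ) + y - sr f.F)) ≤
      max (Rat.AbsoluteValue.padic p ((x : ℚ) + y))
        (Rat.AbsoluteValue.padic p ((x : ℚ) + y - sr f.F)) := by
    rw [Rat.AbsoluteValue.padic_eq_padicNorm, Rat.AbsoluteValue.padic_eq_padicNorm,
      Rat.AbsoluteValue.padic_eq_padicNorm]
    have h7 := padicNorm.sub (p := p) (q := ((x : ℚ) + y)) (r := ((x : ℚ) + y - sr f.F))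
    exact_mod_cast h7
  exact h6.trans (max_le h4 h2)

/-- the same: `|x + y - sr| ≤ 2 L / ((exp m / L) (L exp (- uu)))`, `|x + y| ≤ 2 L`. -/
theorem sr_r (f : PM S a 2) {L : ℝ} (hL1 : 1 ≤ L) (hL : ∀ y ∈ S, |((y : ℤ) : ℝ)| ≤ L)
    {U : Finset ℤ} (hU : U ⊆ Dm S a f.ph 1) (hc : 2 ≤ U.card) :
    |((sr f.F : ℚ) : ℝ)| ≤ 4 * L * Real.exp (EnX Rat.AbsoluteValue.real L U +
        max 0 (-mm Rat.AbsoluteValue.real L 2 f.F)) := by
  obtain ⟨x, hx, y, hy, hxy⟩ := Finset.one_lt_card.1 hc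
  obtain ⟨hxS, hxa, _⟩ := Dm_succ (hU hx)
  obtain ⟨hyS, hya, _⟩ := Dm_succ (hU hy)
  have hM : Rat.AbsoluteValue.real ((f.ph x : ℚ) - f.ph y) ≤ 2 * L := by
    rw [Rat.AbsoluteValue.real_eq_abs]
    push_cast
    have h1 := abs_sub ((f.ph x : ℤ) : ℝ) ((f.ph y : ℤ) : ℝ)
    have h2 := hL _ (f.maps x hxS hxa)
    have h3 := hL _ (f.maps y hyS hya)
    linarith
  have h1 := N4_core f (A := Rat.AbsoluteValue.real) hL1 (hU hx) (hU hy) hxy hM
  have hE : uu Rat.AbsoluteValue.real L x y ≤ EnX Rat.AbsoluteValue.real L U := by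
    unfold EnX
    refine (le_max_right 0 _).trans ?_
    have h3 : max 0 (uu Rat.AbsoluteValue.real L x y) ≤
        ∑ y ∈ U.erase x, max 0 (uu Rat.AbsoluteValue.real L x y) :=
      Finset.single_le_sum (f := fun y : ℤ => max 0 (uu Rat.AbsoluteValue.real L x y))
        (fun v _ => le_max_left _ _) (Finset.mem_erase.2 ⟨hxy.symm, hy⟩)
    exact h3.trans (Finset.single_le_sum
      (f := fun u : ℤ => ∑ v ∈ U.erase u, max 0 (uu Rat.AbsoluteValue.real L u v))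
      (fun u _ => Finset.sum_nonneg fun v _ => le_max_left _ _) hx)
  have hE0 : 0 ≤ EnX Rat.AbsoluteValue.real L U := by
    unfold EnX
    exact Finset.sum_nonneg fun u _ => Finset.sum_nonneg fun v _ => le_max_left _ _
  have h2 : Rat.AbsoluteValue.real ((x : ℚ) + y - sr f.F) ≤
      2 * L * Real.exp (EnX Rat.AbsoluteValue.real L U +
        max 0 (-mm Rat.AbsoluteValue.real L 2 f.F)) := by
    refine h1.trans (mul_le_mul_of_nonneg_left (Real.exp_le_exp.2 ?_) (by linarith))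
    have := le_max_right 0 (-mm Rat.AbsoluteValue.real L 2 f.F)
    linarith
  have h4 : 1 ≤ Real.exp (EnX Rat.AbsoluteValue.real L U +
        max 0 (-mm Rat.AbsoluteValue.real L 2 f.F)) := by
    refine Real.one_le_exp ?_
    have := le_max_left 0 (-mm Rat.AbsoluteValue.real L 2 f.F)
    linarith
  rw [Rat.AbsoluteValue.real_eq_abs] at h2
  have h5 : ((sr f.F : ℚ) : ℝ) = ((x : ℝ) + y) - (((x : ℚ) + y - sr f.F : ℚ) : ℝ) := by
    push_cast
    ring
  rw [h5]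
  have h6 := abs_sub ((x : ℝ) + y) (((x : ℚ) + y - sr f.F : ℚ) : ℝ)
  have h7 := abs_add_le (x : ℝ) (y : ℝ)
  have h8 := hL x hxS
  have h9 := hL y hyS
  have h10 : 2 * L ≤ 2 * L * Real.exp (EnX Rat.AbsoluteValue.real L U +
        max 0 (-mm Rat.AbsoluteValue.real L 2 f.F)) :=
    le_mul_of_one_le_right (by linarith) h4
  have h11 : |(((x : ℚ) + y - sr f.F : ℚ) : ℝ)| ≤ 2 * L * Real.exp (EnX Rat.AbsoluteValue.real L U +
        max 0 (-mm Rat.AbsoluteValue.real L 2 f.F)) := by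
    exact_mod_cast h2
  linarith

end F0744D
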