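import Pool.Agent.Lib.MP_f0744f_nt.D.E7
import Pool.Agent.Lib.MP_f0744f_nt.D.G6
import Pool.Agent.Lib.MP_f0744f_nt.D.N4
import Pool.Agent.Lib.MP_f0744f_nt.D.X1
import Pool.Agent.Lib.MP_f0744f_nt.D.K0

/-! # Row K5: no reflection -/

set_option autoImplicit false

open Polynomial

namespace F0744D

open F0744C

theorem K5_EnX_nonneg (A : AbsoluteValue ℚ ℝ) (R : ℝ) (T : Finset ℤ) : 0 ≤ EnX A R T := by
  unfold EnX
  exact Finset.sum_nonneg fun x _ => Finset.sum_nonneg fun y _ => le_max_left _ _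

theorem K5_padic_add (p : ℕ) [Fact p.Prime] {x y : ℚ} {M : ℝ}
    (hx : Rat.AbsoluteValue.padic p x ≤ M) (hy : Rat.AbsoluteValue.padic p y ≤ M) :
    Rat.AbsoluteValue.padic p (x - y) ≤ M := by
  rw [Rat.AbsoluteValue.padic_eq_padicNorm] at hx hy ⊢
  have h1 : padicNorm p (x - y) ≤ max (padicNorm p x) (padicNorm p y) := padicNorm.sub
  have h2 : ((padicNorm p (x - y) : ℚ) : ℝ) ≤ ((max (padicNorm p x) (padicNorm p y) : ℚ) : ℝ) := by
    exact_mod_cast h1
  refine h2.trans ?_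
  rw [Rat.cast_max]
  exact max_le hx hy

/-- `θ0` from `refl_tp k` with `θ' = 1 / 8`; `κ0 = 1 / 16`, `C1 = log 6 + 1`. Suppose `q = c0 - sr f.F ≠ 0`. For `x ∈ T`:
`g.ph x = c0 - ph^[k] x`, both numbers in `S`, so `c0` is an integer and `|c0| ≤ 2 L`. `sum_bound` with `k = 1`,
`v = - (2 - 1 / 8)`, `w = 1`, `D = log 6`: `hT`, `hRT` are `refl_tp`; `hN`: `|c0 - sr|_p ≤ max (1, |sr|_p)` and `sr_p`;
`hRN`: `sr_r`, `2 L + 4 L exp Y ≤ 6 L exp Y`. The result `0 ≤ Λ - (15 / 8) (1 - κ) Λ + κ Λ + log 6`, `log 6 ≤ κ Λ`, is false.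
So `c0 = sr f.F`. For `x ∈ T` let `y = ph^[k] x`, `y' = g.ph x = sr - y`; `y, y' ∈ S \ {a}` (`gT`, `Dm_succ`, `iter_mem`) and
`F y' = F y` (`fsym`), so `y' = y` (`f.inj`), `2 y = sr`. `U ⊆ T` has two different elements `x, x'`, and
`ph^[k] x = ph^[k] x'` contradicts `iter_inj` (`Dm_mono`). -/
theorem no_refl (e J k : ℕ) (he : 2 ≤ e) (hk : k < J) :
    ∃ κ0 θ0 C1 : ℝ, 0 < κ0 ∧ 0 < θ0 ∧
    ∀ (S : Finset ℤ) (a b : ℤ) (f : PM S a 2) (g : PM S b e) (L κ θ C0 : ℝ)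
      (B : ℕ) (TT : Finset ℕ) (rt : Bool) (T U : Finset ℤ), Ctx f g J L κ θ C0 B TT rt T U →
      κ ≤ κ0 → θ ≤ θ0 → C1 ≤ C0 → ∀ c0 : ℚ, g.F = C c0 - f.F.comp^[k] X →
      (c0 - sr f.F).num.natAbs ≤ B → (c0 - sr f.F).den ≤ B → False := by
  obtain ⟨θ0, hθ0, href⟩ := refl_tp k (θ' := 1 / 8) (by norm_num)
  refine ⟨1 / 16, θ0, Real.log 6 + 1, by norm_num, hθ0, ?_⟩
  intro S a b f g L κ θ C0 B TT rt T U h hκ hθ hC c0 hg hnum hden
  have hG : ∀ x ∈ T, g.ph x ∈ Dm S a f.ph 2 ∧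
      ((g.ph x : ℤ) : ℚ) = c0 - ((f.ph^[k] x : ℤ) : ℚ) := by
    intro x hx
    obtain ⟨h1, h2, h3⟩ := h.gT x hx
    refine ⟨h3, ?_⟩
    rw [g.val x h1 h2, hg, eval_sub, eval_C, iter_eval f (show k ≤ J + 2 by omega) (h.sub hx)]
  have hTk : T ⊆ Dm S a f.ph (k + 2) := h.sub.trans (Dm_mono S a f.ph (by omega))
  have hU1 : U ⊆ Dm S a f.ph 1 := h.UT.trans (h.sub.trans (Dm_mono S a f.ph (by omega)))
  have hU2 : 2 ≤ U.card := by rw [h.Uc]; omega
  -- two points of U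
  obtain ⟨x, hx, x', hx', hne⟩ := Finset.one_lt_card.1 (show 1 < U.card by omega)
  have hyS : ∀ z ∈ T, f.ph^[k] z ∈ S ∧ f.ph^[k] z ≠ a := fun z hz =>
    iter_mem (h.sub hz) (show k < J + 2 by omega)
  have hgS : ∀ z ∈ T, g.ph z ∈ S ∧ g.ph z ≠ a := fun z hz =>
    iter_mem (i := 0) (hG z hz).1 (by omega)
  by_cases hq : c0 - sr f.F = 0
  · -- the reflection
    have hc0 : c0 = sr f.F := sub_eq_zero.1 hq
    have key : ∀ z ∈ T, 2 * ((f.ph^[k] z : ℤ) : ℚ) = sr f.F := by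
      intro z hz
      have e1 := (hG z hz).2
      rw [hc0] at e1
      have e2 : f.ph (g.ph z) = f.ph (f.ph^[k] z) := by
        have e3 : ((f.ph (g.ph z) : ℤ) : ℚ) = ((f.ph (f.ph^[k] z) : ℤ) : ℚ) := by
          rw [f.val _ (hgS z hz).1 (hgS z hz).2, f.val _ (hyS z hz).1 (hyS z hz).2, e1]
          exact fsym f.deg _
        exact_mod_cast e3
      have e4 := f.inj _ (hgS z hz).1 _ (hyS z hz).1 (hgS z hz).2 (hyS z hz).2 e2
      rw [e4] at e1
      linarith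
    have h1 := key x (h.UT hx)
    have h2 := key x' (h.UT hx')
    have h3 : ((f.ph^[k] x : ℤ) : ℚ) = ((f.ph^[k] x' : ℤ) : ℚ) := by linarith
    have h4 : f.ph^[k] x = f.ph^[k] x' := by exact_mod_cast h3
    exact hne (iter_inj f (n := k) (Dm_mono S a f.ph (by omega) (h.sub (h.UT hx)))
      (Dm_mono S a f.ph (by omega) (h.sub (h.UT hx'))) h4)
  · -- c0 is an integer
    have hc0 : c0 = (((g.ph x + f.ph^[k] x : ℤ)) : ℚ) := by
      have e1 := (hG x (h.UT hx)).2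
      push_cast
      linarith
    have hL0 : 0 < L := lt_of_lt_of_le one_pos h.L1
    have hc0L : |(c0 : ℝ)| ≤ 2 * L := by
      have e1 := h.hL _ (hgS x (h.UT hx)).1
      have e2 := h.hL _ (hyS x (h.UT hx)).1
      rw [hc0]
      push_cast
      refine (abs_add_le _ _).trans ?_
      linarith
    have hlog6 : 0 ≤ Real.log 6 := Real.log_nonneg (by norm_num)
    have hΛ6 : Real.log 6 + 1 ≤ κ * Real.log L := hC.trans h.big
    have hΛ : 0 < Real.log L := by
      by_contra hcon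
      push Not at hcon
      have := mul_nonpos_of_nonneg_of_nonpos h.κ0.le hcon
      linarith
    have hsum := sum_bound h hq hnum hden (k := 1) (v := -(2 - 1 / 8)) (w := 1) (D := Real.log 6)
      zero_le_one hlog6 ?_ ?_ ?_ ?_
    · have h1 := h.lo
      have h2 : κ * Real.log L ≤ 1 / 16 * Real.log L := mul_le_mul_of_nonneg_right hκ hΛ.le
      linarith [hsum, h1, h2, hΛ6]
    · intro p _ hp
      obtain ⟨cl, htp, hfull⟩ := h.tp p hp
      have h1 := href S a f (Rat.AbsoluteValue.padic p) 1 (mP p f.F) θ cl htp hθ T hTk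
        (Full.mono (by omega) hfull) c0 g.ph hG
      rw [one_mul] at h1
      refine h1.trans (le_of_eq ?_)
      rw [neg_mul]
    · intro p _ hp
      have hY : 0 ≤ EnP p U + max 0 (-mP p f.F) :=
        add_nonneg (EnP_nonneg (Fact.out : p.Prime) U) (le_max_left _ _)
      rw [one_mul]
      apply K5_padic_add
      · have h1 : Rat.AbsoluteValue.padic p c0 ≤ 1 := by
          rw [hc0, Rat.AbsoluteValue.padic_eq_padicNorm]
          exact_mod_cast padicNorm.of_int (p := p) (g.ph x + f.ph^[k] x)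
        exact h1.trans (Real.one_le_exp hY)
      · exact sr_p f hU1 hU2
    · intro hrt
      obtain ⟨cl, htp, hfull⟩ := h.tr hrt
      have h1 := href S a f Rat.AbsoluteValue.real L (mm Rat.AbsoluteValue.real L 2 f.F) θ cl htp hθ
        T hTk (Full.mono (by omega) hfull) c0 g.ph hG
      rw [Rat.AbsoluteValue.real_eq_abs, Rat.cast_abs] at h1
      refine h1.trans (le_of_eq ?_)
      rw [one_mul, Real.exp_add, Real.exp_log hL0, neg_mul]
    · intro _
      set Y : ℝ := EnX Rat.AbsoluteValue.real L U +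
        max 0 (-mm Rat.AbsoluteValue.real L 2 f.F) with hYd
      have hY : 0 ≤ Y := add_nonneg (K5_EnX_nonneg _ _ _) (le_max_left _ _)
      have h1 := sr_r f h.L1 h.hL hU1 hU2
      rw [← hYd] at h1
      have h2 : 1 ≤ Real.exp Y := Real.one_le_exp hY
      have h3 : Real.exp (1 * Real.log L + 1 * Y + Real.log 6) = 6 * L * Real.exp Y := by
        rw [one_mul, one_mul, Real.exp_add, Real.exp_add, Real.exp_log hL0,
          Real.exp_log (by norm_num : (0 : ℝ) < 6)]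
        ring
      rw [h3]
      have h4 : |((c0 - sr f.F : ℚ) : ℝ)| ≤ |(c0 : ℝ)| + |((sr f.F : ℚ) : ℝ)| := by
        push_cast
        exact abs_sub _ _
      have h5 : 2 * L ≤ 2 * L * Real.exp Y := le_mul_of_one_le_right (by positivity) h2
      linarith

end F0744D
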