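import Pool.Agent.Lib.MP_f0744f_nt.D.X3
import Pool.Agent.Lib.MP_f0744f_nt.D.K3
import Pool.Agent.Lib.MP_f0744f_nt.D.K4
import Pool.Agent.Lib.MP_f0744f_nt.D.K5

/-! # Row K7: the integral core -/

set_option autoImplicit false

open Polynomial

namespace F0744D

open F0744C

/-- the integral core -/
def MainQ (e : ℕ) : Prop :=
  ∃ N0 : ℕ, ∀ (S : Finset ℤ) (a b : ℤ), a ∈ S → b ∈ S → a ≠ b → (0 : ℤ) ∈ S → N0 ≤ S.card →
    (∀ p : ℕ, p.Prime → ∃ x ∈ S, ∃ y ∈ S, ¬ (p : ℤ) ∣ x - y) →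
    ∀ (f : PM S a 2) (g : PM S b e), ∃ k : ℕ, 1 ≤ k ∧ g.F = f.F.comp^[k] X

/-- the degree of `C c0 + F^k` -/
theorem K7_deg_add {F : ℚ[X]} (hF : F.natDegree = 2) (k : ℕ) (c0 : ℚ) :
    (C c0 + F.comp^[k] X).natDegree = 2 ^ k := by
  rw [natDegree_C_add, iter_natDegree hF k]

/-- the degree of `C c0 - F^k` -/
theorem K7_deg_sub {F : ℚ[X]} (hF : F.natDegree = 2) (k : ℕ) (c0 : ℚ) :
    (C c0 - F.comp^[k] X).natDegree = 2 ^ k := by
  rw [sub_eq_add_neg, natDegree_C_add, natDegree_neg, iter_natDegree hF k]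

/-- `J = e` (`e < 2 ^ e`), `k0 = Nat.log 2 e`. Constants: `κ, θ` the minima and `C` the maximum of the constants of `coef_zero`,
`coef_cube`, `shape` and (if `k0 < J`) of `no_trans e J k0`, `no_refl e J k0`. `N0` from `exists_ctx`. `c` from `expand` for `g.F`
(`N = e`). Take a `Ctx` with `B` at least all numerators and denominators of the `c n`, `c n ^ 3 - c n`, `n ≤ e`: `coef_zero`,
`coef_cube`, `shape` give `g.F = C c0 ± F.comp^[k] X`, `1 ≤ k < J`; the degree (`iter_natDegree`, `g.deg`) gives `2 ^ k = e`, so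
`k = k0`. Then take a second `Ctx` with `B` at least the numerators and denominators of `c0` and `c0 - sr f.F`: `no_trans`, `no_refl`. -/
theorem main_q (e : ℕ) (he : 2 ≤ e) : MainQ e := by
  obtain ⟨J, hJ⟩ : ∃ J : ℕ, J = e := ⟨_, rfl⟩
  have heJ : e < 2 ^ J := by
    rw [hJ]
    exact Nat.lt_two_pow_self
  obtain ⟨k0, hk0⟩ : ∃ k0 : ℕ, k0 = Nat.log 2 e := ⟨_, rfl⟩
  have hk0J : k0 < J := by
    rw [hk0]
    exact Nat.log_lt_of_lt_pow (by omega) heJ
  have hkk : ∀ k : ℕ, 2 ^ k = e → k = k0 := by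
    intro k hk
    rw [hk0, ← hk, Nat.log_pow (by norm_num)]
  obtain ⟨κ1, θ1, C1, hκ1, hθ1, H1⟩ := coef_zero e J heJ
  obtain ⟨κ2, θ2, C2, hκ2, hθ2, H2⟩ := coef_cube e J heJ
  obtain ⟨κ3, θ3, C3, hκ3, hθ3, H3⟩ := shape e J he heJ
  obtain ⟨κ4, θ4, C4, hκ4, hθ4, H4⟩ := no_trans e J k0 hk0J
  obtain ⟨κ5, θ5, C5, hκ5, hθ5, H5⟩ := no_refl e J k0 he hk0J
  obtain ⟨κ, hκ, k1, k2, k3, k4, k5⟩ : ∃ κ : ℝ, 0 < κ ∧ κ ≤ κ1 ∧ κ ≤ κ2 ∧ κ ≤ κ3 ∧ κ ≤ κ4 ∧
      κ ≤ κ5 := by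
    refine ⟨min κ1 (min κ2 (min κ3 (min κ4 κ5))), ?_, ?_, ?_, ?_, ?_, ?_⟩
    · exact lt_min hκ1 (lt_min hκ2 (lt_min hκ3 (lt_min hκ4 hκ5)))
    · exact min_le_left _ _
    · exact (min_le_right _ _).trans (min_le_left _ _)
    · exact (min_le_right _ _).trans ((min_le_right _ _).trans (min_le_left _ _))
    · exact (min_le_right _ _).trans ((min_le_right _ _).trans ((min_le_right _ _).trans
        (min_le_left _ _)))
    · exact (min_le_right _ _).trans ((min_le_right _ _).trans ((min_le_right _ _).trans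
        (min_le_right _ _)))
  obtain ⟨θ, hθ, t1, t2, t3, t4, t5⟩ : ∃ θ : ℝ, 0 < θ ∧ θ ≤ θ1 ∧ θ ≤ θ2 ∧ θ ≤ θ3 ∧ θ ≤ θ4 ∧
      θ ≤ θ5 := by
    refine ⟨min θ1 (min θ2 (min θ3 (min θ4 θ5))), ?_, ?_, ?_, ?_, ?_, ?_⟩
    · exact lt_min hθ1 (lt_min hθ2 (lt_min hθ3 (lt_min hθ4 hθ5)))
    · exact min_le_left _ _
    · exact (min_le_right _ _).trans (min_le_left _ _)
    · exact (min_le_right _ _).trans ((min_le_right _ _).trans (min_le_left _ _))
    · exact (min_le_right _ _).trans ((min_le_right _ _).trans ((min_le_right _ _).trans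
        (min_le_left _ _)))
    · exact (min_le_right _ _).trans ((min_le_right _ _).trans ((min_le_right _ _).trans
        (min_le_right _ _)))
  obtain ⟨C0, c1, c2, c3, c4, c5⟩ : ∃ C0 : ℝ, C1 ≤ C0 ∧ C2 ≤ C0 ∧ C3 ≤ C0 ∧ C4 ≤ C0 ∧
      C5 ≤ C0 := by
    refine ⟨max C1 (max C2 (max C3 (max C4 C5))), ?_, ?_, ?_, ?_, ?_⟩
    · exact le_max_left _ _
    · exact (le_max_left _ _).trans (le_max_right _ _)
    · exact ((le_max_left _ _).trans (le_max_right _ _)).trans (le_max_right _ _)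
    · exact (((le_max_left _ _).trans (le_max_right _ _)).trans (le_max_right _ _)).trans
        (le_max_right _ _)
    · exact (((le_max_right _ _).trans (le_max_right _ _)).trans (le_max_right _ _)).trans
        (le_max_right _ _)
  obtain ⟨N0, hN0⟩ := exists_ctx he J hκ hθ C0
  refine ⟨N0, fun S a b ha hb hab h0 hN hp f g => ?_⟩
  obtain ⟨c, hc, hg⟩ := expand f.deg J e g.F g.deg.le
  obtain ⟨u, hu⟩ : ∃ u : ℕ → ℕ, u = fun n => ((c n).num.natAbs + (c n).den) +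
      ((c n ^ 3 - c n).num.natAbs + (c n ^ 3 - c n).den) := ⟨_, rfl⟩
  have hub : ∀ n ≤ e, u n ≤ ∑ i ∈ Finset.range (e + 1), u i := fun n hn =>
    Finset.single_le_sum (f := u) (fun i _ => Nat.zero_le _)
      (Finset.mem_range.2 (Nat.lt_succ_of_le hn))
  obtain ⟨L, B, TT, rt, T, U, hB, ctx⟩ := hN0 S a b f g ha hb hab h0 hN hp
    (∑ i ∈ Finset.range (e + 1), u i)
  have hub' : ∀ n ≤ e, ((c n).num.natAbs + (c n).den) +
      ((c n ^ 3 - c n).num.natAbs + (c n ^ 3 - c n).den) ≤ B := by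
    intro n hn
    have h := (hub n hn).trans hB
    rw [hu] at h
    exact h
  have hz := H1 S a b f g L κ θ C0 B TT rt T U ctx k1 t1 c1 c hc hg
    (fun n hn => ⟨by have := hub' n hn; omega, by have := hub' n hn; omega⟩)
  have hq := H2 S a b f g L κ θ C0 B TT rt T U ctx k2 t2 c2 c hc hg hz
    (fun n hn => ⟨by have := hub' n hn; omega, by have := hub' n hn; omega⟩)
  obtain ⟨k, c0, hk1, hkJ, hs⟩ := H3 S a b f g L κ θ C0 B TT rt T U ctx k3 t3 c3 c hc hg hz hq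
  obtain ⟨L', B', TT', rt', T', U', hB', ctx'⟩ := hN0 S a b f g ha hb hab h0 hN hp
    ((c0.num.natAbs + c0.den) + ((c0 - sr f.F).num.natAbs + (c0 - sr f.F).den))
  rcases hs with hs | hs
  · have hk : k = k0 := by
      refine hkk k ?_
      rw [← K7_deg_add f.deg k c0, ← hs, g.deg]
    subst hk
    have h0' : c0 = 0 := H4 S a b f g L' κ θ C0 B' TT' rt' T' U' ctx' k4 t4 c4 c0 hs
      (by omega) (by omega)
    refine ⟨k, hk1, ?_⟩
    rw [hs, h0', C_0, zero_add]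
  · have hk : k = k0 := by
      refine hkk k ?_
      rw [← K7_deg_sub f.deg k c0, ← hs, g.deg]
    subst hk
    exact (H5 S a b f g L' κ θ C0 B' TT' rt' T' U' ctx' k5 t5 c5 c0 hs
      (by omega) (by omega)).elim

end F0744D
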