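import Pool.Agent.Lib.MP_f0744f_nt.C.P5
import Pool.Agent.Lib.MP_f0744f_nt.D.Defs

/-! # Row P1: a tight prime, two residue classes -/

set_option autoImplicit false

open Polynomial

namespace F0744D

open F0744C

variable {S : Finset ℤ} {a b : ℤ} {e : ℕ}

/-- Model: the proof of `local_p` in `C/P5.lean`. `P5_mass` for `f` (`d = 2`) and for `g` (with a `Red g.F p` from `exists_red`)
gives for each class `ρ` of `T`, with `x = card / card`: `(x - μ / 2) ^ 2 ≤ 4 η`, `(x - l / e) ^ 2 ≤ 4 η`, `μ ∈ {1, 2}`.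
(1) A class with `μ = 2`: then `|1 - l / e| ≤ 4 √η < 1 / e`, so `l = e` and by `Red.single` and `Red.one_le_mu` all elements of
`S \ {a}` and all elements of `S \ {b}` are in the class `ρ`: contradiction to `prim` (`a ≠ b`).
(2) So `μ = 1` for all classes of `T`. If there is only one class then `x = 1`, `(1 - 1 / 2) ^ 2 ≤ 4 η`: impossible. So there are
two classes `ρ0 ≠ ρ1` with `μ = 1`; `Red.sum_mu` with `C = {ρ0, ρ1, ρ}` and `Red.one_le_mu` give the last statement. -/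
theorem two_cls (he : 2 ≤ e) (hab : a ≠ b) (f : PM S a 2) (g : PM S b e) {p : ℕ} [Fact p.Prime]
    (prim : ∃ x ∈ S, ∃ y ∈ S, ¬ (p : ℤ) ∣ x - y) (J : ℕ) {T : Finset ℤ}
    (hTf : T ⊆ Dm S a f.ph (J + 1)) (hTg : T ⊆ Dm S b g.ph (J + 1)) (hT : T.Nonempty) {η : ℝ}
    (h0 : 0 < η) (hη : 64 * η * (2 * (e : ℝ)) ^ 2 ≤ 1) (hJ : 1 / (2 : ℝ) ^ J ≤ η)
    (hJe : 1 / (e : ℝ) ^ J ≤ η) (hBf : Big 2 (2 * J) η T.card) (hBg : Big e (2 * J) η T.card)
    (hf : 0 < mP p f.F) (hg : 0 < mP p g.F)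
    (hEf : EnP p T ≤ (1 + η) * (T.card : ℝ) ^ 2 * mP p f.F)
    (hEg : EnP p T ≤ (1 + η) * (T.card : ℝ) ^ 2 * (mP p g.F / ((e : ℝ) - 1))) (r : Red f.F p) :
    ∃ ρ0 ρ1 : ZMod p, ρ0 ≠ ρ1 ∧ r.mu ρ0 = 1 ∧ r.mu ρ1 = 1 ∧
      ∀ x ∈ S, x ≠ a → (x : ZMod p) = ρ0 ∨ (x : ZMod p) = ρ1 := by
  have hαf := P5_neg hf
  have hαg := P5_neg hg
  have hFg : g.F ≠ 0 := by
    intro h
    have := g.deg
    rw [h, natDegree_zero] at this
    omega
  obtain ⟨rg⟩ := exists_red hFg hαg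
  have heR : (2 : ℝ) ≤ e := by exact_mod_cast he
  have hη' : 256 * η * (e : ℝ) ^ 2 ≤ 1 := by
    have : 64 * η * (2 * (e : ℝ)) ^ 2 = 256 * η * (e : ℝ) ^ 2 := by ring
    linarith
  have he2 : (4 : ℝ) ≤ (e : ℝ) ^ 2 := by nlinarith
  have hη1 : 1024 * η ≤ 1 := by nlinarith
  have h1 : η ≤ 1 / 2 := by linarith
  have hJ2 : 1 / ((2 : ℕ) : ℝ) ^ J ≤ η := by push_cast; exact hJ
  have hEf2 : EnP p T ≤ (1 + η) * (T.card : ℝ) ^ 2 * (mP p f.F / (((2 : ℕ) : ℝ) - 1)) := by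
    have : mP p f.F / (((2 : ℕ) : ℝ) - 1) = mP p f.F := by push_cast; norm_num
    rw [this]
    exact hEf
  have hmf := P5_mass le_rfl f r hαf J hTf hT h0 h1 hJ2 hBf hEf2
  have hmg := P5_mass he g rg hαg J hTg hT h0 h1 hJe hBg hEg
  -- no class has multiplicity two
  have hmu : ∀ ρ ∈ T.image (fun x : ℤ => (x : ZMod p)), r.mu ρ = 1 := by
    intro ρ hρ
    obtain ⟨hf1, hf2, hf3⟩ := hmf _ hρ
    obtain ⟨hg1, hg2, hg3⟩ := hmg _ hρ
    by_contra hne
    have hmd : r.mu ρ = 2 := by omega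
    have hme : rg.mu ρ = e := by
      by_contra hle
      have hlt : rg.mu ρ + 1 ≤ e := by omega
      have hltR : ((rg.mu ρ : ℕ) : ℝ) + 1 ≤ e := by exact_mod_cast hlt
      rw [hmd] at hf3
      set x : ℝ := ((cls p T ρ).card : ℝ) / T.card with hx
      have e1 : ((2 : ℕ) : ℝ) / ((2 : ℕ) : ℝ) = 1 := by norm_num
      rw [e1] at hf3
      set l : ℝ := ((rg.mu ρ : ℕ) : ℝ) / e with hl
      have hepos : (0 : ℝ) < e := by linarith
      have hl1 : 1 / (e : ℝ) ≤ 1 - l := by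
        rw [hl, div_le_iff₀ hepos, sub_mul, div_mul_cancel₀ _ hepos.ne']
        linarith
      have h2 : (1 - l) ^ 2 ≤ 16 * η := by nlinarith [sq_nonneg ((x - 1) + (x - l))]
      have h3 : (1 / (e : ℝ)) ^ 2 ≤ (1 - l) ^ 2 := by
        apply pow_le_pow_left₀ (by positivity) hl1
      have h4 : (1 / (e : ℝ)) ^ 2 * (e : ℝ) ^ 2 = 1 := by
        rw [← mul_pow, one_div, inv_mul_cancel₀ hepos.ne', one_pow]
      have h5 : (1 / (e : ℝ)) ^ 2 ≤ 16 * η := h3.trans h2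
      have h6 : (1 / (e : ℝ)) ^ 2 * (e : ℝ) ^ 2 ≤ 16 * η * (e : ℝ) ^ 2 :=
        mul_le_mul_of_nonneg_right h5 (by positivity)
      nlinarith
    have allf : ∀ x ∈ S, x ≠ a → (x : ZMod p) = ρ := by
      intro x hx hxa
      exact r.single (by rw [hmd, f.deg]) (r.one_le_mu hαf (f.val x hx hxa))
    have allg : ∀ x ∈ S, x ≠ b → (x : ZMod p) = ρ := by
      intro x hx hxb
      exact rg.single (by rw [hme, g.deg]) (rg.one_le_mu hαg (g.val x hx hxb))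
    have all : ∀ x ∈ S, (x : ZMod p) = ρ := by
      intro x hx
      by_cases hxa : x = a
      · exact allg x hx (by rw [hxa]; exact hab)
      · exact allf x hx hxa
    obtain ⟨x, hx, y, hy, hxy⟩ := prim
    apply hxy
    rw [← ZMod.intCast_eq_intCast_iff_dvd_sub, all x hx, all y hy]
  -- two classes
  obtain ⟨x0, hx0⟩ := hT
  have hρ0 : ((x0 : ℤ) : ZMod p) ∈ T.image (fun x : ℤ => (x : ZMod p)) :=
    Finset.mem_image_of_mem _ hx0
  have htwo : ∃ ρ1 ∈ T.image (fun x : ℤ => (x : ZMod p)), ρ1 ≠ ((x0 : ℤ) : ZMod p) := by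
    by_contra hcon
    push Not at hcon
    have himg : T.image (fun x : ℤ => (x : ZMod p)) = {((x0 : ℤ) : ZMod p)} := by
      apply Finset.eq_singleton_iff_unique_mem.2
      exact ⟨hρ0, hcon⟩
    have hs := P5_sum p T
    rw [himg, Finset.sum_singleton] at hs
    obtain ⟨-, -, hf3⟩ := hmf _ hρ0
    have hpos : (0 : ℝ) < T.card := by exact_mod_cast Finset.card_pos.2 ⟨x0, hx0⟩
    rw [hs, div_self hpos.ne', hmu _ hρ0] at hf3
    norm_num at hf3
    linarith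
  obtain ⟨ρ1, hρ1, hne⟩ := htwo
  refine ⟨((x0 : ℤ) : ZMod p), ρ1, hne.symm, hmu _ hρ0, hmu _ hρ1, ?_⟩
  intro x hx hxa
  by_contra hcon
  push Not at hcon
  have hs := r.sum_mu {((x0 : ℤ) : ZMod p), ρ1, (x : ZMod p)}
  rw [f.deg, Finset.sum_insert (by
      simp only [Finset.mem_insert, Finset.mem_singleton, not_or]
      exact ⟨hne.symm, fun h => hcon.1 h.symm⟩),
    Finset.sum_insert (by
      simp only [Finset.mem_singleton]
      exact fun h => hcon.2 h.symm), Finset.sum_singleton, hmu _ hρ0, hmu _ hρ1] at hs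
  have := r.one_le_mu hαf (f.val x hx hxa)
  omega

end F0744D
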