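import Pool.Agent.Lib.MP_f0744f_nt.C.P5
import Pool.Agent.Lib.MP_f0744f_nt.D.Defs

/-! # Row P2a: simple residue classes -/

set_option autoImplicit false

open Polynomial

namespace F0744D

open F0744C

variable {S : Finset ℤ} {a b : ℤ} {e : ℕ}

theorem P2a_deg {F : ℚ[X]} (hF : F.natDegree = 2) {p : ℕ} (r : Red F p) : r.G.degree ≤ 2 := by
  have h1 : (r.G.map (Int.castRingHom ℚ)).degree ≤ 2 := by
    rw [r.hG]
    have h0 : (C (r.c : ℚ) * F).natDegree ≤ 2 := by
      rw [← hF]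
      exact natDegree_C_mul_le _ _
    exact natDegree_le_iff_degree_le.mp h0
  rwa [degree_map_eq_of_injective (Int.castRingHom ℚ).injective_int] at h1

theorem P2a_coeff {F : ℚ[X]} {p : ℕ} (r : Red F p) (n : ℕ) :
    ((r.G.coeff n : ℤ) : ℚ) = (r.c : ℚ) * F.coeff n := by
  have h := congrArg (fun q : ℚ[X] => q.coeff n) r.hG
  simpa [coeff_map, coeff_C_mul] using h

theorem P2a_deriv {F : ℚ[X]} (hF : F.natDegree = 2) {p : ℕ} [Fact p.Prime] (r : Red F p)
    (ρ : ZMod p) :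
    (derivative (r.G.map (Int.castRingHom (ZMod p)))).eval ρ =
      ((r.G.coeff 2 : ℤ) : ZMod p) * (ρ + ρ) + ((r.G.coeff 1 : ℤ) : ZMod p) := by
  have h := Polynomial.eq_quadratic_of_degree_le_two (P2a_deg hF r)
  have h2 : r.G.map (Int.castRingHom (ZMod p)) =
      C ((r.G.coeff 2 : ℤ) : ZMod p) * X ^ 2 + C ((r.G.coeff 1 : ℤ) : ZMod p) * X +
        C ((r.G.coeff 0 : ℤ) : ZMod p) := by
    conv_lhs => rw [h]
    simp
  rw [h2]
  simp only [derivative_add, derivative_mul, derivative_C, derivative_X_pow, derivative_X,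
    eval_add, eval_mul, eval_C, eval_pow, eval_X, eval_zero, zero_mul, mul_one]
  push_cast
  ring

/-- `G = r.G = A2 X ^ 2 + A1 X + A0`, `A2 = c α`, `A1 = c β` (`r.hG`), so for `x, y ∈ ℤ`:
`A2 (x + y - sr F) = A2 (x + y) + A1`. If `x, y` have the residue `ρ` this integer is `G' (ρ)` modulo `p`, not zero because the
multiplicity of `ρ` is 1 (`Polynomial.one_lt_rootMultiplicity_iff_isRoot`). So `1 ≤ |A2|_p |x + y - sr F|_p` and `|A2|_p ≤ 1`. -/
theorem simple_cls {F : ℚ[X]} (hF : F.natDegree = 2) {p : ℕ} [Fact p.Prime] (r : Red F p) {x y : ℤ}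
    (h : (x : ZMod p) = (y : ZMod p)) (hx : r.mu (x : ZMod p) = 1) :
    1 ≤ Rat.AbsoluteValue.padic p ((x : ℚ) + y - sr F) := by
  have hlead : F.leadingCoeff = F.coeff 2 := by rw [leadingCoeff, hF]
  have hF0 : F.leadingCoeff ≠ 0 := by
    rw [leadingCoeff_ne_zero]
    intro h0
    rw [h0, natDegree_zero] at hF
    omega
  have hm : (((r.G.coeff 2 * (x + y) + r.G.coeff 1 : ℤ)) : ℚ) =
      ((r.G.coeff 2 : ℤ) : ℚ) * ((x : ℚ) + y - sr F) := by
    push_cast
    rw [P2a_coeff r 2, P2a_coeff r 1]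
    unfold sr
    rw [← hlead]
    field_simp
    ring
  have hnd : ¬ (p : ℤ) ∣ (r.G.coeff 2 * (x + y) + r.G.coeff 1) := by
    intro hd
    have hz : (((r.G.coeff 2 * (x + y) + r.G.coeff 1 : ℤ)) : ZMod p) = 0 :=
      (ZMod.intCast_zmod_eq_zero_iff_dvd _ p).mpr hd
    push_cast at hz
    rw [← h] at hz
    have hroot : (r.G.map (Int.castRingHom (ZMod p))).IsRoot (x : ZMod p) := by
      rw [← rootMultiplicity_pos r.hne]
      unfold Red.mu at hx
      omega
    have hder : (derivative (r.G.map (Int.castRingHom (ZMod p)))).IsRoot (x : ZMod p) := by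
      rw [IsRoot.def, P2a_deriv hF r]
      exact hz
    have hlt := (one_lt_rootMultiplicity_iff_isRoot r.hne).mpr ⟨hroot, hder⟩
    unfold Red.mu at hx
    omega
  have h1 : Rat.AbsoluteValue.padic p (((r.G.coeff 2 * (x + y) + r.G.coeff 1 : ℤ)) : ℚ) = 1 := by
    rw [Rat.AbsoluteValue.padic_eq_padicNorm]
    exact_mod_cast (padicNorm.int_eq_one_iff _).mpr hnd
  rw [hm, map_mul] at h1
  have h2 : Rat.AbsoluteValue.padic p ((r.G.coeff 2 : ℤ) : ℚ) ≤ 1 :=
    Rat.AbsoluteValue.padic_le_one p _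
  calc (1 : ℝ) = Rat.AbsoluteValue.padic p ((r.G.coeff 2 : ℤ) : ℚ) *
        Rat.AbsoluteValue.padic p ((x : ℚ) + y - sr F) := h1.symm
    _ ≤ 1 * Rat.AbsoluteValue.padic p ((x : ℚ) + y - sr F) :=
        mul_le_mul_of_nonneg_right h2 (AbsoluteValue.nonneg _ _)
    _ = _ := one_mul _

end F0744D
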