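import Pool.Agent.Lib.MP_f0744f_nt.D.P1
import Pool.Agent.Lib.MP_f0744f_nt.D.P2a

/-! # Row P2: a tight prime is a good place -/

set_option autoImplicit false

open Polynomial

namespace F0744D

open F0744C

variable {S : Finset ℤ} {a b : ℤ} {e : ℕ}

/-- `|2|_p ≥ 1/2` -/
theorem P2_two (p : ℕ) [Fact p.Prime] : 1 / 2 ≤ Rat.AbsoluteValue.padic p 2 := by
  have hp : p.Prime := Fact.out
  rw [Rat.AbsoluteValue.padic_eq_padicNorm]
  by_cases h : p = 2
  · subst h
    have h1 : padicNorm 2 ((2 : ℕ) : ℚ) = ((2 : ℕ) : ℚ)⁻¹ := padicNorm.padicNorm_p_of_prime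
    have h2 : padicNorm 2 (2 : ℚ) = 1 / 2 := by
      have h3 : ((2 : ℕ) : ℚ) = 2 := by norm_num
      rw [h3] at h1
      rw [h1]
      norm_num
    rw [h2]
    norm_num
  · have h1 : padicNorm p ((2 : ℕ) : ℚ) = 1 := by
      rw [padicNorm.nat_eq_one_iff]
      intro hd
      exact h ((Nat.prime_dvd_prime_iff_eq hp Nat.prime_two).1 hd)
    have h2 : padicNorm p (2 : ℚ) = 1 := by
      have h3 : ((2 : ℕ) : ℚ) = 2 := by norm_num
      rw [h3] at h1
      exact h1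
    rw [h2]
    norm_num

/-- different residues: distance 1 -/
theorem P2_diff (p : ℕ) [Fact p.Prime] {x y : ℤ} (h : (x : ZMod p) ≠ (y : ZMod p)) :
    Rat.AbsoluteValue.padic p ((x : ℚ) - y) = 1 := by
  have h1 : ((x : ℚ) - y) = ((x - y : ℤ) : ℚ) := by push_cast; ring
  rw [h1, Rat.AbsoluteValue.padic_eq_padicNorm]
  have h2 : padicNorm p ((x - y : ℤ) : ℚ) = 1 := by
    rw [padicNorm.int_eq_one_iff]
    intro hd
    apply h
    rw [ZMod.intCast_eq_intCast_iff_dvd_sub]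
    rw [← dvd_neg, neg_sub]
    exact hd
  rw [h2]
  norm_num

/-- `exists_red` (`P5_neg`), `two_cls`; `cl x = decide ((x : ZMod p) = ρ1)`. `meq` is `mm_padic`; `atwo`:
`|2|_p ≥ 1 / 2 ≥ exp (- log 4)`; `bd`: integers have `p`-adic size `≤ 1`; `same` is `simple_cls`; `diff`: `p` does not divide
`x - y` (`padicNorm`). -/
theorem tp_p (he : 2 ≤ e) (hab : a ≠ b) (f : PM S a 2) (g : PM S b e) {p : ℕ} [Fact p.Prime]
    (prim : ∃ x ∈ S, ∃ y ∈ S, ¬ (p : ℤ) ∣ x - y) (J : ℕ) {T : Finset ℤ}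
    (hTf : T ⊆ Dm S a f.ph (J + 1)) (hTg : T ⊆ Dm S b g.ph (J + 1)) (hT : T.Nonempty) {η : ℝ}
    (h0 : 0 < η) (hη : 64 * η * (2 * (e : ℝ)) ^ 2 ≤ 1) (hJ : 1 / (2 : ℝ) ^ J ≤ η)
    (hJe : 1 / (e : ℝ) ^ J ≤ η) (hBf : Big 2 (2 * J) η T.card) (hBg : Big e (2 * J) η T.card)
    (hf : 0 < mP p f.F) (hg : 0 < mP p g.F)
    (hEf : EnP p T ≤ (1 + η) * (T.card : ℝ) ^ 2 * mP p f.F)
    (hEg : EnP p T ≤ (1 + η) * (T.card : ℝ) ^ 2 * (mP p g.F / ((e : ℝ) - 1))) {θ : ℝ}
    (hθ : Real.log 4 ≤ θ * mP p f.F) :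
    ∃ cl : ℤ → Bool, TP f (Rat.AbsoluteValue.padic p) 1 (mP p f.F) θ cl := by
  have hαf := P5_neg hf
  have hFf : f.F ≠ 0 := by
    intro h
    have := f.deg
    rw [h, natDegree_zero] at this
    omega
  obtain ⟨r⟩ := exists_red hFf hαf
  obtain ⟨ρ0, ρ1, hne, hm0, hm1, hall⟩ :=
    two_cls he hab f g prim J hTf hTg hT h0 hη hJ hJe hBf hBg hf hg hEf hEg r
  have hexp : Real.exp (-(θ * mP p f.F)) ≤ 1 / 4 := by
    have h1 : Real.exp (-(θ * mP p f.F)) ≤ Real.exp (-Real.log 4) :=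
      Real.exp_le_exp.2 (by linarith)
    rw [Real.exp_neg (Real.log 4), Real.exp_log (by norm_num)] at h1
    linarith
  refine ⟨fun x => decide ((x : ZMod p) = ρ1), ?_⟩
  refine
    { R1 := le_refl 1
      m0 := hf
      four := hθ
      atwo := ?_
      meq := mm_padic p 2 hFf
      bd := ?_
      same := ?_
      diff := ?_ }
  · exact hexp.trans (le_trans (by norm_num) (P2_two p))
  · intro x _
    rw [Rat.AbsoluteValue.padic_eq_padicNorm]
    exact_mod_cast padicNorm.of_int x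
  · intro x hx y hy hxa hya hxy
    have hxy' : ((x : ZMod p) = ρ1 ↔ (y : ZMod p) = ρ1) := by
      simpa using hxy
    have h1 : (x : ZMod p) = (y : ZMod p) := by
      by_cases hx1 : (x : ZMod p) = ρ1
      · rw [hx1, hxy'.1 hx1]
      · have hy1 : ¬ (y : ZMod p) = ρ1 := fun h => hx1 (hxy'.2 h)
        rcases hall x hx hxa with h2 | h2
        · rcases hall y hy hya with h3 | h3
          · rw [h2, h3]
          · exact absurd h3 hy1
        · exact absurd h2 hx1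
    have h2 : r.mu (x : ZMod p) = 1 := by
      rcases hall x hx hxa with h | h
      · rw [h, hm0]
      · rw [h, hm1]
    have h3 := simple_cls f.deg r h1 h2
    rw [one_mul]
    linarith
  · intro x hx y hy hxa hya hxy
    have h1 : (x : ZMod p) ≠ (y : ZMod p) := by
      intro h
      apply hxy
      rw [h]
    rw [P2_diff p h1, one_mul]
    linarith

end F0744D
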