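import Pool.Agent.Lib.MP_f0744f_nt.C.R0
import Pool.Agent.Lib.MP_f0744f_nt.C.R2a
import Pool.Agent.Lib.MP_f0744f_nt.C.R5a
import Pool.Agent.Lib.MP_f0744f_nt.D.Defs

/-! # Row R1: the clusters of the roots of F and G, with a small threshold -/

set_option autoImplicit false

open Polynomial

namespace F0744D

open F0744C

/-- Model: `lead_ge` in `C/R5a0.lean` (`κ = 1 / 4`). `log |α| ≥ - (1 - κ) (d - 1) Λ`, and
`- (1 - κ) (d - 1) + d θ ≥ 1` because `θ ≥ 1 - κ / 2 ≥ 1 - κ (d - 1) / d`. -/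
theorem lead_ge' {F : ℚ[X]} {d : ℕ} (hF : F.natDegree = d) (hd : 2 ≤ d) {L : ℝ} (hL : 1 ≤ L) {κ : ℝ}
    (hκ : 0 < κ) (hM : κ * (((d : ℝ) - 1) * Real.log L) ≤ mm Rat.AbsoluteValue.real L d F) {θ : ℝ}
    (hθ : 1 - κ / 2 ≤ θ) : L ≤ |((F.leadingCoeff : ℚ) : ℝ)| * Real.exp (θ * Real.log L) ^ d := by
  have hF0 : F ≠ 0 := by
    rintro rfl
    rw [Polynomial.natDegree_zero] at hF
    omega
  have hlc : F.leadingCoeff ≠ 0 := Polynomial.leadingCoeff_ne_zero.2 hF0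
  have hA0 : 0 < |((F.leadingCoeff : ℚ) : ℝ)| := abs_pos.2 (by exact_mod_cast hlc)
  have hd' : (2 : ℝ) ≤ d := by exact_mod_cast hd
  have hΛ : 0 ≤ Real.log L := Real.log_nonneg hL
  have hAA : Rat.AbsoluteValue.real F.leadingCoeff = |((F.leadingCoeff : ℚ) : ℝ)| := by
    rw [Rat.AbsoluteValue.real_eq_abs]
    push_cast
    rfl
  unfold mm at hM
  rw [hAA] at hM
  have key : Real.log L ≤ Real.log |((F.leadingCoeff : ℚ) : ℝ)| + (d : ℝ) * (θ * Real.log L) := by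
    have h1 : (1 - κ / 2) * Real.log L ≤ θ * Real.log L := mul_le_mul_of_nonneg_right hθ hΛ
    have h2 : (d : ℝ) * ((1 - κ / 2) * Real.log L) ≤ (d : ℝ) * (θ * Real.log L) :=
      mul_le_mul_of_nonneg_left h1 (by linarith)
    have h3 : 0 ≤ κ * (((d : ℝ) - 2) * Real.log L) :=
      mul_nonneg hκ.le (mul_nonneg (sub_nonneg.2 hd') hΛ)
    have h4 : (d : ℝ) * ((1 - κ / 2) * Real.log L) =
        (d : ℝ) * Real.log L - κ * ((d : ℝ) * Real.log L) / 2 := by ring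
    have h5 : κ * (((d : ℝ) - 2) * Real.log L) = κ * ((d : ℝ) * Real.log L) - 2 * (κ * Real.log L) := by ring
    have h6 : κ * (((d : ℝ) - 1) * Real.log L) = κ * ((d : ℝ) * Real.log L) - κ * Real.log L := by ring
    have h7 : ((d : ℝ) - 1) * Real.log L = (d : ℝ) * Real.log L - Real.log L := by ring
    rw [h4] at h2
    rw [h5] at h3
    rw [h6, h7] at hM
    linarith
  have h3 : |((F.leadingCoeff : ℚ) : ℝ)| * Real.exp (θ * Real.log L) ^ d =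
      Real.exp (Real.log |((F.leadingCoeff : ℚ) : ℝ)| + (d : ℝ) * (θ * Real.log L)) := by
    rw [Real.exp_add, Real.exp_log hA0, ← Real.exp_nat_mul]
  rw [h3]
  calc L = Real.exp (Real.log L) := (Real.exp_log (by linarith)).symm
    _ ≤ _ := Real.exp_le_exp.2 key

/-- the data of the clusters -/
structure Clus' (F G : ℚ[X]) (e : ℕ) (ξ L ρ1 ρ2 : ℝ) (C : Finset ℂ) : Prop where
  pos : 0 < ρ1
  sepd : 16 ^ (2 + 2) * ρ1 ≤ ρ2
  sepe : 16 ^ (e + 2) * ρ1 ≤ ρ2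
  leL : ρ2 ≤ L
  two : Real.log 2 ≤ ξ * Real.log L
  del : Real.log L - Real.log (ρ2 / 2) ≤ ξ * Real.log L
  aF : L ≤ |((F.leadingCoeff : ℚ) : ℝ)| * ρ1 ^ 2
  aG : L ≤ |((G.leadingCoeff : ℚ) : ℝ)| * ρ1 ^ e
  sepC : ∀ c ∈ C, ∀ c' ∈ C, c ≠ c' → ρ2 ≤ ‖c - c'‖
  rF : ∀ c ∈ C, ∀ z ∈ (F.map (algebraMap ℚ ℂ)).roots, ‖z - c‖ ≤ ρ1 ∨ ρ2 ≤ ‖z - c‖
  rG : ∀ c ∈ C, ∀ z ∈ (G.map (algebraMap ℚ ℂ)).roots, ‖z - c‖ ≤ ρ1 ∨ ρ2 ≤ ‖z - c‖
  cF : ∀ z ∈ (F.map (algebraMap ℚ ℂ)).roots, ∃ c ∈ C, ‖z - c‖ ≤ ρ1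
  cG : ∀ z ∈ (G.map (algebraMap ℚ ℂ)).roots, ∃ c ∈ C, ‖z - c‖ ≤ ρ1

/-- The same proof as `exists_clus` in `C/R5a.lean` with `D = 2 + e`, `κ0 = ξ / (2 (D + 1) ^ 2)` in place of `κ`,
`Λ0 = max (2 log 2 / ξ) ((D + 2) log 16 / κ0) + 1`: `κ0 (k + 1) ≤ ξ / 2`, `log L - log (ρ2 / 2) = κ0 k Λ + log 2 ≤ ξ Λ`, and
`lead_ge'` with `θ = 1 - κ0 (k + 1) ≥ 1 - κ / 2`. -/
theorem exists_clus' {e : ℕ} (he : 2 ≤ e) {ξ κ : ℝ} (hξ : 0 < ξ) (hκ : 0 < κ) (hξκ : ξ ≤ κ) :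
    ∃ Λ0 : ℝ, ∀ (F G : ℚ[X]) (L : ℝ), F.natDegree = 2 → G.natDegree = e → 1 ≤ L →
      Λ0 ≤ Real.log L →
      κ * Real.log L ≤ mm Rat.AbsoluteValue.real L 2 F →
      κ * (((e : ℝ) - 1) * Real.log L) ≤ mm Rat.AbsoluteValue.real L e G →
      ∃ (ρ1 ρ2 : ℝ) (C : Finset ℂ), Clus' F G e ξ L ρ1 ρ2 C := by
  obtain ⟨D, hD⟩ : ∃ D : ℝ, D = (2 : ℝ) + e := ⟨_, rfl⟩
  have he0 : (2 : ℝ) ≤ e := by exact_mod_cast he
  have hD0 : 4 ≤ D := by rw [hD]; linarith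
  obtain ⟨κ0, hκdef⟩ : ∃ κ0 : ℝ, κ0 = ξ / (2 * (D + 1) ^ 2) := ⟨_, rfl⟩
  have hκ0 : 0 < κ0 := by rw [hκdef]; positivity
  refine ⟨max (2 * Real.log 2 / ξ) ((D + 2) * Real.log 16 / κ0) + 1, ?_⟩
  intro F G L hF hG hL hΛ hmF hmG
  obtain ⟨Λ, hΛdef⟩ : ∃ Λ : ℝ, Λ = Real.log L := ⟨_, rfl⟩
  rw [← hΛdef] at hΛ
  have hlog2 : 0 < Real.log 2 := Real.log_pos (by norm_num)
  have hlog16 : 0 < Real.log 16 := Real.log_pos (by norm_num)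
  have hΛ1 : 2 * Real.log 2 / ξ ≤ Λ := by
    have := le_max_left (2 * Real.log 2 / ξ) ((D + 2) * Real.log 16 / κ0)
    linarith
  have hΛ2 : (D + 2) * Real.log 16 / κ0 ≤ Λ := by
    have := le_max_right (2 * Real.log 2 / ξ) ((D + 2) * Real.log 16 / κ0)
    linarith
  have hΛ0 : 0 < Λ := lt_of_lt_of_le (by positivity) hΛ1
  have hL0 : 0 < L := by linarith
  have hexpL : Real.exp Λ = L := by rw [hΛdef, Real.exp_log hL0]
  have htwo : Real.log 2 ≤ ξ / 2 * Λ := by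
    rw [div_le_iff₀ hξ] at hΛ1
    linarith
  have hbig : (D + 2) * Real.log 16 ≤ κ0 * Λ := by
    rw [div_le_iff₀ hκ0] at hΛ2
    linarith
  obtain ⟨Z, hZ⟩ : ∃ Z : Finset ℂ, Z = (F.map (algebraMap ℚ ℂ)).roots.toFinset ∪
    (G.map (algebraMap ℚ ℂ)).roots.toFinset := ⟨_, rfl⟩
  have hcard : (Z.card : ℝ) ≤ D := by
    have c1 : ∀ P : ℚ[X], (P.map (algebraMap ℚ ℂ)).roots.toFinset.card ≤ P.natDegree := by
      intro P
      refine (Multiset.toFinset_card_le _).trans ((Polynomial.card_roots' _).trans ?_)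
      exact Polynomial.natDegree_map_le
    have c2 : Z.card ≤ 2 + e := by
      rw [hZ]
      refine (Finset.card_union_le _ _).trans ?_
      have h2 := c1 F
      have h3 := c1 G
      omega
    rw [hD]
    exact_mod_cast c2
  have hmF' : ∀ z ∈ (F.map (algebraMap ℚ ℂ)).roots, z ∈ Z := by
    intro z hz
    rw [hZ, Finset.mem_union, Multiset.mem_toFinset]
    exact Or.inl hz
  have hmG' : ∀ z ∈ (G.map (algebraMap ℚ ℂ)).roots, z ∈ Z := by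
    intro z hz
    rw [hZ, Finset.mem_union, Multiset.mem_toFinset, Multiset.mem_toFinset]
    exact Or.inr hz
  obtain ⟨k, hk, hwin⟩ := exists_window Z hκ0 hΛ0
  have hkD : (k : ℝ) ≤ D ^ 2 := by
    have h2 : (k : ℝ) ≤ (Z.card : ℝ) ^ 2 := by exact_mod_cast hk
    exact h2.trans (pow_le_pow_left₀ (Nat.cast_nonneg _) hcard 2)
  have hk0 : (0 : ℝ) ≤ k := Nat.cast_nonneg k
  have hκk : κ0 * (k + 1) ≤ ξ / 2 := by
    rw [hκdef, div_mul_eq_mul_div, div_le_div_iff₀ (by positivity) (by norm_num)]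
    have h2 : (k : ℝ) + 1 ≤ (D + 1) ^ 2 := by nlinarith
    have h3 := mul_le_mul_of_nonneg_left h2 hξ.le
    nlinarith
  have hκk' : κ0 * k ≤ ξ / 2 := by
    have : κ0 * (k + 1) = κ0 * k + κ0 := by ring
    linarith
  obtain ⟨ρ1, hρ1⟩ : ∃ ρ : ℝ, ρ = Real.exp ((1 - κ0 * (k + 1)) * Λ) := ⟨_, rfl⟩
  obtain ⟨ρ2, hρ2⟩ : ∃ ρ : ℝ, ρ = Real.exp ((1 - κ0 * k) * Λ) := ⟨_, rfl⟩
  rw [← hρ1, ← hρ2] at hwin
  have p1 : 0 < ρ1 := by rw [hρ1]; exact Real.exp_pos _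
  have p2 : 0 < ρ2 := by rw [hρ2]; exact Real.exp_pos _
  obtain ⟨C, hCZ, hC1, hC2⟩ := exists_reps Z p1.le hwin
  have hratio : ρ2 = Real.exp (κ0 * Λ) * ρ1 := by
    rw [hρ1, hρ2, ← Real.exp_add]
    congr 1
    ring
  have hsep : ∀ m : ℕ, (m : ℝ) ≤ D → 16 ^ (m + 2) * ρ1 ≤ ρ2 := by
    intro m hm
    rw [hratio]
    apply mul_le_mul_of_nonneg_right _ p1.le
    have h2 : ((16 : ℝ)) ^ (m + 2) = Real.exp (((m + 2 : ℕ) : ℝ) * Real.log 16) := by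
      rw [Real.exp_nat_mul, Real.exp_log (by norm_num)]
    rw [h2]
    apply Real.exp_le_exp.mpr
    refine le_trans ?_ hbig
    apply mul_le_mul_of_nonneg_right _ hlog16.le
    push_cast
    linarith
  have hθ : 1 - κ / 2 ≤ 1 - κ0 * (k + 1) := by linarith
  refine ⟨ρ1, ρ2, C, ⟨p1, hsep 2 (by rw [hD]; push_cast; linarith), hsep e (by rw [hD]; linarith), ?_, ?_, ?_, ?_, ?_,
    hC2, ?_, ?_, ?_, ?_⟩⟩
  · rw [← hexpL, hρ2]
    apply Real.exp_le_exp.mpr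
    have h2 : 0 ≤ κ0 * k * Λ := by positivity
    have h3 : (1 - κ0 * k) * Λ = Λ - κ0 * k * Λ := by ring
    linarith
  · rw [← hΛdef]
    have h2 : ξ * Λ = ξ / 2 * Λ + ξ / 2 * Λ := by ring
    have h3 : 0 ≤ ξ / 2 * Λ := by positivity
    linarith
  · rw [Real.log_div p2.ne' (by norm_num), hρ2, Real.log_exp, ← hΛdef]
    have h2 : κ0 * k * Λ ≤ ξ / 2 * Λ := mul_le_mul_of_nonneg_right hκk' hΛ0.le
    have h3 : (1 - κ0 * k) * Λ = Λ - κ0 * k * Λ := by ring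
    have h4 : ξ * Λ = ξ / 2 * Λ + ξ / 2 * Λ := by ring
    linarith
  · rw [hρ1, hΛdef]
    refine lead_ge' hF le_rfl hL hκ ?_ hθ
    have h2 : κ * ((((2 : ℕ) : ℝ) - 1) * Real.log L) = κ * Real.log L := by push_cast; ring
    rw [h2]
    exact hmF
  · rw [hρ1, hΛdef]
    exact lead_ge' hG he hL hκ hmG hθ
  · intro c hc z hz
    exact hwin z (hmF' z hz) c (hCZ hc)
  · intro c hc z hz
    exact hwin z (hmG' z hz) c (hCZ hc)
  · intro z hz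
    exact hC1 z (hmF' z hz)
  · intro z hz
    exact hC1 z (hmG' z hz)

end F0744D
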