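import Pool.Agent.Lib.MP_f0744f_nt.C.M1
import Pool.Agent.Lib.MP_f0744f_nt.C.R5b
import Pool.Agent.Lib.MP_f0744f_nt.D.R1
import Pool.Agent.Lib.MP_f0744f_nt.D.R3

/-! # Row R4: a tight real place, two discs -/

set_option autoImplicit false

open Polynomial

namespace F0744D

open F0744C

variable {S : Finset ℤ} {a b : ℤ} {e : ℕ}

/-- a disc with two roots of `F` and mass close to one contains all the roots of `G` -/
theorem R4_close {e l : ℕ} (he : (2 : ℝ) ≤ e) {η x : ℝ} (hη : η * (e : ℝ) ^ 2 ≤ 1 / 512)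
    (hx : (x - 1) ^ 2 ≤ 8 * η) (hy : (x - l / e) ^ 2 ≤ 8 * η) : l = e := by
  have he0 : (0 : ℝ) < e := by linarith
  have h1 : (1 - (l : ℝ) / e) ^ 2 ≤ 32 * η := by
    have h := sq_nonneg ((x - 1) + (x - (l : ℝ) / e))
    have e1 : (1 - (l : ℝ) / e) ^ 2 = 2 * (x - 1) ^ 2 + 2 * (x - (l : ℝ) / e) ^ 2 -
        ((x - 1) + (x - (l : ℝ) / e)) ^ 2 := by ring
    rw [e1]
    linarith
  have h2 : ((e : ℝ) - l) ^ 2 = (1 - (l : ℝ) / e) ^ 2 * (e : ℝ) ^ 2 := by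
    rw [← mul_pow, sub_mul, div_mul_cancel₀ _ he0.ne', one_mul]
  have h3 : ((e : ℝ) - l) ^ 2 < 1 := by
    rw [h2]
    have h4 : (1 - (l : ℝ) / e) ^ 2 * (e : ℝ) ^ 2 ≤ 32 * η * (e : ℝ) ^ 2 :=
      mul_le_mul_of_nonneg_right h1 (by positivity)
    have h5 : 32 * η * (e : ℝ) ^ 2 = 32 * (η * (e : ℝ) ^ 2) := by ring
    rw [h5] at h4
    linarith
  have h5 : ((e : ℤ) - l) ^ 2 < 1 := by
    have : ((((e : ℤ) - l) ^ 2 : ℤ) : ℝ) < 1 := by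
      push_cast
      exact h3
    exact_mod_cast this
  have h6 : (e : ℤ) - l = 0 := by
    by_contra hne
    have h7 : 0 < ((e : ℤ) - l) ^ 2 := by positivity
    omega
  omega

/-- Model: the proof of `local_r` in `C/R5.lean` (the same proof up to the masses). `C'` = the `c ∈ C` with
`(dsc T c (2 ρ1)).Nonempty`; with `x = card / card`: `(x - μ / 2) ^ 2 ≤ 8 η`, `(x - l / e) ^ 2 ≤ 8 η` (`mass_r'`, `mass_abs`),
`μ = cnt f.F c ρ1 ∈ {1, 2}`, `l = cnt g.F c ρ1`.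
(1) `μ = 2`: `|1 - l / e| ≤ 2 √(8 η) < 1 / e`, so `l = e`, and `all_near` for `f` and `g` gives the contradiction of `local_r`.
(2) So `μ = 1` for all `c ∈ C'`; if `C'` has one element then `x = 1`, `1 / 4 ≤ 8 η`: impossible. So there are
`c0 ≠ c1` in `C'`. For `x ∈ S`, `x ≠ a`: `point_root` gives a root `z` with `|x - z| ≤ ρ1`, `cF` a `c ∈ C` with `|z - c| ≤ ρ1`;
`c` is `c0` or `c1`, since otherwise `sum_cnt` for `{c0, c1, c}` gives `1 + 1 + 1 ≤ 2`. -/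
theorem two_dsc (he : 2 ≤ e) (hab : a ≠ b) (f : PM S a 2) (g : PM S b e) (hz : (0 : ℤ) ∈ S) {L : ℝ}
    (hL : ∀ y ∈ S, |((y : ℤ) : ℝ)| ≤ L) (hy : ∃ y ∈ S, |((y : ℤ) : ℝ)| = L) (hL1 : 1 ≤ L)
    (J : ℕ) {T : Finset ℤ} (hTf : T ⊆ Dm S a f.ph (J + 1)) (hTg : T ⊆ Dm S b g.ph (J + 1))
    (hT : T.Nonempty) {η κ ξ : ℝ} (h0 : 0 < η) (hη : 128 * η * (2 * (e : ℝ)) ^ 2 ≤ 1)
    (hκ : 0 < κ) (hξ : 8 * ξ ≤ η * κ) (hJ : 1 / (2 : ℝ) ^ J ≤ η)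
    (hJe : 1 / (e : ℝ) ^ J ≤ η) (hBf : Big 2 (2 * J) η T.card) (hBg : Big e (2 * J) η T.card)
    (hMf : κ * Real.log L ≤ mm Rat.AbsoluteValue.real L 2 f.F)
    (hMg : κ * (((e : ℝ) - 1) * Real.log L) ≤ mm Rat.AbsoluteValue.real L e g.F)
    (hEf : En Rat.AbsoluteValue.real L T ≤
      (1 + η) * (T.card : ℝ) ^ 2 * mm Rat.AbsoluteValue.real L 2 f.F)
    (hEg : En Rat.AbsoluteValue.real L T ≤
      (1 + η) * (T.card : ℝ) ^ 2 * (mm Rat.AbsoluteValue.real L e g.F / ((e : ℝ) - 1)))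
    {ρ1 ρ2 : ℝ} {C : Finset ℂ} (hC : Clus' f.F g.F e ξ L ρ1 ρ2 C) :
    ∃ c0 c1 : ℂ, ρ2 ≤ ‖c0 - c1‖ ∧ cnt f.F c0 ρ1 = 1 ∧ cnt f.F c1 ρ1 = 1 ∧
      ∀ x ∈ S, x ≠ a → ‖(x : ℂ) - c0‖ ≤ 2 * ρ1 ∨ ‖(x : ℂ) - c1‖ ≤ 2 * ρ1 := by
  classical
  obtain ⟨y, hyS, hyL⟩ := hy
  have he2 : (2 : ℝ) ≤ e := by exact_mod_cast he
  have hη2 : η * (e : ℝ) ^ 2 ≤ 1 / 512 := by
    have h : 128 * η * (2 * (e : ℝ)) ^ 2 = 512 * (η * (e : ℝ) ^ 2) := by ring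
    rw [h] at hη
    linarith
  have hη3 : η ≤ 1 / 2048 := by
    have h4 : (4 : ℝ) ≤ (e : ℝ) ^ 2 := by
      calc (4 : ℝ) = 2 ^ 2 := by norm_num
        _ ≤ (e : ℝ) ^ 2 := pow_le_pow_left₀ (by norm_num) he2 2
    have h5 : η * 4 ≤ η * (e : ℝ) ^ 2 := mul_le_mul_of_nonneg_left h4 h0.le
    linarith
  have hη1 : η ≤ 1 / 2 := by linarith
  have hpos := hC.pos
  have h16 : ∀ n : ℕ, (16 : ℝ) ≤ 16 ^ (n + 2) := by
    intro n
    calc (16 : ℝ) = 16 ^ 1 := by norm_num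
      _ ≤ 16 ^ (n + 2) := pow_le_pow_right₀ (by norm_num) (by omega)
  have h16ρ : 16 * ρ1 ≤ ρ2 :=
    le_trans (mul_le_mul_of_nonneg_right (h16 2) hpos.le) hC.sepd
  have hmem : ∀ (c : ℂ) (x : ℤ), x ∈ dsc T c (2 * ρ1) ↔ x ∈ T ∧ ‖(x : ℂ) - c‖ ≤ 2 * ρ1 := by
    intro c x
    simp [dsc]
  set C' : Finset ℂ := C.filter (fun c => (dsc T c (2 * ρ1)).Nonempty) with hC'
  have hC'C : ∀ c ∈ C', c ∈ C := fun c hc => (Finset.mem_filter.1 hc).1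
  have hfind : ∀ x ∈ S, x ≠ a → ∃ c ∈ C, (∃ z ∈ (f.F.map (algebraMap ℚ ℂ)).roots, ‖z - c‖ ≤ ρ1) ∧
      ‖(x : ℂ) - c‖ ≤ 2 * ρ1 := by
    intro x hxS hxa
    obtain ⟨z, hz1, hz2⟩ := point_root f le_rfl hL hpos hC.aF hxS hxa
    obtain ⟨c, hc, hzc⟩ := hC.cF z hz1
    refine ⟨c, hc, ⟨z, hz1, hzc⟩, ?_⟩
    calc ‖(x : ℂ) - c‖ = ‖((x : ℂ) - z) + (z - c)‖ := by ring_nf
      _ ≤ ‖(x : ℂ) - z‖ + ‖z - c‖ := norm_add_le _ _
      _ ≤ 2 * ρ1 := by linarith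
  have hcov : ∀ x ∈ T, ∃ c ∈ C', ‖(x : ℂ) - c‖ ≤ 2 * ρ1 := by
    intro x hx
    obtain ⟨hxS, hxa, -⟩ := Dm_succ (hTf hx)
    obtain ⟨c, hc, -, hxc⟩ := hfind x hxS hxa
    exact ⟨c, Finset.mem_filter.2 ⟨hc, ⟨x, (hmem c x).2 ⟨hx, hxc⟩⟩⟩, hxc⟩
  have hCsep : ∀ c ∈ C', ∀ c' ∈ C', c ≠ c' → ρ2 ≤ ‖c - c'‖ :=
    fun c hc c' hc' hne => hC.sepC c (hC'C c hc) c' (hC'C c' hc') hne
  have hCsep3 : ∀ c ∈ C, ∀ c' ∈ C, c ≠ c' → 2 * ρ1 < ‖c - c'‖ := by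
    intro c hc c' hc' hne
    have := hC.sepC c hc c' hc' hne
    linarith
  have hCsep2 : ∀ c ∈ C', ∀ c' ∈ C', c ≠ c' → 2 * ρ1 < ‖c - c'‖ :=
    fun c hc c' hc' hne => hCsep3 c (hC'C c hc) c' (hC'C c' hc') hne
  have hμf : ∀ c ∈ C', 1 ≤ cnt f.F c ρ1 := by
    intro c hc
    obtain ⟨hcC, x, hx⟩ := Finset.mem_filter.1 hc
    obtain ⟨hxT, hxc⟩ := (hmem c x).1 hx
    obtain ⟨hxS, hxa, -⟩ := Dm_succ (hTf hxT)
    exact one_le_cnt f le_rfl hL hpos hC.sepd hC.aF (hC.rF c hcC) hxS hxa hxc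
  have hμg : ∀ c ∈ C', 1 ≤ cnt g.F c ρ1 := by
    intro c hc
    obtain ⟨hcC, x, hx⟩ := Finset.mem_filter.1 hc
    obtain ⟨hxT, hxc⟩ := (hmem c x).1 hx
    obtain ⟨hxS, hxb, -⟩ := Dm_succ (hTg hxT)
    exact one_le_cnt g he hL hpos hC.sepe hC.aG (hC.rG c hcC) hxS hxb hxc
  have hunion : T = C'.biUnion (fun c => dsc T c (2 * ρ1)) := by
    ext x
    rw [Finset.mem_biUnion]
    constructor
    · intro hx
      obtain ⟨c, hc, hxc⟩ := hcov x hx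
      exact ⟨c, hc, (hmem c x).2 ⟨hx, hxc⟩⟩
    · rintro ⟨c, -, hx⟩
      exact ((hmem c x).1 hx).1
  have hcard : T.card = ∑ c ∈ C', (dsc T c (2 * ρ1)).card := by
    conv_lhs => rw [hunion]
    refine Finset.card_biUnion ?_
    intro c hc c' hc' hne
    change Disjoint (dsc T c (2 * ρ1)) (dsc T c' (2 * ρ1))
    rw [Finset.disjoint_left]
    intro x hx hx'
    have h1 := ((hmem c x).1 hx).2
    have h2 := ((hmem c' x).1 hx').2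
    have h3 := hCsep c hc c' hc' hne
    have h4 : ‖c - c'‖ ≤ ‖(x : ℂ) - c'‖ + ‖(x : ℂ) - c‖ := by
      calc ‖c - c'‖ = ‖((x : ℂ) - c') - ((x : ℂ) - c)‖ := by ring_nf
        _ ≤ ‖(x : ℂ) - c'‖ + ‖(x : ℂ) - c‖ := norm_sub_le _ _
    linarith
  have hTpos : (0 : ℝ) < (T.card : ℝ) := by
    exact_mod_cast Finset.card_pos.2 hT
  have hsum : ∑ c ∈ C', ((dsc T c (2 * ρ1)).card : ℝ) = (T.card : ℝ) := by
    rw [hcard]
    push_cast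
    rfl
  have hsf : ∑ c ∈ C', cnt f.F c ρ1 ≤ 2 := by
    have := sum_cnt f.F hCsep2
    rwa [f.deg] at this
  have hsg : ∑ c ∈ C', cnt g.F c ρ1 ≤ e := by
    have := sum_cnt g.F hCsep2
    rwa [g.deg] at this
  have hd1 : (((2 : ℕ) : ℝ) - 1) = 1 := by norm_num
  have hMf' : κ * ((((2 : ℕ) : ℝ) - 1) * Real.log L) ≤ mm Rat.AbsoluteValue.real L 2 f.F := by
    rw [hd1, one_mul]
    exact hMf
  have hEf' : En Rat.AbsoluteValue.real L T ≤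
      (1 + η) * (T.card : ℝ) ^ 2 * (mm Rat.AbsoluteValue.real L 2 f.F / (((2 : ℕ) : ℝ) - 1)) := by
    rw [hd1, div_one]
    exact hEf
  have hJf : 1 / ((2 : ℕ) : ℝ) ^ J ≤ η := by
    rw [Nat.cast_ofNat]
    exact hJ
  have hmf := mass_r' f le_rfl hL1 hL J hpos hC.sepd hC.leL hC.aF hCsep
    (fun c hc => hC.rF c (hC'C c hc)) hμf hTf hcov h0 hη1 hκ hξ hJf hBf hMf' hC.two hC.del hEf'
  have hmg := mass_r' g he hL1 hL J hpos hC.sepe hC.leL hC.aG hCsep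
    (fun c hc => hC.rG c (hC'C c hc)) hμg hTg hcov h0 hη1 hκ hξ hJe hBg hMg hC.two hC.del hEg
  have haf := mass_abs C' (fun c => ((dsc T c (2 * ρ1)).card : ℝ)) (fun c => cnt f.F c ρ1)
    (d := 2) (η := 8 * η) hTpos hμf hsf hsum hmf
  have hag := mass_abs C' (fun c => ((dsc T c (2 * ρ1)).card : ℝ)) (fun c => cnt g.F c ρ1)
    (d := e) (η := 8 * η) hTpos hμg hsg hsum hmg
  have hle : ∀ c ∈ C', cnt f.F c ρ1 ≤ 2 := fun c hc =>
    le_trans (Finset.single_le_sum (f := fun c => cnt f.F c ρ1)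
      (fun i _ => Nat.zero_le _) hc) hsf
  -- (1) no disc contains both roots
  have hne2 : ∀ c ∈ C', cnt f.F c ρ1 ≠ 2 := by
    intro c hc h2
    have hce : cnt g.F c ρ1 = e := R4_close he2 hη2 (by simpa [h2] using haf c hc) (hag c hc)
    have hnear : ∀ x ∈ S, ‖(x : ℂ) - c‖ ≤ 2 * ρ1 := by
      intro x hx
      by_cases hxa : x = a
      · have hxb : x ≠ b := by
          rw [hxa]
          exact hab
        exact all_near g he hL hpos hC.aG hce hx hxb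
      · exact all_near f le_rfl hL hpos hC.aF h2 hx hxa
    have e1 := hnear 0 hz
    have e2 := hnear y hyS
    have e3 : ‖(y : ℂ)‖ ≤ 4 * ρ1 := by
      calc ‖(y : ℂ)‖ = ‖((y : ℂ) - c) - (((0 : ℤ) : ℂ) - c)‖ := by
            congr 1
            push_cast
            ring
        _ ≤ ‖(y : ℂ) - c‖ + ‖((0 : ℤ) : ℂ) - c‖ := norm_sub_le _ _
        _ ≤ 4 * ρ1 := by linarith
    have e4 : ‖(y : ℂ)‖ = L := by
      rw [← hyL, Complex.norm_intCast]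
    have e5 := hC.leL
    linarith
  have hone : ∀ c ∈ C', cnt f.F c ρ1 = 1 := by
    intro c hc
    have h1 := hμf c hc
    have h2 := hle c hc
    have h3 := hne2 c hc
    omega
  -- (2) two discs
  obtain ⟨x0, hx0⟩ := hT
  obtain ⟨c0, hc0, -⟩ := hcov x0 hx0
  have hex : ∃ c1 ∈ C', c1 ≠ c0 := by
    by_contra hcon
    push Not at hcon
    have h1 : C' = {c0} := Finset.eq_singleton_iff_unique_mem.2 ⟨hc0, hcon⟩
    have h2 : ((dsc T c0 (2 * ρ1)).card : ℝ) = (T.card : ℝ) := by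
      rw [← hsum, h1, Finset.sum_singleton]
    have h3 := haf c0 hc0
    simp only [hone c0 hc0, h2] at h3
    rw [div_self hTpos.ne'] at h3
    norm_num at h3
    linarith
  obtain ⟨c1, hc1, hne⟩ := hex
  refine ⟨c0, c1, hCsep c0 hc0 c1 hc1 hne.symm, hone c0 hc0, hone c1 hc1, ?_⟩
  intro x hxS hxa
  obtain ⟨c, hc, ⟨z, hz1, hz2⟩, hxc⟩ := hfind x hxS hxa
  by_cases h1 : c = c0
  · left
    rw [← h1]
    exact hxc
  by_cases h2 : c = c1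
  · right
    rw [← h2]
    exact hxc
  exfalso
  have h3 : 1 ≤ cnt f.F c ρ1 := by
    unfold cnt
    exact Multiset.countP_pos.2 ⟨z, hz1, hz2⟩
  have h4 : ∑ c ∈ ({c0, c1, c} : Finset ℂ), cnt f.F c ρ1 ≤ f.F.natDegree := by
    refine sum_cnt f.F ?_
    have hsub : ∀ w ∈ ({c0, c1, c} : Finset ℂ), w ∈ C := by
      intro w hw
      rw [Finset.mem_insert, Finset.mem_insert, Finset.mem_singleton] at hw
      rcases hw with rfl | rfl | rfl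
      · exact hC'C _ hc0
      · exact hC'C _ hc1
      · exact hc
    exact fun w hw w' hw' hww => hCsep3 w (hsub w hw) w' (hsub w' hw') hww
  rw [f.deg, Finset.sum_insert, Finset.sum_insert, Finset.sum_singleton, hone c0 hc0, hone c1 hc1] at h4
  · omega
  · rw [Finset.mem_singleton]
    exact fun h => h2 h.symm
  · rw [Finset.mem_insert, Finset.mem_singleton, not_or]
    exact ⟨hne.symm, fun h => h1 h.symm⟩

end F0744D
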