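import Pool.Agent.Lib.MP_f0744f_nt.C.R5b
import Pool.Agent.Lib.MP_f0744f_nt.D.Defs

/-! # Row R5a: the two roots -/

set_option autoImplicit false

open Polynomial

namespace F0744D

open F0744C

variable {S : Finset ℤ} {a b : ℤ} {e : ℕ}

/-- a counted root -/
theorem R5a_root {F : ℚ[X]} {c : ℂ} {r : ℝ} (h : cnt F c r = 1) :
    ∃ z ∈ (F.map (algebraMap ℚ ℂ)).roots, ‖z - c‖ ≤ r := by
  classical
  have h1 : 0 < (F.map (algebraMap ℚ ℂ)).roots.countP (fun z => ‖z - c‖ ≤ r) := by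
    unfold cnt at h
    omega
  exact Multiset.countP_pos.1 h1

/-- Vieta for a complex quadratic polynomial -/
theorem R5a_vieta {G : ℂ[X]} {u v : ℂ} (h : G.roots = {u, v}) (h2 : G.natDegree = 2) :
    G.coeff 1 = - G.leadingCoeff * (u + v) := by
  have h1 := Polynomial.C_leadingCoeff_mul_prod_multiset_X_sub_C (p := G) (by rw [h, h2]; rfl)
  rw [h] at h1
  simp only [Multiset.insert_eq_cons, Multiset.map_cons, Multiset.map_singleton, Multiset.prod_cons,
    Multiset.prod_singleton] at h1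
  have h3 : G.coeff 1 = (C G.leadingCoeff * ((X - C u) * (X - C v))).coeff 1 := by rw [h1]
  rw [h3]
  have h4 : C G.leadingCoeff * ((X - C u) * (X - C v)) =
      C G.leadingCoeff * X ^ 2 + C (- G.leadingCoeff * (u + v)) * X ^ 1 +
        C (G.leadingCoeff * (u * v)) := by
    simp only [C_mul, C_neg, C_add]
    ring
  rw [h4]
  simp [coeff_X_pow, coeff_C]

/-- The roots of `F.map` are a multiset with two elements (`IsAlgClosed`), one of them, `z0`, is within `ρ1` of `c0`, and one,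
`z1`, within `ρ1` of `c1`, `z0 ≠ z1`; Vieta (`F = α (X - z0) (X - z1)`). -/
theorem sr_roots {F : ℚ[X]} (hF : F.natDegree = 2) {c0 c1 : ℂ} {ρ1 : ℝ} (hc : 2 * ρ1 < ‖c0 - c1‖)
    (h0 : cnt F c0 ρ1 = 1) (h1 : cnt F c1 ρ1 = 1) :
    ∃ z0 z1 : ℂ, ‖z0 - c0‖ ≤ ρ1 ∧ ‖z1 - c1‖ ≤ ρ1 ∧ ((sr F : ℚ) : ℂ) = z0 + z1 := by
  obtain ⟨z0, hz0, hd0⟩ := R5a_root h0
  obtain ⟨z1, hz1, hd1⟩ := R5a_root h1
  have hne : z0 ≠ z1 := by
    rintro rfl
    have h2 : ‖c0 - c1‖ ≤ ‖z0 - c0‖ + ‖z0 - c1‖ := by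
      have h3 : c0 - c1 = (z0 - c1) - (z0 - c0) := by ring
      rw [h3]
      exact (norm_sub_le _ _).trans (le_of_eq (add_comm _ _))
    linarith
  have hdeg : (F.map (algebraMap ℚ ℂ)).natDegree = 2 := by rw [Polynomial.natDegree_map, hF]
  have hcard : Multiset.card (F.map (algebraMap ℚ ℂ)).roots = 2 := by
    rw [← hdeg]
    exact (Polynomial.splits_iff_card_roots.1 (IsAlgClosed.splits _))
  obtain ⟨u, v, huv⟩ := Multiset.card_eq_two.1 hcard
  have hsum : z0 + z1 = u + v := by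
    rw [huv] at hz0 hz1
    simp only [Multiset.insert_eq_cons, Multiset.mem_cons, Multiset.mem_singleton] at hz0 hz1
    rcases hz0 with rfl | rfl <;> rcases hz1 with rfl | rfl
    · exact absurd rfl hne
    · rfl
    · exact add_comm _ _
    · exact absurd rfl hne
  refine ⟨z0, z1, hd0, hd1, ?_⟩
  have hv := R5a_vieta huv hdeg
  rw [Polynomial.coeff_map, Polynomial.leadingCoeff_map] at hv
  have hl : F.leadingCoeff ≠ 0 := by
    rw [Polynomial.leadingCoeff_ne_zero]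
    rintro rfl
    simp at hF
  have hl' : ((F.leadingCoeff : ℚ) : ℂ) ≠ 0 := by exact_mod_cast hl
  simp only [eq_ratCast] at hv
  rw [hsum, sr]
  push_cast
  rw [hv]
  field_simp
  try ring

end F0744D
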