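import Pool.Agent.Lib.MP_f0744f_nt.D.R4
import Pool.Agent.Lib.MP_f0744f_nt.D.R5a

/-! # Row R5: a tight real place is a good place -/

set_option autoImplicit false

open Polynomial

namespace F0744D

open F0744C

variable {S : Finset ℤ} {a b : ℤ} {e : ℕ}

theorem R5_abs (q : ℚ) : Rat.AbsoluteValue.real q = ‖(q : ℂ)‖ := by
  rw [Rat.AbsoluteValue.real_eq_abs, Complex.norm_ratCast, Rat.cast_abs]

/-- two points near the same centre `c1` -/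
theorem R5_same {x y z0 z1 c0 c1 : ℂ} {ρ1 ρ2 : ℝ} (hx : ‖x - c1‖ ≤ 2 * ρ1) (hy : ‖y - c1‖ ≤ 2 * ρ1)
    (h0 : ‖z0 - c0‖ ≤ ρ1) (h1 : ‖z1 - c1‖ ≤ ρ1) (hc : ρ2 ≤ ‖c0 - c1‖) :
    ρ2 - 6 * ρ1 ≤ ‖x + y - (z0 + z1)‖ := by
  have e : c0 - c1 = -(x + y - (z0 + z1)) + (x - c1) + (y - c1) - (z1 - c1) - (z0 - c0) := by ring
  have h2 : ‖c0 - c1‖ ≤ ‖x + y - (z0 + z1)‖ + ‖x - c1‖ + ‖y - c1‖ + ‖z1 - c1‖ + ‖z0 - c0‖ := by
    rw [e]
    refine (norm_sub_le _ _).trans (add_le_add ?_ le_rfl)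
    refine (norm_sub_le _ _).trans (add_le_add ?_ le_rfl)
    refine (norm_add_le _ _).trans (add_le_add ?_ le_rfl)
    refine (norm_add_le _ _).trans (add_le_add ?_ le_rfl)
    rw [norm_neg]
  linarith

/-- two points near different centres -/
theorem R5_diff {x y c0 c1 : ℂ} {ρ1 ρ2 : ℝ} (hx : ‖x - c0‖ ≤ 2 * ρ1) (hy : ‖y - c1‖ ≤ 2 * ρ1)
    (hc : ρ2 ≤ ‖c0 - c1‖) : ρ2 - 4 * ρ1 ≤ ‖x - y‖ := by
  have e : c0 - c1 = (x - y) - (x - c0) + (y - c1) := by ring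
  have h2 : ‖c0 - c1‖ ≤ ‖x - y‖ + ‖x - c0‖ + ‖y - c1‖ := by
    rw [e]
    refine (norm_add_le _ _).trans (add_le_add ?_ le_rfl)
    exact norm_sub_le _ _
  linarith

/-- `exists_clus'`, `two_dsc`, `sr_roots`; `ξ = min (θ κ / 2) (η κ / 8)` (also `ξ ≤ κ`), `m = mm real L 2 f.F ≥ κ log L > 0`,
`cl x = decide (‖(x : ℂ) - c1‖ ≤ 2 ρ1)` (classical). `log 4 = 2 log 2 ≤ 2 ξ log L ≤ θ m`. `same`: with `x, y` near `c0`:
`|x + y - sr| = |(x - z0) + (y - z0) + (z0 - z1)| ≥ (ρ2 - 2 ρ1) - 6 ρ1 ≥ ρ2 / 2 ≥ L exp (- ξ log L)` (`del`); the same for `c1`.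
`diff`: `|x - y| ≥ ρ2 - 4 ρ1 ≥ ρ2 / 2`. -/
theorem tp_r (he : 2 ≤ e) {η κ θ : ℝ} (h0 : 0 < η) (hη : 128 * η * (2 * (e : ℝ)) ^ 2 ≤ 1)
    (hκ : 0 < κ) (hκ1 : κ ≤ 1) (hθ : 0 < θ) :
    ∃ Λ0 : ℝ, ∀ (S : Finset ℤ) (a b : ℤ) (f : PM S a 2) (g : PM S b e) (L : ℝ) (J : ℕ)
      (T : Finset ℤ), a ≠ b → (0 : ℤ) ∈ S → (∀ y ∈ S, |((y : ℤ) : ℝ)| ≤ L) →
      (∃ y ∈ S, |((y : ℤ) : ℝ)| = L) → 1 ≤ L → Λ0 ≤ Real.log L →
      T ⊆ Dm S a f.ph (J + 1) → T ⊆ Dm S b g.ph (J + 1) → T.Nonempty →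
      1 / (2 : ℝ) ^ J ≤ η → 1 / (e : ℝ) ^ J ≤ η →
      Big 2 (2 * J) η T.card → Big e (2 * J) η T.card →
      κ * Real.log L ≤ mm Rat.AbsoluteValue.real L 2 f.F →
      κ * (((e : ℝ) - 1) * Real.log L) ≤ mm Rat.AbsoluteValue.real L e g.F →
      En Rat.AbsoluteValue.real L T ≤
        (1 + η) * (T.card : ℝ) ^ 2 * mm Rat.AbsoluteValue.real L 2 f.F →
      En Rat.AbsoluteValue.real L T ≤
        (1 + η) * (T.card : ℝ) ^ 2 * (mm Rat.AbsoluteValue.real L e g.F / ((e : ℝ) - 1)) →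
      ∃ cl : ℤ → Bool, TP f Rat.AbsoluteValue.real L (mm Rat.AbsoluteValue.real L 2 f.F) θ cl := by
  classical
  obtain ⟨ξ, hξdef⟩ : ∃ ξ, ξ = min (θ * κ / 2) (min (η * κ / 8) κ) := ⟨_, rfl⟩
  have hξ : 0 < ξ := by rw [hξdef]; positivity
  have hξ1 : ξ ≤ θ * κ / 2 := by rw [hξdef]; exact min_le_left _ _
  have hξ2 : ξ ≤ η * κ / 8 := by
    rw [hξdef]; exact (min_le_right _ _).trans (min_le_left _ _)
  have hξ3 : ξ ≤ κ := by
    rw [hξdef]; exact (min_le_right _ _).trans (min_le_right _ _)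
  obtain ⟨Λ0, hΛ⟩ := exists_clus' he hξ hκ hξ3
  refine ⟨max Λ0 1, ?_⟩
  intro S a b f g L J T hab hz hL hy hL1 hlog hTf hTg hT hJ hJe hBf hBg hMf hMg hEf hEg
  have hlog1 : 1 ≤ Real.log L := (le_max_right _ _).trans hlog
  obtain ⟨ρ1, ρ2, C, hC⟩ := hΛ f.F g.F L f.deg g.deg hL1 ((le_max_left _ _).trans hlog) hMf hMg
  obtain ⟨c0, c1, hsep, hc0, hc1, hcov⟩ := two_dsc he hab f g hz hL hy hL1 J hTf hTg hT h0 hη hκ
    (by linarith) hJ hJe hBf hBg hMf hMg hEf hEg hC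
  have hρ1 := hC.pos
  have h16 : 16 * ρ1 ≤ ρ2 := by
    have := hC.sepd
    norm_num at this
    linarith
  obtain ⟨z0, z1, hz0, hz1, hsr⟩ := sr_roots f.deg (by linarith) hc0 hc1
  obtain ⟨m, hm⟩ : ∃ m, m = mm Rat.AbsoluteValue.real L 2 f.F := ⟨_, rfl⟩
  rw [← hm] at hMf ⊢
  have hm0 : 0 < m := lt_of_lt_of_le (by positivity) hMf
  -- `2 ξ log L ≤ θ m`
  have h2ξ : 2 * (ξ * Real.log L) ≤ θ * m := by
    calc 2 * (ξ * Real.log L) ≤ 2 * (θ * κ / 2 * Real.log L) := by gcongr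
      _ = θ * (κ * Real.log L) := by ring
      _ ≤ θ * m := by gcongr
  have hρ2 : 0 < ρ2 := by linarith
  have hLpos : 0 < L := by linarith
  have hmain : L * Real.exp (-(θ * m)) ≤ ρ2 / 2 := by
    have h1 : Real.log L - θ * m ≤ Real.log (ρ2 / 2) := by
      have := hC.del
      have h3 : 0 ≤ ξ * Real.log L := by positivity
      linarith
    have h2 : L * Real.exp (-(θ * m)) = Real.exp (Real.log L - θ * m) := by
      rw [sub_eq_add_neg, Real.exp_add, Real.exp_log hLpos]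
    rw [h2, ← Real.exp_log (half_pos hρ2)]
    exact Real.exp_le_exp.2 h1
  obtain ⟨cl, hcl⟩ : ∃ cl : ℤ → Bool, ∀ x, cl x = decide (‖(x : ℂ) - c1‖ ≤ 2 * ρ1) :=
    ⟨_, fun _ => rfl⟩
  have hclT : ∀ x, cl x = true → ‖(x : ℂ) - c1‖ ≤ 2 * ρ1 := by
    intro x hx
    rw [hcl] at hx
    exact of_decide_eq_true hx
  have hclF : ∀ x ∈ S, x ≠ a → cl x = false → ‖(x : ℂ) - c0‖ ≤ 2 * ρ1 := by
    intro x hxS hxa hx
    rw [hcl] at hx
    rcases hcov x hxS hxa with h | h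
    · exact h
    · exact absurd h (of_decide_eq_false hx)
  refine ⟨cl, ⟨hL1, hm0, ?_, ?_, hm.symm, ?_, ?_, ?_⟩⟩
  · have h4 : Real.log 4 = 2 * Real.log 2 := by
      rw [show (4 : ℝ) = 2 ^ 2 by norm_num, Real.log_pow]
      norm_num
    rw [h4]
    have := hC.two
    linarith
  · have h1 : Real.exp (-(θ * m)) ≤ 1 := by
      rw [Real.exp_le_one_iff]
      have : 0 < θ * m := by positivity
      linarith
    refine h1.trans ?_
    rw [R5_abs]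
    norm_num
  · intro x hx
    rw [Rat.AbsoluteValue.real_eq_abs]
    push_cast
    exact hL x hx
  · intro x hx y hyS hxa hya hxy
    refine hmain.trans ?_
    have h1 : ρ2 / 2 ≤ ρ2 - 6 * ρ1 := by linarith
    refine h1.trans ?_
    rw [R5_abs]
    push_cast
    rw [hsr]
    rcases hb : cl x with _ | _
    · have hb' : cl y = false := by rw [← hxy, hb]
      have := R5_same (ρ2 := ρ2) (hclF x hx hxa hb) (hclF y hyS hya hb') hz1 hz0
        (by rw [norm_sub_rev]; exact hsep)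
      rwa [add_comm z1 z0] at this
    · have hb' : cl y = true := by rw [← hxy, hb]
      exact R5_same (hclT x hb) (hclT y hb') hz0 hz1 hsep
  · intro x hx y hyS hxa hya hxy
    refine hmain.trans ?_
    have h1 : ρ2 / 2 ≤ ρ2 - 4 * ρ1 := by linarith
    refine h1.trans ?_
    rw [R5_abs]
    push_cast
    rcases hb : cl x with _ | _
    · have hb' : cl y = true := by
        rcases hc : cl y with _ | _
        · exact absurd (by rw [hb, hc]) hxy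
        · rfl
      exact R5_diff (hclF x hx hxa hb) (hclT y hb') hsep
    · have hb' : cl y = false := by
        rcases hc : cl y with _ | _
        · rfl
        · exact absurd (by rw [hb, hc]) hxy
      rw [norm_sub_rev]
      exact R5_diff (hclF y hyS hya hb') (hclT x hb) hsep

end F0744D
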