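import Pool.Agent.Lib.MP_f0744f_nt.C.G1b
import Pool.Agent.Lib.MP_f0744f_nt.C.G2
import Pool.Agent.Lib.MP_f0744f_nt.C.G4
import Pool.Agent.Lib.MP_f0744f_nt.D.G1
import Pool.Agent.Lib.MP_f0744f_nt.D.G2
import Pool.Agent.Lib.MP_f0744f_nt.D.N1
import Pool.Agent.Lib.MP_f0744f_nt.D.Ctx
import Pool.Agent.Lib.MP_f0744f_nt.D.X1

/-! # Row X2: which places carry the energy, for two maps -/

set_option autoImplicit false

open Polynomial

namespace F0744D

open F0744C

variable {S : Finset ℤ} {a b : ℤ} {e : ℕ}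

/-- `vp p (x - y) ≤ ...`: the real positive energy is the energy plus at most `log 2` for each pair (`|x - y| ≤ 2 L`). -/
theorem EnX_real_le {T : Finset ℤ} {L : ℝ} (hL1 : 1 ≤ L) (hL : ∀ y ∈ T, |((y : ℤ) : ℝ)| ≤ L) :
    EnX Rat.AbsoluteValue.real L T ≤
      En Rat.AbsoluteValue.real L T + (T.card : ℝ) ^ 2 * Real.log 2 := by
  have hl2 : 0 < Real.log 2 := Real.log_pos (by norm_num)
  have hpt : ∀ x ∈ T, ∀ y ∈ T.erase x, max 0 (uu Rat.AbsoluteValue.real L x y) ≤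
      uu Rat.AbsoluteValue.real L x y + Real.log 2 := by
    intro x hx y hy
    have hyx : y ≠ x := (Finset.mem_erase.mp hy).1
    have hyT : y ∈ T := (Finset.mem_erase.mp hy).2
    have b1 := hL x hx
    have b2 := hL y hyT
    have h5 : -Real.log 2 ≤ uu Rat.AbsoluteValue.real L x y := by
      unfold uu
      rw [Rat.AbsoluteValue.real_eq_abs]
      have e1 : ((|(x : ℚ) - y| : ℚ) : ℝ) = |(x : ℝ) - y| := by push_cast; rfl
      rw [e1]
      have h3 : 0 < |(x : ℝ) - y| := by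
        rw [abs_pos, sub_ne_zero]
        exact_mod_cast hyx.symm
      have h4 : |(x : ℝ) - y| ≤ 2 * L := by
        have := abs_sub (x : ℝ) y
        linarith
      have h5 := Real.log_le_log h3 h4
      rw [Real.log_mul (by norm_num) (by linarith)] at h5
      linarith
    exact max_le (by linarith) (by linarith)
  unfold EnX En
  have h1 : ∀ x ∈ T, ∑ y ∈ T.erase x, max 0 (uu Rat.AbsoluteValue.real L x y) ≤
      ∑ y ∈ T.erase x, uu Rat.AbsoluteValue.real L x y + (T.card : ℝ) * Real.log 2 := by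
    intro x hx
    refine (Finset.sum_le_sum (hpt x hx)).trans ?_
    rw [Finset.sum_add_distrib, Finset.sum_const, nsmul_eq_mul]
    have h5 : ((T.erase x).card : ℝ) ≤ T.card := by
      exact_mod_cast Finset.card_le_card (Finset.erase_subset x T)
    have h6 := mul_le_mul_of_nonneg_right h5 hl2.le
    linarith
  refine (Finset.sum_le_sum h1).trans ?_
  rw [Finset.sum_add_distrib, Finset.sum_const, nsmul_eq_mul]
  apply le_of_eq
  ring

theorem X2_pow_le {d J : ℕ} (hd : 2 ≤ d) {x : ℝ} (h : 1 / (2 : ℝ) ^ J ≤ x) :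
    1 / (d : ℝ) ^ J ≤ x := by
  refine le_trans ?_ h
  have h2 : (2 : ℝ) ≤ d := by exact_mod_cast hd
  exact one_div_le_one_div_of_le (by positivity) (pow_le_pow_left₀ (by norm_num) h2 J)

theorem X2_max (x : ℝ) : max 0 (-x) = max 0 x - x := by
  rcases le_total 0 x with h | h
  · rw [max_eq_left (by linarith), max_eq_right h]
    ring
  · rw [max_eq_right (by linarith), max_eq_left h]
    ring


/-- Model: the proof of `main_int` in `C/Main.lean`. `places` with `P = Ps B`, `E = EnP · T`, `M p = max 0 (mP p f.F)`,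
`M' p = max 0 (mP p g.F) / (e - 1)`, `E0 = En real L T`, `M0 = mm real L 2 f.F`, `M0' = mm real L e g.F / (e - 1)`,
`Q = T.card ^ 2`, `Λ = log L`: `hE` is `energy_sum` (`t (t - 1) ≤ t ^ 2`), `h1` and `h1'` are `lower_p`, `h2` and `h2'`
are `lower_r`, `h3` and `h3'` are `sum_mm`, `hH` is `small_primes`. `TT` the filter of `Ps B`. `μ`: by `sum_mP`
`∑ max 0 (- mP) = ∑ max 0 mP - ∑ mP = ∑ max 0 mP + M0 - Λ`, so `∑ max 0 (- mP) + max 0 (- M0) = ∑ max 0 mP + max 0 M0 - Λ`. -/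
theorem glob (he : 2 ≤ e) (f : PM S a 2) (g : PM S b e) {T : Finset ℤ} {J : ℕ}
    (hTf : T ⊆ Dm S a f.ph J) (hTg : T ⊆ Dm S b g.ph J) (hT : T.Nonempty) {ε η κ H L : ℝ}
    (hε : 0 < ε) (hη : 0 < η) (hη1 : η ≤ 1 / 2) (h : 32 * ε ≤ η * κ) (hκ : κ ≤ 1 / 32)
    (hH : 0 < H) (hJ : 1 / (2 : ℝ) ^ J ≤ ε / 2) (hBf : Big 2 (2 * J) (ε / 2) T.card)
    (hBg : Big e (2 * J) (ε / 2) T.card) (hL1 : 1 ≤ L) (hL : ∀ y ∈ S, |((y : ℤ) : ℝ)| ≤ L)
    (hΛ : Real.log 2 ≤ ε * Real.log L) (hΛH : (Real.exp H + 1) * H ≤ κ * Real.log L) {B : ℕ}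
    (hB : 2 * L ≤ B) (h1 : f.F.leadingCoeff.num.natAbs ≤ B) (h2 : f.F.leadingCoeff.den ≤ B)
    (h3 : g.F.leadingCoeff.den ≤ B) :
    ∃ (TT : Finset ℕ) (rt : Bool), TT ⊆ Ps B ∧
      (∀ p ∈ TT, H ≤ mP p f.F ∧ 0 < mP p g.F ∧
        EnP p T ≤ (1 + η) * (T.card : ℝ) ^ 2 * mP p f.F ∧
        EnP p T ≤ (1 + η) * (T.card : ℝ) ^ 2 * (mP p g.F / ((e : ℝ) - 1))) ∧
      (rt = true → κ * Real.log L ≤ mm Rat.AbsoluteValue.real L 2 f.F ∧
        κ * (((e : ℝ) - 1) * Real.log L) ≤ mm Rat.AbsoluteValue.real L e g.F ∧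
        En Rat.AbsoluteValue.real L T ≤
          (1 + η) * (T.card : ℝ) ^ 2 * mm Rat.AbsoluteValue.real L 2 f.F ∧
        En Rat.AbsoluteValue.real L T ≤
          (1 + η) * (T.card : ℝ) ^ 2 * (mm Rat.AbsoluteValue.real L e g.F / ((e : ℝ) - 1))) ∧
      (1 - 16 * κ) * Real.log L ≤ mass f.F L TT rt ∧
      mass f.F L TT rt ≤ (1 + 16 * κ) * Real.log L ∧
      ∑ p ∈ Ps B \ TT, EnP p T +
        (if rt = true then 0 else EnX Rat.AbsoluteValue.real L T) ≤
          33 * κ * (T.card : ℝ) ^ 2 * Real.log L ∧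
      ∑ p ∈ Ps B, max 0 (-mP p f.F) + max 0 (-mm Rat.AbsoluteValue.real L 2 f.F) ≤
        16 * κ * Real.log L := by
  have hκ0 : 0 < κ := by
    by_contra hcon
    push Not at hcon
    have h4 : η * κ ≤ 0 := mul_nonpos_of_nonneg_of_nonpos hη.le hcon
    linarith
  have hεκ : 64 * ε ≤ κ := by nlinarith
  have hε1 : ε ≤ 1 := by linarith
  have hlog2 : 0 < Real.log 2 := Real.log_pos (by norm_num)
  have hΛpos : 0 < Real.log L := by
    by_contra hcon
    push Not at hcon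
    have : ε * Real.log L ≤ 0 := mul_nonpos_of_nonneg_of_nonpos hε.le hcon
    linarith
  have he' : (2 : ℝ) ≤ e := by exact_mod_cast he
  have he1 : (0 : ℝ) < (e : ℝ) - 1 := by linarith
  have hF0 : f.F ≠ 0 := by
    intro h; have := f.deg; rw [h, natDegree_zero] at this; omega
  have hG0 : g.F ≠ 0 := by
    intro h; have := g.deg; rw [h, natDegree_zero] at this; omega
  have ht : (0 : ℝ) < T.card := by exact_mod_cast Finset.card_pos.2 hT
  have hTS : T ⊆ S := hTf.trans (G4_Dm_subset S a f.ph J)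
  have hes := energy_sum T (fun x hx => hL x (hTS hx)) hB
  have hfac : ∀ p ∈ Ps B, p.Prime := fun p hp => (Finset.mem_filter.1 hp).2
  have e2 : (((2 : ℕ) : ℝ) - 1) = 1 := by norm_num
  have hsm := small_primes f.F B hH.le
  have hsp := sum_mP hF0 h1 h2 L
  obtain ⟨Q, hQdef⟩ : ∃ Q : ℝ, Q = (T.card : ℝ) ^ 2 := ⟨_, rfl⟩
  have hQ : 0 < Q := by rw [hQdef]; positivity
  obtain ⟨TT, hTT⟩ : ∃ TT : Finset ℕ, TT = (Ps B).filter (fun p => H ≤ max 0 (mP p f.F) ∧
    EnP p T ≤ (1 + η) * Q * max 0 (mP p f.F) ∧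
    EnP p T ≤ (1 + η) * Q * (max 0 (mP p g.F) / ((e : ℝ) - 1))) := ⟨_, rfl⟩
  have hLp : ∀ p ∈ Ps B, (1 - ε) * Q * max 0 (mP p f.F) ≤ EnP p T := by
    intro p hp
    have h4 := lower_p f (le_refl 2) (hfac p hp) J hTf hε hε1
      (X2_pow_le (le_refl 2) hJ) hBf
    rw [e2, div_one, ← hQdef] at h4
    exact h4
  have hpl := places (Ps B) (fun p => EnP p T) (fun p => max 0 (mP p f.F))
    (fun p => max 0 (mP p g.F) / ((e : ℝ) - 1)) (E0 := En Rat.AbsoluteValue.real L T)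
    (M0 := mm Rat.AbsoluteValue.real L 2 f.F)
    (M0' := mm Rat.AbsoluteValue.real L e g.F / ((e : ℝ) - 1)) (Q := Q)
    (Λ := Real.log L) (ε := ε) (η := η) (κ := κ) hQ hΛpos hε hη hη1 h hκ
    (by rw [hes, hQdef]; nlinarith [mul_pos ht hΛpos])
    (fun p hp => EnP_nonneg (hfac p hp) T)
    (fun p _ => le_max_left _ _)
    (fun p _ => div_nonneg (le_max_left _ _) he1.le)
    hLp
    (fun p hp => by
      have h4 := lower_p g he (hfac p hp) J hTg hε hε1 (X2_pow_le he hJ) hBg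
      rw [← hQdef] at h4
      exact h4)
    (by
      have h4 := lower_r f (le_refl 2) J hTf hε hε1 (X2_pow_le (le_refl 2) hJ) hBf hL1 hL hΛ
      rw [e2, div_one, ← hQdef] at h4
      exact h4)
    (by
      have h4 := lower_r g he J hTg hε hε1 (X2_pow_le he hJ) hBg hL1 hL hΛ
      rw [← hQdef] at h4
      exact h4)
    (by
      have h4 := sum_mm hF0 2 h2 L
      rw [e2, one_mul] at h4
      exact h4)
    (by
      have h4 := sum_mm hG0 e h3 L
      rw [← Finset.sum_div, ← add_div, le_div_iff₀ he1]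
      linarith)
    (H := H) (hsm.trans hΛH) (TT := TT)
    (fun p => by rw [hTT, Finset.mem_filter])
  obtain ⟨o1, o2, o3, o4⟩ := hpl
  have hTTs : TT ⊆ Ps B := by rw [hTT]; exact Finset.filter_subset _ _
  have hmax : ∀ x : ℝ, 0 < max 0 x → max 0 x = x := by
    intro x hx
    rcases le_total 0 x with h4 | h4
    · exact max_eq_right h4
    · rw [max_eq_left h4] at hx
      exact absurd hx (lt_irrefl 0)
  have hTT1 : ∀ p ∈ TT, max 0 (mP p f.F) = mP p f.F := by
    intro p hp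
    rw [hTT, Finset.mem_filter] at hp
    exact hmax _ (lt_of_lt_of_le hH hp.2.1)
  have hTT2 : ∀ p ∈ TT, H ≤ mP p f.F ∧ 0 < mP p g.F ∧
        EnP p T ≤ (1 + η) * (T.card : ℝ) ^ 2 * mP p f.F ∧
        EnP p T ≤ (1 + η) * (T.card : ℝ) ^ 2 * (mP p g.F / ((e : ℝ) - 1)) := by
    intro p hp
    have hp1 := hTT1 p hp
    rw [hTT, Finset.mem_filter] at hp
    obtain ⟨hpB, q1, q2, q3⟩ := hp
    have hpos : 0 < EnP p T := by
      have h4 := hLp p hpB
      have h5 : 0 < (1 - ε) * Q * max 0 (mP p f.F) :=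
        mul_pos (mul_pos (by linarith) hQ) (lt_of_lt_of_le hH q1)
      linarith
    have hg : 0 < max 0 (mP p g.F) := by
      by_contra hcon
      push Not at hcon
      have h5 : max 0 (mP p g.F) / ((e : ℝ) - 1) ≤ 0 := div_nonpos_of_nonpos_of_nonneg hcon he1.le
      have h6 : (1 + η) * Q * (max 0 (mP p g.F) / ((e : ℝ) - 1)) ≤ 0 :=
        mul_nonpos_of_nonneg_of_nonpos (by positivity) h5
      linarith
    have hg' := hmax _ hg
    rw [hp1] at q1 q2
    rw [hg'] at q3 hg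
    rw [← hQdef]
    exact ⟨q1, hg, q2, q3⟩
  have hsumTT : ∑ p ∈ TT, max 0 (mP p f.F) = ∑ p ∈ TT, mP p f.F := Finset.sum_congr rfl hTT1
  have hsumle : ∑ p ∈ TT, max 0 (mP p f.F) ≤ ∑ p ∈ Ps B, max 0 (mP p f.F) :=
    Finset.sum_le_sum_of_subset_of_nonneg hTTs (fun p _ _ => le_max_left _ _)
  have hmu : ∑ p ∈ Ps B, max 0 (-mP p f.F) + max 0 (-mm Rat.AbsoluteValue.real L 2 f.F) ≤
        16 * κ * Real.log L := by
    have h4 : ∑ p ∈ Ps B, max 0 (-mP p f.F) =
        ∑ p ∈ Ps B, max 0 (mP p f.F) - ∑ p ∈ Ps B, mP p f.F := by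
      rw [← Finset.sum_sub_distrib]
      exact Finset.sum_congr rfl fun p _ => X2_max _
    rw [h4, X2_max]
    linarith
  have hQΛ : 0 < κ * Q * Real.log L := by positivity
  have hX := EnX_real_le (T := T) hL1 (fun y hy => hL y (hTS hy))
  rw [← hQdef] at hX
  rcases o4 with ⟨r1, r2, r3, r4⟩ | ⟨r1, r2⟩
  · have hM0 : max 0 (mm Rat.AbsoluteValue.real L 2 f.F) = mm Rat.AbsoluteValue.real L 2 f.F :=
      max_eq_right (le_trans (by positivity) r1)
    rw [hM0] at o2 o3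
    refine ⟨TT, true, hTTs, hTT2, fun _ => ⟨r1, ?_, ?_, ?_⟩, ?_, ?_, ?_, hmu⟩
    · rw [le_div_iff₀ he1] at r2
      linarith
    · rw [← hQdef]
      exact r3
    · rw [← hQdef]
      exact r4
    · unfold mass
      rw [if_pos rfl, ← hsumTT]
      exact o2
    · unfold mass
      rw [if_pos rfl, ← hsumTT]
      linarith
    · rw [if_pos rfl, ← hQdef]
      linarith
  · refine ⟨TT, false, hTTs, hTT2, fun h4 => absurd h4 (by decide), ?_, ?_, ?_, hmu⟩
    · unfold mass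
      rw [if_neg (by decide), ← hsumTT, add_zero]
      exact r2
    · unfold mass
      rw [if_neg (by decide), ← hsumTT, add_zero]
      have h4 := le_max_left 0 (mm Rat.AbsoluteValue.real L 2 f.F)
      linarith
    · rw [if_neg (by decide), ← hQdef]
      have h4 : Q * Real.log 2 ≤ κ * Q * Real.log L := by
        have h5 : Q * Real.log 2 ≤ Q * (ε * Real.log L) := mul_le_mul_of_nonneg_left hΛ hQ.le
        have h6 : ε * (Q * Real.log L) ≤ κ * (Q * Real.log L) :=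
          mul_le_mul_of_nonneg_right (by linarith) (by positivity)
        nlinarith
      linarith

end F0744D
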