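import Pool.Agent.Lib.MP_f0744f_nt.C.G1
import Pool.Agent.Lib.MP_f0744f_nt.D.N4
import Pool.Agent.Lib.MP_f0744f_nt.D.X2

/-! # Row X3a: a small subset of small energy -/

set_option autoImplicit false

open Polynomial

namespace F0744D

open F0744C

variable {S : Finset ℤ} {a b : ℤ} {e : ℕ}

/-- the energies as a sum over the pairs -/
theorem X3a_sum (P : Finset ℕ) (rt : Bool) (L : ℝ) (T : Finset ℤ) :
    ∑ x ∈ T, ∑ y ∈ T.erase x, (∑ p ∈ P, vp p ((x : ℚ) - y) +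
      (if rt = true then 0 else max 0 (uu Rat.AbsoluteValue.real L x y))) =
    ∑ p ∈ P, EnP p T + (if rt = true then 0 else EnX Rat.AbsoluteValue.real L T) := by
  simp_rw [Finset.sum_add_distrib]
  congr 1
  · unfold EnP
    symm
    rw [Finset.sum_comm]
    refine Finset.sum_congr rfl fun x _ => ?_
    rw [Finset.sum_comm]
  · cases rt
    · simp only [Bool.false_eq_true, if_false]
      rfl
    · simp

/-- `exists_avg` with `n = e + 1` and `w x y = ∑_{p ∈ Ps B \ TT} vp p (x - y) + (if rt then 0 else max 0 (uu real L x y))`: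
`W (T) = ∑ EnP p T + ...` (exchange the sums), `t (t - 1) ≥ t ^ 2 / 2`. -/
theorem exists_U {T : Finset ℤ} {X L : ℝ} (hX : 0 ≤ X) (he : 1 ≤ e) (ht : e + 1 ≤ T.card)
    (P : Finset ℕ) (rt : Bool)
    (h : ∑ p ∈ P, EnP p T + (if rt = true then 0 else EnX Rat.AbsoluteValue.real L T) ≤
      X * (T.card : ℝ) ^ 2) :
    ∃ U ⊆ T, U.card = e + 1 ∧
      ∑ p ∈ P, EnP p U + (if rt = true then 0 else EnX Rat.AbsoluteValue.real L U) ≤
        2 * ((e : ℝ) + 1) * e * X := by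
  obtain ⟨U, hUT, hUc, hU⟩ := exists_avg (fun x y : ℤ => ∑ p ∈ P, vp p ((x : ℚ) - y) +
      (if rt = true then 0 else max 0 (uu Rat.AbsoluteValue.real L x y))) T (n := e + 1)
      (by omega) ht
  refine ⟨U, hUT, hUc, ?_⟩
  simp only [X3a_sum] at hU
  have ht2 : (2 : ℝ) ≤ (T.card : ℝ) := by
    have : 2 ≤ T.card := by omega
    exact_mod_cast this
  have he0 : (0 : ℝ) ≤ (e : ℝ) := Nat.cast_nonneg e
  have hpos : 0 < (T.card : ℝ) * ((T.card : ℝ) - 1) := mul_pos (by linarith) (by linarith)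
  have h2 : (T.card : ℝ) ^ 2 ≤ 2 * ((T.card : ℝ) * ((T.card : ℝ) - 1)) := by nlinarith
  have hc : 0 ≤ ((e : ℝ) + 1) * e := mul_nonneg (by linarith) he0
  have hcX : 0 ≤ ((e : ℝ) + 1) * e * X := mul_nonneg hc hX
  refine le_of_mul_le_mul_right ?_ hpos
  calc (∑ p ∈ P, EnP p U + (if rt = true then 0 else EnX Rat.AbsoluteValue.real L U)) *
        ((T.card : ℝ) * ((T.card : ℝ) - 1))
      ≤ (((e + 1 : ℕ) : ℝ) * (((e + 1 : ℕ) : ℝ) - 1)) * (∑ p ∈ P, EnP p T +
          (if rt = true then 0 else EnX Rat.AbsoluteValue.real L T)) := hU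
    _ = ((e : ℝ) + 1) * e * (∑ p ∈ P, EnP p T +
          (if rt = true then 0 else EnX Rat.AbsoluteValue.real L T)) := by
        push_cast
        ring
    _ ≤ ((e : ℝ) + 1) * e * (X * (T.card : ℝ) ^ 2) := mul_le_mul_of_nonneg_left h hc
    _ = ((e : ℝ) + 1) * e * X * (T.card : ℝ) ^ 2 := by ring
    _ ≤ ((e : ℝ) + 1) * e * X * (2 * ((T.card : ℝ) * ((T.card : ℝ) - 1))) :=
        mul_le_mul_of_nonneg_left h2 hcX
    _ = 2 * ((e : ℝ) + 1) * e * X * ((T.card : ℝ) * ((T.card : ℝ) - 1)) := by ring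

end F0744D
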