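import Pool.Agent.Lib.MP_f0744f_nt.C.G5
import Pool.Agent.Lib.MP_f0744f_nt.C.Main
import Pool.Agent.Lib.MP_f0744f_nt.D.P2
import Pool.Agent.Lib.MP_f0744f_nt.D.R5
import Pool.Agent.Lib.MP_f0744f_nt.D.C2
import Pool.Agent.Lib.MP_f0744f_nt.D.N4
import Pool.Agent.Lib.MP_f0744f_nt.D.X2
import Pool.Agent.Lib.MP_f0744f_nt.D.X3a

/-! # Row X3: existence of the data -/

set_option autoImplicit false

open Polynomial

namespace F0744D

open F0744C

variable {S : Finset ℤ} {a b : ℤ} {e : ℕ}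

/-- Constants. `η0, θ1, J0, t0` from `itin (J + 2)`; `θ' = min θ θ1`; `κ' = min (1 / 32) (κ / (66 (e + 1) e + 32))`;
`η = min (1 / 2) (min η0 (1 / (512 e ^ 2)))`; `ε = η κ' / 32`; `H = log 4 / θ'`; `J1 ≥ J0 + J + 2` with
`1 / 2 ^ (J1 - 1) ≤ min η (ε / 2)`; `T` from `exists_T f g J1`, `t = T.card` so large that `Big 2 (2 J1) (ε / 2) t`,
`Big e (2 J1) (ε / 2) t` (`exists_big`; the other `Big` conditions follow, `big_mono` in `C/Main.lean`), `t ≥ t0 + e + 2`; `L`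
from `exists_L`, and `log L` is large because `S.card ≤ 2 L + 1` (`card_le`); the lower bounds for `log L`:
`log 2 ≤ ε log L`, `(exp H + 1) H ≤ κ' log L`, `Λ0` of `tp_r` for `η`, `κ'`, `θ'`, and `C ≤ κ log L`.
`B = max B0 (⌈2 L⌉₊, num and den of the leading coefficients)`. `glob` gives `TT`, `rt`. `tp`: `tp_p`
(`θ' mP ≥ θ' H = log 4`), `itin` (`EnP_eq`), `TP.mono`; `tr`: `tp_r`, `itin`. `U` from `exists_U` with
`X = 33 κ' log L`, `P = Ps B \ TT`; `nt`: `66 (e + 1) e κ' + 16 κ' ≤ κ`. -/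
theorem exists_ctx (he : 2 ≤ e) (J : ℕ) {κ θ : ℝ} (hκ : 0 < κ) (hθ : 0 < θ) (C : ℝ) :
    ∃ N0 : ℕ, ∀ (S : Finset ℤ) (a b : ℤ) (f : PM S a 2) (g : PM S b e), a ∈ S → b ∈ S → a ≠ b →
      (0 : ℤ) ∈ S → N0 ≤ S.card → (∀ p : ℕ, p.Prime → ∃ x ∈ S, ∃ y ∈ S, ¬ (p : ℤ) ∣ x - y) →
      ∀ B0 : ℕ, ∃ (L : ℝ) (B : ℕ) (TT : Finset ℕ) (rt : Bool) (T U : Finset ℤ), B0 ≤ B ∧
        Ctx f g J L κ θ C B TT rt T U := by
  have he' : (2 : ℝ) ≤ e := by exact_mod_cast he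
  obtain ⟨η0, θ1, J0, t0, hη0, hθ1, hit⟩ := itin (J + 2)
  obtain ⟨θ', hθ'⟩ : ∃ x : ℝ, x = min θ θ1 := ⟨_, rfl⟩
  have hθ'0 : 0 < θ' := by rw [hθ']; exact lt_min hθ hθ1
  have hθ'1 : θ' ≤ θ := by rw [hθ']; exact min_le_left _ _
  have hθ'2 : θ' ≤ θ1 := by rw [hθ']; exact min_le_right _ _
  have hD : (0 : ℝ) < 66 * ((e : ℝ) + 1) * e + 32 := by positivity
  obtain ⟨κ', hκ'⟩ : ∃ x : ℝ, x = min (1 / 32) (κ / (66 * ((e : ℝ) + 1) * e + 32)) := ⟨_, rfl⟩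
  have hκ'0 : 0 < κ' := by rw [hκ']; exact lt_min (by norm_num) (div_pos hκ hD)
  have hκ'1 : κ' ≤ 1 / 32 := by rw [hκ']; exact min_le_left _ _
  have hκ'2 : (66 * ((e : ℝ) + 1) * e + 32) * κ' ≤ κ := by
    have : κ' ≤ κ / (66 * ((e : ℝ) + 1) * e + 32) := by rw [hκ']; exact min_le_right _ _
    rw [le_div_iff₀ hD] at this
    linarith
  obtain ⟨η, hη⟩ : ∃ x : ℝ, x = min (1 / 2) (min η0 (1 / (512 * (e : ℝ) ^ 2))) := ⟨_, rfl⟩
  have hηp : 0 < η := by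
    rw [hη]; exact lt_min (by norm_num) (lt_min hη0 (by positivity))
  have hη1 : η ≤ 1 / 2 := by rw [hη]; exact min_le_left _ _
  have hη2 : η ≤ η0 := by rw [hη]; exact (min_le_right _ _).trans (min_le_left _ _)
  have hη3 : 512 * η * (e : ℝ) ^ 2 ≤ 1 := by
    have : η ≤ 1 / (512 * (e : ℝ) ^ 2) := by
      rw [hη]; exact (min_le_right _ _).trans (min_le_right _ _)
    rw [le_div_iff₀ (by positivity)] at this
    linarith
  have hη64 : 64 * η * (2 * (e : ℝ)) ^ 2 ≤ 1 := by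
    have : 0 ≤ η * (e : ℝ) ^ 2 := by positivity
    nlinarith
  have hη128 : 128 * η * (2 * (e : ℝ)) ^ 2 ≤ 1 := by nlinarith
  obtain ⟨ε, hε⟩ : ∃ x : ℝ, x = η * κ' / 32 := ⟨_, rfl⟩
  have hεp : 0 < ε := by rw [hε]; positivity
  have hε32 : 32 * ε ≤ η * κ' := by rw [hε]; linarith
  have hεη : ε / 2 ≤ η := by
    have : η * κ' ≤ η * 1 := mul_le_mul_of_nonneg_left (by linarith) hηp.le
    linarith
  have hlog4 : 0 < Real.log 4 := Real.log_pos (by norm_num)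
  obtain ⟨H, hH⟩ : ∃ x : ℝ, x = Real.log 4 / θ' := ⟨_, rfl⟩
  have hHp : 0 < H := by rw [hH]; positivity
  have hHθ : θ' * H = Real.log 4 := by rw [hH]; field_simp
  obtain ⟨J2, hJ2⟩ : ∃ J2 : ℕ, (1 / 2 : ℝ) ^ J2 < ε / 2 :=
    exists_pow_lt_of_lt_one (by positivity) (by norm_num)
  obtain ⟨J', hJ'⟩ : ∃ x : ℕ, x = J2 + J0 + J + 2 := ⟨_, rfl⟩
  have hJε : (1 / 2 : ℝ) ^ J' ≤ ε / 2 := by
    refine le_trans ?_ hJ2.le
    exact pow_le_pow_of_le_one (by norm_num) (by norm_num) (by omega)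
  obtain ⟨Λ0, hΛ0⟩ := tp_r he hηp hη128 hκ'0 (by linarith) hθ'0
  obtain ⟨t1, ht1⟩ := exists_big 2 (2 * J') (ε := ε / 2) (by positivity)
  obtain ⟨t2, ht2⟩ := exists_big e (2 * J') (ε := ε / 2) (by positivity)
  obtain ⟨Y, hY⟩ : ∃ x : ℝ, x = max (max Λ0 (Real.log 2 / ε))
    (max ((Real.exp H + 1) * H / κ') (C / κ)) := ⟨_, rfl⟩
  refine ⟨t0 + t1 + t2 + e + 2 * (J' + 1) + 10 + ⌈2 * Real.exp Y + 1⌉₊, ?_⟩
  intro S a b f g ha hb hab h0 hN prim B0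
  obtain ⟨L, hL1, hL, hL'⟩ := exists_L (S := S) (by omega)
  have hcard := card_le (by linarith : (0 : ℝ) ≤ L) hL
  have hΛ : Y ≤ Real.log L := by
    rw [Real.le_log_iff_exp_le (by linarith)]
    have h1 : (2 * Real.exp Y + 1 : ℝ) ≤ S.card := by
      refine le_trans (Nat.le_ceil _) ?_
      exact_mod_cast le_trans (by omega) hN
    linarith
  have hΛ1 : Λ0 ≤ Real.log L :=
    le_trans (le_trans (le_max_left _ _) (le_max_left _ _)) (hY ▸ hΛ)
  have hΛ2 : Real.log 2 ≤ ε * Real.log L := by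
    have := le_trans (le_trans (le_max_right _ _) (le_max_left _ _)) (hY ▸ hΛ)
    rw [div_le_iff₀ hεp] at this
    linarith
  have hΛ3 : (Real.exp H + 1) * H ≤ κ' * Real.log L := by
    have := le_trans (le_trans (le_max_left _ _) (le_max_right _ _)) (hY ▸ hΛ)
    rw [div_le_iff₀ hκ'0] at this
    linarith
  have hΛ4 : C ≤ κ * Real.log L := by
    have := le_trans (le_trans (le_max_right _ _) (le_max_right _ _)) (hY ▸ hΛ)
    rw [div_le_iff₀ hκ] at this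
    linarith
  have hlog2 : 0 < Real.log 2 := Real.log_pos (by norm_num)
  have hΛpos : 0 < Real.log L := by
    by_contra hcon
    push Not at hcon
    have : ε * Real.log L ≤ 0 := mul_nonpos_of_nonneg_of_nonpos hεp.le hcon
    linarith
  obtain ⟨T, hTf, hTg, hgT, hTcard⟩ := exists_T f g (J' + 1)
  have hTf' : T ⊆ Dm S a f.ph J' := hTf.trans (Dm_anti _ _)
  have hTg' : T ⊆ Dm S b g.ph J' := hTg.trans (Dm_anti _ _)
  have hTbig : t0 + t1 + t2 + e + 5 ≤ T.card := by omega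
  have hTne : T.Nonempty := Finset.card_pos.1 (by omega)
  have hBf : Big 2 (2 * J') (ε / 2) T.card := ht1 _ (by omega)
  have hBg : Big e (2 * J') (ε / 2) T.card := ht2 _ (by omega)
  have hTit : T ⊆ Dm S a f.ph (J0 + (J + 2)) := hTf.trans (Dm_mono _ _ _ (by omega))
  obtain ⟨B, hB⟩ : ∃ B : ℕ, B = B0 + ⌈2 * L⌉₊ + f.F.leadingCoeff.num.natAbs +
    f.F.leadingCoeff.den + g.F.leadingCoeff.den := ⟨_, rfl⟩
  have hB1 : 2 * L ≤ B := by
    refine le_trans (Nat.le_ceil _) ?_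
    rw [hB]; exact_mod_cast (by omega)
  have ht : (0 : ℝ) < T.card := by exact_mod_cast Finset.card_pos.2 hTne
  have hQ : (0 : ℝ) < (T.card : ℝ) ^ 2 := by positivity
  have hJ2' : (1 : ℝ) / 2 ^ J' ≤ ε / 2 := by rw [← one_div_pow]; exact hJε
  obtain ⟨TT, rt, hTTs, hTT, hrt, hlo, hup, hnt, hneg⟩ := glob he f g hTf' hTg' hTne hεp hηp hη1
    hε32 hκ'1 hHp hJ2' hBf hBg hL1 hL hΛ2 hΛ3 hB1 (by omega) (by omega) (by omega)
  obtain ⟨U, hUT, hUc, hUn⟩ := exists_U (T := T) (X := 33 * κ' * Real.log L) (L := L) (e := e)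
    (by positivity) (by omega) (by omega) (Ps B \ TT) rt (by nlinarith [hnt])
  refine ⟨L, B, TT, rt, T, U, by omega, ?_⟩
  have h16 : 16 * κ' ≤ κ := by
    have : 0 ≤ ((e : ℝ) + 1) * e * κ' := by positivity
    nlinarith
  refine ⟨hL1, hL, hκ, hθ, hΛ4, hTf.trans (Dm_mono _ _ _ (by omega)), hgT, hTTs, ?_, ?_, ?_, ?_,
    hUT, hUc, ?_⟩
  · intro p hp hpT
    obtain ⟨h1, h2, h3, h4⟩ := hTT p hpT
    have hm0 : 0 < mP p f.F := lt_of_lt_of_le hHp h1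
    obtain ⟨cl, hcl⟩ := tp_p he hab f g (prim p hp.out) J' hTf hTg hTne hηp hη64
      (hJ2'.trans hεη) (pow_le he (hJε.trans hεη)) (big_mono hεη hBf)
      (big_mono hεη hBg) hm0 h2 h3 h4 (θ := θ') (by
        rw [← hHθ]; exact mul_le_mul_of_nonneg_left h1 hθ'0.le)
    refine ⟨cl, hcl.mono hθ'1, ?_⟩
    refine hit S a f (Rat.AbsoluteValue.padic p) 1 (mP p f.F) θ' cl hcl hθ'2 T hTit (by omega) ?_
    rw [← EnP_eq]
    refine h3.trans ?_
    exact mul_le_mul_of_nonneg_right (mul_le_mul_of_nonneg_right (by linarith) hQ.le) hm0.le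
  · intro hr
    obtain ⟨h1, h2, h3, h4⟩ := hrt hr
    have hm0 : 0 < mm Rat.AbsoluteValue.real L 2 f.F := lt_of_lt_of_le (by positivity) h1
    obtain ⟨cl, hcl⟩ := hΛ0 S a b f g L J' T hab h0 hL hL' hL1 hΛ1 hTf hTg hTne
      (hJ2'.trans hεη) (pow_le he (hJε.trans hεη)) (big_mono hεη hBf)
      (big_mono hεη hBg) h1 h2 h3 h4
    refine ⟨cl, hcl.mono hθ'1, ?_⟩
    refine hit S a f Rat.AbsoluteValue.real L _ θ' cl hcl hθ'2 T hTit (by omega) ?_
    refine h3.trans ?_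
    exact mul_le_mul_of_nonneg_right (mul_le_mul_of_nonneg_right (by linarith) hQ.le) hm0.le
  · refine le_trans ?_ hlo
    exact mul_le_mul_of_nonneg_right (by linarith) hΛpos.le
  · refine hup.trans ?_
    exact mul_le_mul_of_nonneg_right (by linarith) hΛpos.le
  · have h1 : ∑ p ∈ Ps B \ TT, max 0 (-mP p f.F) ≤ ∑ p ∈ Ps B, max 0 (-mP p f.F) :=
      Finset.sum_le_sum_of_subset_of_nonneg Finset.sdiff_subset (fun _ _ _ => le_max_left _ _)
    have h2 : (if rt = true then (0 : ℝ) else EnX Rat.AbsoluteValue.real L U +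
        max 0 (-mm Rat.AbsoluteValue.real L 2 f.F)) ≤
        (if rt = true then 0 else EnX Rat.AbsoluteValue.real L U) +
          max 0 (-mm Rat.AbsoluteValue.real L 2 f.F) := by
      split_ifs
      · rw [zero_add]; exact le_max_left _ _
      · exact le_rfl
    rw [Finset.sum_add_distrib]
    have h3 : (66 * ((e : ℝ) + 1) * e + 32) * κ' * Real.log L ≤ κ * Real.log L :=
      mul_le_mul_of_nonneg_right hκ'2 hΛpos.le
    have h4 : 0 ≤ κ' * Real.log L := by positivity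
    have h5 : 2 * ((e : ℝ) + 1) * e * (33 * κ' * Real.log L) =
        66 * ((e : ℝ) + 1) * e * κ' * Real.log L := by ring
    rw [h5] at hUn
    have h6 : (66 * ((e : ℝ) + 1) * e + 32) * κ' * Real.log L =
        66 * ((e : ℝ) + 1) * e * κ' * Real.log L + 32 * (κ' * Real.log L) := by ring
    linarith

end F0744D
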