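import Pool.Agent.Lib.MP_f0744f_nt.D.Defs

/-! # Row Z1a: conjugation of iterates -/

set_option autoImplicit false

open Polynomial

namespace F0744D

open F0744C

/-- `P^k (t) = mu * (F^k (mu⁻¹ t + s₀) - s₀)` by induction (`Polynomial.iterate_comp_eval`), so
`G (mu⁻¹ t + s₀) = F^k (mu⁻¹ t + s₀)` for all `t : ℚ`; `Polynomial.funext`. -/
theorem conj_iter {F G : ℚ[X]} {s₀ mu : ℚ} (hmu : mu ≠ 0) {k : ℕ}
    (h : C mu * (G.comp (C mu⁻¹ * X + C s₀) - C s₀) =
      (C mu * (F.comp (C mu⁻¹ * X + C s₀) - C s₀)).comp^[k] X) : G = F.comp^[k] X := by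
  have h1 : ∀ (j : ℕ) (u : ℚ),
      (fun x => eval x (C mu * (F.comp (C mu⁻¹ * X + C s₀) - C s₀)))^[j] (mu * (u - s₀)) =
        mu * ((fun x => eval x F)^[j] u - s₀) := by
    intro j
    induction j with
    | zero => intro u; rfl
    | succ j ih =>
      intro u
      rw [Function.iterate_succ_apply, Function.iterate_succ_apply, ← ih]
      congr 1
      have h2 : mu⁻¹ * (mu * (u - s₀)) + s₀ = u := by
        field_simp
        ring
      simp only [eval_mul, eval_C, eval_sub, eval_comp, eval_add, eval_X, h2]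
  refine Polynomial.funext fun u => ?_
  have h2 := congrArg (eval (mu * (u - s₀))) h
  rw [Polynomial.iterate_comp_eval, eval_X, h1] at h2
  rw [Polynomial.iterate_comp_eval, eval_X]
  have h3 : mu⁻¹ * (mu * (u - s₀)) + s₀ = u := by
    field_simp
    ring
  simp only [eval_mul, eval_C, eval_sub, eval_comp, eval_add, eval_X, h3] at h2
  have h4 := mul_left_cancel₀ hmu h2
  linarith

/-- `Polynomial.map_comp`, induction. -/
theorem map_iter (F : ℚ[X]) (k : ℕ) :
    (F.comp^[k] X).map (algebraMap ℚ ℝ) = (F.map (algebraMap ℚ ℝ)).comp^[k] X := by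
  induction k with
  | zero => simp
  | succ k ih =>
    rw [Function.iterate_succ_apply', Function.iterate_succ_apply', Polynomial.map_comp, ih]

end F0744D
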