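import Pool.Agent.Lib.MP_f0744f_nt.C.Red1
import Pool.Agent.Lib.MP_f0744f_nt.C.Red2
import Pool.Agent.Lib.MP_f0744f_nt.D.K0
import Pool.Agent.Lib.MP_f0744f_nt.D.Z1a

/-! # Row Z1: change of coordinates -/

set_option autoImplicit false

open Polynomial

namespace F0744D

open F0744C

/-- The same proof as `exists_PM` in `C/Red1.lean`. -/
theorem exists_PM' (S : Finset ℚ) (c : ℚ → ℤ) (s₀ mu : ℚ) (hmu : mu ≠ 0)
    (hc : ∀ s ∈ S, (c s : ℚ) = (s - s₀) * mu) (a : ℚ) {F : ℚ[X]} {d : ℕ} (hF : F.natDegree = d)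
    (hmaps : ∀ s ∈ S, s ≠ a → F.eval s ∈ S)
    (hinj : ∀ s ∈ S, ∀ t ∈ S, s ≠ a → t ≠ a → F.eval s = F.eval t → s = t) :
    ∃ P : PM (S.image c) (c a) d, P.F = C mu * (F.comp (C mu⁻¹ * X + C s₀) - C s₀) := by
  have key : ∀ s ∈ S, mu⁻¹ * (c s : ℚ) + s₀ = s := by
    intro s hs
    rw [hc s hs]
    field_simp
    ring
  refine ⟨⟨C mu * (F.comp (C mu⁻¹ * X + C s₀) - C s₀), ?_,
    fun t => c (F.eval (mu⁻¹ * (t : ℚ) + s₀)), ?_, ?_, ?_⟩, rfl⟩
  · rw [natDegree_C_mul hmu, natDegree_sub_C, natDegree_comp, natDegree_linear (inv_ne_zero hmu),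
      mul_one, hF]
  · intro x hx hxa
    obtain ⟨s, hs, rfl⟩ := Finset.mem_image.1 hx
    have hsa : s ≠ a := fun h => hxa (by rw [h])
    show c (F.eval (mu⁻¹ * ((c s : ℤ) : ℚ) + s₀)) ∈ S.image c
    rw [key s hs]
    exact Finset.mem_image_of_mem c (hmaps s hs hsa)
  · intro x hx hxa
    obtain ⟨s, hs, rfl⟩ := Finset.mem_image.1 hx
    have hsa : s ≠ a := fun h => hxa (by rw [h])
    show ((c (F.eval (mu⁻¹ * ((c s : ℤ) : ℚ) + s₀)) : ℤ) : ℚ) =
      (C mu * (F.comp (C mu⁻¹ * X + C s₀) - C s₀)).eval ((c s : ℤ) : ℚ)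
    rw [eval_mul, eval_sub, eval_comp, eval_add, eval_mul, eval_C, eval_C, eval_C, eval_X, key s hs,
      hc _ (hmaps s hs hsa), mul_comm]
  · intro x hx y hy hxa hya h
    obtain ⟨s, hs, rfl⟩ := Finset.mem_image.1 hx
    obtain ⟨t, ht, rfl⟩ := Finset.mem_image.1 hy
    have hsa : s ≠ a := fun h => hxa (by rw [h])
    have hta : t ≠ a := fun h => hya (by rw [h])
    have h1 : c (F.eval (mu⁻¹ * ((c s : ℤ) : ℚ) + s₀)) =
      c (F.eval (mu⁻¹ * ((c t : ℤ) : ℚ) + s₀)) := h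
    rw [key s hs, key t ht] at h1
    have h2 : ((c (F.eval s) : ℤ) : ℚ) = ((c (F.eval t) : ℤ) : ℚ) := by rw [h1]
    rw [hc _ (hmaps s hs hsa), hc _ (hmaps t ht hta)] at h2
    have h3 : F.eval s = F.eval t := by
      have := mul_right_cancel₀ hmu h2
      linarith
    rw [hinj s hs t ht hsa hta h3]

/-- The same proof as `Red2_key` in `C/Red2.lean`. -/
theorem key' {f : ℝ[X]} {d : ℕ} (hf : f.natDegree = d) {x : ℕ → ℚ} {m : ℕ} (hmd : d + 1 ≤ m)
    (hx : F0744.Orb f x (m + 1)) {S : Finset ℚ} (hS : S = (Finset.range (m + 1)).image x) :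
    ∃ F : ℚ[X], F.map (algebraMap ℚ ℝ) = f ∧ F.natDegree = d ∧
      (∀ s ∈ S, s ≠ x m → F.eval s ∈ S) ∧
      (∀ s ∈ S, ∀ t ∈ S, s ≠ x m → t ≠ x m → F.eval s = F.eval t → s = t) := by
  obtain ⟨F, hFf, hFd⟩ := rat_poly hf (x := x) (y := fun i => x (i + 1))
    (hx.inj.mono (Set.Iio_subset_Iio (by omega)))
    (fun i hi => hx.step i (by omega))
  have hstep : ∀ i, i < m → F.eval (x i) = x (i + 1) := by
    intro i hi
    have h1 := hx.step i (by omega)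
    rw [← hFf, eval_map] at h1
    have h2 : eval₂ (algebraMap ℚ ℝ) ((x i : ℚ) : ℝ) F = ((F.eval (x i) : ℚ) : ℝ) :=
      eval₂_at_apply (p := F) (algebraMap ℚ ℝ) (x i)
    rw [h2] at h1
    exact_mod_cast h1
  have hmem : ∀ s ∈ S, s ≠ x m → ∃ i < m, s = x i := by
    intro s hs hsm
    rw [hS] at hs
    obtain ⟨i, hi, rfl⟩ := Finset.mem_image.1 hs
    refine ⟨i, ?_, rfl⟩
    have hi' := Finset.mem_range.1 hi
    rcases Nat.lt_succ_iff_lt_or_eq.1 hi' with h | h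
    · exact h
    · exact absurd (by rw [h]) hsm
  refine ⟨F, hFf, hFd, ?_, ?_⟩
  · intro s hs hsm
    obtain ⟨i, hi, rfl⟩ := hmem s hs hsm
    rw [hstep i hi, hS]
    exact Finset.mem_image_of_mem _ (Finset.mem_range.2 (by omega))
  · intro s hs t ht hsm htm he
    obtain ⟨i, hi, rfl⟩ := hmem s hs hsm
    obtain ⟨j, hj, rfl⟩ := hmem t ht htm
    rw [hstep i hi, hstep j hj] at he
    have := hx.inj (show i + 1 ∈ Set.Iio (m + 1) by simpa using hi)
      (show j + 1 ∈ Set.Iio (m + 1) by simpa using hj) he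
    rw [Nat.succ_injective this]

end F0744D
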