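import Pool.Agent.Lib.MP_f0744f_nt.D.ZDefs

/-! # Row Z4: a map and an iterate of it have the same orbit segment -/

set_option autoImplicit false

open Polynomial

namespace F0744D

open F0744C

/-- preperiod and period of an orbit with a repetition -/
theorem Z4_per (φ : ℚ → ℚ) (x₀ : ℚ) (h : ∃ i n : ℕ, i < n ∧ φ^[i] x₀ = φ^[n] x₀) :
    ∃ t c : ℕ, 0 < c ∧ φ^[t + c] x₀ = φ^[t] x₀ ∧
      ∀ i n : ℕ, i ≤ n → φ^[i] x₀ = φ^[n] x₀ → i = n ∨ (t ≤ i ∧ c ∣ n - i) := by
  classical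
  have hex : ∃ i : ℕ, ∃ n : ℕ, i < n ∧ φ^[i] x₀ = φ^[n] x₀ := h
  set t := Nat.find hex with ht
  obtain ⟨n0, hn0, hx0⟩ := Nat.find_spec hex
  rw [← ht] at hn0 hx0
  have hpp : ∀ i n : ℕ, i < n → φ^[i] x₀ = φ^[n] x₀ → Function.IsPeriodicPt φ (n - i) (φ^[i] x₀) := by
    intro i n hin hx
    show φ^[n - i] (φ^[i] x₀) = φ^[i] x₀
    rw [← Function.iterate_add_apply, Nat.sub_add_cancel hin.le]
    exact hx.symm
  have hp0 := hpp t n0 hn0 hx0
  have hmem : φ^[t] x₀ ∈ Function.periodicPts φ := ⟨n0 - t, by omega, hp0⟩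
  refine ⟨t, Function.minimalPeriod φ (φ^[t] x₀), hp0.minimalPeriod_pos (by omega), ?_, ?_⟩
  · rw [add_comm, Function.iterate_add_apply]
    exact Function.isPeriodicPt_minimalPeriod φ (φ^[t] x₀)
  · intro i n hin hx
    rcases hin.eq_or_lt with h1 | h1
    · exact Or.inl h1
    · right
      have h2 : t ≤ i := Nat.find_min' hex ⟨n, h1, hx⟩
      refine ⟨h2, ?_⟩
      have h3 := (hpp i n h1 hx).minimalPeriod_dvd
      have h4 : φ^[i] x₀ = φ^[i - t] (φ^[t] x₀) := by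
        rw [← Function.iterate_add_apply, Nat.sub_add_cancel h2]
      rw [h4, Function.minimalPeriod_apply_iterate hmem] at h3
      exact h3

/-- Let `x n = φ^[n] x₀` for all `n : ℕ`, `N = S.card`: the `x n`, `n < N`, are different and are the elements of `S`
(`Finset.card_image_iff`). The orbit of `φ^[k]` is `y j = x (s + k j)`, `j < N`, `y 0 = x s`, `s < N`. Because
`s + k (N - 1) ≥ N` and `y (N - 1) ∈ S` there are `i < n` with `x i = x n`. Let `t` be the least number such that `x t = x n` for an `n > t`,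
and `c ≥ 1` the least number with `x (t + c) = x t`: `x i = x n` (`i ≤ n`) iff `i = n` or (`t ≤ i`, `c ∣ n - i`). So `t + c ≥ N`. `Z` = the `x i`,
`t ≤ i < t + c`.
(1) `t ≤ 1`: otherwise `x 0` and `x 1` are `x n` only for `n = 0`, `n = 1`; they are `y j`, `y j'`, `s + k j = 0`, `s + k j' = 1`:
impossible (`k ≥ 2`). So `S \ Z ⊆ {x 0}`. (2) `t + c ≤ N + 1`: otherwise `x N` and `x (N + 1)` are not in `S`; but `φ^[k]` maps
`S \ {y (N - 1)}` into `S`, and `x (N - k)`, `x (N - k + 1)` are two elements of `S`, mapped to `x N`, `x (N + 1)`. So `Z \ S ⊆ {x N}`.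
(3) `k` and `c` are coprime: if the prime `δ` divides both, `x t = y j` gives `s ≡ t mod δ`, and `x (t + 1) = y j'` gives
`s ≡ t + 1 mod δ` (`t + 1 ≤ 2 < N`). -/
theorem cycle {φ : ℚ → ℚ} {S : Finset ℚ} {k : ℕ} (hk : 2 ≤ k) (hkS : k < S.card)
    (hf : Cmp φ S) (hg : Cmp φ^[k] S) :
    ∃ Z : Finset ℚ, Cyc φ Z ∧ (Z \ S).card ≤ 1 ∧ (S \ Z).card ≤ 1 ∧ Nat.Coprime k Z.card := by
  classical
  obtain ⟨x₀, hx₀, hS⟩ := hf
  obtain ⟨y₀, hy₀, hT⟩ := hg
  obtain ⟨N, hN⟩ : ∃ N, N = S.card := ⟨_, rfl⟩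
  rw [← hN] at hkS hS hT
  have hinj : ∀ i j, i < N → j < N → φ^[i] x₀ = φ^[j] x₀ → i = j := by
    have h1 : Set.InjOn (fun i => φ^[i] x₀) (Finset.range N : Finset ℕ) :=
      Finset.card_image_iff.1 (by rw [hS, Finset.card_range, hN])
    intro i j hi hj hij
    exact h1 (by simpa using hi) (by simpa using hj) hij
  have hmem : ∀ p, p ∈ S ↔ ∃ i, i < N ∧ φ^[i] x₀ = p := by
    intro p
    rw [← hS]
    simp [Finset.mem_image]
  obtain ⟨s, hs, hsy⟩ := (hmem y₀).1 hy₀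
  have hyj : ∀ j, (φ^[k])^[j] y₀ = φ^[k * j + s] x₀ := by
    intro j
    rw [← Function.iterate_mul, ← hsy, ← Function.iterate_add_apply]
  have hmemy : ∀ p, p ∈ S ↔ ∃ j, j < N ∧ φ^[k * j + s] x₀ = p := by
    intro p
    rw [← hT]
    simp [Finset.mem_image, hyj]
  have hrep : ∃ i n : ℕ, i < n ∧ φ^[i] x₀ = φ^[n] x₀ := by
    have h1 : φ^[k * (N - 1) + s] x₀ ∈ S := (hmemy _).2 ⟨N - 1, by omega, rfl⟩
    obtain ⟨i, hi, hix⟩ := (hmem _).1 h1
    refine ⟨i, k * (N - 1) + s, ?_, hix⟩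
    have h2 : 2 * (N - 1) ≤ k * (N - 1) := Nat.mul_le_mul_right _ hk
    omega
  obtain ⟨t, c, hc, htc, hper⟩ := Z4_per φ x₀ hrep
  -- t + c ≥ N
  have hge : N ≤ t + c := by
    by_contra hcon
    push Not at hcon
    have := hinj (t + c) t hcon (by omega) htc
    omega
  -- t ≤ 1
  have ht1 : t ≤ 1 := by
    by_contra hcon
    push Not at hcon
    obtain ⟨j, hj, hjx⟩ := (hmemy (φ^[0] x₀)).1 ((hmem _).2 ⟨0, by omega, rfl⟩)
    have h1 : 0 = k * j + s := by
      rcases hper 0 (k * j + s) (Nat.zero_le _) hjx.symm with h | h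
      · exact h
      · omega
    obtain ⟨j', hj', hjx'⟩ := (hmemy (φ^[1] x₀)).1 ((hmem _).2 ⟨1, by omega, rfl⟩)
    rcases Nat.eq_zero_or_pos (k * j' + s) with h2 | h2
    · rw [h2] at hjx'
      have := hinj 0 1 (by omega) (by omega) hjx'
      omega
    · rcases hper 1 (k * j' + s) h2 hjx'.symm with h | h
      · have h3 : s = 0 := by omega
        rw [h3, add_zero] at h
        have := Nat.eq_one_of_mul_eq_one_right h.symm
        omega
      · omega
  -- t + c ≤ N + 1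
  have hout : ∀ m, N ≤ m → m < t + c → φ^[m] x₀ ∉ S := by
    intro m hm1 hm2 hm
    obtain ⟨i, hi, hix⟩ := (hmem _).1 hm
    rcases hper i m (by omega) hix with h | ⟨h, h'⟩
    · omega
    · have := Nat.le_of_dvd (by omega) h'
      omega
  have hle : t + c ≤ N + 1 := by
    by_contra hcon
    push Not at hcon
    have hlast : ∀ m, m < N → N ≤ m + k → m + k < t + c → ∀ j, j < N → φ^[k * j + s] x₀ = φ^[m] x₀ →
        j = N - 1 := by
      intro m hm1 hm2 hm3 j hj hjx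
      by_contra hjn
      have h1 : φ^[k * (j + 1) + s] x₀ ∈ S := (hmemy _).2 ⟨j + 1, by omega, rfl⟩
      have h2 : φ^[k * (j + 1) + s] x₀ = φ^[m + k] x₀ := by
        rw [show k * (j + 1) + s = k + (k * j + s) by ring, Function.iterate_add_apply, hjx,
          ← Function.iterate_add_apply, add_comm]
      rw [h2] at h1
      exact hout (m + k) hm2 hm3 h1
    obtain ⟨j, hj, hjx⟩ := (hmemy (φ^[N - k] x₀)).1 ((hmem _).2 ⟨N - k, by omega, rfl⟩)
    obtain ⟨j', hj', hjx'⟩ := (hmemy (φ^[N - k + 1] x₀)).1 ((hmem _).2 ⟨N - k + 1, by omega, rfl⟩)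
    have h1 := hlast (N - k) (by omega) (by omega) (by omega) j hj hjx
    have h2 := hlast (N - k + 1) (by omega) (by omega) (by omega) j' hj' hjx'
    have h3 : φ^[N - k] x₀ = φ^[N - k + 1] x₀ := by
      rw [← hjx, ← hjx', h1, h2]
    have := hinj (N - k) (N - k + 1) (by omega) (by omega) h3
    omega
  -- the cycle
  have hadd : ∀ i, φ^[i] (φ^[t] x₀) = φ^[t + i] x₀ := by
    intro i
    rw [← Function.iterate_add_apply, add_comm]
  obtain ⟨Z, hZ⟩ : ∃ Z, Z = (Finset.range c).image (fun i => φ^[i] (φ^[t] x₀)) := ⟨_, rfl⟩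
  have hZc : Z.card = c := by
    rw [hZ, Finset.card_image_of_injOn, Finset.card_range]
    have key : ∀ i j, i ≤ j → j < c → φ^[t + i] x₀ = φ^[t + j] x₀ → i = j := by
      intro i j hij hj h
      rcases hper (t + i) (t + j) (by omega) h with h1 | ⟨-, h1⟩
      · omega
      · by_contra hne
        have := Nat.le_of_dvd (by omega) h1
        omega
    intro i hi j hj hij
    have hi' : i < c := by simpa using hi
    have hj' : j < c := by simpa using hj
    have hij' : φ^[t + i] x₀ = φ^[t + j] x₀ := by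
      rw [← hadd, ← hadd]
      exact hij
    rcases le_total i j with h | h
    · exact key i j h hj' hij'
    · exact (key j i h hi' hij'.symm).symm
  have hZm : ∀ p, p ∈ Z ↔ ∃ i, i < c ∧ φ^[t + i] x₀ = p := by
    intro p
    rw [hZ]
    simp [Finset.mem_image, hadd]
  have hcong : ∀ a b, φ^[a] x₀ = φ^[b] x₀ → a ≡ b [MOD c] := by
    have key : ∀ a b, a ≤ b → φ^[a] x₀ = φ^[b] x₀ → a ≡ b [MOD c] := by
      intro a b hab h
      rcases hper a b hab h with h1 | ⟨-, h1⟩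
      · rw [h1]
      · exact (Nat.modEq_iff_dvd' hab).2 h1
    intro a b h
    rcases le_total a b with h1 | h1
    · exact key a b h1 h
    · exact (key b a h1 h.symm).symm
  refine ⟨Z, ⟨φ^[t] x₀, (hZm _).2 ⟨0, hc, rfl⟩, ?_, ?_⟩, ?_, ?_, ?_⟩
  · rw [hZc]
    exact hZ.symm
  · rw [hZc, hadd]
    exact htc
  · have h1 : Z \ S ⊆ {φ^[N] x₀} := by
      intro p hp
      rw [Finset.mem_sdiff] at hp
      obtain ⟨i, hi, hip⟩ := (hZm p).1 hp.1
      rw [Finset.mem_singleton, ← hip]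
      by_cases h2 : t + i < N
      · exact absurd ((hmem p).2 ⟨t + i, h2, hip⟩) hp.2
      · rw [show t + i = N by omega]
    have := Finset.card_le_card h1
    simpa using this
  · have h1 : S \ Z ⊆ {φ^[0] x₀} := by
      intro p hp
      rw [Finset.mem_sdiff] at hp
      obtain ⟨i, hi, hip⟩ := (hmem p).1 hp.1
      rw [Finset.mem_singleton, ← hip]
      by_cases h2 : i = 0
      · rw [h2]
      · exfalso
        apply hp.2
        exact (hZm p).2 ⟨i - t, by omega, by rw [show t + (i - t) = i by omega]; exact hip⟩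
    have := Finset.card_le_card h1
    simpa using this
  · rw [hZc]
    by_contra hcon
    obtain ⟨δ, hδ, hδk, hδc⟩ := Nat.Prime.not_coprime_iff_dvd.1 hcon
    have hk0 : ∀ j, k * j + s ≡ s [MOD δ] := by
      intro j
      have h1 : k * j ≡ 0 [MOD δ] := (Nat.modEq_zero_iff_dvd).2 (hδk.mul_right j)
      simpa using h1.add_right s
    obtain ⟨j, -, hjx⟩ := (hmemy (φ^[t] x₀)).1 ((hmem _).2 ⟨t, by omega, rfl⟩)
    obtain ⟨j', -, hjx'⟩ := (hmemy (φ^[t + 1] x₀)).1 ((hmem _).2 ⟨t + 1, by omega, rfl⟩)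
    have h1 : s ≡ t [MOD δ] := (hk0 j).symm.trans ((hcong _ _ hjx).of_dvd hδc)
    have h2 : s ≡ t + 1 [MOD δ] := (hk0 j').symm.trans ((hcong _ _ hjx').of_dvd hδc)
    have h3 : t ≡ t + 1 [MOD δ] := h1.symm.trans h2
    have h4 : δ ∣ (t + 1) - t := (Nat.modEq_iff_dvd' (by omega)).1 h3
    rw [show t + 1 - t = 1 by omega] at h4
    exact hδ.one_lt.ne' (Nat.dvd_one.1 h4)

end F0744D
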