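import Pool.Agent.Lib.MP_f0744f_nt.C.Defs

/-! # Orbits and cycles -/

set_option autoImplicit false

open Polynomial

namespace F0744D

open F0744C

/-- `S` is an orbit segment of `φ` without repetition. -/
def Cmp (φ : ℚ → ℚ) (S : Finset ℚ) : Prop :=
  ∃ x₀ ∈ S, (Finset.range S.card).image (fun i => φ^[i] x₀) = S

/-- `Z` is a cycle of `φ`. -/
def Cyc (φ : ℚ → ℚ) (Z : Finset ℚ) : Prop :=
  ∃ z ∈ Z, (Finset.range Z.card).image (fun i => φ^[i] z) = Z ∧ φ^[Z.card] z = z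

/-- `Z` is a cycle of the polynomial `f`: for some `z ∈ Z` the points `z, f(z), …, f^{c-1}(z)`, `c = |Z|`, are
exactly the elements of `Z`, and `f^c(z) = z`. -/
def IsCycle (f : ℝ[X]) (Z : Finset ℚ) : Prop :=
  ∃ z ∈ Z, (Finset.range Z.card).image (fun i => (fun y : ℝ => f.eval y)^[i] (z : ℝ)) =
    Z.image (fun q : ℚ => (q : ℝ)) ∧ (fun y : ℝ => f.eval y)^[Z.card] (z : ℝ) = (z : ℝ)

end F0744D
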