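import Pool.Agent.Lib.MP_f0744f_nt.C.Red1a
import Pool.Agent.Lib.MP_f0744f_nt.RedS
import Pool.Agent.Lib.MP_f0744f_nt.D.ZDefs

/-! # Row Z5: real and rational orbits -/

set_option autoImplicit false

open Polynomial

namespace F0744D

open F0744C

/-- `F0744.orb_of_compresses`, `rat_poly` (`d + 1` points, as in the proof of `Red2_key` in `C/Red2.lean`). -/
theorem compr_rat {f : ℝ[X]} {d : ℕ} (hf : f.natDegree = d) {S : Finset ℚ} (hS : d + 2 ≤ S.card)
    (h : Compresses f S) : ∃ F : ℚ[X], F.map (algebraMap ℚ ℝ) = f ∧ F.natDegree = d := by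
  obtain ⟨x, -, hx⟩ := F0744.orb_of_compresses (show F0744.Compresses f S from h)
  exact rat_poly hf (x := x) (y := fun i => x (i + 1))
    (hx.inj.mono (Set.Iio_subset_Iio (by omega))) (fun i hi => hx.step i (by omega))

theorem Z5_eval (F : ℚ[X]) (q : ℚ) :
    ((F.eval q : ℚ) : ℝ) = (F.map (algebraMap ℚ ℝ)).eval (q : ℝ) := by
  rw [eval_map]
  exact (eval₂_at_apply (p := F) (algebraMap ℚ ℝ) q).symm

theorem Z5_semi (F : ℚ[X]) :
    Function.Semiconj (fun q : ℚ => (q : ℝ)) (fun t : ℚ => F.eval t)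
      (fun y : ℝ => (F.map (algebraMap ℚ ℝ)).eval y) := fun q => Z5_eval F q

theorem Z5_image {g : ℝ → ℝ} {φ : ℚ → ℚ} (h : Function.Semiconj (fun q : ℚ => (q : ℝ)) φ g)
    (n : ℕ) (x : ℚ) (S : Finset ℚ) :
    (Finset.range n).image (fun i => g^[i] (x : ℝ)) = S.image (fun q : ℚ => (q : ℝ)) ↔
      (Finset.range n).image (fun i => φ^[i] x) = S := by
  have h1 : (fun i : ℕ => g^[i] (x : ℝ)) = (fun q : ℚ => (q : ℝ)) ∘ (fun i : ℕ => φ^[i] x) := by
    funext i
    exact ((h.iterate_right i) x).symm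
  have h2 : (Finset.range n).image (fun i => g^[i] (x : ℝ)) =
      ((Finset.range n).image (fun i => φ^[i] x)).image (fun q : ℚ => (q : ℝ)) := by
    rw [Finset.image_image, ← h1]
  rw [h2]
  exact ⟨fun h3 => Finset.image_injective Rat.cast_injective h3, fun h3 => by rw [h3]⟩

/-- `(F.map).eval (x : ℝ) = (F.eval x : ℝ)` (`Polynomial.eval_map`, `eval₂_at_apply`), iterated; the cast is injective
(`Finset.image_injective`); `Polynomial.iterate_comp_eval` for the iterate of the polynomial. -/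
theorem compr_iff (F : ℚ[X]) (k : ℕ) (S : Finset ℚ) :
    Compresses ((F.map (algebraMap ℚ ℝ)).comp^[k] X) S ↔ Cmp (fun t : ℚ => F.eval t)^[k] S := by
  have h1 : Function.Semiconj (fun q : ℚ => (q : ℝ)) ((fun t : ℚ => F.eval t)^[k])
      (fun y : ℝ => ((F.map (algebraMap ℚ ℝ)).comp^[k] X).eval y) := by
    intro q
    have h2 := ((Z5_semi F).iterate_right k) q
    refine h2.trans ?_
    simp only [Polynomial.iterate_comp_eval, eval_X]
  unfold Compresses Cmp
  constructor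
  · rintro ⟨x, hx, h⟩
    exact ⟨x, hx, (Z5_image h1 _ _ _).1 h⟩
  · rintro ⟨x, hx, h⟩
    exact ⟨x, hx, (Z5_image h1 _ _ _).2 h⟩

/-- the same -/
theorem cycle_iff (F : ℚ[X]) (Z : Finset ℚ) :
    IsCycle (F.map (algebraMap ℚ ℝ)) Z ↔ Cyc (fun t : ℚ => F.eval t) Z := by
  have h1 := Z5_semi F
  have h2 : ∀ z : ℚ, ((fun y : ℝ => (F.map (algebraMap ℚ ℝ)).eval y)^[Z.card] (z : ℝ) = (z : ℝ) ↔
      (fun t : ℚ => F.eval t)^[Z.card] z = z) := by
    intro z
    have h3 := (h1.iterate_right Z.card) z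
    rw [← h3]
    exact Rat.cast_inj
  unfold IsCycle Cyc
  constructor
  · rintro ⟨z, hz, h, hc⟩
    exact ⟨z, hz, (Z5_image h1 _ _ _).1 h, (h2 z).1 hc⟩
  · rintro ⟨z, hz, h, hc⟩
    exact ⟨z, hz, (Z5_image h1 _ _ _).2 h, (h2 z).2 hc⟩

end F0744D
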