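import Pool.Agent.Lib.MP_f0744f_nt.D.ZDefs

/-! # Row Z6: orbit segments close to a cycle -/

set_option autoImplicit false

open Polynomial

namespace F0744D

open F0744C

theorem Z6_cyc {φ : ℚ → ℚ} {Z : Finset ℚ} (hZ : Cyc φ Z) {w : ℚ} (hw : w ∈ Z) :
    (∀ n, φ^[n] w ∈ Z) ∧ φ^[Z.card] w = w ∧ ∀ i j, φ^[i] w = φ^[j] w → i ≡ j [MOD Z.card] := by
  obtain ⟨z, hz, him, hc⟩ := hZ
  have hpos : 0 < Z.card := Finset.card_pos.2 ⟨z, hz⟩
  have hper : Function.IsPeriodicPt φ Z.card z := hc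
  have hmem : ∀ n, φ^[n] z ∈ Z := by
    intro n
    rw [← hper.iterate_mod_apply n]
    have h : φ^[n % Z.card] z ∈ (Finset.range Z.card).image (fun i => φ^[i] z) :=
      Finset.mem_image.2 ⟨n % Z.card, Finset.mem_range.2 (Nat.mod_lt _ hpos), rfl⟩
    rwa [him] at h
  have hinj : Set.InjOn (fun i => φ^[i] z) (Finset.range Z.card : Set ℕ) := by
    rw [← Finset.card_image_iff, him, Finset.card_range]
  have hw' : w ∈ (Finset.range Z.card).image (fun i => φ^[i] z) := by rw [him]; exact hw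
  obtain ⟨a, -, ha⟩ := Finset.mem_image.1 hw'
  have hit : ∀ n, φ^[n] w = φ^[n + a] z := by
    intro n
    rw [← ha, Function.iterate_add_apply]
  refine ⟨fun n => by rw [hit]; exact hmem _, ?_, fun i j hij => ?_⟩
  · rw [hit, add_comm, Function.iterate_add_apply, hc]
    exact ha
  · rw [hit, hit, ← hper.iterate_mod_apply (i + a), ← hper.iterate_mod_apply (j + a)] at hij
    have h := hinj (Finset.mem_coe.2 (Finset.mem_range.2 (Nat.mod_lt (i + a) hpos)))
      (Finset.mem_coe.2 (Finset.mem_range.2 (Nat.mod_lt (j + a) hpos))) hij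
    exact Nat.ModEq.add_right_cancel' a h

theorem Z6_psi {φ : ℚ → ℚ} {Z : Finset ℚ} {k : ℕ} (hZ : Cyc φ Z) (hk : Nat.Coprime k Z.card) {w : ℚ} (hw : w ∈ Z) :
    (∀ n, (φ^[k])^[n] w ∈ Z) ∧ ∀ i j, (φ^[k])^[i] w = (φ^[k])^[j] w → i ≡ j [MOD Z.card] := by
  obtain ⟨h1, -, h3⟩ := Z6_cyc hZ hw
  refine ⟨fun n => by rw [← Function.iterate_mul]; exact h1 _, fun i j hij => ?_⟩
  rw [← Function.iterate_mul, ← Function.iterate_mul] at hij
  exact Nat.ModEq.cancel_left_of_coprime (by rw [Nat.gcd_comm]; exact hk) (h3 _ _ hij)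

theorem Z6_mk {ψ : ℚ → ℚ} {S : Finset ℚ} (hS : 0 < S.card) {y : ℚ} (h : ∀ i, i < S.card → ψ^[i] y ∈ S)
    (hinj : ∀ i j, i < j → j < S.card → ψ^[i] y ≠ ψ^[j] y) : Cmp ψ S := by
  refine ⟨y, h 0 hS, ?_⟩
  apply Finset.eq_of_subset_of_card_le
  · intro x hx
    obtain ⟨i, hi, rfl⟩ := Finset.mem_image.1 hx
    exact h i (Finset.mem_range.1 hi)
  · have h1 : Set.InjOn (fun i => ψ^[i] y) (Finset.range S.card : Set ℕ) := by
      intro i hi j hj hij
      have hi' := Finset.mem_range.1 (Finset.mem_coe.1 hi)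
      have hj' := Finset.mem_range.1 (Finset.mem_coe.1 hj)
      rcases lt_trichotomy i j with h2 | h2 | h2
      · exact absurd hij (hinj i j h2 hj')
      · exact h2
      · exact absurd hij.symm (hinj j i h2 hi')
    rw [Finset.card_image_iff.2 h1, Finset.card_range]

/-- `ψ = φ^[k]`, `c = Z.card`, `N = S.card ≥ 4`, so `c ≥ 3`, `k ≥ 1`. For `w ∈ Z` the points `ψ^[i] w`, `i < c`, are different and are the elements of
`Z` (`k` is prime to `c`, `φ^[c] w = w`). Let `x 0, …, x (N - 1)` be the orbit of `φ` in `S`.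
(1) `x 0 ∈ Z`: then `S ⊆ Z`. If `S = Z`: the orbit `ψ^[i] (x 0)`. Otherwise `Z = S ∪ {w}`, `c = N + 1`: the orbit of `ψ w` (`N` points,
`ψ^[i] w`, `1 ≤ i < c`).
(2) `x 0 ∉ Z`: then the other `N - 1` points of `S` are in `Z`, `c = N - 1` or `c = N`. Let `w ∈ Z` be the point with `φ w = x 1` (`w = φ^[c - 1] (x 1)`).
`ψ (x 0) = φ^[k - 1] (x 1) = ψ w`. If `c = N`, `x i ≠ w` for `1 ≤ i < N` (`φ^[j] (x 1) = w` with `j < c` only for `j = c - 1`), so
`S = {x 0} ∪ (Z \ {w})`; if `c = N - 1`, `S = {x 0} ∪ Z`. In both cases the orbit of `x 0` under `ψ` is `x 0, ψ w, ψ^[2] w, …`: `N` different points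
of `S`. -/
theorem cycle_conv {φ : ℚ → ℚ} {S Z : Finset ℚ} {k : ℕ} (hS : 4 ≤ S.card) (hf : Cmp φ S)
    (hZ : Cyc φ Z) (h1 : (Z \ S).card ≤ 1) (h2 : (S \ Z).card ≤ 1) (hk : Nat.Coprime k Z.card) :
    Cmp φ^[k] S := by
  obtain ⟨x, hx, him⟩ := hf
  have hinj : Set.InjOn (fun i => φ^[i] x) (Finset.range S.card : Set ℕ) := by
    rw [← Finset.card_image_iff, him, Finset.card_range]
  have hmemS : ∀ i, i < S.card → φ^[i] x ∈ S := by
    intro i hi
    have h : φ^[i] x ∈ (Finset.range S.card).image (fun i => φ^[i] x) :=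
      Finset.mem_image.2 ⟨i, Finset.mem_range.2 hi, rfl⟩
    rwa [him] at h
  have hSN : 0 < S.card := by omega
  have hc1 := Finset.card_sdiff_add_card_inter S Z
  have hc2 := Finset.card_sdiff_add_card_inter Z S
  rw [Finset.inter_comm] at hc2
  by_cases hxZ : x ∈ Z
  · -- case 1
    have hSZ : S ⊆ Z := by
      intro s hs
      rw [← him] at hs
      obtain ⟨i, -, rfl⟩ := Finset.mem_image.1 hs
      exact (Z6_cyc hZ hxZ).1 i
    by_cases hZS : Z ⊆ S
    · have he : S = Z := Finset.Subset.antisymm hSZ hZS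
      obtain ⟨p1, p2⟩ := Z6_psi hZ hk hxZ
      refine Z6_mk hSN (y := x) (fun i _ => hZS (p1 i)) fun i j hij hj h => ?_
      rw [he] at hj
      have h3 := p2 i j h
      have h4 := Nat.ModEq.eq_of_lt_of_lt h3 (by omega) hj
      omega
    · obtain ⟨w, hwZ, hwS⟩ := Finset.not_subset.1 hZS
      obtain ⟨p1, p2⟩ := Z6_psi hZ hk hwZ
      have hw : Z \ S = {w} := by
        have h3 : {w} ⊆ Z \ S := Finset.singleton_subset_iff.2 (Finset.mem_sdiff.2 ⟨hwZ, hwS⟩)
        exact (Finset.eq_of_subset_of_card_le h3 (by rw [Finset.card_singleton]; exact h1)).symm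
      have hcard : Z.card = S.card + 1 := by
        have h3 : S \ Z = ∅ := Finset.sdiff_eq_empty_iff_subset.2 hSZ
        rw [h3, Finset.card_empty] at hc1
        rw [hw, Finset.card_singleton] at hc2
        omega
      have hs : ∀ i, (φ^[k])^[i] (φ^[k] w) = (φ^[k])^[i + 1] w := fun i => (Function.iterate_succ_apply _ _ _).symm
      refine Z6_mk hSN (y := φ^[k] w) (fun i hi => ?_) fun i j hij hj h => ?_
      · rw [hs]
        by_contra h3
        have h4 : (φ^[k])^[i + 1] w ∈ Z \ S := Finset.mem_sdiff.2 ⟨p1 _, h3⟩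
        rw [hw, Finset.mem_singleton] at h4
        have h5 := Nat.ModEq.eq_of_lt_of_lt (p2 (i + 1) 0 h4) (by omega) (by omega)
        omega
      · rw [hs, hs] at h
        have h5 := Nat.ModEq.eq_of_lt_of_lt (p2 _ _ h) (by omega) (by omega)
        omega
  · -- case 2
    have hSx : S \ Z = {x} := by
      have h3 : {x} ⊆ S \ Z := Finset.singleton_subset_iff.2 (Finset.mem_sdiff.2 ⟨hx, hxZ⟩)
      exact (Finset.eq_of_subset_of_card_le h3 (by rw [Finset.card_singleton]; exact h2)).symm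
    have hx1S : φ x ∈ S := hmemS 1 (by omega)
    have hx1 : φ x ∈ Z := by
      by_contra h3
      have h4 : φ x ∈ S \ Z := Finset.mem_sdiff.2 ⟨hx1S, h3⟩
      rw [hSx, Finset.mem_singleton] at h4
      have h5 := hinj (Finset.mem_coe.2 (Finset.mem_range.2 (show 1 < S.card by omega)))
        (Finset.mem_coe.2 (Finset.mem_range.2 hSN)) (by simpa using h4)
      omega
    rw [hSx, Finset.card_singleton] at hc1
    obtain ⟨q1, q2, q3⟩ := Z6_cyc hZ hx1
    have hcpos : 3 ≤ Z.card := by omega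
    obtain ⟨w, hw⟩ : ∃ w, w = φ^[Z.card - 1] (φ x) := ⟨_, rfl⟩
    have hwZ : w ∈ Z := by rw [hw]; exact q1 _
    have hφw : φ w = φ x := by
      rw [hw, ← Function.iterate_succ_apply' φ, Nat.succ_eq_add_one, Nat.sub_add_cancel (by omega), q2]
    have hk1 : k ≠ 0 := by
      rintro rfl
      rw [Nat.coprime_zero_left] at hk
      omega
    obtain ⟨p1, p2⟩ := Z6_psi hZ hk hwZ
    have hψ : φ^[k] x = φ^[k] w := by
      obtain ⟨l, rfl⟩ := Nat.exists_eq_succ_of_ne_zero hk1
      rw [Function.iterate_succ_apply, Function.iterate_succ_apply, hφw]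
    have hψi : ∀ i, i ≠ 0 → (φ^[k])^[i] x = (φ^[k])^[i] w := by
      intro i hi
      obtain ⟨l, rfl⟩ := Nat.exists_eq_succ_of_ne_zero hi
      rw [Function.iterate_succ_apply, Function.iterate_succ_apply, hψ]
    refine Z6_mk hSN (y := x) (fun i hi => ?_) fun i j hij hj h => ?_
    · rcases Nat.eq_zero_or_pos i with rfl | hi0
      · exact hx
      · rw [hψi i (by omega)]
        by_contra h3
        have h4 : (φ^[k])^[i] w ∈ Z \ S := Finset.mem_sdiff.2 ⟨p1 _, h3⟩
        have h5 : (Z \ S).card = 1 := le_antisymm h1 (Finset.card_pos.2 ⟨_, h4⟩)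
        have h6 : Z.card = S.card := by omega
        have h7 : w ∉ S := by
          intro h8
          rw [← him] at h8
          obtain ⟨j, hj, hj2⟩ := Finset.mem_image.1 h8
          have hj3 := Finset.mem_range.1 hj
          have hj0 : j ≠ 0 := by
            rintro rfl
            exact hxZ (by
              have h9 : x = w := hj2
              rw [h9]
              exact hwZ)
          obtain ⟨l, rfl⟩ := Nat.exists_eq_succ_of_ne_zero hj0
          simp only [Function.iterate_succ_apply] at hj2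
          rw [hw] at hj2
          have h9 := Nat.ModEq.eq_of_lt_of_lt (q3 _ _ hj2) (by omega) (by omega)
          omega
        obtain ⟨v, hv⟩ := Finset.card_eq_one.1 h5
        have h8 : w ∈ Z \ S := Finset.mem_sdiff.2 ⟨hwZ, h7⟩
        rw [hv, Finset.mem_singleton] at h4 h8
        have h9 := Nat.ModEq.eq_of_lt_of_lt (p2 i 0 (by rw [h4]; exact h8.symm)) (by omega) (by omega)
        omega
    · rw [hψi j (by omega)] at h
      rcases Nat.eq_zero_or_pos i with rfl | hi0
      · exact hxZ (by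
          have h3 : x = (φ^[k])^[j] w := h
          rw [h3]
          exact p1 _)
      · rw [hψi i (by omega)] at h
        have h3 := p2 i j h
        have h4 : j - i < Z.card := by omega
        have h5 := (Nat.modEq_iff_dvd' hij.le).1 h3
        have h6 := Nat.le_of_dvd (by omega) h5
        omega

end F0744D
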